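import Pool.Agent.LibEA58.Defs

/-!
# Elements and relations of `sp(6)`
-/

open Matrix

namespace EA58

/-- The blocks of an element of `g`. -/
def bA (X : G) : Matrix (Fin 3) (Fin 3) ℂ := X.1.toBlocks₁₁
def bB (X : G) : Matrix (Fin 3) (Fin 3) ℂ := X.1.toBlocks₁₂
def bC (X : G) : Matrix (Fin 3) (Fin 3) ℂ := X.1.toBlocks₂₁

theorem mem_iff (X : Matrix (Fin 3 ⊕ Fin 3) (Fin 3 ⊕ Fin 3) ℂ) :
    X ∈ LieAlgebra.Symplectic.sp (Fin 3) ℂ ↔ X.toBlocks₂₂ = -(X.toBlocks₁₁)ᵀ ∧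
      (X.toBlocks₁₂)ᵀ = X.toBlocks₁₂ ∧ (X.toBlocks₂₁)ᵀ = X.toBlocks₂₁ := by
  conv_lhs => rw [← Matrix.fromBlocks_toBlocks X]
  simp only [LieAlgebra.Symplectic.sp, mem_skewAdjointMatricesLieSubalgebra,
    mem_skewAdjointMatricesSubmodule, Matrix.IsSkewAdjoint, Matrix.IsAdjointPair, Matrix.J]
  rw [Matrix.fromBlocks_transpose, Matrix.fromBlocks_multiply, Matrix.fromBlocks_neg,
    Matrix.fromBlocks_multiply, Matrix.fromBlocks_inj]
  simp
  constructor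
  · rintro ⟨h1, h2, h3, h4⟩
    refine ⟨?_, ?_, ?_⟩
    · rw [h2]
    · exact h4
    · exact h1
  · rintro ⟨h1, h2, h3⟩
    refine ⟨h3, ?_, ?_, h2⟩
    · rw [h1]
    · rw [h1]; simp

theorem bB_symm (X : G) : (bB X)ᵀ = bB X := ((mem_iff X.1).1 X.2).2.1

theorem bC_symm (X : G) : (bC X)ᵀ = bC X := ((mem_iff X.1).1 X.2).2.2

theorem eq_mk (X : G) : X = mk (bA X) (bB X) (bC X) (bB_symm X) (bC_symm X) := by
  apply Subtype.ext
  show X.1 = Matrix.fromBlocks _ _ _ _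
  conv_lhs => rw [← Matrix.fromBlocks_toBlocks X.1]
  rw [((mem_iff X.1).1 X.2).1]
  rfl

@[simp] theorem bA_mk (A B C : Matrix (Fin 3) (Fin 3) ℂ) (hB hC) : bA (mk A B C hB hC) = A := by
  simp [bA, mk, blk]
@[simp] theorem bB_mk (A B C : Matrix (Fin 3) (Fin 3) ℂ) (hB hC) : bB (mk A B C hB hC) = B := by
  simp [bB, mk, blk]
@[simp] theorem bC_mk (A B C : Matrix (Fin 3) (Fin 3) ℂ) (hB hC) : bC (mk A B C hB hC) = C := by
  simp [bC, mk, blk]

theorem ext_iff' {X Y : G} : X = Y ↔ bA X = bA Y ∧ bB X = bB Y ∧ bC X = bC Y := by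
  constructor
  · rintro rfl; simp
  · rintro ⟨h1, h2, h3⟩
    rw [eq_mk X, eq_mk Y]
    simp [mk, h1, h2, h3]

theorem isPos_iff (X : G) : IsPos X ↔ (∀ i j : Fin 3, j ≤ i → bA X i j = 0) ∧ bC X = 0 := by
  constructor
  · rintro ⟨h1, h2⟩
    refine ⟨h1, ?_⟩
    ext i j
    exact h2 i j
  · rintro ⟨h1, h2⟩
    refine ⟨h1, fun i j => ?_⟩
    have := congrFun (congrFun h2 i) j
    exact this

@[simp] theorem bA_add (X Y : G) : bA (X + Y) = bA X + bA Y := rfl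
@[simp] theorem bB_add (X Y : G) : bB (X + Y) = bB X + bB Y := rfl
@[simp] theorem bC_add (X Y : G) : bC (X + Y) = bC X + bC Y := rfl
@[simp] theorem bA_smul (c : ℂ) (X : G) : bA (c • X) = c • bA X := rfl
@[simp] theorem bB_smul (c : ℂ) (X : G) : bB (c • X) = c • bB X := rfl
@[simp] theorem bC_smul (c : ℂ) (X : G) : bC (c • X) = c • bC X := rfl
@[simp] theorem bA_zero : bA (0 : G) = 0 := rfl
@[simp] theorem bB_zero : bB (0 : G) = 0 := rfl
@[simp] theorem bC_zero : bC (0 : G) = 0 := rfl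
@[simp] theorem bA_neg (X : G) : bA (-X) = -bA X := rfl
@[simp] theorem bB_neg (X : G) : bB (-X) = -bB X := rfl
@[simp] theorem bC_neg (X : G) : bC (-X) = -bC X := rfl
@[simp] theorem bA_sub (X Y : G) : bA (X - Y) = bA X - bA Y := rfl
@[simp] theorem bB_sub (X Y : G) : bB (X - Y) = bB X - bB Y := rfl
@[simp] theorem bC_sub (X Y : G) : bC (X - Y) = bC X - bC Y := rfl

theorem lie_val (X Y : G) : (⁅X, Y⁆ : G).1 = X.1 * Y.1 - Y.1 * X.1 := rfl

theorem lie_blocks (X Y : G) :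
    bA ⁅X, Y⁆ = bA X * bA Y + bB X * bC Y - (bA Y * bA X + bB Y * bC X) ∧
    bB ⁅X, Y⁆ = bA X * bB Y - bB X * (bA Y)ᵀ - (bA Y * bB X - bB Y * (bA X)ᵀ) ∧
    bC ⁅X, Y⁆ = bC X * bA Y - (bA X)ᵀ * bC Y - (bC Y * bA X - (bA Y)ᵀ * bC X) := by
  have h : (⁅X, Y⁆ : G).1 =
      Matrix.fromBlocks (bA X) (bB X) (bC X) (-(bA X)ᵀ) * Matrix.fromBlocks (bA Y) (bB Y) (bC Y) (-(bA Y)ᵀ)
      - Matrix.fromBlocks (bA Y) (bB Y) (bC Y) (-(bA Y)ᵀ) * Matrix.fromBlocks (bA X) (bB X) (bC X) (-(bA X)ᵀ) := by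
    rw [lie_val]
    have hX : X.1 = Matrix.fromBlocks (bA X) (bB X) (bC X) (-(bA X)ᵀ) := congrArg Subtype.val (eq_mk X)
    have hY : Y.1 = Matrix.fromBlocks (bA Y) (bB Y) (bC Y) (-(bA Y)ᵀ) := congrArg Subtype.val (eq_mk Y)
    rw [← hX, ← hY]
  rw [Matrix.fromBlocks_multiply, Matrix.fromBlocks_multiply] at h
  refine ⟨?_, ?_, ?_⟩
  · ext i j
    have := congrFun (congrFun h (Sum.inl i)) (Sum.inl j)
    exact this
  · ext i j
    have := congrFun (congrFun h (Sum.inl i)) (Sum.inr j)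
    refine this.trans ?_
    simp [sub_eq_add_neg]
  · ext i j
    have := congrFun (congrFun h (Sum.inr i)) (Sum.inl j)
    refine this.trans ?_
    simp [sub_eq_add_neg]

/-- The element `(A 0; 0 -Aᵀ)`. -/
def gA (A : Matrix (Fin 3) (Fin 3) ℂ) : G := mk A 0 0 (by simp) (by simp)
/-- The element `(0 B+Bᵀ; 0 0)`. -/
def gB (B : Matrix (Fin 3) (Fin 3) ℂ) : G := mk 0 (B + Bᵀ) 0 (by simp [add_comm]) (by simp)
/-- The element `(0 0; C+Cᵀ 0)`. -/
def gC (C : Matrix (Fin 3) (Fin 3) ℂ) : G := mk 0 0 (C + Cᵀ) (by simp) (by simp [add_comm])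

/-- `E i j = (e_ij 0; 0 -e_ji)`. -/
def E (i j : Fin 3) : G := gA (Matrix.single i j 1)
/-- `Xp i j = (0 e_ij+e_ji; 0 0)`. -/
def Xp (i j : Fin 3) : G := gB (Matrix.single i j 1)
/-- `Yp i j = (0 0; e_ij+e_ji 0)`. -/
def Yp (i j : Fin 3) : G := gC (Matrix.single i j 1)

@[simp] theorem bA_gA (A) : bA (gA A) = A := by simp [gA]
@[simp] theorem bB_gA (A) : bB (gA A) = 0 := by simp [gA]
@[simp] theorem bC_gA (A) : bC (gA A) = 0 := by simp [gA]
@[simp] theorem bA_gB (A) : bA (gB A) = 0 := by simp [gB]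
@[simp] theorem bB_gB (A) : bB (gB A) = A + Aᵀ := by simp [gB]
@[simp] theorem bC_gB (A) : bC (gB A) = 0 := by simp [gB]
@[simp] theorem bA_gC (A) : bA (gC A) = 0 := by simp [gC]
@[simp] theorem bB_gC (A) : bB (gC A) = 0 := by simp [gC]
@[simp] theorem bC_gC (A) : bC (gC A) = A + Aᵀ := by simp [gC]

theorem Xp_comm (i j : Fin 3) : Xp i j = Xp j i := by
  rw [ext_iff']; simp [Xp, add_comm]

theorem Yp_comm (i j : Fin 3) : Yp i j = Yp j i := by
  rw [ext_iff']; simp [Yp, add_comm]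

theorem gA_add (A A' : Matrix (Fin 3) (Fin 3) ℂ) : gA (A + A') = gA A + gA A' := by
  rw [ext_iff']; simp
theorem gB_add (A A' : Matrix (Fin 3) (Fin 3) ℂ) : gB (A + A') = gB A + gB A' := by
  rw [ext_iff']; simp; abel
theorem gC_add (A A' : Matrix (Fin 3) (Fin 3) ℂ) : gC (A + A') = gC A + gC A' := by
  rw [ext_iff']; simp; abel
theorem gA_smul (c : ℂ) (A : Matrix (Fin 3) (Fin 3) ℂ) : gA (c • A) = c • gA A := by
  rw [ext_iff']; simp
theorem gB_smul (c : ℂ) (A : Matrix (Fin 3) (Fin 3) ℂ) : gB (c • A) = c • gB A := by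
  rw [ext_iff']; simp
theorem gC_smul (c : ℂ) (A : Matrix (Fin 3) (Fin 3) ℂ) : gC (c • A) = c • gC A := by
  rw [ext_iff']; simp
theorem gA_neg (A : Matrix (Fin 3) (Fin 3) ℂ) : gA (-A) = -gA A := by
  rw [ext_iff']; simp
theorem gC_neg (A : Matrix (Fin 3) (Fin 3) ℂ) : gC (-A) = -gC A := by
  rw [ext_iff']; simp; abel
theorem gA_sub (A A' : Matrix (Fin 3) (Fin 3) ℂ) : gA (A - A') = gA A - gA A' := by
  rw [ext_iff']; simp
@[simp] theorem gA_zero : gA 0 = 0 := by rw [ext_iff']; simp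
@[simp] theorem gB_zero : gB 0 = 0 := by rw [ext_iff']; simp
@[simp] theorem gC_zero : gC 0 = 0 := by rw [ext_iff']; simp

theorem lie_gA_gA (A A' : Matrix (Fin 3) (Fin 3) ℂ) : ⁅gA A, gA A'⁆ = gA (A * A' - A' * A) := by
  rw [ext_iff', (lie_blocks _ _).1, (lie_blocks _ _).2.1, (lie_blocks _ _).2.2]; simp

theorem lie_gA_gB (A B : Matrix (Fin 3) (Fin 3) ℂ) : ⁅gA A, gB B⁆ = gB (A * (B + Bᵀ)) := by
  rw [ext_iff', (lie_blocks _ _).1, (lie_blocks _ _).2.1, (lie_blocks _ _).2.2]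
  simp [Matrix.mul_add, Matrix.add_mul, Matrix.transpose_mul]
  abel

theorem lie_gA_gC (A C : Matrix (Fin 3) (Fin 3) ℂ) : ⁅gA A, gC C⁆ = gC (-(Aᵀ * (C + Cᵀ))) := by
  rw [ext_iff', (lie_blocks _ _).1, (lie_blocks _ _).2.1, (lie_blocks _ _).2.2]
  simp [Matrix.mul_add, Matrix.add_mul, Matrix.transpose_mul]
  abel

theorem lie_gB_gC (B C : Matrix (Fin 3) (Fin 3) ℂ) :
    ⁅gB B, gC C⁆ = gA ((B + Bᵀ) * (C + Cᵀ)) := by
  rw [ext_iff', (lie_blocks _ _).1, (lie_blocks _ _).2.1, (lie_blocks _ _).2.2]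
  simp

theorem lie_gB_gB (B C : Matrix (Fin 3) (Fin 3) ℂ) : ⁅gB B, gB C⁆ = 0 := by
  rw [ext_iff', (lie_blocks _ _).1, (lie_blocks _ _).2.1, (lie_blocks _ _).2.2]
  simp

theorem lie_gC_gC (B C : Matrix (Fin 3) (Fin 3) ℂ) : ⁅gC B, gC C⁆ = 0 := by
  rw [ext_iff', (lie_blocks _ _).1, (lie_blocks _ _).2.1, (lie_blocks _ _).2.2]
  simp

theorem single_mul' (i j k l : Fin 3) :
    Matrix.single i j (1 : ℂ) * Matrix.single k l 1 = if j = k then Matrix.single i l 1 else 0 := by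
  split_ifs with h
  · subst h; simp
  · simp [Matrix.single_mul_single_of_ne _ _ _ _ h]

theorem lie_E_E (i j k l : Fin 3) :
    ⁅E i j, E k l⁆ = (if j = k then E i l else 0) - (if l = i then E k j else 0) := by
  rw [E, E, lie_gA_gA, single_mul', single_mul', gA_sub]
  congr 1 <;> split_ifs <;> simp [E]

theorem lie_E_Xp (i j k l : Fin 3) :
    ⁅E i j, Xp k l⁆ = (if j = k then Xp i l else 0) + (if j = l then Xp i k else 0) := by
  rw [E, Xp, lie_gA_gB, Matrix.transpose_single, Matrix.mul_add, single_mul', single_mul', gB_add]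
  congr 1 <;> split_ifs <;> simp [Xp]

theorem lie_E_Yp (i j k l : Fin 3) :
    ⁅E i j, Yp k l⁆ = -(if i = k then Yp j l else 0) - (if i = l then Yp j k else 0) := by
  rw [E, Yp, lie_gA_gC, gC_neg, Matrix.transpose_single, Matrix.transpose_single, Matrix.mul_add,
    single_mul', single_mul', gC_add, neg_add]
  rw [sub_eq_add_neg]
  congr 1 <;> congr 1 <;> split_ifs <;> simp [Yp]

theorem lie_Xp_Yp (i j k l : Fin 3) :
    ⁅Xp i j, Yp k l⁆ = (if j = k then E i l else 0) + (if j = l then E i k else 0) +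
      (if i = k then E j l else 0) + (if i = l then E j k else 0) := by
  rw [Xp, Yp, lie_gB_gC, Matrix.transpose_single, Matrix.transpose_single, Matrix.mul_add,
    Matrix.add_mul, Matrix.add_mul, single_mul', single_mul', single_mul', single_mul',
    gA_add, gA_add, gA_add]
  have : ∀ (p : Prop) [Decidable p] (a b : Fin 3), gA (if p then Matrix.single a b 1 else 0) =
      if p then E a b else 0 := by
    intro p _ a b
    split_ifs <;> simp [E]
  rw [this, this, this, this]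
  abel

theorem lie_Xp_Xp (i j k l : Fin 3) : ⁅Xp i j, Xp k l⁆ = 0 := lie_gB_gB _ _

theorem lie_Yp_Yp (i j k l : Fin 3) : ⁅Yp i j, Yp k l⁆ = 0 := lie_gC_gC _ _

/-- Every element of `g` is a combination of the `E i j`, `Xp i j`, `Yp i j`. -/
theorem decomp (X : G) :
    X = ∑ i, ∑ j, (bA X i j • E i j + (bB X i j / 2) • Xp i j + (bC X i j / 2) • Yp i j) := by
  have h1 : gA (bA X) = ∑ i, ∑ j, bA X i j • E i j := by
    conv_lhs => rw [Matrix.matrix_eq_sum_single (bA X)]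
    have : ∀ (f : Fin 3 → Fin 3 → Matrix (Fin 3) (Fin 3) ℂ), gA (∑ i, ∑ j, f i j) = ∑ i, ∑ j, gA (f i j) := by
      intro f
      simp only [Fin.sum_univ_three, gA_add]
    rw [this]
    refine Finset.sum_congr rfl fun i _ => Finset.sum_congr rfl fun j _ => ?_
    rw [E, ← gA_smul, Matrix.smul_single]; simp
  have h2 : gB ((1/2 : ℂ) • bB X) = ∑ i, ∑ j, (bB X i j / 2) • Xp i j := by
    conv_lhs => rw [Matrix.matrix_eq_sum_single (bB X)]
    have : ∀ (f : Fin 3 → Fin 3 → Matrix (Fin 3) (Fin 3) ℂ), gB (∑ i, ∑ j, f i j) = ∑ i, ∑ j, gB (f i j) := by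
      intro f
      simp only [Fin.sum_univ_three, gB_add]
    rw [gB_smul, this, Finset.smul_sum]
    refine Finset.sum_congr rfl fun i _ => ?_
    rw [Finset.smul_sum]
    refine Finset.sum_congr rfl fun j _ => ?_
    rw [Xp, ← gB_smul, ← gB_smul, Matrix.smul_single, Matrix.smul_single]
    simp [div_eq_inv_mul]
  have h3 : gC ((1/2 : ℂ) • bC X) = ∑ i, ∑ j, (bC X i j / 2) • Yp i j := by
    conv_lhs => rw [Matrix.matrix_eq_sum_single (bC X)]
    have : ∀ (f : Fin 3 → Fin 3 → Matrix (Fin 3) (Fin 3) ℂ), gC (∑ i, ∑ j, f i j) = ∑ i, ∑ j, gC (f i j) := by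
      intro f
      simp only [Fin.sum_univ_three, gC_add]
    rw [gC_smul, this, Finset.smul_sum]
    refine Finset.sum_congr rfl fun i _ => ?_
    rw [Finset.smul_sum]
    refine Finset.sum_congr rfl fun j _ => ?_
    rw [Yp, ← gC_smul, ← gC_smul, Matrix.smul_single, Matrix.smul_single]
    simp [div_eq_inv_mul]
  simp only [Finset.sum_add_distrib]
  rw [← h1, ← h2, ← h3, ext_iff']
  refine ⟨by simp, ?_, ?_⟩
  · simp only [bB_add, bB_gA, bB_gB, bB_gC, Matrix.transpose_smul, bB_symm]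
    rw [← add_smul]; norm_num
  · simp only [bC_add, bC_gA, bC_gB, bC_gC, Matrix.transpose_smul, bC_symm]
    rw [← add_smul]; norm_num

theorem hdiag_eq (a : Fin 3 → ℂ) : hdiag a = ∑ i, a i • E i i := by
  rw [ext_iff']
  refine ⟨?_, ?_, ?_⟩
  · simp [hdiag, Fin.sum_univ_three, E]
    ext i j
    fin_cases i <;> fin_cases j <;> simp
  · simp [hdiag, Fin.sum_univ_three, E]
  · simp [hdiag, Fin.sum_univ_three, E]

end EA58
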