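import Pool.Agent.LibEA58.Good

/-!
# The relative Chevalley-Eilenberg complex of `(gl(3), h)` with coefficients in a `g`-module

The six root vectors of `gl(3)` are numbered `0 … 5`:
`E₀₁, E₁₂, E₀₂, E₁₀, E₂₁, E₂₀`.  A cochain is a function `c : Fin 64 → N`; the value at the bit
mask `T` is the value of the cochain at the root vectors in `T` (in increasing order).
-/

namespace EA58

set_option linter.unusedSectionVars false

/-- The root vectors. -/
def rt : Fin 6 → Fin 3 × Fin 3 := ![(0, 1), (1, 2), (0, 2), (1, 0), (2, 1), (2, 0)]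

/-- The number of elements of the set with bit mask `T`. -/
def cnt (T : Fin 64) : ℕ := ((List.finRange 6).filter fun g => Nat.testBit T.1 g.1).length

/-- The number of elements of `T` smaller than `g`. -/
def pos (g : Fin 6) (T : ℕ) : ℕ :=
  ((List.finRange 6).filter fun d => decide (d < g) && Nat.testBit T d.1).length

/-- The weight of the cochain value at `T`: `(-2,-2,-2)` plus the sum of the roots in `T`. -/
def wtT (T : Fin 64) (i : Fin 3) : ℤ :=
  -2 + ((List.finRange 6).map fun g => if Nat.testBit T.1 g.1 then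
    ((if (rt g).1 = i then 1 else 0) - (if (rt g).2 = i then 1 else 0) : ℤ) else 0).sum

/-- The brackets `[x_a, x_b] = N x_g` with `a < b`, listed as `(a, b, g, N)`. -/
def brs : List (Fin 6 × Fin 6 × Fin 6 × ℤ) :=
  [(0, 1, 2, 1), (0, 5, 4, -1), (1, 5, 3, 1), (2, 3, 1, -1), (2, 4, 0, 1), (3, 4, 5, -1)]

/-- The bit mask with bit `g` flipped. -/
def flip (g : Fin 6) (T : ℕ) : ℕ := T ^^^ (2 ^ g.1)

/-- The terms of `(D c)(T)`: a term `(a, some g, S)` stands for `a • ⁅x_g, c S⁆`, a term
`(a, none, S)` for `a • c S`. -/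
def terms (T : ℕ) : List (ℤ × Option (Fin 6) × ℕ) :=
  (((List.finRange 6).filter fun g => Nat.testBit T g.1).map fun g =>
    ((-1) ^ pos g T, some g, flip g T)) ++
  ((brs.filter fun b => Nat.testBit T b.1.1 && Nat.testBit T b.2.1.1 &&
      !(Nat.testBit (flip b.1 (flip b.2.1 T)) b.2.2.1.1)).map fun b =>
    (b.2.2.2 * (-1) ^ (pos b.1 T + pos b.2.1 T + pos b.2.2.1 (flip b.1 (flip b.2.1 T))), none,
      flip b.2.2.1 (flip b.1 (flip b.2.1 T))))

/-- The index of a root. -/
def idx (i j : Fin 3) : Fin 6 :=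
  if (i, j) = (0, 1) then 0 else if (i, j) = (1, 2) then 1 else if (i, j) = (0, 2) then 2
  else if (i, j) = (1, 0) then 3 else if (i, j) = (2, 1) then 4 else 5

/-- The bracket `[x_a, x_b]` applied to `c S`, as a formal combination of words. -/
def bw (a b : Fin 6) (S : ℕ) : List (ℤ × List (Fin 6) × ℕ) :=
  if (rt a).2 = (rt b).1 then
    if (rt a).1 = (rt b).2 then
      [(wtT (Fin.ofNat 64 S) (rt a).1 - wtT (Fin.ofNat 64 S) (rt a).2, [], S)]
    else [(1, [idx (rt a).1 (rt b).2], S)]
  else if (rt a).1 = (rt b).2 then [(-1, [idx (rt b).1 (rt a).2], S)]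
  else []

/-- The terms of `D c T` as words. -/
def t1 (T : ℕ) : List (ℤ × List (Fin 6) × ℕ) :=
  (terms T).map fun t => (t.1, t.2.1.toList, t.2.2)

/-- The terms of `D (D c) T`. -/
def t2 (T : ℕ) : List (ℤ × List (Fin 6) × ℕ) :=
  (t1 T).flatMap fun t =>
    (t1 (Fin.ofNat 64 t.2.2).1).map fun u => (t.1 * u.1, t.2.1 ++ u.2.1, u.2.2)

/-- Normal ordering of words of length two. -/
def nf (t : ℤ × List (Fin 6) × ℕ) : List (ℤ × List (Fin 6) × ℕ) :=
  match t.2.1 with
  | [a, b] => if b < a then (t.1, [b, a], t.2.2) ::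
      (bw a b t.2.2).map (fun u => (t.1 * u.1, u.2.1, u.2.2)) else [t]
  | _ => [t]

/-- All coefficients of the normally ordered `D (D c) T` vanish. -/
def chk (T : Fin 64) : Bool :=
  let l := (t2 T.1).flatMap nf
  l.all fun k => (l.map fun p => if p.2 = k.2 then p.1 else 0).sum = 0

set_option maxRecDepth 100000 in
theorem chk_all : ∀ T : Fin 64, chk T = true := by
  decide +kernel

theorem comb : ∀ T : Fin 64, ∀ t ∈ terms T.1,
    cnt (Fin.ofNat 64 t.2.2) + 1 = cnt T ∧
    ∀ i, wtT T i = wtT (Fin.ofNat 64 t.2.2) i + (match t.2.1 with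
      | some g => ((if (rt g).1 = i then 1 else 0) - (if (rt g).2 = i then 1 else 0) : ℤ)
      | none => 0) := by
  decide +kernel

/-- A formal combination whose coefficients vanish evaluates to zero. -/
theorem sum_eq_zero_of_coeff {K M : Type*} [DecidableEq K] [AddCommGroup M] (F : K → M)
    (l : List (ℤ × K))
    (h : ∀ k ∈ l, (l.map fun p => if p.2 = k.2 then p.1 else 0).sum = 0) :
    (l.map fun p => p.1 • F p.2).sum = 0 := by
  classical
  -- the combination as an element of the free module
  have key : ∀ l : List (ℤ × K), (l.map fun p => p.1 • F p.2).sum =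
      (Finsupp.liftAddHom fun k => ((smulAddHom ℤ M).flip (F k)))
        ((l.map fun p => Finsupp.single p.2 p.1).sum) := by
    intro l
    rw [map_list_sum, List.map_map]
    congr 1
    refine List.map_congr_left fun p _ => ?_
    simp
  rw [key]
  have hz : (l.map fun p => Finsupp.single p.2 p.1).sum = (0 : K →₀ ℤ) := by
    ext k
    have h1 : ((l.map fun p => Finsupp.single p.2 p.1).sum : K →₀ ℤ) k =
        (l.map fun p => if p.2 = k then p.1 else 0).sum := by
      have := map_list_sum (Finsupp.applyAddHom k : (K →₀ ℤ) →+ ℤ)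
        (l.map fun p => Finsupp.single p.2 p.1)
      rw [List.map_map] at this
      refine this.trans ?_
      congr 1
      refine List.map_congr_left fun p _ => ?_
      simp [Finsupp.single_apply]
    rw [h1]
    by_cases hk : ∃ p ∈ l, p.2 = k
    · obtain ⟨p, hp, rfl⟩ := hk
      exact h p hp
    · push Not at hk
      have : (l.map fun p => if p.2 = k then p.1 else 0) = l.map fun _ => 0 := by
        refine List.map_congr_left fun p hp => ?_
        rw [if_neg (hk p hp)]
      rw [this]
      simp
  rw [hz, map_zero]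

section
variable {N : Type} [AddCommGroup N] [Module ℂ N] [LieRingModule G N] [LieModule ℂ G N]
variable {N' : Type} [AddCommGroup N'] [Module ℂ N'] [LieRingModule G N'] [LieModule ℂ G N']

/-- The value of a term. -/
def ev (c : Fin 64 → N) (t : ℤ × Option (Fin 6) × ℕ) : N :=
  match t.2.1 with
  | some g => t.1 • ⁅E (rt g).1 (rt g).2, c (Fin.ofNat 64 t.2.2)⁆
  | none => t.1 • c (Fin.ofNat 64 t.2.2)

/-- The differential. -/
def D (c : Fin 64 → N) (T : Fin 64) : N := ((terms T.1).map (ev c)).sum

/-- The cochains of degree `n`. -/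
def IsK (n : ℕ) (c : Fin 64 → N) : Prop :=
  ∀ T, c T ∈ wsp N (wtT T) ∧ (cnt T ≠ n → c T = 0)

theorem D_map (f : N →ₗ⁅ℂ,G⁆ N') (c : Fin 64 → N) (T : Fin 64) :
    D (fun S => f (c S)) T = f (D c T) := by
  unfold D
  rw [map_list_sum, List.map_map]
  congr 1
  refine List.map_congr_left fun t _ => ?_
  obtain ⟨a, g, S⟩ := t
  cases g with
  | none => simp [ev]
  | some g => simp [ev]

theorem D_add (c c' : Fin 64 → N) (T : Fin 64) : D (c + c') T = D c T + D c' T := by
  unfold D
  rw [← List.sum_map_add]
  congr 1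
  refine List.map_congr_left fun t _ => ?_
  obtain ⟨a, g, S⟩ := t
  cases g with
  | none => simp [ev]
  | some g => simp [ev]

theorem D_neg (c : Fin 64 → N) (T : Fin 64) : D (-c) T = -D c T := by
  have h := D_add c (-c) T
  have h0 : D (c + -c) T = 0 := by
    rw [add_neg_cancel]
    unfold D
    have : (terms T.1).map (ev (0 : Fin 64 → N)) = (terms T.1).map fun _ => 0 := by
      refine List.map_congr_left fun t _ => ?_
      obtain ⟨a, g, S⟩ := t
      cases g with
      | none => simp [ev]
      | some g => simp [ev]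
    rw [this]
    simp
  rw [h0] at h
  exact eq_neg_of_add_eq_zero_right h.symm

theorem D_sub (c c' : Fin 64 → N) (T : Fin 64) : D (c - c') T = D c T - D c' T := by
  rw [sub_eq_add_neg, D_add, D_neg, ← sub_eq_add_neg]

theorem E_wsp (i j : Fin 3) (μ ν : Fin 3 → ℤ) (m : N) (hm : m ∈ wsp N μ)
    (h : ∀ k, ν k = μ k + ((if i = k then 1 else 0) - (if j = k then 1 else 0))) :
    ⁅E i j, m⁆ ∈ wsp N ν := by
  rw [mem_wsp] at hm ⊢
  intro k
  rw [leibniz_lie, hm k, lie_smul, lie_E_E, sub_lie, h k]
  have h1 : ⁅(if k = i then E k j else 0 : G), m⁆ = (if i = k then (1 : ℂ) else 0) • ⁅E i j, m⁆ := by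
    by_cases hk : i = k
    · subst hk; simp
    · rw [if_neg (Ne.symm hk), if_neg hk]; simp
  have h2 : ⁅(if j = k then E i k else 0 : G), m⁆ = (if j = k then (1 : ℂ) else 0) • ⁅E i j, m⁆ := by
    by_cases hk : j = k
    · subst hk; simp
    · rw [if_neg hk, if_neg hk]; simp
  rw [h1, h2, ← sub_smul, ← add_smul]
  congr 1
  push_cast
  ring

theorem D_isK (n : ℕ) (c : Fin 64 → N) (hc : IsK n c) : IsK (n + 1) (D c) := by
  intro T
  constructor
  · unfold D
    refine list_sum_mem ?_
    intro x hx
    rw [List.mem_map] at hx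
    obtain ⟨t, ht, rfl⟩ := hx
    obtain ⟨-, hw⟩ := comb T t ht
    obtain ⟨a, g, S⟩ := t
    cases g with
    | none =>
      simp only [ev]
      refine zsmul_mem ?_ a
      have hS := (hc (Fin.ofNat 64 S)).1
      have : wtT T = wtT (Fin.ofNat 64 S) := by
        funext i
        simpa using hw i
      rw [this]
      exact hS
    | some g =>
      simp only [ev]
      refine zsmul_mem ?_ a
      exact E_wsp _ _ _ _ _ (hc (Fin.ofNat 64 S)).1 hw
  · intro hT
    unfold D
    refine List.sum_eq_zero ?_
    intro x hx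
    rw [List.mem_map] at hx
    obtain ⟨t, ht, rfl⟩ := hx
    obtain ⟨hn, -⟩ := comb T t ht
    have h0 : c (Fin.ofNat 64 t.2.2) = 0 := (hc _).2 (by omega)
    obtain ⟨a, g, S⟩ := t
    simp only at h0
    cases g with
    | none => simp only [ev, h0, smul_zero]
    | some g => simp only [ev, h0, smul_zero, lie_zero]

/-- The value of a word. -/
def evw (c : Fin 64 → N) (k : List (Fin 6) × ℕ) : N :=
  k.1.foldr (fun g m => ⁅E (rt g).1 (rt g).2, m⁆) (c (Fin.ofNat 64 k.2))

/-- The value of a formal combination of words. -/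
def evl (c : Fin 64 → N) (l : List (ℤ × List (Fin 6) × ℕ)) : N :=
  (l.map fun p => p.1 • evw c p.2).sum

theorem evl_cons (c : Fin 64 → N) (p) (l : List (ℤ × List (Fin 6) × ℕ)) :
    evl c (p :: l) = p.1 • evw c p.2 + evl c l := by
  simp [evl]

theorem evl_append (c : Fin 64 → N) (l l' : List (ℤ × List (Fin 6) × ℕ)) :
    evl c (l ++ l') = evl c l + evl c l' := by
  simp [evl]

theorem evl_flatMap (c : Fin 64 → N) (f : ℤ × List (Fin 6) × ℕ → List (ℤ × List (Fin 6) × ℕ))
    (l : List (ℤ × List (Fin 6) × ℕ)) : evl c (l.flatMap f) = (l.map fun t => evl c (f t)).sum := by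
  induction l with
  | nil => simp [evl]
  | cons a l ih => rw [List.flatMap_cons, evl_append, ih]; simp

theorem D_eq_evl (c : Fin 64 → N) (T : Fin 64) : D c T = evl c (t1 T.1) := by
  unfold D evl t1
  rw [List.map_map]
  congr 1
  refine List.map_congr_left fun t _ => ?_
  obtain ⟨a, g, S⟩ := t
  cases g with
  | none => simp [ev, evw]
  | some g => simp [ev, evw]

theorem evw_D (c : Fin 64 → N) (w : List (Fin 6)) (S : ℕ) (a : ℤ) :
    a • evw (D c) (w, S) =
      evl c ((t1 (Fin.ofNat 64 S).1).map fun u => (a * u.1, w ++ u.2.1, u.2.2)) := by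
  induction w with
  | nil =>
    simp only [evw, List.foldr_nil, D_eq_evl, List.nil_append]
    unfold evl
    rw [List.map_map, List.smul_sum, List.map_map]
    congr 1
    refine List.map_congr_left fun t _ => ?_
    simp [mul_smul, evw]
  | cons g w ih =>
    have h1 : a • evw (D c) (g :: w, S) = ⁅E (rt g).1 (rt g).2, a • evw (D c) (w, S)⁆ := by
      rw [lie_zsmul]
      rfl
    rw [h1, ih]
    unfold evl
    have h2 : ∀ l : List N, ⁅E (rt g).1 (rt g).2, l.sum⁆ =
        (l.map fun x => ⁅E (rt g).1 (rt g).2, x⁆).sum := by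
      intro l
      induction l with
      | nil => simp
      | cons x l ih => simp [lie_add, ih]
    rw [h2, List.map_map, List.map_map, List.map_map]
    congr 1
    refine List.map_congr_left fun t _ => ?_
    simp only [Function.comp]
    rw [lie_zsmul]
    rfl

theorem bw_eval (c : Fin 64 → N) (hc : ∀ T, c T ∈ wsp N (wtT T)) (a b : Fin 6) (S : ℕ) :
    ⁅⁅E (rt a).1 (rt a).2, E (rt b).1 (rt b).2⁆, c (Fin.ofNat 64 S)⁆ = evl c (bw a b S) := by
  have hS := hc (Fin.ofNat 64 S)
  rw [mem_wsp] at hS
  rw [lie_E_E, sub_lie]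
  unfold bw
  by_cases h1 : (rt a).2 = (rt b).1
  · rw [if_pos h1, if_pos h1]
    by_cases h2 : (rt a).1 = (rt b).2
    · rw [if_pos h2, if_pos h2.symm, ← h1, ← h2, hS, hS]
      simp only [evl, List.map_cons, List.map_nil, List.sum_cons, List.sum_nil, add_zero, evw,
        List.foldr_nil]
      rw [← sub_smul, ← Int.cast_smul_eq_zsmul ℂ]
      push_cast
      rfl
    · rw [if_neg h2, if_neg (Ne.symm h2)]
      simp only [evl, List.map_cons, List.map_nil, List.sum_cons, List.sum_nil, add_zero, evw,
        List.foldr_nil, List.foldr_cons, one_smul, zero_lie, sub_zero]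
      have h3 : rt (idx (rt a).1 (rt b).2) = ((rt a).1, (rt b).2) := by
        revert a b
        decide
      rw [h3]
  · rw [if_neg h1, if_neg h1]
    by_cases h2 : (rt a).1 = (rt b).2
    · rw [if_pos h2, if_pos h2.symm]
      simp only [evl, List.map_cons, List.map_nil, List.sum_cons, List.sum_nil, add_zero, evw,
        List.foldr_nil, List.foldr_cons, neg_smul, one_smul, zero_lie, zero_sub]
      have h3 : rt (idx (rt b).1 (rt a).2) = ((rt b).1, (rt a).2) := by
        revert a b
        decide
      rw [h3]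
    · rw [if_neg h2, if_neg (Ne.symm h2)]
      simp [evl]

theorem nf_eval (c : Fin 64 → N) (hc : ∀ T, c T ∈ wsp N (wtT T)) (t : ℤ × List (Fin 6) × ℕ) :
    evl c (nf t) = t.1 • evw c t.2 := by
  obtain ⟨z, w, S⟩ := t
  have hid : evl c [(z, w, S)] = z • evw c (w, S) := by simp [evl]
  match w, hid with
  | [], hid => exact hid
  | [a], hid => exact hid
  | [a, b], hid =>
    simp only [nf]
    by_cases hab : b < a
    · rw [if_pos hab, evl_cons]
      have h1 : evl c ((bw a b S).map fun u => (z * u.1, u.2.1, u.2.2)) = z • evl c (bw a b S) := by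
        unfold evl
        rw [List.smul_sum, List.map_map, List.map_map]
        congr 1
        refine List.map_congr_left fun u _ => ?_
        simp [mul_smul]
      rw [h1, ← bw_eval c hc a b S, ← smul_add]
      congr 1
      simp only [evw, List.foldr_cons, List.foldr_nil]
      rw [leibniz_lie (E (rt a).1 (rt a).2)]
      abel
    · rw [if_neg hab]
      exact hid
  | a :: b :: d :: w, hid => exact hid

theorem D_D (n : ℕ) (c : Fin 64 → N) (hc : IsK n c) : D (D c) = 0 := by
  have hc' : ∀ T, c T ∈ wsp N (wtT T) := fun T => (hc T).1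
  funext T
  have h1 : D (D c) T = evl c (t2 T.1) := by
    rw [D_eq_evl (D c), t2, evl_flatMap]
    unfold evl
    congr 1
    refine List.map_congr_left fun t _ => ?_
    exact evw_D c t.2.1 t.2.2 t.1
  have h2 : evl c (t2 T.1) = evl c ((t2 T.1).flatMap nf) := by
    rw [evl_flatMap]
    conv_lhs => unfold evl
    congr 1
    refine List.map_congr_left fun t _ => ?_
    exact (nf_eval c hc' t).symm
  rw [h1, h2]
  refine sum_eq_zero_of_coeff (evw c) _ ?_
  have h3 := chk_all T
  unfold chk at h3
  simp only [List.all_eq_true, decide_eq_true_eq] at h3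
  exact h3

end

end EA58
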