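import Pool.Agent.LibEA58.Maps
import Pool.Agent.LibEA58.KC

/-!
# The explicit cochains
-/

open MvPolynomial TensorProduct

namespace EA58

noncomputable def c1 : Fin 64 → CoG (Q × Q) := fun T =>
  if T = 16 then 1 ⊗ₜ ((0 : Q), (1 : Q)) else if T = 32 then 1 ⊗ₜ ((1 : Q), (0 : Q)) else 0

noncomputable def c2 : Fin 64 → CoG (CoL (ℕ →₀ ℂ)) := fun T =>
  if T = 48 then -((1 : P) ⊗ₜ[ℂ] ((1 : Q) ⊗ₜ[ℂ] (Finsupp.single 0 1 : ℕ →₀ ℂ))) else 0

noncomputable def c3 : Fin 64 → CoG (CoL (Polynomial ℂ)) := fun T =>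
  if T = 56 then -((1 : P) ⊗ₜ[ℂ] ((1 : Q) ⊗ₜ[ℂ] (Polynomial.X : Polynomial ℂ))) else 0

noncomputable def c4 : Fin 64 → CoG (CoL (Fin 2 → ℂ)) := fun T =>
  if T = 57 then -((1 : P) ⊗ₜ[ℂ] ((MvPolynomial.X 1 : Q) ⊗ₜ[ℂ] (Pi.single 0 1 : Fin 2 → ℂ))) else 0

noncomputable def c5 : Fin 64 → CoG (CoL ℂ) := fun T =>
  if T = 59 then -((1 : P) ⊗ₜ[ℂ] ((MvPolynomial.X 0 : Q) ⊗ₜ[ℂ] (1 : ℂ))) else 0

/-! ### The action of `E i j` on `1 ⊗ m` -/

section
variable {M : Type} [AddCommGroup M] [Module ℂ M] [GL3 M]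

theorem phi_E (i j k l : Fin 3) : phi (E i j) k l = if i = k ∧ j = l then 1 else 0 := by
  simp only [phi, E, bA_gA, bC_gA]
  simp [cm, Matrix.single_apply]

theorem lie_one (i j : Fin 3) (m : M) :
    ⁅E i j, ((1 : P) ⊗ₜ[ℂ] m : CoG M)⁆ = (1 : P) ⊗ₜ[ℂ] (GL3.e i j m) := by
  rw [lie_tm]
  simp only [phi_E, Derivation.map_one_eq_zero, TensorProduct.zero_tmul, zero_add,
    mul_one]
  rw [Finset.sum_eq_single i, Finset.sum_eq_single j]
  · simp
  · intro b _ hb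
    simp [hb.symm]
  · simp
  · intro b _ hb
    simp [hb.symm]
  · simp

end


theorem eB_def (i j : Fin 3) (m : Q × Q) : GL3.e i j m = eB i j m := rfl

theorem eCo_def {V : Type} [AddCommGroup V] [Module ℂ V] [GL21 V] (i j : Fin 3) (m : CoL V) :
    GL3.e i j m = eCo i j m := rfl

theorem eD (i j : Fin 2) (n : ℕ) (a : ℂ) :
    (GL21.e i j (Finsupp.single n a : ℕ →₀ ℂ)) = delE i j (Finsupp.single n a) := rfl

theorem cD (v : ℕ →₀ ℂ) : (GL21.c v : ℕ →₀ ℂ) = 0 := rfl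

theorem eN01 (v : Polynomial ℂ) : GL21.e (0 : Fin 2) (1 : Fin 2) v = -Polynomial.derivative v := rfl
theorem eN00 (v : Polynomial ℂ) : GL21.e (0 : Fin 2) (0 : Fin 2) v =
    -(Polynomial.X * Polynomial.derivative v) - (3 : ℂ) • v := rfl
theorem eN11 (v : Polynomial ℂ) : GL21.e (1 : Fin 2) (1 : Fin 2) v =
    (Polynomial.X * Polynomial.derivative v) - (3 : ℂ) • v := rfl
theorem cN (v : Polynomial ℂ) : (GL21.c v : Polynomial ℂ) = 0 := rfl

theorem eV00 : GL21.e (0 : Fin 2) (0 : Fin 2) (Pi.single 0 1 : Fin 2 → ℂ) =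
    (-3 : ℂ) • (Pi.single 0 1 : Fin 2 → ℂ) := by
  show ((-(LinearMap.single ℂ (fun _ => ℂ) (0 : Fin 2) ∘ₗ LinearMap.proj (0 : Fin 2))
    + (if (0 : Fin 2) = 0 then (-2 : ℂ) • LinearMap.id else 0) : (Fin 2 → ℂ) →ₗ[ℂ] (Fin 2 → ℂ))
      (Pi.single 0 1)) = _
  ext a
  fin_cases a <;> simp
  norm_num
theorem eV11 : GL21.e (1 : Fin 2) (1 : Fin 2) (Pi.single 0 1 : Fin 2 → ℂ) =
    (-2 : ℂ) • (Pi.single 0 1 : Fin 2 → ℂ) := by
  show ((-(LinearMap.single ℂ (fun _ => ℂ) (1 : Fin 2) ∘ₗ LinearMap.proj (1 : Fin 2))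
    + (if (1 : Fin 2) = 1 then (-2 : ℂ) • LinearMap.id else 0) : (Fin 2 → ℂ) →ₗ[ℂ] (Fin 2 → ℂ))
      (Pi.single 0 1)) = _
  ext a
  fin_cases a <;> simp
theorem cV (v : Fin 2 → ℂ) : (GL21.c v : Fin 2 → ℂ) = -v := rfl

theorem eC00 (v : ℂ) : GL21.e (0 : Fin 2) (0 : Fin 2) v = (-2 : ℂ) • v := by
  show ((if (0 : Fin 2) = 0 then (-2 : ℂ) • LinearMap.id else 0 : ℂ →ₗ[ℂ] ℂ) v) = _
  simp
theorem eC11 (v : ℂ) : GL21.e (1 : Fin 2) (1 : Fin 2) v = (-2 : ℂ) • v := by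
  show ((if (1 : Fin 2) = 1 then (-2 : ℂ) • LinearMap.id else 0 : ℂ →ₗ[ℂ] ℂ) v) = _
  simp
theorem cC (v : ℂ) : (GL21.c v : ℂ) = (-2 : ℂ) • v := rfl

/-! ### Membership -/

section
variable {N : Type} [AddCommGroup N] [Module ℂ N] [LieRingModule G N] [LieModule ℂ G N]

theorem isK_single (n : ℕ) (T₀ : Fin 64) (x : N) (hx : x ∈ wsp N (wtT T₀)) (hc : cnt T₀ = n) :
    IsK n (fun T => if T = T₀ then x else 0) := by
  intro T
  by_cases h : T = T₀
  · subst h
    simp [hx, hc]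
  · simp [h]

omit [Module ℂ N] [LieModule ℂ G N] in
theorem D_supp (c : Fin 64 → N) (s : ℕ → Bool) (hs : ∀ S : ℕ, s S = false → c (Fin.ofNat 64 S) = 0)
    (T : Fin 64) : D c T = (((terms T.1).filter (fun t => s t.2.2)).map (ev c)).sum := by
  unfold D
  induction terms T.1 with
  | nil => rfl
  | cons t l ih =>
    rw [List.filter_cons, List.map_cons, List.sum_cons, ih]
    by_cases h : s t.2.2 = true
    · rw [if_pos h, List.map_cons, List.sum_cons]
    · rw [if_neg h]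
      have h1 := hs t.2.2 (by simpa using h)
      have h2 : ev c t = 0 := by
        unfold ev
        split <;> rw [h1] <;> simp
      rw [h2, zero_add]

variable {M : Type} [AddCommGroup M] [Module ℂ M] [GL3 M]

theorem one_wsp (m : M) (μ : Fin 3 → ℤ) (h : ∀ i, GL3.e i i m = (μ i : ℂ) • m) :
    ((1 : P) ⊗ₜ[ℂ] m : CoG M) ∈ wsp (CoG M) μ := by
  rw [mem_wsp]
  intro i
  rw [lie_one, h, TensorProduct.tmul_smul]

end

theorem wt16 : wtT 16 = ![-2, -3, -1] := by decide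
theorem wt32 : wtT 32 = ![-3, -2, -1] := by decide
theorem wt48 : wtT 48 = ![-3, -3, 0] := by decide
theorem wt56 : wtT 56 = ![-4, -2, 0] := by decide
theorem wt57 : wtT 57 = ![-3, -3, 0] := by decide
theorem wt59 : wtT 59 = ![-3, -2, -1] := by decide

theorem C3_eq : (MvPolynomial.C (3 : ℂ) : Q) = 3 := map_ofNat MvPolynomial.C 3

theorem w1a : ((1 : P) ⊗ₜ[ℂ] ((0 : Q), (1 : Q)) : CoG (Q × Q)) ∈ wsp (CoG (Q × Q)) (wtT 16) := by
  refine one_wsp _ _ fun i => ?_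
  rw [wt16, eB_def]
  apply Prod.ext <;> fin_cases i <;> simp [eB, MvPolynomial.smul_eq_C_mul]
  rw [C2_eq, C3_eq]
  norm_num

theorem w1b : ((1 : P) ⊗ₜ[ℂ] ((1 : Q), (0 : Q)) : CoG (Q × Q)) ∈ wsp (CoG (Q × Q)) (wtT 32) := by
  refine one_wsp _ _ fun i => ?_
  rw [wt32, eB_def]
  apply Prod.ext <;> fin_cases i <;> simp [eB, MvPolynomial.smul_eq_C_mul]
  rw [C2_eq, C3_eq]
  norm_num

theorem w2 : ((1 : P) ⊗ₜ[ℂ] ((1 : Q) ⊗ₜ[ℂ] (Finsupp.single 0 1 : ℕ →₀ ℂ)) : CoG (CoL (ℕ →₀ ℂ))) ∈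
    wsp (CoG (CoL (ℕ →₀ ℂ))) (wtT 48) := by
  refine one_wsp _ _ fun i => ?_
  rw [wt48, eCo_def]
  have h : (Finsupp.single 0 3 : ℕ →₀ ℂ) = (3 : ℂ) • Finsupp.single 0 1 := by simp
  fin_cases i <;> simp [eCo, eD, cD, delE_00, delE_11]
  all_goals rw [h, TensorProduct.tmul_neg, TensorProduct.tmul_smul]

theorem w3 : ((1 : P) ⊗ₜ[ℂ] ((1 : Q) ⊗ₜ[ℂ] (Polynomial.X : Polynomial ℂ)) : CoG (CoL (Polynomial ℂ))) ∈
    wsp (CoG (CoL (Polynomial ℂ))) (wtT 56) := by
  refine one_wsp _ _ fun i => ?_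
  rw [wt56, eCo_def]
  fin_cases i <;> simp [eCo, eN00, eN11, cN]
  all_goals rw [← TensorProduct.tmul_smul, ← TensorProduct.tmul_neg]
  all_goals congr 1
  all_goals module

theorem w4 : ((1 : P) ⊗ₜ[ℂ] ((MvPolynomial.X 1 : Q) ⊗ₜ[ℂ] (Pi.single 0 1 : Fin 2 → ℂ)) : CoG (CoL (Fin 2 → ℂ))) ∈
    wsp (CoG (CoL (Fin 2 → ℂ))) (wtT 57) := by
  refine one_wsp _ _ fun i => ?_
  rw [wt57, eCo_def]
  fin_cases i <;> simp [eCo, eV00, eV11, cV]
  all_goals simp only [TensorProduct.tmul_neg, TensorProduct.tmul_smul]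
  all_goals module

theorem w5 : ((1 : P) ⊗ₜ[ℂ] ((MvPolynomial.X 0 : Q) ⊗ₜ[ℂ] (1 : ℂ)) : CoG (CoL ℂ)) ∈
    wsp (CoG (CoL ℂ)) (wtT 59) := by
  refine one_wsp _ _ fun i => ?_
  rw [wt59, eCo_def]
  have h : (X 0 : Q) ⊗ₜ[ℂ] (-2 : ℂ) = (-2 : ℂ) • ((X 0 : Q) ⊗ₜ[ℂ] (1 : ℂ)) := by
    rw [← TensorProduct.tmul_smul]
    simp
  fin_cases i <;> simp [eCo, eC00, eC11, cC]
  all_goals rw [h]
  all_goals module

theorem isK1 : IsK 1 c1 := by
  intro T
  unfold c1
  by_cases h : T = 16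
  · subst h
    rw [if_pos rfl]
    exact ⟨w1a, fun hc => absurd (by decide) hc⟩
  · rw [if_neg h]
    exact isK_single 1 32 _ w1b (by decide) T

theorem isK2 : IsK 2 c2 := isK_single 2 48 _ (neg_mem w2) (by decide)

theorem isK3 : IsK 3 c3 := isK_single 3 56 _ (neg_mem w3) (by decide)

theorem isK4 : IsK 4 c4 := isK_single 4 57 _ (neg_mem w4) (by decide)

theorem isK5 : IsK 5 c5 := isK_single 5 59 _ (neg_mem w5) (by decide)

/-! ### The differentials -/

/-- The nonzero terms of `D c₁`. -/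
def tab1 (T : ℕ) : List (ℤ × Option (Fin 6) × ℕ) :=
  if T = 17 then [(1, some 0, 16)] else if T = 18 then [(1, some 1, 16)]
  else if T = 20 then [(1, some 2, 16)] else if T = 24 then [(1, some 3, 16), (1, none, 32)]
  else if T = 33 then [(1, some 0, 32), (1, none, 16)] else if T = 34 then [(1, some 1, 32)]
  else if T = 36 then [(1, some 2, 32)] else if T = 40 then [(1, some 3, 32)]
  else if T = 48 then [(1, some 4, 32), (-1, some 5, 16)] else []

/-- The nonzero terms of `D c₂`. -/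
def tab2 (T : ℕ) : List (ℤ × Option (Fin 6) × ℕ) :=
  if T = 49 then [(1, some 0, 48)] else if T = 50 then [(1, some 1, 48)]
  else if T = 52 then [(1, some 2, 48)] else if T = 56 then [(1, some 3, 48)] else []

/-- The nonzero terms of `D c₃`. -/
def tab3 (T : ℕ) : List (ℤ × Option (Fin 6) × ℕ) :=
  if T = 57 then [(1, some 0, 56)] else if T = 58 then [(1, some 1, 56)]
  else if T = 60 then [(1, some 2, 56)] else []

/-- The nonzero terms of `D c₄`. -/
def tab4 (T : ℕ) : List (ℤ × Option (Fin 6) × ℕ) :=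
  if T = 59 then [(-1, some 1, 57)] else if T = 61 then [(-1, some 2, 57)] else []

theorem tab1_eq : ∀ T : Fin 64, (terms T.1).filter
    (fun t => (decide (t.2.2 % 64 = 16) || decide (t.2.2 % 64 = 32))) = tab1 T.1 := by decide +kernel
theorem tab2_eq : ∀ T : Fin 64, (terms T.1).filter
    (fun t => decide (t.2.2 % 64 = 48)) = tab2 T.1 := by decide +kernel
theorem tab3_eq : ∀ T : Fin 64, (terms T.1).filter
    (fun t => decide (t.2.2 % 64 = 56)) = tab3 T.1 := by decide +kernel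
theorem tab4_eq : ∀ T : Fin 64, (terms T.1).filter
    (fun t => decide (t.2.2 % 64 = 57)) = tab4 T.1 := by decide +kernel
theorem tab5_eq : (terms 63).filter
    (fun t => decide (t.2.2 % 64 = 59)) = [(1, some 2, 59)] := by decide +kernel

theorem ofNat_ne {S n : ℕ} (T : Fin 64) (hT : T.1 = n) (h : decide (S % 64 = n) = false) :
    Fin.ofNat 64 S ≠ T := by
  rintro rfl
  simp at h
  exact h (by simpa using hT)

section
variable {N : Type} [AddCommGroup N] [LieRingModule G N]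
theorem ev_some (c : Fin 64 → N) (a : ℤ) (g : Fin 6) (S : ℕ) :
    ev c (a, some g, S) = a • ⁅E (rt g).1 (rt g).2, c (Fin.ofNat 64 S)⁆ := rfl
theorem ev_none (c : Fin 64 → N) (a : ℤ) (S : ℕ) :
    ev c (a, none, S) = a • c (Fin.ofNat 64 S) := rfl

theorem D_single (T₀ : Fin 64) (x : N) (T : Fin 64) :
    D (fun S => if S = T₀ then x else 0) T =
      (((terms T.1).filter (fun t => decide (t.2.2 % 64 = T₀.1))).map
        (ev (fun S => if S = T₀ then x else 0))).sum :=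
  D_supp _ (fun S => decide (S % 64 = T₀.1)) (fun _ hS => if_neg (ofNat_ne T₀ rfl hS)) T

end

theorem sc_one : sc 1 = 1 := by
  have h1 : (1 : Q) = MvPolynomial.basisMonomials (Fin 2) ℂ 0 := by
    simp
  conv_lhs => rw [h1]
  rw [sc, Module.Basis.constr_basis]
  simp

theorem ph_X : ph Polynomial.X = Finsupp.single 1 1 := by
  have h1 : (Polynomial.X : Polynomial ℂ) = Polynomial.basisMonomials ℂ 1 := by
    simp [Polynomial.monomial_one_one_eq_X]
  rw [ph, h1, Module.Basis.constr_basis]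
  simp

theorem m10_val : m10 ((1 : Q) ⊗ₜ[ℂ] (Finsupp.single 0 1 : ℕ →₀ ℂ)) =
    (-(MvPolynomial.X 1), MvPolynomial.X 0) := by
  simp [m10, sc_one]

theorem D_c1 (T : Fin 64) : D c1 T = f1 (c2 T) := by
  rw [D_supp c1 (fun S => (decide (S % 64 = 16) || decide (S % 64 = 32))) ?_ T, tab1_eq T]
  · have h16 : c1 (Fin.ofNat 64 16) = 1 ⊗ₜ ((0 : Q), (1 : Q)) := if_pos rfl
    have h32 : c1 (Fin.ofNat 64 32) = 1 ⊗ₜ ((1 : Q), (0 : Q)) := rfl
    by_cases h48 : T.1 = 48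
    · have hT : T = 48 := Fin.ext h48
      subst hT
      have h2 : c2 48 = -((1 : P) ⊗ₜ[ℂ] ((1 : Q) ⊗ₜ[ℂ] (Finsupp.single 0 1 : ℕ →₀ ℂ))) := if_pos rfl
      have h3 : tab1 (48 : Fin 64).1 = [(1, some 4, 32), (-1, some 5, 16)] := rfl
      rw [h3, h2, map_neg, f1, CoG.map_tm, m10_val]
      simp only [List.map_cons, List.map_nil, List.sum_cons, List.sum_nil, ev_some, h16, h32, rt,
        lie_one, eB_def]
      simp only [eB]
      simp
      rw [← TensorProduct.tmul_neg, ← TensorProduct.tmul_neg, ← TensorProduct.tmul_add]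
      simp
    · have h2 : c2 T = 0 := if_neg fun h => h48 (by rw [h]; rfl)
      rw [h2, map_zero]
      unfold tab1
      split_ifs <;> simp only [List.map_cons, List.map_nil, List.sum_cons, List.sum_nil, ev_some,
        ev_none, h16, h32, rt, lie_one, eB_def] <;> simp [eB]
      all_goals rw [← TensorProduct.tmul_add]; simp
  · intro S hS
    rw [Bool.or_eq_false_iff] at hS
    unfold c1
    rw [if_neg (ofNat_ne 16 rfl hS.1), if_neg (ofNat_ne 32 rfl hS.2)]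

theorem eD10 : GL21.e (1 : Fin 2) (0 : Fin 2) (Finsupp.single 0 1 : ℕ →₀ ℂ) = Finsupp.single 1 1 := by
  rw [eD, delE_10]
  simp

theorem eD01 : GL21.e (0 : Fin 2) (1 : Fin 2) (Finsupp.single 0 1 : ℕ →₀ ℂ) = 0 := by
  rw [eD, delE_01_zero]

theorem D_c2 (T : Fin 64) : D c2 T = f2 (c3 T) := by
  have h48 : c2 (Fin.ofNat 64 48) = -((1 : P) ⊗ₜ[ℂ] ((1 : Q) ⊗ₜ[ℂ] (Finsupp.single 0 1 : ℕ →₀ ℂ))) :=
    if_pos rfl
  have h1 := D_single 48 (-((1 : P) ⊗ₜ[ℂ] ((1 : Q) ⊗ₜ[ℂ] (Finsupp.single 0 1 : ℕ →₀ ℂ)))) T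
  refine h1.trans ?_
  have h0 : (fun S : Fin 64 => if S = 48 then
    (-((1 : P) ⊗ₜ[ℂ] ((1 : Q) ⊗ₜ[ℂ] (Finsupp.single 0 1 : ℕ →₀ ℂ)))) else 0) = c2 := rfl
  clear h1
  rw [h0]
  rw [show ((48 : Fin 64).1) = 48 from rfl, tab2_eq T]
  by_cases h56 : T.1 = 56
  · have hT : T = 56 := Fin.ext h56
    subst hT
    have h2 : c3 56 = -((1 : P) ⊗ₜ[ℂ] ((1 : Q) ⊗ₜ[ℂ] (Polynomial.X : Polynomial ℂ))) := if_pos rfl
    have h3 : tab2 (56 : Fin 64).1 = [(1, some 3, 48)] := rfl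
    rw [h3, h2, map_neg, f2, CoG.map_tm, m21, LinearMap.lTensor_tmul, ph_X]
    simp only [List.map_cons, List.map_nil, List.sum_cons, List.sum_nil, ev_some, h48, rt,
      lie_neg, lie_one, eCo_def]
    simp [eCo, eD10]
  · have h2 : c3 T = 0 := if_neg fun h => h56 (by rw [h]; rfl)
    rw [h2, map_zero]
    unfold tab2
    split_ifs <;> simp only [List.map_cons, List.map_nil, List.sum_cons, List.sum_nil, ev_some,
      h48, rt, lie_neg, lie_one, eCo_def] <;> simp [eCo, eD01]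

theorem D_c3 (T : Fin 64) : D c3 T = f3 (c4 T) := by
  have h56 : c3 (Fin.ofNat 64 56) = -((1 : P) ⊗ₜ[ℂ] ((1 : Q) ⊗ₜ[ℂ] (Polynomial.X : Polynomial ℂ))) :=
    if_pos rfl
  refine (D_single 56 (-((1 : P) ⊗ₜ[ℂ] ((1 : Q) ⊗ₜ[ℂ] (Polynomial.X : Polynomial ℂ)))) T).trans ?_
  have h0 : (fun S : Fin 64 => if S = 56 then
    (-((1 : P) ⊗ₜ[ℂ] ((1 : Q) ⊗ₜ[ℂ] (Polynomial.X : Polynomial ℂ)))) else 0) = c3 := rfl
  rw [h0, show ((56 : Fin 64).1) = 56 from rfl, tab3_eq T]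
  by_cases h57 : T.1 = 57
  · have hT : T = 57 := Fin.ext h57
    subst hT
    have h2 : c4 57 = -((1 : P) ⊗ₜ[ℂ] ((MvPolynomial.X 1 : Q) ⊗ₜ[ℂ] (Pi.single 0 1 : Fin 2 → ℂ))) :=
      if_pos rfl
    have h3 : tab3 (57 : Fin 64).1 = [(1, some 0, 56)] := rfl
    rw [h3, h2, map_neg, f3, CoG.map_tm]
    simp only [List.map_cons, List.map_nil, List.sum_cons, List.sum_nil, ev_some, h56, rt,
      lie_neg, lie_one, eCo_def]
    simp [eCo, eN01, m32, pderiv_X]
    simp only [TensorProduct.tmul_neg]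
  · have h2 : c4 T = 0 := if_neg fun h => h57 (by rw [h]; rfl)
    rw [h2, map_zero]
    unfold tab3
    split_ifs <;> simp only [List.map_cons, List.map_nil, List.sum_cons, List.sum_nil, ev_some,
      h56, rt, lie_neg, lie_one, eCo_def] <;> simp [eCo]

theorem D_c4 (T : Fin 64) : D c4 T = f4 (c5 T) := by
  have h57 : c4 (Fin.ofNat 64 57) =
    -((1 : P) ⊗ₜ[ℂ] ((MvPolynomial.X 1 : Q) ⊗ₜ[ℂ] (Pi.single 0 1 : Fin 2 → ℂ))) := if_pos rfl
  refine (D_single 57
    (-((1 : P) ⊗ₜ[ℂ] ((MvPolynomial.X 1 : Q) ⊗ₜ[ℂ] (Pi.single 0 1 : Fin 2 → ℂ)))) T).trans ?_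
  have h0 : (fun S : Fin 64 => if S = 57 then
    (-((1 : P) ⊗ₜ[ℂ] ((MvPolynomial.X 1 : Q) ⊗ₜ[ℂ] (Pi.single 0 1 : Fin 2 → ℂ)))) else 0) = c4 := rfl
  rw [h0, show ((57 : Fin 64).1) = 57 from rfl, tab4_eq T]
  by_cases h59 : T.1 = 59
  · have hT : T = 59 := Fin.ext h59
    subst hT
    have h2 : c5 59 = -((1 : P) ⊗ₜ[ℂ] ((MvPolynomial.X 0 : Q) ⊗ₜ[ℂ] (1 : ℂ))) := if_pos rfl
    have h3 : tab4 (59 : Fin 64).1 = [(-1, some 1, 57)] := rfl
    rw [h3, h2, map_neg, f4, CoG.map_tm]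
    simp only [List.map_cons, List.map_nil, List.sum_cons, List.sum_nil, ev_some, h57, rt,
      lie_neg, lie_one, eCo_def]
    simp [eCo, m43, pderiv_X]
    simp only [TensorProduct.tmul_neg]
  · have h2 : c5 T = 0 := if_neg fun h => h59 (by rw [h]; rfl)
    rw [h2, map_zero]
    unfold tab4
    split_ifs <;> simp only [List.map_cons, List.map_nil, List.sum_cons, List.sum_nil, ev_some,
      h57, rt, lie_neg, lie_one, eCo_def]
    all_goals simp [eCo, pderiv_X]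

theorem D_c5 : D c5 ≠ 0 := by
  intro h
  have h1 := congrFun h 63
  have h59 : c5 (Fin.ofNat 64 59) = -((1 : P) ⊗ₜ[ℂ] ((MvPolynomial.X 0 : Q) ⊗ₜ[ℂ] (1 : ℂ))) :=
    if_pos rfl
  have h2 := D_single 59 (-((1 : P) ⊗ₜ[ℂ] ((MvPolynomial.X 0 : Q) ⊗ₜ[ℂ] (1 : ℂ)))) 63
  have h0 : (fun S : Fin 64 => if S = 59 then
    (-((1 : P) ⊗ₜ[ℂ] ((MvPolynomial.X 0 : Q) ⊗ₜ[ℂ] (1 : ℂ)))) else 0) = c5 := rfl
  rw [h0, h1, show ((59 : Fin 64).1) = 59 from rfl, show ((63 : Fin 64).1) = 63 from rfl,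
    tab5_eq] at h2
  simp only [List.map_cons, List.map_nil, List.sum_cons, List.sum_nil, ev_some, h59, rt,
      lie_neg, lie_one, eCo_def] at h2
  simp [eCo, pderiv_X] at h2

/-! ### The kernel of `f₄` -/

/-- The derivative `∂_j` in the variables `u`. -/
noncomputable def AA (j : Fin 2) : CoG (CoL ℂ) →ₗ[ℂ] CoG (CoL ℂ) :=
  (TensorProduct.map (dl j) (LinearMap.id : ℂ →ₗ[ℂ] ℂ)).lTensor P

theorem AA_f4 (j : Fin 2) (w : CoG (CoL ℂ)) :
    ((TensorProduct.map (LinearMap.id : Q →ₗ[ℂ] Q)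
      (LinearMap.proj j : (Fin 2 → ℂ) →ₗ[ℂ] ℂ)).lTensor P) (f4 w) = AA j w := by
  induction w using TensorProduct.induction_on with
  | zero => simp
  | add a b ha hb => rw [map_add, map_add, ha, hb, map_add]
  | tmul p m =>
    rw [f4, CoG.map_tm, AA, LinearMap.lTensor_tmul, LinearMap.lTensor_tmul]
    congr 1
    induction m using TensorProduct.induction_on with
    | zero => simp
    | add a b ha hb => rw [map_add, map_add, ha, hb, map_add]
    | tmul f c =>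
      fin_cases j <;> simp [m43]

/-- The part of `E i i` on `ℂ[u]` which factors through the derivatives. -/
noncomputable def BB (i : Fin 3) : CoL ℂ →ₗ[ℂ] CoL ℂ :=
  match i with
  | 0 => -TensorProduct.map (mu 0 ∘ₗ dl 0) LinearMap.id
  | 1 => -TensorProduct.map (mu 1 ∘ₗ dl 1) LinearMap.id
  | 2 => TensorProduct.map (mu 0 ∘ₗ dl 0) LinearMap.id +
      TensorProduct.map (mu 1 ∘ₗ dl 1) LinearMap.id

theorem eCo_diag (i : Fin 3) (m : CoL ℂ) : eCo i i m = (-2 : ℂ) • m + BB i m := by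
  induction m using TensorProduct.induction_on with
  | zero => simp
  | add a b ha hb =>
    rw [map_add, ha, hb, map_add]
    module
  | tmul f c =>
    have h : f ⊗ₜ[ℂ] (-(2 * c)) = (-2 : ℂ) • f ⊗ₜ[ℂ] c := by
      rw [← TensorProduct.tmul_smul]
      simp
    fin_cases i <;> simp [eCo, eC00, eC11, cC, TensorProduct.add_tmul, BB, h]
    all_goals module

theorem BB_zero (i : Fin 3) (w : CoG (CoL ℂ)) (h : ∀ j, AA j w = 0) : (BB i).lTensor P w = 0 := by
  have h1 : ∀ j : Fin 2, (TensorProduct.map (mu j ∘ₗ dl j) (LinearMap.id : ℂ →ₗ[ℂ] ℂ)).lTensor P w = 0 := by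
    intro j
    have h2 : (TensorProduct.map (mu j ∘ₗ dl j) (LinearMap.id : ℂ →ₗ[ℂ] ℂ)) =
        (TensorProduct.map (mu j) LinearMap.id) ∘ₗ (TensorProduct.map (dl j) LinearMap.id) := by
      rw [← TensorProduct.map_comp, LinearMap.id_comp]
    rw [h2, LinearMap.lTensor_comp, LinearMap.comp_apply]
    have h3 := h j
    unfold AA at h3
    rw [h3, map_zero]
  fin_cases i
  · simp only [BB, LinearMap.lTensor_neg, LinearMap.neg_apply, h1, neg_zero]
  · simp only [BB, LinearMap.lTensor_neg, LinearMap.neg_apply, h1, neg_zero]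
  · simp only [BB, LinearMap.lTensor_add, LinearMap.add_apply, h1, add_zero]

theorem act_diag (i : Fin 3) (w : CoG (CoL ℂ)) : ⁅E i i, w⁆ =
    (xi (E i i)).toLinearMap.rTensor (CoL ℂ) w + ((-2 : ℂ) • w + (BB i).lTensor P w) := by
  induction w using TensorProduct.induction_on with
  | zero => simp
  | add a b ha hb => rw [lie_add, ha, hb, map_add, map_add]; module
  | tmul p m =>
    rw [lie_tm, LinearMap.rTensor_tmul, LinearMap.lTensor_tmul]
    congr 1
    rw [← TensorProduct.tmul_smul, ← TensorProduct.tmul_add, ← eCo_diag, ← eCo_def]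
    simp only [phi_E]
    rw [Finset.sum_eq_single i, Finset.sum_eq_single i]
    · simp
    · intro b _ hb
      simp [hb.symm]
    · simp
    · intro b _ hb
      simp [hb.symm]
    · simp

theorem xi_X (i : Fin 3) (s : Sym2 (Fin 3)) : ∃ k : ℕ, xi (E i i) (MvPolynomial.X s : P) =
    -(k : ℂ) • (MvPolynomial.X s : P) := by
  induction s using Sym2.ind with
  | _ a b =>
    refine ⟨(if i = a then 1 else 0) + (if i = b then 1 else 0), ?_⟩
    have h := xi_Z (E i i) a b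
    rw [Z] at h
    rw [h, dZ]
    simp only [E, bA_gA, bB_gA, bC_gA]
    simp only [Matrix.neg_apply, Matrix.sub_apply, Matrix.add_apply, Matrix.mul_apply, cm,
      Matrix.map_apply, Matrix.single_apply, Z, Matrix.transpose_apply, Matrix.zero_apply, map_zero,
      zero_mul, mul_zero, Finset.sum_const_zero, sub_zero, add_zero]
    rcases eq_or_ne i a with rfl | ha <;> rcases eq_or_ne i b with rfl | hb
    · simp
      module
    · simp [hb]
    · simp [ha]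
    · simp [ha, hb]

theorem xi_mono (i : Fin 3) (d : Sym2 (Fin 3) →₀ ℕ) (a : ℂ) : ∃ k : ℕ,
    xi (E i i) (MvPolynomial.monomial d a : P) = -(k : ℂ) • (MvPolynomial.monomial d a : P) := by
  refine MvPolynomial.induction_on_monomial (motive := fun p : P => ∃ k : ℕ,
    xi (E i i) p = -(k : ℂ) • p) ?_ ?_ d a
  · intro a
    refine ⟨0, ?_⟩
    simp
  · rintro p s ⟨k, hk⟩
    obtain ⟨l, hl⟩ := xi_X i s
    refine ⟨k + l, ?_⟩
    rw [Derivation.leibniz, hk, hl]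
    simp only [smul_eq_mul, MvPolynomial.smul_eq_C_mul, map_neg, Nat.cast_add, map_add]
    ring

theorem xi_coeff (i : Fin 3) : ∃ k : (Sym2 (Fin 3) →₀ ℕ) → ℕ, ∀ (p : P) (d : Sym2 (Fin 3) →₀ ℕ),
    (MvPolynomial.basisMonomials (Sym2 (Fin 3)) ℂ).repr (xi (E i i) p) d =
      -(k d : ℂ) * (MvPolynomial.basisMonomials (Sym2 (Fin 3)) ℂ).repr p d := by
  choose k hk using fun d => xi_mono i d 1
  refine ⟨k, fun p d => ?_⟩
  have h : (Finsupp.lapply d : ((Sym2 (Fin 3) →₀ ℕ) →₀ ℂ) →ₗ[ℂ] ℂ) ∘ₗ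
      (MvPolynomial.basisMonomials (Sym2 (Fin 3)) ℂ).repr.toLinearMap ∘ₗ (xi (E i i)).toLinearMap =
      (-(k d : ℂ)) • ((Finsupp.lapply d : ((Sym2 (Fin 3) →₀ ℕ) →₀ ℂ) →ₗ[ℂ] ℂ) ∘ₗ
        (MvPolynomial.basisMonomials (Sym2 (Fin 3)) ℂ).repr.toLinearMap) := by
    refine (MvPolynomial.basisMonomials (Sym2 (Fin 3)) ℂ).ext fun e => ?_
    simp only [LinearMap.comp_apply, LinearMap.smul_apply, LinearEquiv.coe_coe]
    have h1 : (xi (E i i)).toLinearMap ((MvPolynomial.basisMonomials (Sym2 (Fin 3)) ℂ) e) =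
        -(k e : ℂ) • (MvPolynomial.basisMonomials (Sym2 (Fin 3)) ℂ) e := by
      have h2 := hk e
      simpa using h2
    rw [h1, map_smul, Module.Basis.repr_self]
    simp only [map_smul, Finsupp.lapply_apply, Finsupp.single_apply]
    by_cases h3 : e = d
    · rw [h3]
    · simp [h3]
  exact LinearMap.congr_fun h p

theorem K5_ker (q : Fin 64 → CoG (CoL ℂ)) (hq : IsK 5 q) (h : ∀ T, f4 (q T) = 0) : q = 0 := by
  funext T
  by_cases hc : cnt T = 5
  · have hw := (hq T).1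
    have h4 := h T
    generalize q T = w at hw h4
    have hA : ∀ j, AA j w = 0 := by
      intro j
      rw [← AA_f4, h4, map_zero]
    have hsum : ∀ T : Fin 64, cnt T = 5 → wtT T 0 + wtT T 1 + wtT T 2 = -6 ∧
        ¬ (wtT T 0 = -2 ∧ wtT T 1 = -2 ∧ wtT T 2 = -2) := by decide +kernel
    have hs := hsum T hc
    have h1 : ∀ i, (xi (E i i)).toLinearMap.rTensor (CoL ℂ) w = ((wtT T i + 2 : ℤ) : ℂ) • w := by
      intro i
      have h2 := (mem_wsp _ _ _).1 hw i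
      rw [act_diag, BB_zero i w hA, add_zero] at h2
      rw [eq_sub_of_add_eq h2]
      push_cast
      module
    have h3 : ∀ i, ∃ k : (Sym2 (Fin 3) →₀ ℕ) → ℕ, ∀ d, -(k d : ℂ) •
        TensorProduct.equivFinsuppOfBasisLeft (MvPolynomial.basisMonomials (Sym2 (Fin 3)) ℂ) w d =
        ((wtT T i + 2 : ℤ) : ℂ) •
        TensorProduct.equivFinsuppOfBasisLeft (MvPolynomial.basisMonomials (Sym2 (Fin 3)) ℂ) w d := by
      intro i
      obtain ⟨k, hk⟩ := xi_coeff i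
      refine ⟨k, fun d => ?_⟩
      have h5 : ∀ x : CoG (CoL ℂ),
          TensorProduct.equivFinsuppOfBasisLeft (MvPolynomial.basisMonomials (Sym2 (Fin 3)) ℂ)
            ((xi (E i i)).toLinearMap.rTensor (CoL ℂ) x) d = -(k d : ℂ) •
          TensorProduct.equivFinsuppOfBasisLeft (MvPolynomial.basisMonomials (Sym2 (Fin 3)) ℂ) x d := by
        intro x
        induction x using TensorProduct.induction_on with
        | zero => simp
        | add a b ha hb => rw [map_add, map_add, Finsupp.add_apply, ha, hb, map_add,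
            Finsupp.add_apply, smul_add]
        | tmul p m =>
          rw [LinearMap.rTensor_tmul, TensorProduct.equivFinsuppOfBasisLeft_apply_tmul_apply,
            TensorProduct.equivFinsuppOfBasisLeft_apply_tmul_apply]
          have := hk p d
          rw [smul_smul, ← this]
          rfl
      rw [← h5, h1, map_smul, Finsupp.smul_apply]
    choose k hk using h3
    have h6 : TensorProduct.equivFinsuppOfBasisLeft
        (MvPolynomial.basisMonomials (Sym2 (Fin 3)) ℂ) w = 0 := by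
      ext1 d
      by_contra hd
      have h7 : ∀ i, -(k i d : ℤ) = wtT T i + 2 := by
        intro i
        have h8 := hk i d
        have h9 := smul_left_injective ℂ (m := TensorProduct.equivFinsuppOfBasisLeft
          (MvPolynomial.basisMonomials (Sym2 (Fin 3)) ℂ) w d) hd h8
        exact_mod_cast h9
      have h10 := h7 0
      have h11 := h7 1
      have h12 := h7 2
      have hs1 := hs.1
      exact hs.2 ⟨by omega, by omega, by omega⟩
    have h13 := (LinearEquiv.map_eq_zero_iff _).1 h6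
    exact h13
  · exact (hq T).2 hc

end EA58
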