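import Pool.Agent.LibEA58.Basic

/-!
# The coinduction functor from `gl(3)`-modules to `sp(6)`-modules

For a `gl(3)`-module `M`, `CoG M = ℂ[Z] ⊗ M` with `Z` a symmetric `3 × 3` matrix of variables;
`X = (A B; C -Aᵀ)` acts by `X (f ⊗ m) = ξ_X f ⊗ m + ∑ (A - Z C)_{ij} f ⊗ E_ij m`, where `ξ_X` is
the derivation with `ξ_X Z = -(A Z + Z Aᵀ + B - Z C Z)`.
-/

open Matrix MvPolynomial TensorProduct

namespace EA58

/-- A `gl(3)`-module structure, given by the operators `E i j`. -/
class GL3 (M : Type) [AddCommGroup M] [Module ℂ M] where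
  e : Fin 3 → Fin 3 → M →ₗ[ℂ] M
  rel : ∀ (i j k l : Fin 3) (m : M), e i j (e k l m) - e k l (e i j m) =
    (if j = k then e i l m else 0) - (if l = i then e k j m else 0)

/-- Polynomials in the entries of a symmetric matrix. -/
abbrev P : Type := MvPolynomial (Sym2 (Fin 3)) ℂ

/-- The generic symmetric matrix. -/
noncomputable def Z : Matrix (Fin 3) (Fin 3) P := fun i j => MvPolynomial.X s(i, j)

theorem Z_symm : Zᵀ = Z := by
  ext1 i j
  simp [Z, Matrix.transpose_apply, Sym2.eq_swap]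

/-- Constant matrices. -/
noncomputable def cm (A : Matrix (Fin 3) (Fin 3) ℂ) : Matrix (Fin 3) (Fin 3) P :=
  A.map (algebraMap ℂ P)

theorem cm_mul (A B : Matrix (Fin 3) (Fin 3) ℂ) : cm (A * B) = cm A * cm B := by
  simp [cm, Matrix.map_mul]
theorem cm_add (A B : Matrix (Fin 3) (Fin 3) ℂ) : cm (A + B) = cm A + cm B := by
  ext1 i j; simp [cm]
theorem cm_sub (A B : Matrix (Fin 3) (Fin 3) ℂ) : cm (A - B) = cm A - cm B := by
  ext1 i j; simp [cm]
theorem cm_transpose (A : Matrix (Fin 3) (Fin 3) ℂ) : cm Aᵀ = (cm A)ᵀ := by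
  ext1 i j; simp [cm]
theorem cm_smul (c : ℂ) (A : Matrix (Fin 3) (Fin 3) ℂ) : cm (c • A) = c • cm A := by
  ext1 i j; simp [cm, MvPolynomial.smul_eq_C_mul]

/-- `-(A Z + Z Aᵀ + B - Z C Z)`. -/
noncomputable def dZ (X : G) : Matrix (Fin 3) (Fin 3) P :=
  -(cm (bA X) * Z + Z * (cm (bA X))ᵀ + cm (bB X) - Z * cm (bC X) * Z)

theorem dZ_symm (X : G) : (dZ X)ᵀ = dZ X := by
  simp only [dZ, Matrix.transpose_neg, Matrix.transpose_sub, Matrix.transpose_add,
    Matrix.transpose_mul, Matrix.transpose_transpose, Z_symm, ← cm_transpose, bB_symm, bC_symm]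
  simp only [← Matrix.mul_assoc]
  rw [add_comm (Z * cm (bA X)ᵀ)]

/-- The vector field of `X`. -/
noncomputable def xi (X : G) : Derivation ℂ P P :=
  MvPolynomial.mkDerivation ℂ (fun s => Sym2.lift ⟨fun i j => dZ X i j, fun i j => by
    conv_lhs => rw [← dZ_symm X]
    rfl⟩ s)

theorem xi_Z (X : G) (i j : Fin 3) : xi X (Z i j) = dZ X i j := by
  simp [xi, Z, MvPolynomial.mkDerivation_X]

theorem xi_map_Z (X : G) : Z.map (xi X) = dZ X := by
  ext1 i j; simp [xi_Z]

theorem map_mul_xi (X : G) (M N : Matrix (Fin 3) (Fin 3) P) :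
    (M * N).map (xi X) = M.map (xi X) * N + M * N.map (xi X) := by
  ext1 i j
  simp only [Matrix.map_apply, Matrix.mul_apply, Matrix.add_apply, map_sum, Derivation.leibniz,
    smul_eq_mul, ← Finset.sum_add_distrib]
  refine Finset.sum_congr rfl fun k _ => ?_
  ring

theorem map_cm_xi (X : G) (A : Matrix (Fin 3) (Fin 3) ℂ) : (cm A).map (xi X) = 0 := by
  ext1 i j
  simp [cm]

theorem map_add_xi (X : G) (M N : Matrix (Fin 3) (Fin 3) P) :
    (M + N).map (xi X) = M.map (xi X) + N.map (xi X) := by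
  ext1 i j; simp
theorem map_sub_xi (X : G) (M N : Matrix (Fin 3) (Fin 3) P) :
    (M - N).map (xi X) = M.map (xi X) - N.map (xi X) := by
  ext1 i j; simp
theorem map_neg_xi (X : G) (M : Matrix (Fin 3) (Fin 3) P) :
    (-M).map (xi X) = -(M.map (xi X)) := by
  ext1 i j; simp

theorem map_dZ (X Y : G) : (dZ Y).map (xi X) =
    -(cm (bA Y) * dZ X + dZ X * (cm (bA Y))ᵀ - (dZ X * cm (bC Y) * Z + Z * cm (bC Y) * dZ X)) := by
  rw [dZ, map_neg_xi, map_sub_xi, map_add_xi, map_add_xi, map_mul_xi, map_mul_xi, map_mul_xi,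
    map_mul_xi, ← cm_transpose, map_cm_xi, map_cm_xi, map_cm_xi, map_cm_xi, xi_map_Z]
  simp [cm_transpose]

theorem dZ_lie (X Y : G) : dZ ⁅X, Y⁆ = (dZ Y).map (xi X) - (dZ X).map (xi Y) := by
  rw [map_dZ, map_dZ]
  rw [dZ, (lie_blocks X Y).1, (lie_blocks X Y).2.1, (lie_blocks X Y).2.2]
  have hBX : (cm (bB X))ᵀ = cm (bB X) := by rw [← cm_transpose, bB_symm]
  have hBY : (cm (bB Y))ᵀ = cm (bB Y) := by rw [← cm_transpose, bB_symm]
  have hCX : (cm (bC X))ᵀ = cm (bC X) := by rw [← cm_transpose, bC_symm]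
  have hCY : (cm (bC Y))ᵀ = cm (bC Y) := by rw [← cm_transpose, bC_symm]
  simp only [cm_sub, cm_add, cm_mul, cm_transpose, Matrix.transpose_sub, Matrix.transpose_add,
    Matrix.transpose_mul, hBX, hBY, hCX, hCY, dZ]
  noncomm_ring

theorem xi_lie (X Y : G) (f : P) : xi ⁅X, Y⁆ f = xi X (xi Y f) - xi Y (xi X f) := by
  have : xi ⁅X, Y⁆ = ⁅xi X, xi Y⁆ := by
    apply MvPolynomial.derivation_ext
    intro s
    induction s using Sym2.ind with
    | _ i j =>
      have h := congrFun (congrFun (dZ_lie X Y) i) j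
      have h1 := xi_Z ⁅X, Y⁆ i j
      have h2 := xi_Z X i j
      have h3 := xi_Z Y i j
      simp only [Z] at h1 h2 h3
      rw [Derivation.commutator_apply, h1, h2, h3, h]
      rfl
  rw [this, Derivation.commutator_apply]

theorem xi_add (X Y : G) (f : P) : xi (X + Y) f = xi X f + xi Y f := by
  have : xi (X + Y) = xi X + xi Y := by
    apply MvPolynomial.derivation_ext
    intro s
    induction s using Sym2.ind with
    | _ i j =>
      have h1 := xi_Z (X + Y) i j
      have h2 := xi_Z X i j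
      have h3 := xi_Z Y i j
      simp only [Z] at h1 h2 h3
      rw [Derivation.add_apply, h1, h2, h3]
      simp only [dZ, bA_add, bB_add, bC_add, cm_add]
      simp [Matrix.add_mul, Matrix.mul_add]
      ring
  rw [this]; rfl

theorem xi_smul (c : ℂ) (X : G) (f : P) : xi (c • X) f = c • xi X f := by
  have : xi (c • X) = c • xi X := by
    apply MvPolynomial.derivation_ext
    intro s
    induction s using Sym2.ind with
    | _ i j =>
      have h1 := xi_Z (c • X) i j
      have h2 := xi_Z X i j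
      simp only [Z] at h1 h2
      rw [Derivation.smul_apply, h1, h2]
      have : dZ (c • X) = c • dZ X := by
        simp only [dZ, bA_smul, bB_smul, bC_smul, cm_smul, Matrix.transpose_smul]
        simp only [Matrix.smul_mul, Matrix.mul_smul, smul_sub, smul_add, smul_neg]
      rw [this]; rfl
  rw [this]; rfl

/-- `A - Z C`. -/
noncomputable def phi (X : G) : Matrix (Fin 3) (Fin 3) P := cm (bA X) - Z * cm (bC X)

theorem phi_lie (X Y : G) : phi ⁅X, Y⁆ =
    (phi Y).map (xi X) - (phi X).map (xi Y) + (phi X * phi Y - phi Y * phi X) := by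
  rw [phi, phi, phi, map_sub_xi, map_sub_xi, map_mul_xi, map_mul_xi, map_cm_xi, map_cm_xi,
    map_cm_xi, map_cm_xi, xi_map_Z, xi_map_Z, (lie_blocks X Y).1, (lie_blocks X Y).2.2]
  simp only [cm_sub, cm_add, cm_mul, cm_transpose, dZ]
  noncomm_ring

theorem phi_add (X Y : G) : phi (X + Y) = phi X + phi Y := by
  simp only [phi, bA_add, bC_add, cm_add]; noncomm_ring

theorem phi_smul (c : ℂ) (X : G) : phi (c • X) = c • phi X := by
  simp only [phi, bA_smul, bC_smul, cm_smul]
  simp [smul_sub]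

section

variable (M : Type) [AddCommGroup M] [Module ℂ M]

/-- The underlying space `ℂ[Z] ⊗ M` of the coinduced module. -/
abbrev CoG : Type := P ⊗[ℂ] M

variable {M}
variable [GL3 M]

/-- The action of `X ∈ g` on `ℂ[Z] ⊗ M`. -/
noncomputable def actG (X : G) : CoG M →ₗ[ℂ] CoG M :=
  TensorProduct.map (xi X).toLinearMap LinearMap.id +
    ∑ i, ∑ j, TensorProduct.map (LinearMap.mulLeft ℂ (phi X i j)) (GL3.e i j)

theorem actG_tm (X : G) (f : P) (m : M) :
    actG X (f ⊗ₜ m) = (xi X f) ⊗ₜ m + ∑ i, ∑ j, (phi X i j * f) ⊗ₜ (GL3.e i j m) := by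
  simp [actG, LinearMap.sum_apply]

theorem comm_key (a b : Matrix (Fin 3) (Fin 3) P) (f : P) (m : M) :
    (∑ i, ∑ j, ∑ k, ∑ l, (a k l * (b i j * f)) ⊗ₜ[ℂ] (GL3.e k l (GL3.e i j m))) -
    (∑ i, ∑ j, ∑ k, ∑ l, (b k l * (a i j * f)) ⊗ₜ[ℂ] (GL3.e k l (GL3.e i j m))) =
    ∑ i, ∑ j, ((a * b - b * a) i j * f) ⊗ₜ[ℂ] (GL3.e i j m) := by
  have h1 : (∑ i, ∑ j, ∑ k, ∑ l, (b k l * (a i j * f)) ⊗ₜ[ℂ] (GL3.e k l (GL3.e i j m))) =
      ∑ i, ∑ j, ∑ k, ∑ l, (a k l * (b i j * f)) ⊗ₜ[ℂ] (GL3.e i j (GL3.e k l m)) := by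
    calc _ = ∑ p : (Fin 3 × Fin 3), ∑ q : (Fin 3 × Fin 3), (b q.1 q.2 * (a p.1 p.2 * f)) ⊗ₜ[ℂ] (GL3.e q.1 q.2 (GL3.e p.1 p.2 m)) := by
          simp only [Fintype.sum_prod_type]
      _ = ∑ p : (Fin 3 × Fin 3), ∑ q : (Fin 3 × Fin 3), (a q.1 q.2 * (b p.1 p.2 * f)) ⊗ₜ[ℂ] (GL3.e p.1 p.2 (GL3.e q.1 q.2 m)) := by
          rw [Finset.sum_comm]
          refine Finset.sum_congr rfl fun p _ => Finset.sum_congr rfl fun q _ => ?_
          congr 1; ring
      _ = _ := by simp only [Fintype.sum_prod_type]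
  rw [h1]
  simp only [← Finset.sum_sub_distrib, ← TensorProduct.tmul_sub, GL3.rel]
  simp only [TensorProduct.tmul_sub, Finset.sum_sub_distrib]
  have h2 : ∀ (p : Prop) [Decidable p] (g : P) (x : M), g ⊗ₜ[ℂ] (if p then x else 0) = if p then g ⊗ₜ[ℂ] x else 0 := by
    intro p _ g x; split_ifs <;> simp
  simp only [h2]
  have h3 : (∑ i, ∑ j, ∑ k, ∑ l, if l = i then (a k l * (b i j * f)) ⊗ₜ[ℂ] (GL3.e k j m) else 0) =
      ∑ i, ∑ j, ((a * b) i j * f) ⊗ₜ[ℂ] (GL3.e i j m) := by
    simp only [Matrix.mul_apply, Finset.sum_mul, TensorProduct.sum_tmul]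
    simp only [Fin.sum_univ_three]
    simp
    simp only [mul_assoc]
    abel
  have h4 : (∑ i, ∑ j, ∑ k, ∑ l, if j = k then (a k l * (b i j * f)) ⊗ₜ[ℂ] (GL3.e i l m) else 0) =
      ∑ i, ∑ j, ((b * a) i j * f) ⊗ₜ[ℂ] (GL3.e i j m) := by
    have h5 : ∀ x y : P, x * (y * f) = y * x * f := by intro x y; ring
    simp only [Matrix.mul_apply, Finset.sum_mul, TensorProduct.sum_tmul]
    simp only [Fin.sum_univ_three]
    simp
    simp only [h5]
    abel
  rw [h3, h4]
  simp only [← Finset.sum_sub_distrib]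
  refine Finset.sum_congr rfl fun i _ => Finset.sum_congr rfl fun j _ => ?_
  rw [← TensorProduct.sub_tmul, ← sub_mul]; rfl

theorem actG_lie (X Y : G) (w : CoG M) :
    actG ⁅X, Y⁆ w = actG X (actG Y w) - actG Y (actG X w) := by
  induction w using TensorProduct.induction_on with
  | zero => simp
  | add a b ha hb => rw [map_add, ha, hb, map_add, map_add, map_add, map_add]; abel
  | tmul f m =>
    simp only [actG_tm, map_add, map_sum, xi_lie, phi_lie, Derivation.leibniz, smul_eq_mul]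
    have hk := comm_key (phi X) (phi Y) f m
    simp only [Finset.sum_add_distrib, Matrix.add_apply, Matrix.sub_apply, add_mul,
      TensorProduct.add_tmul, Matrix.map_apply, sub_mul, TensorProduct.sub_tmul,
      Finset.sum_sub_distrib] at hk ⊢
    rw [← hk]
    have h5 : ∀ x y : P, f * x = x * f := by intro x y; ring
    simp only [fun x : P => mul_comm f x]
    abel

noncomputable instance : LieRingModule G (CoG M) where
  bracket X w := actG X w
  add_lie X Y w := by
    show actG (X + Y) w = actG X w + actG Y w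
    induction w using TensorProduct.induction_on with
    | zero => simp
    | add a b ha hb => rw [map_add, ha, hb, map_add, map_add]; abel
    | tmul f m =>
      simp only [actG_tm, xi_add, phi_add, TensorProduct.add_tmul, Matrix.add_apply, add_mul,
        Finset.sum_add_distrib]
      abel
  lie_add X w w' := map_add _ _ _
  leibniz_lie X Y w := by
    show actG X (actG Y w) = actG ⁅X, Y⁆ w + actG Y (actG X w)
    rw [actG_lie]; abel

theorem lie_def (X : G) (w : CoG M) : ⁅X, w⁆ = actG X w := rfl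

theorem lie_tm (X : G) (f : P) (m : M) :
    ⁅X, (f ⊗ₜ m : CoG M)⁆ = (xi X f) ⊗ₜ m + ∑ i, ∑ j, (phi X i j * f) ⊗ₜ (GL3.e i j m) :=
  actG_tm X f m

noncomputable instance : LieModule ℂ G (CoG M) where
  smul_lie c X w := by
    rw [lie_def, lie_def]
    induction w using TensorProduct.induction_on with
    | zero => simp
    | add a b ha hb => rw [map_add, ha, hb, map_add, smul_add]
    | tmul f m =>
      simp only [actG_tm, xi_smul, phi_smul, Matrix.smul_apply, smul_add, Finset.smul_sum,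
        TensorProduct.smul_tmul', smul_mul_assoc]
  lie_smul c X w := by
    rw [lie_def, lie_def, map_smul]

end

section functor

variable {M N : Type} [AddCommGroup M] [Module ℂ M] [GL3 M] [AddCommGroup N] [Module ℂ N] [GL3 N]

/-- The functor `CoG` on maps. -/
noncomputable def CoG.map (f : M →ₗ[ℂ] N) (hf : ∀ i j m, f (GL3.e i j m) = GL3.e i j (f m)) :
    CoG M →ₗ⁅ℂ,G⁆ CoG N where
  toLinearMap := f.lTensor P
  map_lie' := by
    intro X w
    show f.lTensor P (actG X w) = actG X (f.lTensor P w)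
    induction w using TensorProduct.induction_on with
    | zero => simp
    | add a b ha hb => rw [map_add, map_add, ha, hb, map_add, map_add]
    | tmul g m => simp [actG_tm, hf]

theorem CoG.map_tm (f : M →ₗ[ℂ] N) (hf) (g : P) (m : M) :
    CoG.map f hf (g ⊗ₜ m) = g ⊗ₜ f m := rfl

end functor

end EA58
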