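import Mathlib

/-!
# Category `O` for `sp(6, ℂ)`: the definitions used in the statement

`g = sp(6, ℂ)` is Mathlib's symplectic Lie algebra: matrices `(A B; C -Aᵀ)` with `B`, `C`
symmetric.  The Cartan subalgebra consists of the diagonal matrices `diag(a, -a)`, weights are
vectors `μ : Fin 3 → ℂ` (the value of `μ` at `diag(a, -a)` is `∑ a i μ i`), and the positive
nilpotent subalgebra `n` consists of the matrices with `A` strictly upper triangular and `C = 0`.
-/

open Matrix

namespace EA58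

/-- The Lie algebra `g = sp(6, ℂ)`. -/
abbrev G : Type := LieAlgebra.Symplectic.sp (Fin 3) ℂ

/-- The matrix `(A B; C -Aᵀ)`. -/
def blk (A B C : Matrix (Fin 3) (Fin 3) ℂ) : Matrix (Fin 3 ⊕ Fin 3) (Fin 3 ⊕ Fin 3) ℂ :=
  Matrix.fromBlocks A B C (-Aᵀ)

theorem blk_mem (A B C : Matrix (Fin 3) (Fin 3) ℂ) (hB : Bᵀ = B) (hC : Cᵀ = C) :
    blk A B C ∈ LieAlgebra.Symplectic.sp (Fin 3) ℂ := by
  simp only [LieAlgebra.Symplectic.sp, mem_skewAdjointMatricesLieSubalgebra,
    mem_skewAdjointMatricesSubmodule, Matrix.IsSkewAdjoint, Matrix.IsAdjointPair, blk, Matrix.J]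
  rw [Matrix.fromBlocks_transpose, Matrix.fromBlocks_multiply, Matrix.fromBlocks_neg,
    Matrix.fromBlocks_multiply]
  simp [hB, hC]

/-- The element `(A B; C -Aᵀ)` of `g`. -/
def mk (A B C : Matrix (Fin 3) (Fin 3) ℂ) (hB : Bᵀ = B) (hC : Cᵀ = C) : G :=
  ⟨blk A B C, blk_mem A B C hB hC⟩

/-- The element `diag(a, -a)` of the Cartan subalgebra `h`. -/
def hdiag (a : Fin 3 → ℂ) : G :=
  mk (Matrix.diagonal a) 0 0 (by simp) (by simp)

/-- The positive nilpotent subalgebra `n`: `A` strictly upper triangular and `C = 0`. -/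
def IsPos (X : G) : Prop :=
  (∀ i j : Fin 3, j ≤ i → X.1 (Sum.inl i) (Sum.inl j) = 0) ∧
    ∀ i j : Fin 3, X.1 (Sum.inr i) (Sum.inl j) = 0

/-- Weights. -/
abbrev Wt : Type := Fin 3 → ℂ

section modules

variable (M : Type) [AddCommGroup M] [Module ℂ M] [LieRingModule G M] [LieModule ℂ G M]

/-- `m` is a weight vector of weight `μ` (or zero). -/
def IsWtVec {M : Type} [AddCommGroup M] [Module ℂ M] [LieRingModule G M] (μ : Wt) (m : M) : Prop :=
  ∀ a : Fin 3 → ℂ, ⁅hdiag a, m⁆ = (∑ i, a i * μ i) • m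

/-- `M` lies in the BGG category `O`: it is finitely generated, spanned by weight vectors, and
every vector lies in a finite-dimensional subspace stable under `n`. -/
structure InO : Prop where
  fg : ∃ S : Finset M, LieSubmodule.lieSpan ℂ G (S : Set M) = ⊤
  ss : Submodule.span ℂ {m : M | ∃ μ : Wt, IsWtVec μ m} = ⊤
  nil : ∀ m : M, ∃ V : Submodule ℂ M, m ∈ V ∧ FiniteDimensional ℂ V ∧
    ∀ X : G, IsPos X → ∀ v ∈ V, ⁅X, v⁆ ∈ V

/-- `M` is the simple highest weight module `L(μ)`. -/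
structure IsSimpleHW (μ : Wt) : Prop where
  irr : LieModule.IsIrreducible ℂ G M
  hw : ∃ v : M, v ≠ 0 ∧ IsWtVec μ v ∧ ∀ X : G, IsPos X → ⁅X, v⁆ = 0

end modules

/-- The Weyl group of `sp(6)`: signed permutations.  `w` acts on weights by
`(w μ) i = sgn i * μ (perm⁻¹ i)`. -/
@[ext]
structure W where
  perm : Equiv.Perm (Fin 3)
  sgn : Fin 3 → ℤˣ
deriving DecidableEq, Fintype

namespace W

instance : Mul W :=
  ⟨fun w w' => ⟨w.perm * w'.perm, fun i => w.sgn i * w'.sgn (w.perm⁻¹ i)⟩⟩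

instance : One W := ⟨⟨1, fun _ => 1⟩⟩

instance : Inv W := ⟨fun w => ⟨w.perm⁻¹, fun i => (w.sgn (w.perm i))⁻¹⟩⟩

theorem mul_def (w w' : W) :
    w * w' = ⟨w.perm * w'.perm, fun i => w.sgn i * w'.sgn (w.perm⁻¹ i)⟩ := rfl

theorem one_def : (1 : W) = ⟨1, fun _ => 1⟩ := rfl

theorem inv_def (w : W) : w⁻¹ = ⟨w.perm⁻¹, fun i => (w.sgn (w.perm i))⁻¹⟩ := rfl

instance : Group W where
  mul_assoc a b c := by
    simp only [mul_def, W.mk.injEq, mul_assoc, true_and]
    funext i
    simp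
  one_mul a := by
    ext i <;> simp [mul_def, one_def]
  mul_one a := by
    ext i <;> simp [mul_def, one_def]
  inv_mul_cancel a := by
    ext i <;> simp [mul_def, one_def, inv_def]

/-- The action on weights. -/
def act (w : W) (μ : Wt) : Wt := fun i => ((w.sgn i : ℤ) : ℂ) * μ (w.perm⁻¹ i)

/-- The simple reflections: `s 0 = s_{ε₁-ε₂}`, `s 1 = s_{ε₂-ε₃}`, `s 2 = s_{2ε₃}`. -/
def s : Fin 3 → W
  | 0 => ⟨Equiv.swap 0 1, fun _ => 1⟩
  | 1 => ⟨Equiv.swap 1 2, fun _ => 1⟩
  | 2 => ⟨1, fun i => if i = 2 then -1 else 1⟩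

/-- The length function with respect to the simple reflections. -/
noncomputable def len (w : W) : ℕ :=
  sInf {n : ℕ | ∃ l : List (Fin 3), l.length = n ∧ (l.map s).prod = w}

end W

/-- `ρ = (3, 2, 1)`, half the sum of the positive roots. -/
def rho : Wt := ![3, 2, 1]

/-- The dot action. -/
def dot (w : W) (μ : Wt) : Wt := w.act (μ + rho) - rho

/-- `λ` is integral and dominant for the dot action: `⟨λ + ρ, α^∨⟩ ∈ ℕ` for the three simple
roots. -/
def DomInt (lam : Wt) : Prop :=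
  (∃ n : ℕ, (lam + rho) 0 - (lam + rho) 1 = n) ∧ (∃ n : ℕ, (lam + rho) 1 - (lam + rho) 2 = n) ∧
    ∃ n : ℕ, (lam + rho) 2 = n

/-- The dot-stabiliser of `λ` is generated by all simple reflections except exactly one. -/
def MaxStab (lam : Wt) : Prop :=
  ∃ i : Fin 3, ∀ w : W, dot w lam = lam ↔ w ∈ Subgroup.closure (W.s '' {j | j ≠ i})

/-- `x` is a longest representative of its coset `x W_λ`. -/
def LongestRep (lam : Wt) (x : W) : Prop :=
  ∀ u : W, dot u lam = lam → W.len (x * u) ≤ W.len x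

/-- `w₀` is the longest element of `W`. -/
def IsLongest (w₀ : W) : Prop := ∀ w : W, W.len w ≤ W.len w₀

/-- `u₀` is the longest element of `W_λ`. -/
def IsLongestStab (lam : Wt) (u₀ : W) : Prop :=
  dot u₀ lam = lam ∧ ∀ u : W, dot u lam = lam → W.len u ≤ W.len u₀

section block

variable (lam : Wt) (M : Type) [AddCommGroup M] [Module ℂ M] [LieRingModule G M]
  [LieModule ℂ G M]

/-- `M` lies in the block `O_λ` (`λ` integral): `M` lies in `O` and every simple subquotient
of `M` is isomorphic to `L(w · λ)` for some `w` in the Weyl group.  (A simple subquotient is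
a simple quotient of a submodule.) -/
structure InBlock : Prop extends InO M where
  jh : ∀ (N : LieSubmodule ℂ G M) (S : Type) [AddCommGroup S] [Module ℂ S] [LieRingModule G S]
    [LieModule ℂ G S] (f : N →ₗ⁅ℂ,G⁆ S), Function.Surjective f → LieModule.IsIrreducible ℂ G S →
      ∃ w : W, IsSimpleHW S (dot w lam)

/-- `P` is a projective object of `O_λ`. -/
structure IsProj (P : Type) [AddCommGroup P] [Module ℂ P] [LieRingModule G P]
    [LieModule ℂ G P] : Prop where
  mem : InBlock lam P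
  lift : ∀ (M N : Type) [AddCommGroup M] [Module ℂ M] [LieRingModule G M] [LieModule ℂ G M]
    [AddCommGroup N] [Module ℂ N] [LieRingModule G N] [LieModule ℂ G N]
    (f : M →ₗ⁅ℂ,G⁆ N) (g : P →ₗ⁅ℂ,G⁆ N), InBlock lam M → InBlock lam N →
      Function.Surjective f → ∃ h : P →ₗ⁅ℂ,G⁆ M, ∀ p, f (h p) = g p

/-- `M` has a resolution `0 → P_n → ⋯ → P_0 → M → 0` by projective objects of `O_λ`. -/
def PdLE : ℕ → ∀ (M : Type) [AddCommGroup M] [Module ℂ M] [LieRingModule G M]
    [LieModule ℂ G M], Prop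
  | 0, M, _, _, _, _ => IsProj lam M
  | n + 1, M, _, _, _, _ =>
      ∃ (P : Type) (_ : AddCommGroup P) (_ : Module ℂ P) (_ : LieRingModule G P)
        (_ : LieModule ℂ G P) (f : P →ₗ⁅ℂ,G⁆ M),
        IsProj lam P ∧ Function.Surjective f ∧ PdLE n f.ker

/-- The projective dimension of `M` in `O_λ`: the least length of a projective resolution. -/
noncomputable def pd : ℕ∞ := ⨅ n : {n : ℕ // PdLE lam n M}, ((n : ℕ) : ℕ∞)

end block

/-- The formula of Q1 for `g = sp(6)` (with a given function `a` on the Weyl group):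
`pd_{O_λ} L(x · λ) = a(w₀ x) + a(w₀ w₀^λ)` for all integral dominant `λ` with `W_λ` maximal and
all longest coset representatives `x`. -/
def Formula (a : W → ℕ) : Prop :=
  ∀ lam : Wt, DomInt lam → MaxStab lam → ∀ x : W, LongestRep lam x →
    ∀ w₀ u₀ : W, IsLongest w₀ → IsLongestStab lam u₀ →
      ∀ (L : Type) [AddCommGroup L] [Module ℂ L] [LieRingModule G L] [LieModule ℂ G L],
        IsSimpleHW L (dot x lam) → pd lam L = ((a (w₀ * x) + a (w₀ * u₀) : ℕ) : ℕ∞)

end EA58
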