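import Pool.Agent.LibEA58.LModsC

/-!
# The `gl(3)`-module `M(B)`
-/

open Matrix MvPolynomial TensorProduct

namespace EA58

/-- The operators on the Verma type module `M(B) = ℂ[F₀, F₁] v₀ ⊕ ℂ[F₀, F₁] v₁`. -/
noncomputable def eB : Fin 3 → Fin 3 → (Q × Q) →ₗ[ℂ] (Q × Q)
  | 0, 0 => -((mu 0 ∘ₗ dl 0).prodMap (mu 0 ∘ₗ dl 0))
      - LinearMap.prod (LinearMap.fst ℂ Q Q) 0 - (2 : ℂ) • LinearMap.id
  | 0, 1 => -((mu 1 ∘ₗ dl 0).prodMap (mu 1 ∘ₗ dl 0)) - LinearMap.prod 0 (LinearMap.fst ℂ Q Q)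
  | 1, 0 => -((mu 0 ∘ₗ dl 1).prodMap (mu 0 ∘ₗ dl 1)) - LinearMap.prod (LinearMap.snd ℂ Q Q) 0
  | 1, 1 => -((mu 1 ∘ₗ dl 1).prodMap (mu 1 ∘ₗ dl 1))
      - LinearMap.prod 0 (LinearMap.snd ℂ Q Q) - (2 : ℂ) • LinearMap.id
  | 2, 2 => th.prodMap th - LinearMap.id
  | 2, 0 => (mu 0).prodMap (mu 0)
  | 2, 1 => (mu 1).prodMap (mu 1)
  | 0, 2 => -((th ∘ₗ dl 0 + dl 0).prodMap (th ∘ₗ dl 0 + dl 0))
      - LinearMap.prod (dl 0 ∘ₗ LinearMap.fst ℂ Q Q) (dl 1 ∘ₗ LinearMap.fst ℂ Q Q)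
  | 1, 2 => -((th ∘ₗ dl 1 + dl 1).prodMap (th ∘ₗ dl 1 + dl 1))
      - LinearMap.prod (dl 0 ∘ₗ LinearMap.snd ℂ Q Q) (dl 1 ∘ₗ LinearMap.snd ℂ Q Q)

theorem eB00 (f g : Q) : eB 0 0 (f, g) =
    (-(X 0 * pderiv 0 f) - f - 2 * f, -(X 0 * pderiv 0 g) - 2 * g) := by
  simp [eB, smul_eq_C_mul, C2_eq]
theorem eB01 (f g : Q) : eB 0 1 (f, g) = (-(X 1 * pderiv 0 f), -(X 1 * pderiv 0 g) - f) := by
  simp [eB]
theorem eB10 (f g : Q) : eB 1 0 (f, g) = (-(X 0 * pderiv 1 f) - g, -(X 0 * pderiv 1 g)) := by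
  simp [eB]
theorem eB11 (f g : Q) : eB 1 1 (f, g) =
    (-(X 1 * pderiv 1 f) - 2 * f, -(X 1 * pderiv 1 g) - g - 2 * g) := by
  simp [eB, smul_eq_C_mul, C2_eq]
theorem eB22 (f g : Q) : eB 2 2 (f, g) =
    (X 0 * pderiv 0 f + X 1 * pderiv 1 f - f, X 0 * pderiv 0 g + X 1 * pderiv 1 g - g) := by
  simp [eB]
theorem eB20 (f g : Q) : eB 2 0 (f, g) = (X 0 * f, X 0 * g) := by
  simp [eB]
theorem eB21 (f g : Q) : eB 2 1 (f, g) = (X 1 * f, X 1 * g) := by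
  simp [eB]
theorem eB02 (f g : Q) : eB 0 2 (f, g) =
    (-(X 0 * pderiv 0 (pderiv 0 f) + X 1 * pderiv 0 (pderiv 1 f) + pderiv 0 f) - pderiv 0 f,
    -(X 0 * pderiv 0 (pderiv 0 g) + X 1 * pderiv 0 (pderiv 1 g) + pderiv 0 g) - pderiv 1 f) := by
  simp [eB, pd_10]
theorem eB12 (f g : Q) : eB 1 2 (f, g) =
    (-(X 0 * pderiv 0 (pderiv 1 f) + X 1 * pderiv 1 (pderiv 1 f) + pderiv 1 f) - pderiv 0 g,
    -(X 0 * pderiv 0 (pderiv 1 g) + X 1 * pderiv 1 (pderiv 1 g) + pderiv 1 g) - pderiv 1 g) := by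
  simp [eB]

theorem eB_rel (i j k l : Fin 3) (m : Q × Q) : eB i j (eB k l m) - eB k l (eB i j m) =
    (if j = k then eB i l m else 0) - (if l = i then eB k j m else 0) := by
  obtain ⟨f, g⟩ := m
  fin_cases i <;> fin_cases j <;> fin_cases k <;> fin_cases l <;>
    simp only [Fin.zero_eta, Fin.mk_one, Fin.reduceFinMk, Fin.isValue, Fin.reduceEq, if_true,
      if_false, eB00, eB01, eB02, eB10, eB11, eB12, eB20, eB21, eB22, map_add, map_sub, map_neg,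
      pd_X0_0, pd_X0_1, pd_X1_0, pd_X1_1, pd_2, pd_10, zero_ne_one, one_ne_zero,
      Prod.mk_sub_mk, sub_zero, zero_sub, Prod.neg_mk, sub_self] <;>
    first
    | rfl
    | (apply Prod.ext <;> simp only [Prod.fst_zero, Prod.snd_zero] <;> ring)

noncomputable instance : GL3 (Q × Q) := ⟨eB, eB_rel⟩

end EA58
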