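import Pool.Agent.LibEA58.LModsB
import Pool.Agent.LibEA58.LModsD

/-!
# The `gl(3)`-modules of the extension
-/
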