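import Pool.Agent.LibEA58.GoodCo
import Pool.Agent.LibEA58.LMods

/-!
# The six modules are good
-/

open MvPolynomial TensorProduct

namespace EA58

set_option linter.unusedSimpArgs false

section
variable {V : Type} [AddCommGroup V] [Module ℂ V] [GL21 V]

/-- A weight basis of a `gl(2) × gl(1)`-module. -/
structure WB21 (V : Type) [AddCommGroup V] [Module ℂ V] [GL21 V] (κ : Type) where
  b : Module.Basis κ ℂ V
  wt : κ → Fin 3 → ℤ
  hwt0 : ∀ j, GL21.e 0 0 (b j) = (wt j 0 : ℂ) • b j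
  hwt1 : ∀ j, GL21.e 1 1 (b j) = (wt j 1 : ℂ) • b j
  hwt2 : ∀ j, GL21.c (b j) = (wt j 2 : ℂ) • b j
  sum : ∀ j, wt j 0 + wt j 1 + wt j 2 = -6
  bdd : ∃ K : ℤ, ∀ j, ht (wt j) ≤ K ∧ wt j 2 ≤ K ∧ -K ≤ wt j 2
  fin : ∀ μ : Fin 3 → ℤ, {j | wt j = μ}.Finite

theorem mu_dl_mono (i : Fin 2) (a : Fin 2 →₀ ℕ) :
    (mu i (dl i (monomial a 1)) : Q) = (a i : ℂ) • monomial a 1 := by
  show MvPolynomial.X i * pderiv i (monomial a (1 : ℂ)) = _
  rw [pderiv_monomial, one_mul, MvPolynomial.smul_monomial, MvPolynomial.X, monomial_mul, one_mul]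
  by_cases h : a i = 0
  · simp [h]
  · have h2 : Finsupp.single i 1 + (a - Finsupp.single i 1) = a := by
      ext k
      simp only [Finsupp.add_apply, Finsupp.coe_tsub, Pi.sub_apply, Finsupp.single_apply]
      split_ifs with hk
      · subst hk; omega
      · omega
    rw [h2]; simp

theorem fin2_finite (N : ℕ) : {a : Fin 2 →₀ ℕ | a 0 ≤ N ∧ a 1 ≤ N}.Finite := by
  have : {a : Fin 2 →₀ ℕ | a 0 ≤ N ∧ a 1 ≤ N} ⊆
      (Set.range fun p : Fin (N + 1) × Fin (N + 1) =>
        Finsupp.single (0 : Fin 2) (p.1 : ℕ) + Finsupp.single (1 : Fin 2) (p.2 : ℕ)) := by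
    rintro a ⟨h0, h1⟩
    refine ⟨(⟨a 0, by omega⟩, ⟨a 1, by omega⟩), ?_⟩
    ext k
    fin_cases k <;> simp
  exact (Set.finite_range _).subset this

/-- The weights of `ℂ[u] ⊗ V`. -/
def wtCo (w : Fin 3 → ℤ) (a : Fin 2 →₀ ℕ) : Fin 3 → ℤ :=
  ![w 0 - a 0, w 1 - a 1, w 2 + a 0 + a 1]

/-- The weight basis of `ℂ[u] ⊗ V`. -/
theorem wb_CoL {κ : Type} (B : WB21 V κ) : Nonempty (WB (CoL V) ((Fin 2 →₀ ℕ) × κ)) := by
  refine ⟨⟨(MvPolynomial.basisMonomials (Fin 2) ℂ).tensorProduct B.b,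
    fun p => wtCo (B.wt p.2) p.1, ?_, ?_, ?_, ?_⟩⟩
  · rintro ⟨a, k⟩ i
    rw [Module.Basis.tensorProduct_apply]
    simp only [MvPolynomial.coe_basisMonomials]
    have h0 := mu_dl_mono 0 a
    have h1 := mu_dl_mono 1 a
    have e0 := B.hwt0 k
    have e1 := B.hwt1 k
    have e2 := B.hwt2 k
    fin_cases i
    · show eCo 0 0 _ = ((wtCo (B.wt k) a 0 : ℤ) : ℂ) • _
      simp only [eCo, LinearMap.add_apply, LinearMap.neg_apply, TensorProduct.map_tmul,
        LinearMap.comp_apply, LinearMap.id_apply, h0, e0, wtCo]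
      simp only [← TensorProduct.smul_tmul', TensorProduct.tmul_smul]
      simp only [Matrix.cons_val_zero, Matrix.cons_val_one, Matrix.cons_val, Int.cast_sub,
        Int.cast_natCast]
      module
    · show eCo 1 1 _ = ((wtCo (B.wt k) a 1 : ℤ) : ℂ) • _
      simp only [eCo, LinearMap.add_apply, LinearMap.neg_apply, TensorProduct.map_tmul,
        LinearMap.comp_apply, LinearMap.id_apply, h1, e1, wtCo]
      simp only [← TensorProduct.smul_tmul', TensorProduct.tmul_smul]
      simp only [Matrix.cons_val_zero, Matrix.cons_val_one, Matrix.cons_val, Int.cast_sub,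
        Int.cast_natCast]
      module
    · show eCo 2 2 _ = ((wtCo (B.wt k) a 2 : ℤ) : ℂ) • _
      simp only [eCo, LinearMap.add_apply, LinearMap.neg_apply, TensorProduct.map_tmul,
        LinearMap.comp_apply, LinearMap.id_apply, h0, h1, e2, wtCo, TensorProduct.add_tmul]
      simp only [← TensorProduct.smul_tmul', TensorProduct.tmul_smul]
      simp only [Matrix.cons_val_zero, Matrix.cons_val_one, Matrix.cons_val, Int.cast_add,
        Int.cast_natCast]
      module
  · rintro ⟨a, k⟩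
    have := B.sum k
    simp only [wtCo, Matrix.cons_val_zero, Matrix.cons_val_one, Matrix.cons_val]
    linarith
  · obtain ⟨K, hK⟩ := B.bdd
    refine ⟨K, ?_⟩
    rintro ⟨a, k⟩
    have := (hK k).1
    simp only [ht, wtCo, Matrix.cons_val_zero, Matrix.cons_val_one, Matrix.cons_val] at this ⊢
    have h1 : (0 : ℤ) ≤ (a 0 : ℤ) := Int.natCast_nonneg _
    have h2 : (0 : ℤ) ≤ (a 1 : ℤ) := Int.natCast_nonneg _
    linarith
  · intro μ
    obtain ⟨K, hK⟩ := B.bdd
    have hsub : {p : (Fin 2 →₀ ℕ) × κ | wtCo (B.wt p.2) p.1 = μ} ⊆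
        ⋃ a ∈ {a : Fin 2 →₀ ℕ | a 0 ≤ (μ 2 + K).toNat ∧ a 1 ≤ (μ 2 + K).toNat},
          (fun k => (a, k)) '' {k | B.wt k = ![μ 0 + a 0, μ 1 + a 1, μ 2 - a 0 - a 1]} := by
      rintro ⟨a, k⟩ h
      simp only [Set.mem_ofPred_eq, wtCo] at h
      have h0 := congrFun h 0
      have h1 := congrFun h 1
      have h2 := congrFun h 2
      simp only [Matrix.cons_val_zero, Matrix.cons_val_one, Matrix.cons_val] at h0 h1 h2
      have hk := (hK k).2.2
      simp only [Set.mem_iUnion]
      refine ⟨a, ?_, k, ?_, rfl⟩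
      · constructor <;> omega
      · ext i
        fin_cases i
        · simp; omega
        · simp; omega
        · simp; omega
    refine Set.Finite.subset ?_ hsub
    exact Set.Finite.biUnion (fin2_finite _) fun a _ => (B.fin _).image _

/-- The map `v ↦ 1 ⊗ v`. -/
noncomputable def iot (V : Type) [AddCommGroup V] [Module ℂ V] : V →ₗ[ℂ] CoL V :=
  TensorProduct.mk ℂ Q V 1

omit [GL21 V] in
theorem tm_smul (f : Q) (v : V) : (f ⊗ₜ[ℂ] v : CoL V) = f • iot V v := by
  rw [iot, TensorProduct.mk_apply, TensorProduct.smul_tmul', smul_eq_mul, mul_one]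

/-- The scalar by which `∑ E_ij E_ji + 4 ∑ E_ii` acts on `ℂ[u] ⊗ V`. -/
theorem cas_CoL
    (h : ∀ v : V, (∑ i, ∑ j, GL21.e i j (GL21.e j i v)) + GL21.c (GL21.c v) +
      (5 : ℂ) • (∑ i, GL21.e i i v) + (2 : ℂ) • GL21.c v = (-12 : ℂ) • v) (m : CoL V) :
    (∑ i, ∑ j, GL3.e i j (GL3.e j i m)) + (4 : ℂ) • ∑ i, GL3.e i i m = (-12 : ℂ) • m := by
  show (∑ i, ∑ j, eCo i j (eCo j i m)) + (4 : ℂ) • ∑ i, eCo i i m = (-12 : ℂ) • m
  induction m using TensorProduct.induction_on with
  | zero => simp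
  | add x y hx hy =>
    simp only [map_add, smul_add, Finset.sum_add_distrib] at hx hy ⊢
    rw [← hx, ← hy]
    abel
  | tmul f v =>
    have h' := congrArg (iot V) (h v)
    simp only [Fin.sum_univ_three, Fin.sum_univ_two] at h' ⊢
    simp only [map_add, map_smul] at h'
    simp only [eCo, LinearMap.add_apply, LinearMap.sub_apply, LinearMap.neg_apply,
      TensorProduct.map_tmul, LinearMap.comp_apply, LinearMap.id_apply, map_add, map_sub, map_neg,
      LinearMap.mulLeft_apply, TensorProduct.add_tmul]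
    simp only [tm_smul]
    simp [Derivation.leibniz, pderiv_X, Pi.single_apply, pd_10]
    have h4 : ∀ x : CoL V, (4 : ℂ) • x = (4 : Q) • x := fun x => by
      rw [← algebraMap_smul Q (4 : ℂ) x, map_ofNat]
    have h5 : ∀ x : CoL V, (5 : ℂ) • x = (5 : Q) • x := fun x => by
      rw [← algebraMap_smul Q (5 : ℂ) x, map_ofNat]
    have h2 : ∀ x : CoL V, (2 : ℂ) • x = (2 : Q) • x := fun x => by
      rw [← algebraMap_smul Q (2 : ℂ) x, map_ofNat]
    have h12 : ∀ x : CoL V, (-12 : ℂ) • x = (-12 : Q) • x := fun x => by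
      rw [← algebraMap_smul Q (-12 : ℂ) x, map_neg, map_ofNat]
    simp only [h4, h5, h2, h12] at h' ⊢
    linear_combination (norm := module) f • h'

end

theorem good_of_WB21 {V : Type} [AddCommGroup V] [Module ℂ V] [GL21 V] {κ : Type} (B : WB21 V κ)
    (h : ∀ v : V, (∑ i, ∑ j, GL21.e i j (GL21.e j i v)) + GL21.c (GL21.c v) +
      (5 : ℂ) • (∑ i, GL21.e i i v) + (2 : ℂ) • GL21.c v = (-12 : ℂ) • v) : Good (CoG (CoL V)) := by
  obtain ⟨B'⟩ := wb_CoL B
  exact good_CoG B' (cas_CoL h)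

theorem good_4 : Good (CoG (CoL ℂ)) := by
  refine good_of_WB21 (κ := Unit) ⟨Module.Basis.singleton Unit ℂ, fun _ => ![-2, -2, -2],
    ?_, ?_, ?_, ?_, ?_, ?_⟩ ?_
  · intro j; simp [GL21.e]
  · intro j; simp [GL21.e]
  · intro j; simp [GL21.c]
  · intro j; simp
  · exact ⟨100, fun j => by simp [ht]⟩
  · intro μ; exact Set.toFinite _
  · intro v
    simp [Fin.sum_univ_two, GL21.e, GL21.c]
    ring

theorem good_3 : Good (CoG (CoL (Fin 2 → ℂ))) := by
  refine good_of_WB21 (κ := Fin 2) ⟨Pi.basisFun ℂ (Fin 2), ![![-3, -2, -1], ![-2, -3, -1]],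
    ?_, ?_, ?_, ?_, ?_, ?_⟩ ?_
  · intro j
    ext k
    fin_cases j <;> fin_cases k <;> simp [GL21.e] <;> norm_num
  · intro j
    ext k
    fin_cases j <;> fin_cases k <;> simp [GL21.e] <;> norm_num
  · intro j
    ext k
    fin_cases j <;> fin_cases k <;> simp [GL21.c]
  · intro j; fin_cases j <;> simp
  · exact ⟨100, fun j => by fin_cases j <;> simp [ht]⟩
  · intro μ; exact Set.toFinite _
  · intro v
    ext k
    fin_cases k <;> simp [Fin.sum_univ_two, GL21.e, GL21.c] <;> ring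

theorem X_derivative_monomial (n : ℕ) :
    (Polynomial.X * Polynomial.derivative (Polynomial.monomial n (1 : ℂ)) : Polynomial ℂ) =
      (n : ℂ) • Polynomial.monomial n 1 := by
  rw [Polynomial.derivative_monomial, one_mul, Polynomial.X_mul_monomial, Polynomial.smul_monomial]
  rcases n with _ | n
  · simp
  · simp

theorem good_2 : Good (CoG (CoL (Polynomial ℂ))) := by
  refine good_of_WB21 (κ := ℕ) ⟨Polynomial.basisMonomials ℂ,
    fun n => ![-(n : ℤ) - 3, (n : ℤ) - 3, 0], ?_, ?_, ?_, ?_, ?_, ?_⟩ ?_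
  · intro j
    rw [Polynomial.coe_basisMonomials]
    show -(Polynomial.X * Polynomial.derivative (Polynomial.monomial j (1 : ℂ)))
      - (3 : ℂ) • Polynomial.monomial j (1 : ℂ) = _
    rw [X_derivative_monomial]
    simp only [Matrix.cons_val_zero, Int.cast_sub, Int.cast_neg, Int.cast_natCast, Int.cast_ofNat]
    module
  · intro j
    rw [Polynomial.coe_basisMonomials]
    show (Polynomial.X * Polynomial.derivative (Polynomial.monomial j (1 : ℂ)))
      - (3 : ℂ) • Polynomial.monomial j (1 : ℂ) = _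
    rw [X_derivative_monomial]
    simp only [Matrix.cons_val_one, Matrix.cons_val_zero, Int.cast_sub, Int.cast_neg,
      Int.cast_natCast, Int.cast_ofNat]
    module
  · intro j; simp [GL21.c]
  · intro j; simp; ring
  · exact ⟨100, fun j => by simp [ht]; omega⟩
  · intro μ
    refine Set.Subsingleton.finite ?_
    intro a ha b hb
    simp only [Set.mem_ofPred_eq] at ha hb
    have := congrFun (ha.trans hb.symm) 1
    simp at this
    exact_mod_cast this
  · intro v
    have h3 : (Polynomial.C (3 : ℂ)) = 3 := map_ofNat _ 3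
    have h5 : (Polynomial.C (5 : ℂ)) = 5 := map_ofNat _ 5
    have h12 : (Polynomial.C (12 : ℂ)) = 12 := map_ofNat _ 12
    simp [Fin.sum_univ_two, GL21.e, GL21.c, Polynomial.smul_eq_C_mul]
    rw [h3, h5, h12]
    ring

theorem good_1 : Good (CoG (CoL (ℕ →₀ ℂ))) := by
  refine good_of_WB21 (κ := ℕ) ⟨Finsupp.basisSingleOne,
    fun n => ![-(n : ℤ) - 3, (n : ℤ) - 3, 0], ?_, ?_, ?_, ?_, ?_, ?_⟩ ?_
  · intro j
    show delE 0 0 _ = _
    simp only [Finsupp.coe_basisSingleOne, delE_00]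
    simp
  · intro j
    show delE 1 1 _ = _
    simp only [Finsupp.coe_basisSingleOne, delE_11]
    simp
  · intro j; simp [GL21.c]
  · intro j; simp; ring
  · exact ⟨100, fun j => by simp [ht]; omega⟩
  · intro μ
    refine Set.Subsingleton.finite ?_
    intro a ha b hb
    simp only [Set.mem_ofPred_eq] at ha hb
    have := congrFun (ha.trans hb.symm) 1
    simp at this
    exact_mod_cast this
  · intro v
    show (∑ i, ∑ j, delE i j (delE j i v)) + (0 : (ℕ →₀ ℂ) →ₗ[ℂ] (ℕ →₀ ℂ)) ((0 : (ℕ →₀ ℂ) →ₗ[ℂ] (ℕ →₀ ℂ)) v) +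
      (5 : ℂ) • (∑ i, delE i i v) + (2 : ℂ) • (0 : (ℕ →₀ ℂ) →ₗ[ℂ] (ℕ →₀ ℂ)) v = (-12 : ℂ) • v
    simp only [Fin.sum_univ_two, LinearMap.zero_apply, smul_zero, add_zero]
    induction v using Finsupp.induction_linear with
    | zero => simp
    | add f g hf hg =>
      simp only [map_add, smul_add] at hf hg ⊢
      rw [← hf, ← hg]
      abel
    | single n a =>
      rcases n with _ | n
      · simp only [delE_01_zero, delE_10, delE_01_succ, delE_00, delE_11, map_zero,
          Finsupp.smul_single, smul_eq_mul, ← Finsupp.single_add, add_zero, zero_add]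
        congr 1
        push_cast
        ring
      · simp only [delE_10, delE_01_succ, delE_00, delE_11,
          Finsupp.smul_single, smul_eq_mul, ← Finsupp.single_add]
        congr 1
        push_cast
        ring

theorem X_pderiv_mono (i : Fin 2) (a : Fin 2 →₀ ℕ) :
    ((X i : Q) * pderiv i (monomial a (1 : ℂ))) = (a i : ℂ) • monomial a 1 := mu_dl_mono i a

theorem good_0 : Good (CoG (Q × Q)) := by
  refine good_CoG (ι := (Fin 2 →₀ ℕ) ⊕ (Fin 2 →₀ ℕ))
    ⟨(MvPolynomial.basisMonomials (Fin 2) ℂ).prod (MvPolynomial.basisMonomials (Fin 2) ℂ),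
      Sum.elim (wtCo ![-3, -2, -1]) (wtCo ![-2, -3, -1]), ?_, ?_, ?_, ?_⟩ ?_
  · rintro (a | a) i
    · have hb : ((MvPolynomial.basisMonomials (Fin 2) ℂ).prod
          (MvPolynomial.basisMonomials (Fin 2) ℂ)) (Sum.inl a) = ((monomial a 1 : Q), (0 : Q)) := by
        simp [Module.Basis.prod_apply]
      rw [hb]
      have h0 := X_pderiv_mono 0 a
      have h1 := X_pderiv_mono 1 a
      fin_cases i
      · show eB 0 0 _ = ((wtCo ![-3, -2, -1] a 0 : ℤ) : ℂ) • _
        apply Prod.ext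
        · simp [eB, h0, wtCo, -pderiv_monomial]
          module
        · simp [eB]
      · show eB 1 1 _ = ((wtCo ![-3, -2, -1] a 1 : ℤ) : ℂ) • _
        apply Prod.ext
        · simp [eB, h1, wtCo, -pderiv_monomial]
          module
        · simp [eB]
      · show eB 2 2 _ = ((wtCo ![-3, -2, -1] a 2 : ℤ) : ℂ) • _
        apply Prod.ext
        · simp [eB, h0, h1, wtCo, -pderiv_monomial]
          module
        · simp [eB]
    · have hb : ((MvPolynomial.basisMonomials (Fin 2) ℂ).prod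
          (MvPolynomial.basisMonomials (Fin 2) ℂ)) (Sum.inr a) = ((0 : Q), (monomial a 1 : Q)) := by
        simp [Module.Basis.prod_apply]
      rw [hb]
      have h0 := X_pderiv_mono 0 a
      have h1 := X_pderiv_mono 1 a
      fin_cases i
      · show eB 0 0 _ = ((wtCo ![-2, -3, -1] a 0 : ℤ) : ℂ) • _
        apply Prod.ext
        · simp [eB]
        · simp [eB, h0, wtCo, -pderiv_monomial]
          module
      · show eB 1 1 _ = ((wtCo ![-2, -3, -1] a 1 : ℤ) : ℂ) • _
        apply Prod.ext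
        · simp [eB]
        · simp [eB, h1, wtCo, -pderiv_monomial]
          module
      · show eB 2 2 _ = ((wtCo ![-2, -3, -1] a 2 : ℤ) : ℂ) • _
        apply Prod.ext
        · simp [eB]
        · simp [eB, h0, h1, wtCo, -pderiv_monomial]
          module
  · rintro (j | j) <;> simp [wtCo] <;> ring
  · exact ⟨100, by rintro (j | j) <;> simp [ht, wtCo] <;> omega⟩
  · intro μ
    refine Set.Finite.subset ((fin2_finite (μ 2 + 1).toNat).image Sum.inl |>.union
      ((fin2_finite (μ 2 + 1).toNat).image Sum.inr)) ?_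
    rintro (j | j) h
    · simp only [Set.mem_ofPred_eq, Sum.elim_inl, wtCo] at h
      have h2 := congrFun h 2
      simp at h2
      left
      refine ⟨j, ⟨?_, ?_⟩, rfl⟩ <;> omega
    · simp only [Set.mem_ofPred_eq, Sum.elim_inr, wtCo] at h
      have h2 := congrFun h 2
      simp at h2
      right
      refine ⟨j, ⟨?_, ?_⟩, rfl⟩ <;> omega
  · rintro ⟨f, g⟩
    show (∑ i, ∑ j, eB i j (eB j i (f, g))) + (4 : ℂ) • ∑ i, eB i i (f, g) = (-12 : ℂ) • (f, g)
    simp only [Fin.sum_univ_three]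
    have h2 : (MvPolynomial.C (2 : ℂ) : Q) = 2 := map_ofNat _ 2
    have h4 : (MvPolynomial.C (4 : ℂ) : Q) = 4 := map_ofNat _ 4
    have h12 : (MvPolynomial.C (12 : ℂ) : Q) = 12 := map_ofNat _ 12
    apply Prod.ext
    · simp [eB, Derivation.leibniz, pderiv_X, Pi.single_apply, pd_10, MvPolynomial.smul_eq_C_mul]
      simp only [h2, h4, h12]
      ring
    · simp [eB, Derivation.leibniz, pderiv_X, Pi.single_apply, pd_10, MvPolynomial.smul_eq_C_mul]
      simp only [h2, h4, h12]
      ring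

theorem good_A : Good (CoG Q) := by
  refine good_CoG (ι := (Fin 2 →₀ ℕ))
    ⟨(MvPolynomial.basisMonomials (Fin 2) ℂ), wtCo ![-2, -2, -2], ?_, ?_, ?_, ?_⟩ ?_
  · intro a i
    rw [MvPolynomial.coe_basisMonomials]
    have h0 := X_pderiv_mono 0 a
    have h1 := X_pderiv_mono 1 a
    fin_cases i
    · show eA 0 0 (monomial a 1) = ((wtCo ![-2, -2, -2] a 0 : ℤ) : ℂ) • (monomial a (1 : ℂ) : Q)
      simp [eA, h0, wtCo, -pderiv_monomial]
      module
    · show eA 1 1 (monomial a 1) = ((wtCo ![-2, -2, -2] a 1 : ℤ) : ℂ) • (monomial a (1 : ℂ) : Q)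
      simp [eA, h1, wtCo, -pderiv_monomial]
      module
    · show eA 2 2 (monomial a 1) = ((wtCo ![-2, -2, -2] a 2 : ℤ) : ℂ) • (monomial a (1 : ℂ) : Q)
      simp [eA, h0, h1, wtCo, -pderiv_monomial]
      module
  · rintro j; simp [wtCo]; ring
  · exact ⟨100, by rintro j; simp [ht, wtCo]; omega⟩
  · intro μ
    refine Set.Finite.subset (fin2_finite (μ 2 + 2).toNat) ?_
    rintro j h
    simp only [Set.mem_ofPred_eq, wtCo] at h
    have h2 := congrFun h 2
    simp at h2
    constructor <;> omega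
  · intro f
    show (∑ i, ∑ j, eA i j (eA j i f)) + (4 : ℂ) • ∑ i, eA i i f = (-12 : ℂ) • f
    simp only [Fin.sum_univ_three]
    have h2 : (MvPolynomial.C (2 : ℂ) : Q) = 2 := map_ofNat _ 2
    have h4 : (MvPolynomial.C (4 : ℂ) : Q) = 4 := map_ofNat _ 4
    have h12 : (MvPolynomial.C (12 : ℂ) : Q) = 12 := map_ofNat _ 12
    simp [eA, Derivation.leibniz, pderiv_X, Pi.single_apply, pd_10, MvPolynomial.smul_eq_C_mul]
    simp only [h2, h4, h12]
    ring

end EA58
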