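import Pool.Agent.LibEA58.HeckeBar

/-!
# Two values of Lusztig's function `a`
-/

set_option autoImplicit false

namespace EA58

namespace HT

open LaurentPolynomial

/-- polynomials in `v + v⁻¹` -/
noncomputable def evd : List ℤ → R
  | [] => 0
  | a :: l => C a + (T 1 + T (-1)) * evd l

lemma evd_addL (l m : List ℤ) : evd (addL l m) = evd l + evd m := by
  induction l generalizing m with
  | nil => simp [addL, evd]
  | cons a l ih =>
    cases m with
    | nil => simp [addL, evd]
    | cons b m => simp only [addL, evd, ih, map_add]; ring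

lemma evd_sumL (L : List (List ℤ)) : evd (sumL L) = (L.map evd).sum := by
  induction L with
  | nil => simp [sumL, evd]
  | cons l L ih =>
    rw [sumL, List.foldr_cons, evd_addL, List.map_cons, List.sum_cons, ← ih, sumL]

lemma evd_shift (l : List ℤ) : evd (0 :: l) = (T 1 + T (-1)) * evd l := by simp [evd]

lemma evd_of_zL (m : List ℤ) (h : zL m = true) : evd m = 0 := by
  induction m with
  | nil => rfl
  | cons b m ih =>
    simp only [zL, Bool.and_eq_true, beq_iff_eq] at h
    rw [evd, h.1, ih h.2]; simp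

lemma evd_of_eqL : ∀ (l m : List ℤ), eqL l m = true → evd l = evd m
  | [], m, h => by rw [evd_of_zL m h]; rfl
  | a :: l, [], h => by
    simp only [eqL, Bool.and_eq_true, beq_iff_eq] at h
    rw [evd, evd, h.1, evd_of_eqL l [] h.2]; simp [evd]
  | a :: l, b :: m, h => by
    simp only [eqL, Bool.and_eq_true, beq_iff_eq] at h
    rw [evd, evd, h.1, evd_of_eqL l m h.2]

lemma coeff_evd (l : List ℤ) : ∀ n : ℤ, l.length ≤ n → (evd l).coeff n = 0 := by
  induction l with
  | nil => intro n _; simp [evd]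
  | cons a l ih =>
    intro n hn
    rw [List.length_cons] at hn
    push_cast at hn
    rw [evd, add_mul, AddMonoidAlgebra.coeff_add, Finsupp.add_apply, AddMonoidAlgebra.coeff_add,
      Finsupp.add_apply, coeff_T_mul, coeff_T_mul, C_apply, if_neg (by omega),
      ih _ (by omega), ih _ (by omega), zero_add, zero_add]

/-- kinds of structure constants -/
def kv (k : ℕ) : List ℤ :=
  match k with
  | 0 => []
  | 1 => [1]
  | 2 => [0, 1]
  | 3 => [0, 0, 1]
  | 4 => [0, 2]
  | 5 => [0, -1, 0, 1]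
  | _ => [0, 0, 0, 1]

/-- structure constants from a table -/
def vt (tab : ℕ) (a b : J) : List ℤ := kv (lk 3 (48 * a + b) tab)

/-- row check -/
def chkV (tab : ℕ) (a b : J) : Bool :=
  eqL (addL (vt tab a b) (sumL ((rz a).map fun u => vt tab u b)))
    (if ell (Lt (rd a) b) < ell b then 0 :: vt tab (Rt (rd a) a) b else
      sumL ((Mu (rd a) b).map fun z => vt tab (Rt (rd a) a) z))

/-- all checks: row recursion, base, degree bound -/
def good (tab : ℕ) (z : J) (n : ℕ) : Prop :=
  (∀ a b : J, a ≠ 0 → chkV tab a b = true) ∧ (∀ b : J, vt tab 0 b = if b = z then [1] else []) ∧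
    ∀ a b : J, (vt tab a b).length ≤ n + 1

instance (tab : ℕ) (z : J) (n : ℕ) : Decidable (good tab z n) := by unfold good; infer_instance

lemma good1 : good tV1 21 1 := by decide +kernel

lemma good3 : good tV3 42 3 := by decide +kernel

section row

variable (ℋ : HeckeAlg)

/-- the coefficient of `c z` -/
noncomputable def tau (z : J) (h : ℋ.H) : R := (cB ℋ).repr h z

lemma tau_c (z b : J) : tau ℋ z (c ℋ b) = if b = z then 1 else 0 := by
  rw [tau, ← cB_apply, Module.Basis.repr_self, Finsupp.single_apply]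

lemma tau_add (z : J) (h h' : ℋ.H) : tau ℋ z (h + h') = tau ℋ z h + tau ℋ z h' := by
  simp [tau]

lemma tau_smul (z : J) (r : R) (h : ℋ.H) : tau ℋ z (r • h) = r * tau ℋ z h := by
  simp [tau]

lemma tau_sum_left (z : J) (L : List J) (h : ℋ.H) :
    tau ℋ z (h * (L.map (c ℋ)).sum) = (L.map fun b => tau ℋ z (h * c ℋ b)).sum := by
  induction L with
  | nil => simp [tau]
  | cons b L ih => rw [List.map_cons, List.sum_cons, mul_add, tau_add, ih]; simp

lemma tau_sum_right (z : J) (L : List J) (h : ℋ.H) :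
    tau ℋ z ((L.map (c ℋ)).sum * h) = (L.map fun b => tau ℋ z (c ℋ b * h)).sum := by
  induction L with
  | nil => simp [tau]
  | cons b L ih => rw [List.map_cons, List.sum_cons, add_mul, tau_add, ih]; simp

lemma rows {tab : ℕ} {z : J} {n : ℕ} (hg : good tab z n) (a : J) :
    ∀ b, tau ℋ z (c ℋ a * c ℋ b) = evd (vt tab a b) := by
  induction a using WellFoundedLT.induction with
  | _ a ih =>
    intro b
    rcases eq_or_ne a 0 with rfl | h
    · rw [c_zero, one_mul, tau_c, hg.2.1 b]
      split_ifs <;> simp [evd]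
    · obtain ⟨h1, h2⟩ := right_step a h
      have e1 : c ℋ a * c ℋ b + ((rz a).map (c ℋ)).sum * c ℋ b =
          c ℋ (Rt (rd a) a) * (Cs ℋ (rd a) * c ℋ b) := by
        rw [← mul_assoc, right_up ℋ h, add_mul]
      have e2 := congrArg (tau ℋ z) e1
      rw [tau_add, tau_sum_right] at e2
      have e3 : (rz a).map (fun u => tau ℋ z (c ℋ u * c ℋ b)) =
          (rz a).map (fun u => evd (vt tab u b)) :=
        List.map_congr_left fun u hu => ih u (h2 u hu) b
      rw [e3] at e2
      have key := evd_of_eqL _ _ (hg.1 a b h)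
      rw [evd_addL, evd_sumL, List.map_map] at key
      have e4 : (List.map (evd ∘ fun u => vt tab u b) (rz a)) =
        (rz a).map (fun u => evd (vt tab u b)) := rfl
      rw [e4] at key
      have e5 : tau ℋ z (c ℋ (Rt (rd a) a) * (Cs ℋ (rd a) * c ℋ b)) =
          evd (if ell (Lt (rd a) b) < ell b then 0 :: vt tab (Rt (rd a) a) b else
            sumL ((Mu (rd a) b).map fun z => vt tab (Rt (rd a) a) z)) := by
        split_ifs with h'
        · rw [left_down ℋ h', mul_smul_comm, tau_smul, ih _ h1, evd_shift]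
        · rw [left_up ℋ (by rcases ell_Lt (rd a) b with h'' | h'' <;> omega), tau_sum_left,
            evd_sumL, List.map_map]
          congr 1
          exact List.map_congr_left fun u _ => ih _ h1 u
      rw [e5, ← key] at e2
      exact add_right_cancel e2

lemma a_bound {tab : ℕ} {z : J} {n : ℕ} (hg : good tab z n) {C : W → ℋ.H} (hC : ℋ.IsKL C) :
    ℋ.aFun C (el z) ≤ n := by
  refine csSup_le' ?_
  rintro m ⟨x, y, h, hxy, hm⟩
  obtain ⟨a, rfl⟩ := eqv.surjective x
  obtain ⟨b, rfl⟩ := eqv.surjective y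
  rw [eqv_apply, eqv_apply, kl_unique ℋ hC, kl_unique ℋ hC, ← Equiv.sum_comp eqv] at hxy
  have h1 := congrArg (fun u => (cB ℋ).repr u z) hxy
  simp only [eqv_apply, kl_unique ℋ hC] at h1
  simp only [← cB_apply] at h1
  rw [congrFun ((cB ℋ).repr_sum_self _) z] at h1
  simp only [cB_apply] at h1
  have h2 := rows ℋ hg a b
  rw [tau, h1] at h2
  by_contra hlt
  push Not at hlt
  apply hm
  rw [h2]
  refine coeff_evd _ _ ?_
  have := hg.2.2 a b
  omega

lemma z1_eq : Same (W.s 0 * W.s 1 * W.s 2 * W.s 1) (el 21) := by decide +kernel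

lemma z3_eq : Same (W.s 1 * W.s 0 * W.s 2 * W.s 1 * W.s 0 * W.s 2 * W.s 1) (el 42) := by
  decide +kernel

end row

end HT

theorem exists_kl (ℋ : HeckeAlg) : ∃ C : W → ℋ.H, ℋ.IsKL C := HT.exists_kl' ℋ

theorem a_bound_1 (ℋ : HeckeAlg) (C : W → ℋ.H) (hC : ℋ.IsKL C) :
    ℋ.aFun C (W.s 0 * W.s 1 * W.s 2 * W.s 1) ≤ 1 := by
  rw [HT.z1_eq.eq]
  exact HT.a_bound ℋ HT.good1 hC

theorem a_bound_3 (ℋ : HeckeAlg) (C : W → ℋ.H) (hC : ℋ.IsKL C) :
    ℋ.aFun C (W.s 1 * W.s 0 * W.s 2 * W.s 1 * W.s 0 * W.s 2 * W.s 1) ≤ 3 := by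
  rw [HT.z3_eq.eq]
  exact HT.a_bound ℋ HT.good3 hC

end EA58
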