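import Pool.Agent.LibEA58.HeckeDefs

/-!
# Facts about the Weyl group
-/

namespace EA58

namespace W

/-- The longest element. -/
def w0 : W := ⟨1, fun _ => -1⟩

/-- The element `x = s₁ s₂ s₁ s₀ s₂` (indices of `W.s`). -/
def x0 : W := s 1 * s 2 * s 1 * s 0 * s 2

/-- The longest element of the stabiliser of `λ₀`. -/
def u0 : W := s 0 * s 2

/-- The coordinates of `w⁻¹ ρ`: the root `ε_i ± ε_j` is sent by `w` to a negative root if and only
if the corresponding combination of these numbers is negative. -/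
def vv (w : W) (i : Fin 3) : ℤ := ((w.sgn (w.perm i) : ℤˣ) : ℤ) * (3 - ((w.perm i : ℕ) : ℤ))

/-- The number of inversions: the number of positive roots `ε_i ± ε_j` (`i < j`), `2 ε_i` sent to
negative roots by `w`. -/
def inv (w : W) : ℕ :=
  (∑ i : Fin 3, if vv w i < 0 then 1 else 0) +
    ∑ i : Fin 3, ∑ j : Fin 3, if i < j then
      ((if vv w i - vv w j < 0 then 1 else 0) + (if vv w i + vv w j < 0 then 1 else 0)) else 0

/-- equality, in a form suitable for evaluation -/
def weq (a b : W) : Prop := (∀ i, a.perm i = b.perm i) ∧ ∀ i, a.sgn i = b.sgn i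

instance (a b : W) : Decidable (weq a b) :=
  inferInstanceAs (Decidable ((∀ i, a.perm i = b.perm i) ∧ ∀ i, a.sgn i = b.sgn i))

theorem weq_eq {a b : W} (h : weq a b) : a = b := by
  obtain ⟨p, f⟩ := a
  obtain ⟨q, g⟩ := b
  have h1 : p = q := Equiv.ext h.1
  have h2 : f = g := funext h.2
  rw [h1, h2]

theorem wf_step (w : W) (k : Fin 3) : inv (w * s k) ≤ inv w + 1 := by
  revert w k
  decide +kernel

theorem wf_desc' (w : W) : weq w 1 ∨ ∃ k : Fin 3, inv (w * s k) + 1 = inv w := by
  revert w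
  decide +kernel

theorem wf_desc (w : W) : w = 1 ∨ ∃ k : Fin 3, inv (w * s k) + 1 = inv w :=
  (wf_desc' w).imp weq_eq id

theorem wf_sq (k : Fin 3) : s k * s k = 1 := by
  apply weq_eq
  revert k
  decide +kernel

theorem wf_one : inv 1 = 0 := by decide +kernel

theorem wf_le (l : List (Fin 3)) : inv (l.map s).prod ≤ l.length := by
  induction l using List.reverseRecOn with
  | nil => exact wf_one.le
  | append_singleton l k ih =>
    rw [List.map_append, List.prod_append, List.length_append]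
    simp only [List.map_cons, List.map_nil, List.prod_cons, List.prod_nil, mul_one,
      List.length_singleton]
    exact (wf_step _ k).trans (Nat.add_le_add_right ih 1)

theorem wf_word (n : ℕ) : ∀ w : W, inv w = n → ∃ l : List (Fin 3), l.length = n ∧
    (l.map s).prod = w := by
  induction n with
  | zero =>
    intro w hw
    rcases wf_desc w with rfl | ⟨k, hk⟩
    · exact ⟨[], rfl, rfl⟩
    · omega
  | succ n ih =>
    intro w hw
    rcases wf_desc w with rfl | ⟨k, hk⟩
    · rw [wf_one] at hw; omega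
    · obtain ⟨l, hl, hp⟩ := ih (w * s k) (by omega)
      refine ⟨l ++ [k], by simp [hl], ?_⟩
      rw [List.map_append, List.prod_append, hp]
      simp only [List.map_cons, List.map_nil, List.prod_cons, List.prod_nil, mul_one]
      rw [mul_assoc, wf_sq, mul_one]

theorem len_eq (w : W) : len w = inv w := by
  unfold len
  apply le_antisymm
  · exact Nat.sInf_le (wf_word _ w rfl)
  · have hne : {n : ℕ | ∃ l : List (Fin 3), l.length = n ∧ (l.map s).prod = w}.Nonempty :=
      ⟨_, wf_word _ w rfl⟩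
    obtain ⟨l, hl, hp⟩ := Nat.sInf_mem hne
    rw [← hl, ← hp]
    exact wf_le l

end W

/-- The weight `λ` with `λ + ρ = (1, 1, 0)`. -/
def lamW : Wt := ![-2, -1, -1]

/-- The integral version of `λ + ρ`. -/
def wfNu : Fin 3 → ℤ := ![1, 1, 0]

/-- The stabiliser of `λ + ρ`. -/
def wfStab (w : W) : Prop := ∀ i : Fin 3, ((w.sgn i : ℤˣ) : ℤ) * wfNu (w.perm⁻¹ i) = wfNu i

instance (w : W) : Decidable (wfStab w) := inferInstanceAs (Decidable (∀ _, _))

theorem wf_lam_rho : lamW + rho = fun i => ((wfNu i : ℤ) : ℂ) := by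
  funext i
  fin_cases i <;> simp [lamW, rho, wfNu] <;> norm_num

theorem wf_dot (w : W) : dot w lamW = lamW ↔ wfStab w := by
  unfold dot
  rw [sub_eq_iff_eq_add, wf_lam_rho]
  unfold W.act wfStab
  constructor
  · intro h i
    have h1 := congrFun h i
    simp only at h1
    exact_mod_cast h1
  · intro h
    funext i
    have h1 := h i
    simp only
    exact_mod_cast h1

theorem isLongest_w0 : IsLongest W.w0 := by
  intro w
  rw [W.len_eq, W.len_eq]
  revert w
  decide +kernel

theorem domInt_lam : DomInt lamW := by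
  unfold DomInt
  rw [wf_lam_rho]
  refine ⟨⟨0, ?_⟩, ⟨1, ?_⟩, ⟨0, ?_⟩⟩ <;> simp [wfNu]

theorem wf_stab_eq' (w : W) : wfStab w →
    (W.weq w 1 ∨ W.weq w (W.s 0) ∨ W.weq w (W.s 2) ∨ W.weq w (W.s 0 * W.s 2)) := by
  revert w
  decide +kernel

theorem wf_stab_eq (w : W) : wfStab w ↔
    (w = 1 ∨ w = W.s 0 ∨ w = W.s 2 ∨ w = W.s 0 * W.s 2) := by
  constructor
  · intro h
    rcases wf_stab_eq' w h with h | h | h | h
    · exact Or.inl (W.weq_eq h)
    · exact Or.inr (Or.inl (W.weq_eq h))
    · exact Or.inr (Or.inr (Or.inl (W.weq_eq h)))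
    · exact Or.inr (Or.inr (Or.inr (W.weq_eq h)))
  · rintro (rfl | rfl | rfl | rfl) <;> decide +kernel

theorem wf_stab_mul (a b : W) (ha : wfStab a) (hb : wfStab b) : wfStab (a * b) := by
  rw [wf_stab_eq] at ha hb
  rcases ha with rfl | rfl | rfl | rfl <;> rcases hb with rfl | rfl | rfl | rfl <;>
    decide +kernel

theorem wf_stab_inv (a : W) (ha : wfStab a) : wfStab a⁻¹ := by
  rw [wf_stab_eq] at ha
  rcases ha with rfl | rfl | rfl | rfl <;> decide +kernel

theorem maxStab_lam : MaxStab lamW := by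
  refine ⟨1, fun w => ?_⟩
  rw [wf_dot]
  constructor
  · intro h
    have h0 : W.s 0 ∈ Subgroup.closure (W.s '' {j | j ≠ 1}) :=
      Subgroup.subset_closure ⟨0, by simp, rfl⟩
    have h2 : W.s 2 ∈ Subgroup.closure (W.s '' {j | j ≠ 1}) :=
      Subgroup.subset_closure ⟨2, by simp, rfl⟩
    rcases (wf_stab_eq w).1 h with rfl | rfl | rfl | rfl
    · exact one_mem _
    · exact h0
    · exact h2
    · exact mul_mem h0 h2
  · intro h
    induction h using Subgroup.closure_induction with
    | mem x hx =>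
      obtain ⟨j, hj, rfl⟩ := hx
      have hj' : j ≠ 1 := hj
      rw [wf_stab_eq]
      fin_cases j
      · exact Or.inr (Or.inl rfl)
      · exact absurd rfl hj'
      · exact Or.inr (Or.inr (Or.inl rfl))
    | one => exact (wf_stab_eq 1).2 (Or.inl rfl)
    | mul a b _ _ ha hb => exact wf_stab_mul a b ha hb
    | inv a _ ha => exact wf_stab_inv a ha

theorem longestRep_x0 : LongestRep lamW W.x0 := by
  intro u hu
  rw [wf_dot] at hu
  rw [W.len_eq, W.len_eq]
  revert u
  decide +kernel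

theorem isLongestStab_u0 : IsLongestStab lamW W.u0 := by
  refine ⟨(wf_dot _).2 (by decide +kernel), fun u hu => ?_⟩
  rw [wf_dot] at hu
  rw [W.len_eq, W.len_eq]
  revert u
  decide +kernel

theorem wf_x0 : ∀ i : Fin 3, ((W.x0.sgn i : ℤˣ) : ℤ) * wfNu (W.x0.perm⁻¹ i) =
    (![1, -1, 0] : Fin 3 → ℤ) i := by
  decide +kernel

theorem dot_x0 : dot W.x0 lamW = ![-2, -3, -1] := by
  unfold dot
  rw [wf_lam_rho]
  unfold W.act
  funext i
  have h := wf_x0 i
  have h1 : ((W.x0.sgn i : ℤˣ) : ℂ) * ((wfNu (W.x0.perm⁻¹ i) : ℤ) : ℂ) =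
      (((![1, -1, 0] : Fin 3 → ℤ) i : ℤ) : ℂ) := by
    exact_mod_cast h
  show ((W.x0.sgn i : ℤˣ) : ℂ) * ((wfNu (W.x0.perm⁻¹ i) : ℤ) : ℂ) - rho i = _
  rw [h1]
  fin_cases i <;> simp [rho] <;> norm_num

theorem w0_mul_x0 : W.w0 * W.x0 = W.s 0 * W.s 1 * W.s 2 * W.s 1 := by
  apply W.weq_eq
  decide +kernel

theorem w0_mul_u0 : W.w0 * W.u0 =
    W.s 1 * W.s 0 * W.s 2 * W.s 1 * W.s 0 * W.s 2 * W.s 1 := by
  apply W.weq_eq
  decide +kernel

end EA58
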