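import Pool.Agent.LibEA58.HeckeHA
import Pool.Agent.LibEA58.HeckeRow
import Pool.Agent.LibEA58.WFacts

/-!
# The Hecke algebra: existence, the Kazhdan-Lusztig basis, two values of `a`
-/
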