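import Pool.Agent.LibEA58.Basic

/-!
# Good modules: integral weights, finite-dimensional weight spaces, bounded, Casimir `-12`
-/

set_option linter.unusedSectionVars false

namespace EA58

section
variable (N : Type) [AddCommGroup N] [Module ℂ N] [LieRingModule G N] [LieModule ℂ G N]

/-- The weight space of integral weight `μ`. -/
def wsp (μ : Fin 3 → ℤ) : Submodule ℂ N where
  carrier := {m | ∀ i, ⁅E i i, m⁆ = (μ i : ℂ) • m}
  add_mem' := by
    intro a b ha hb i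
    rw [lie_add, ha i, hb i, smul_add]
  zero_mem' := by intro i; simp
  smul_mem' := by
    intro c a ha i
    rw [lie_smul, ha i, smul_comm]

theorem mem_wsp (μ : Fin 3 → ℤ) (m : N) : m ∈ wsp N μ ↔ ∀ i, ⁅E i i, m⁆ = (μ i : ℂ) • m := Iff.rfl

/-- The height of a weight; positive roots have positive height. -/
def ht (μ : Fin 3 → ℤ) : ℤ := 3 * μ 0 + 2 * μ 1 + μ 2

variable {N} in
/-- The Casimir operator. -/
noncomputable def cas (m : N) : N :=
  (∑ i, ∑ j, ⁅E i j, ⁅E j i, m⁆⁆) +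
    (1 / 2 : ℂ) • ∑ i, ∑ j, (⁅Xp i j, ⁅Yp i j, m⁆⁆ + ⁅Yp i j, ⁅Xp i j, m⁆⁆)

/-- Good modules. -/
structure Good : Prop where
  span : ⨆ μ : Fin 3 → ℤ, wsp N μ = ⊤
  fin : ∀ μ, FiniteDimensional ℂ (wsp N μ)
  bdd : ∃ K : ℤ, ∀ μ, wsp N μ ≠ ⊥ → ht μ ≤ K
  cas : ∀ m : N, cas m = (-12 : ℂ) • m

/-- The weight `λ` with `λ + ρ = (1, 1, 0)`. -/
def lam0 : Wt := ![-2, -1, -1]

end

section
variable {N : Type} [AddCommGroup N] [Module ℂ N] [LieRingModule G N] [LieModule ℂ G N]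
variable {N' : Type} [AddCommGroup N'] [Module ℂ N'] [LieRingModule G N'] [LieModule ℂ G N']

/-- The Casimir operator commutes with homomorphisms. -/
theorem cas_map (f : N →ₗ⁅ℂ,G⁆ N') (m : N) : cas (f m) = f (cas m) := by
  simp only [cas, map_add, map_sum, map_smul, LieModuleHom.map_lie]

theorem lie3 (X Y Z : G) (m : N) :
    ⁅X, ⁅Y, ⁅Z, m⁆⁆⁆ = ⁅⁅X, Y⁆, ⁅Z, m⁆⁆ + ⁅Y, ⁅⁅X, Z⁆, m⁆⁆ + ⁅Y, ⁅Z, ⁅X, m⁆⁆⁆ := by
  rw [leibniz_lie X Y, leibniz_lie X Z, lie_add]
  abel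

theorem lie_Xp_E (i j k l : Fin 3) :
    ⁅Xp k l, E i j⁆ = -((if j = k then Xp i l else 0) + (if j = l then Xp i k else 0)) := by
  rw [← lie_E_Xp, lie_skew]

/-- The Casimir operator commutes with the `Xp a b` (needed in `CasCo`). -/
theorem cas_Xp (a b : Fin 3) (m : N) : cas ⁅Xp a b, m⁆ = ⁅Xp a b, cas m⁆ := by
  have k1 : ∀ i j : Fin 3, ⁅⁅Xp a b, E i j⁆, ⁅E j i, m⁆⁆ =
      -((if j = a then ⁅Xp i b, ⁅E j i, m⁆⁆ else 0) + (if j = b then ⁅Xp i a, ⁅E j i, m⁆⁆ else 0)) := by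
    intro i j
    rw [lie_Xp_E, neg_lie, add_lie]
    congr 2 <;> split_ifs <;> simp
  have k2 : ∀ i j : Fin 3, ⁅E i j, ⁅⁅Xp a b, E j i⁆, m⁆⁆ =
      -((if i = a then ⁅E i j, ⁅Xp j b, m⁆⁆ else 0) + (if i = b then ⁅E i j, ⁅Xp j a, m⁆⁆ else 0)) := by
    intro i j
    rw [lie_Xp_E, neg_lie, add_lie, lie_neg, lie_add]
    congr 2 <;> split_ifs <;> simp
  have k3 : ∀ i j : Fin 3, ⁅Xp i j, ⁅⁅Xp a b, Yp i j⁆, m⁆⁆ =
      (if i = b then ⁅Xp j i, ⁅E a j, m⁆⁆ else 0) + (if j = b then ⁅Xp i j, ⁅E a i, m⁆⁆ else 0) +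
      (if i = a then ⁅Xp j i, ⁅E b j, m⁆⁆ else 0) + (if j = a then ⁅Xp i j, ⁅E b i, m⁆⁆ else 0) := by
    intro i j
    rw [Xp_comm j i, lie_Xp_Yp, add_lie, add_lie, add_lie, lie_add, lie_add, lie_add]
    simp only [eq_comm (a := b), eq_comm (a := a)]
    congr 1
    · congr 1
      · congr 1 <;> split_ifs <;> simp
      · split_ifs <;> simp
    · split_ifs <;> simp
  have k4 : ∀ i j : Fin 3, ⁅⁅Xp a b, Yp i j⁆, ⁅Xp i j, m⁆⁆ =
      (if i = b then ⁅E a j, ⁅Xp j i, m⁆⁆ else 0) + (if j = b then ⁅E a i, ⁅Xp i j, m⁆⁆ else 0) +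
      (if i = a then ⁅E b j, ⁅Xp j i, m⁆⁆ else 0) + (if j = a then ⁅E b i, ⁅Xp i j, m⁆⁆ else 0) := by
    intro i j
    rw [Xp_comm j i, lie_Xp_Yp, add_lie, add_lie, add_lie]
    simp only [eq_comm (a := b), eq_comm (a := a)]
    congr 1
    · congr 1
      · congr 1 <;> split_ifs <;> simp
      · split_ifs <;> simp
    · split_ifs <;> simp
  have so : ∀ (F : Fin 3 → Fin 3 → N) (p : Fin 3),
      ∑ x, ∑ y, (if x = p then F x y else 0) = ∑ y, F p y := by
    intro F p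
    rw [Finset.sum_comm]
    exact Finset.sum_congr rfl fun y _ => by simp
  simp only [cas, lie_add, lie_smul, lie_sum]
  simp only [lie3 (Xp a b), k1, k2, k3, k4, lie_Xp_Xp, zero_lie, lie_zero, add_zero, zero_add,
    Finset.sum_add_distrib, Finset.sum_neg_distrib, Finset.sum_ite_eq',
    Finset.mem_univ, if_true, so]
  module

theorem lie_E_diag_E (k i j : Fin 3) :
    ⁅E k k, E i j⁆ = ((Pi.single i 1 - Pi.single j 1 : Fin 3 → ℤ) k : ℂ) • E i j := by
  rw [lie_E_E]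
  simp only [Pi.sub_apply, Pi.single_apply]
  by_cases h1 : k = i <;> by_cases h2 : j = k <;> subst_vars <;> simp_all [eq_comm]

theorem lie_E_diag_Xp (k i j : Fin 3) :
    ⁅E k k, Xp i j⁆ = ((Pi.single i 1 + Pi.single j 1 : Fin 3 → ℤ) k : ℂ) • Xp i j := by
  rw [lie_E_Xp]
  simp only [Pi.add_apply, Pi.single_apply, Int.cast_add, add_smul]
  congr 1
  · split_ifs with h
    · subst h; simp
    · simp
  · split_ifs with h
    · subst h; simp [Xp_comm]
    · simp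

theorem lie_E_diag_Yp (k i j : Fin 3) :
    ⁅E k k, Yp i j⁆ = ((-(Pi.single i 1 + Pi.single j 1) : Fin 3 → ℤ) k : ℂ) • Yp i j := by
  rw [lie_E_Yp]
  simp only [Pi.neg_apply, Pi.add_apply, Pi.single_apply, Int.cast_add, Int.cast_neg, add_smul,
    neg_smul, neg_add, sub_eq_add_neg]
  congr 1
  · congr 1
    split_ifs with h
    · subst h; simp
    · simp
  · congr 1
    split_ifs with h
    · subst h; simp [Yp_comm]
    · simp

/-- Elements of weight `β` of `g` map the weight space of `μ` to that of `μ + β`. -/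
theorem wsp_shift {μ β : Fin 3 → ℤ} {X : G} (hX : ∀ k, ⁅E k k, X⁆ = (β k : ℂ) • X) {m : N}
    (hm : m ∈ wsp N μ) : ⁅X, m⁆ ∈ wsp N (μ + β) := by
  intro k
  rw [leibniz_lie, hX k, hm k, smul_lie, lie_smul, ← add_smul]
  congr 1
  simp [add_comm]

theorem wsp_E (i j : Fin 3) {μ : Fin 3 → ℤ} {m : N} (hm : m ∈ wsp N μ) :
    ⁅E i j, m⁆ ∈ wsp N (μ + (Pi.single i 1 - Pi.single j 1)) :=
  wsp_shift (fun k => lie_E_diag_E k i j) hm

theorem wsp_Xp (i j : Fin 3) {μ : Fin 3 → ℤ} {m : N} (hm : m ∈ wsp N μ) :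
    ⁅Xp i j, m⁆ ∈ wsp N (μ + (Pi.single i 1 + Pi.single j 1)) :=
  wsp_shift (fun k => lie_E_diag_Xp k i j) hm

theorem wsp_Yp (i j : Fin 3) {μ : Fin 3 → ℤ} {m : N} (hm : m ∈ wsp N μ) :
    ⁅Yp i j, m⁆ ∈ wsp N (μ + -(Pi.single i 1 + Pi.single j 1)) :=
  wsp_shift (fun k => lie_E_diag_Yp k i j) hm

/-- The Casimir operator preserves weight spaces. -/
theorem cas_wsp (μ : Fin 3 → ℤ) (m : N) (hm : m ∈ wsp N μ) : cas m ∈ wsp N μ := by
  unfold cas
  refine Submodule.add_mem _ (Submodule.sum_mem _ fun i _ => Submodule.sum_mem _ fun j _ => ?_)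
    (Submodule.smul_mem _ _ (Submodule.sum_mem _ fun i _ => Submodule.sum_mem _ fun j _ =>
      Submodule.add_mem _ ?_ ?_))
  · have := wsp_E i j (wsp_E j i hm)
    convert this using 1
    congr 1
    abel
  · have := wsp_Xp i j (wsp_Yp i j hm)
    convert this using 1
    congr 1
    abel
  · have := wsp_Yp i j (wsp_Xp i j hm)
    convert this using 1
    congr 1
    abel

/-- Components of distinct weights of an element of an `h`-stable subspace lie in it. -/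
theorem extract {ι : Type*} [DecidableEq ι] (w : ι → Fin 3 → ℂ) (hw : Function.Injective w)
    (S : Submodule ℂ N) (hS : ∀ i, ∀ m ∈ S, ⁅E i i, m⁆ ∈ S) (F : Finset ι) :
    ∀ m : ι → N, (∀ ν ∈ F, ∀ i, ⁅E i i, m ν⁆ = w ν i • m ν) → ∑ ν ∈ F, m ν ∈ S →
      ∀ ν ∈ F, m ν ∈ S := by
  induction F using Finset.induction_on with
  | empty => intro m _ _ ν hν; simp at hν
  | insert κ F hκ ih =>
    intro m hm hsum
    rw [Finset.sum_insert hκ] at hsum
    have h1 : ∀ i, ∑ ν ∈ F, (w ν i - w κ i) • m ν ∈ S := by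
      intro i
      have h2 := S.sub_mem (hS i _ hsum) (S.smul_mem (w κ i) hsum)
      have h3 : ⁅E i i, m κ + ∑ ν ∈ F, m ν⁆ - w κ i • (m κ + ∑ ν ∈ F, m ν) =
          ∑ ν ∈ F, (w ν i - w κ i) • m ν := by
        rw [lie_add, lie_sum, hm κ (Finset.mem_insert_self _ _) i, smul_add, Finset.smul_sum]
        simp only [sub_smul, Finset.sum_sub_distrib]
        rw [Finset.sum_congr rfl fun ν hν => hm ν (Finset.mem_insert_of_mem hν) i]
        abel
      rwa [h3] at h2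
    have h4 : ∀ ν ∈ F, m ν ∈ S := by
      intro ν hν
      have hne : w ν ≠ w κ := fun h => hκ (hw h ▸ hν)
      obtain ⟨i, hi⟩ := Function.ne_iff.1 hne
      have h5 := ih (fun ν => (w ν i - w κ i) • m ν)
        (fun ν hν k => by rw [lie_smul, hm ν (Finset.mem_insert_of_mem hν) k, smul_comm]) (h1 i) ν hν
      have h6 := S.smul_mem (w ν i - w κ i)⁻¹ h5
      rwa [smul_smul, inv_mul_cancel₀ (sub_ne_zero.2 hi), one_smul] at h6
    intro ν hν
    rcases Finset.mem_insert.1 hν with rfl | hν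
    · have := S.sub_mem hsum (S.sum_mem h4)
      simpa using this
    · exact h4 ν hν

theorem lift_aux {ι : Type*} [DecidableEq ι] (w : ι → Fin 3 → ℂ) (hw : Function.Injective w)
    (f : N →ₗ⁅ℂ,G⁆ N') (g : ι →₀ N) (hg : ∀ ν i, ⁅E i i, g ν⁆ = w ν i • g ν) (μ : ι) (z : N')
    (hz : ∀ i, ⁅E i i, z⁆ = w μ i • z) (hfg : f (∑ ν ∈ g.support, g ν) = z) : f (g μ) = z := by
  have h1 : ∑ ν ∈ insert μ g.support, (f (g ν) - if ν = μ then z else 0) ∈ (⊥ : Submodule ℂ N') := by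
    rw [Submodule.mem_bot, Finset.sum_sub_distrib, sub_eq_zero, Finset.sum_ite_eq',
      if_pos (Finset.mem_insert_self _ _), ← hfg, map_sum]
    by_cases h : μ ∈ g.support
    · rw [Finset.insert_eq_of_mem h]
    · rw [Finset.sum_insert h, Finsupp.notMem_support_iff.1 h, map_zero, zero_add]
  have h2 := extract w hw ⊥ (fun i m hm => by rw [(Submodule.mem_bot _).1 hm]; simp)
    (insert μ g.support) (fun ν => f (g ν) - if ν = μ then z else 0) (by
      intro ν _ i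
      rw [lie_sub, ← LieModuleHom.map_lie, hg ν i, map_smul, smul_sub]
      congr 1
      split_ifs with h
      · rw [h]; exact hz i
      · simp) h1 μ (Finset.mem_insert_self _ _)
  simp only [if_true, Submodule.mem_bot] at h2
  exact sub_eq_zero.1 h2

theorem cast_inj : Function.Injective (fun (μ : Fin 3 → ℤ) (i : Fin 3) => ((μ i : ℤ) : ℂ)) := by
  intro a b h
  funext i
  have h1 : ((a i : ℤ) : ℂ) = ((b i : ℤ) : ℂ) := congrFun h i
  exact_mod_cast h1

/-- Weight vectors lift along surjections of good modules. -/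
theorem Good.lift (h : Good N) (f : N →ₗ⁅ℂ,G⁆ N') (hf : Function.Surjective f)
    (μ : Fin 3 → ℤ) (z : N') (hz : z ∈ wsp N' μ) : ∃ p ∈ wsp N μ, f p = z := by
  classical
  obtain ⟨p, hp⟩ := hf z
  have hp1 : p ∈ ⨆ μ : Fin 3 → ℤ, wsp N μ := by rw [h.span]; trivial
  obtain ⟨g, hg, hgp⟩ := (Submodule.mem_iSup_iff_exists_finsupp _ _).1 hp1
  refine ⟨g μ, hg μ, ?_⟩
  refine lift_aux (fun (μ : Fin 3 → ℤ) (i : Fin 3) => ((μ i : ℤ) : ℂ)) cast_inj f g
    (fun ν i => hg ν i) μ z hz ?_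
  rw [← hp, ← hgp]
  rfl

/-- Submodules of good modules are good. -/
theorem Good.sub (h : Good N) (S : LieSubmodule ℂ G N) : Good S := by
  classical
  have hin : ∀ (μ : Fin 3 → ℤ) (s : S), s ∈ wsp S μ ↔ (s : N) ∈ wsp N μ := by
    intro μ s
    refine forall_congr' fun i => ?_
    rw [← Subtype.coe_inj]
    rfl
  refine ⟨?_, ?_, ?_, ?_⟩
  · rw [eq_top_iff]
    rintro s -
    have hs1 : (s : N) ∈ ⨆ μ : Fin 3 → ℤ, wsp N μ := by rw [h.span]; trivial
    obtain ⟨g, hg, hgs⟩ := (Submodule.mem_iSup_iff_exists_finsupp _ _).1 hs1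
    have h1 : ∀ ν ∈ g.support, g ν ∈ S.toSubmodule :=
      extract (fun (μ : Fin 3 → ℤ) (i : Fin 3) => ((μ i : ℤ) : ℂ)) cast_inj S.toSubmodule
        (fun i m hm => S.lie_mem hm) g.support g (fun ν _ i => hg ν i) (by
          have : ∑ ν ∈ g.support, g ν = s := hgs
          rw [this]; exact s.2)
    have h2 : s = ∑ ν ∈ g.support.attach, (⟨g ν, h1 ν ν.2⟩ : S) := by
      apply Subtype.ext
      have : ((∑ ν ∈ g.support.attach, (⟨g ν, h1 ν ν.2⟩ : S) : S) : N) =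
          ∑ ν ∈ g.support.attach, g ν := by
        rw [← LieSubmodule.incl_apply, map_sum]
        rfl
      rw [this, Finset.sum_attach g.support (fun ν => g ν)]
      exact hgs.symm
    rw [h2]
    refine Submodule.sum_mem _ fun ν _ => ?_
    refine Submodule.mem_iSup_of_mem (ν : Fin 3 → ℤ) ?_
    rw [hin]
    exact hg ν
  · intro μ
    have := h.fin μ
    let φ : wsp S μ →ₗ[ℂ] wsp N μ :=
      ((S.toSubmodule.subtype).comp (wsp S μ).subtype).codRestrict (wsp N μ) fun x =>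
        (hin μ x.1).1 x.2
    exact Module.Finite.of_injective φ (fun a b hab => by
      have h3 := congrArg Subtype.val hab
      exact Subtype.ext (Subtype.ext h3))
  · obtain ⟨K, hK⟩ := h.bdd
    refine ⟨K, fun μ hμ => hK μ ?_⟩
    obtain ⟨x, hx, hx0⟩ := (Submodule.ne_bot_iff _).1 hμ
    refine (Submodule.ne_bot_iff _).2 ⟨x, (hin μ x).1 hx, ?_⟩
    intro h0
    exact hx0 (Subtype.ext h0)
  · intro m
    apply Subtype.ext
    have := cas_map S.incl m
    rw [h.cas] at this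
    exact this.symm

/-- Quotients of good modules are good. -/
theorem Good.quot (h : Good N) (f : N →ₗ⁅ℂ,G⁆ N') (hf : Function.Surjective f) : Good N' := by
  have hmap : ∀ (μ : Fin 3 → ℤ) (m : N), m ∈ wsp N μ → f m ∈ wsp N' μ := by
    intro μ m hm i
    rw [← LieModuleHom.map_lie, hm i, map_smul]
  refine ⟨?_, ?_, ?_, ?_⟩
  · rw [eq_top_iff]
    rintro z -
    obtain ⟨p, rfl⟩ := hf z
    have hp1 : p ∈ ⨆ μ : Fin 3 → ℤ, wsp N μ := by rw [h.span]; trivial
    induction hp1 using Submodule.iSup_induction' with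
    | mem μ x hx => exact Submodule.mem_iSup_of_mem μ (hmap μ x hx)
    | zero => rw [map_zero]; exact Submodule.zero_mem _
    | add x y _ _ hx hy => rw [map_add]; exact Submodule.add_mem _ hx hy
  · intro μ
    have := h.fin μ
    let φ : wsp N μ →ₗ[ℂ] wsp N' μ :=
      ((f : N →ₗ[ℂ] N').comp (wsp N μ).subtype).codRestrict (wsp N' μ) fun x => hmap μ x.1 x.2
    refine Module.Finite.of_surjective φ ?_
    rintro ⟨z, hz⟩
    obtain ⟨p, hp, hpz⟩ := h.lift f hf μ z hz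
    exact ⟨⟨p, hp⟩, Subtype.ext hpz⟩
  · obtain ⟨K, hK⟩ := h.bdd
    refine ⟨K, fun μ hμ => hK μ ?_⟩
    obtain ⟨z, hz, hz0⟩ := (Submodule.ne_bot_iff _).1 hμ
    obtain ⟨p, hp, hpz⟩ := h.lift f hf μ z hz
    refine (Submodule.ne_bot_iff _).2 ⟨p, hp, ?_⟩
    rintro rfl
    exact hz0 (by rw [← hpz, map_zero])
  · intro z
    obtain ⟨p, rfl⟩ := hf z
    rw [cas_map, h.cas, map_smul]

theorem isWtVec_iff {μ : Wt} {m : N} : IsWtVec μ m ↔ ∀ i, ⁅E i i, m⁆ = μ i • m := by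
  constructor
  · intro h i
    have h1 := h (Pi.single i 1)
    rw [hdiag_eq] at h1
    simpa [Pi.single_apply, Finset.sum_ite_eq', ite_smul, ite_mul] using h1
  · intro h a
    rw [hdiag_eq, sum_lie, Finset.sum_smul]
    refine Finset.sum_congr rfl fun i _ => ?_
    rw [smul_lie, h i, smul_smul]

/-- The complex weight spaces. -/
def wc (κ : Wt) : Submodule ℂ N where
  carrier := {m | ∀ i, ⁅E i i, m⁆ = κ i • m}
  add_mem' := by
    intro a b ha hb i
    rw [lie_add, ha i, hb i, smul_add]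
  zero_mem' := by intro i; simp
  smul_mem' := by
    intro c a ha i
    rw [lie_smul, ha i, smul_comm]

/-- Modules of category `O`: weight vectors lift along surjections. -/
theorem InO.lift (h : InO N) (f : N →ₗ⁅ℂ,G⁆ N') (hf : Function.Surjective f)
    (μ : Fin 3 → ℤ) (z : N') (hz : z ∈ wsp N' μ) : ∃ p ∈ wsp N μ, f p = z := by
  classical
  obtain ⟨p, hp⟩ := hf z
  have hp1 : p ∈ ⨆ κ : Wt, wc (N := N) κ := by
    have h1 : p ∈ Submodule.span ℂ {m : N | ∃ μ : Wt, IsWtVec μ m} := by rw [h.ss]; trivial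
    refine (Submodule.span_le.2 ?_) h1
    rintro m ⟨κ, hκ⟩
    exact Submodule.mem_iSup_of_mem κ (isWtVec_iff.1 hκ)
  obtain ⟨g, hg, hgp⟩ := (Submodule.mem_iSup_iff_exists_finsupp _ _).1 hp1
  refine ⟨g (fun i => (μ i : ℂ)), hg _, ?_⟩
  refine lift_aux (fun κ : Wt => κ) (fun _ _ h => h) f g (fun ν i => hg ν i) _ z hz ?_
  rw [← hp, ← hgp]
  rfl

end

end EA58
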