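import Pool.Agent.LibEA58.Good

/-!
# Good modules: singular vectors, the block
-/

namespace EA58

section
variable {N : Type} [AddCommGroup N] [Module ℂ N] [LieRingModule G N] [LieModule ℂ G N]

/-- the integral weight `ε_i` -/
def G2e (i : Fin 3) : Fin 3 → ℤ := Pi.single i 1

theorem G2_E_wsp (i j : Fin 3) (μ : Fin 3 → ℤ) (v : N) (hv : v ∈ wsp N μ) :
    ⁅E i j, v⁆ ∈ wsp N (μ + G2e i - G2e j) := by
  rw [mem_wsp] at hv ⊢
  intro k
  rw [leibniz_lie, lie_E_E, hv k, lie_smul]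
  have h1 : ⁅(if k = i then E k j else 0) - (if j = k then E i k else 0), v⁆ =
      ((if k = i then 1 else 0) - (if j = k then 1 else 0) : ℂ) • ⁅E i j, v⁆ := by
    rw [sub_lie, sub_smul]
    congr 1
    · split_ifs with h
      · subst h; simp
      · simp
    · split_ifs with h
      · subst h; simp
      · simp
  rw [h1, ← add_smul]
  congr 1
  simp only [Pi.sub_apply, Pi.add_apply, G2e, Pi.single_apply]
  push_cast
  by_cases h2 : k = i <;> by_cases h3 : k = j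
  · subst h2; subst h3; simp
  · subst h2
    have h4 : ¬ j = k := fun h => h3 h.symm
    simp [h3, h4]; ring
  · subst h3
    simp [h2]; ring
  · have h4 : ¬ j = k := fun h => h3 h.symm
    simp [h2, h3, h4]

theorem G2_Xp_wsp (i j : Fin 3) (μ : Fin 3 → ℤ) (v : N) (hv : v ∈ wsp N μ) :
    ⁅Xp i j, v⁆ ∈ wsp N (μ + G2e i + G2e j) := by
  rw [mem_wsp] at hv ⊢
  intro k
  rw [leibniz_lie, lie_E_Xp, hv k, lie_smul]
  have h1 : ⁅(if k = i then Xp k j else 0) + (if k = j then Xp k i else 0), v⁆ =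
      ((if k = i then 1 else 0) + (if k = j then 1 else 0) : ℂ) • ⁅Xp i j, v⁆ := by
    rw [add_lie, add_smul]
    congr 1
    · split_ifs with h
      · subst h; simp
      · simp
    · split_ifs with h
      · subst h; rw [Xp_comm]; simp
      · simp
  rw [h1, ← add_smul]
  congr 1
  simp only [Pi.add_apply, G2e, Pi.single_apply]
  push_cast
  ring

theorem G2_pos_mem (V : Submodule ℂ N) (v : N) (hE : ∀ i j : Fin 3, i < j → ⁅E i j, v⁆ ∈ V)
    (hX : ∀ i j : Fin 3, ⁅Xp i j, v⁆ ∈ V) (X : G) (hpos : IsPos X) : ⁅X, v⁆ ∈ V := by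
  rw [isPos_iff] at hpos
  obtain ⟨h1, h2⟩ := hpos
  rw [decomp X, sum_lie]
  refine Submodule.sum_mem _ fun i _ => ?_
  rw [sum_lie]
  refine Submodule.sum_mem _ fun j _ => ?_
  rw [h2, add_lie, add_lie, smul_lie, smul_lie, smul_lie]
  refine add_mem (add_mem ?_ (V.smul_mem _ (hX i j))) ?_
  · by_cases h : i < j
    · exact V.smul_mem _ (hE i j h)
    · rw [h1 i j (not_lt.1 h), zero_smul]
      exact V.zero_mem
  · simp

theorem G2_ht_E {i j : Fin 3} (h : i < j) (μ : Fin 3 → ℤ) : ht μ < ht (μ + G2e i - G2e j) := by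
  fin_cases i <;> fin_cases j <;> simp [ht, G2e] at h ⊢ <;> omega

theorem G2_ht_Xp (i j : Fin 3) (μ : Fin 3 → ℤ) : ht μ < ht (μ + G2e i + G2e j) := by
  fin_cases i <;> fin_cases j <;> simp [ht, G2e] <;> omega

/-- dominance cone -/
def G2dom (d : Fin 3 → ℤ) : Prop := 0 ≤ d 0 ∧ 0 ≤ d 0 + d 1 ∧ 0 ≤ d 0 + d 1 + d 2

theorem G2_dom_E {i j : Fin 3} (h : i < j) (μ ν : Fin 3 → ℤ) (hd : G2dom (μ - ν)) :
    G2dom (μ + G2e i - G2e j - ν) := by
  unfold G2dom at *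
  fin_cases i <;> fin_cases j <;> simp [G2e] at h hd ⊢ <;> omega

theorem G2_dom_Xp (i j : Fin 3) (μ ν : Fin 3 → ℤ) (hd : G2dom (μ - ν)) :
    G2dom (μ + G2e i + G2e j - ν) := by
  unfold G2dom at *
  fin_cases i <;> fin_cases j <;> simp [G2e] at hd ⊢ <;> omega

/-- the Casimir operator on a singular vector -/
theorem G2_cas (μ : Fin 3 → ℤ) (v : N) (hv : v ∈ wsp N μ)
    (hE : ∀ i j : Fin 3, i < j → ⁅E i j, v⁆ = 0) (hX : ∀ i j : Fin 3, ⁅Xp i j, v⁆ = 0) :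
    cas v = ((((μ 0 + 3) ^ 2 + (μ 1 + 2) ^ 2 + (μ 2 + 1) ^ 2 - 14 : ℤ)) : ℂ) • v := by
  rw [mem_wsp] at hv
  have t1 : ∀ i : Fin 3, ⁅E i i, ⁅E i i, v⁆⁆ = ((μ i : ℂ) * (μ i : ℂ)) • v := by
    intro i
    rw [hv i, lie_smul, hv i, smul_smul]
  have t2 : ∀ i j : Fin 3, i < j → ⁅E i j, ⁅E j i, v⁆⁆ = ((μ i : ℂ) - (μ j : ℂ)) • v := by
    intro i j h
    rw [leibniz_lie, hE i j h, lie_zero, add_zero, lie_E_E, if_pos rfl, if_pos rfl, sub_lie,
      hv i, hv j, sub_smul]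
  have t3 : ∀ i j : Fin 3, i < j → ⁅E j i, ⁅E i j, v⁆⁆ = 0 := by
    intro i j h
    rw [hE i j h, lie_zero]
  have t4 : ∀ i j : Fin 3, ⁅Yp i j, ⁅Xp i j, v⁆⁆ = 0 := by
    intro i j
    rw [hX i j, lie_zero]
  have t5 : ∀ i : Fin 3, ⁅Xp i i, ⁅Yp i i, v⁆⁆ = (4 * (μ i : ℂ)) • v := by
    intro i
    rw [leibniz_lie, t4, add_zero, lie_Xp_Yp]
    simp only [if_true, add_lie, hv i]
    module
  have t6 : ∀ i j : Fin 3, i ≠ j → ⁅Xp i j, ⁅Yp i j, v⁆⁆ = ((μ i : ℂ) + (μ j : ℂ)) • v := by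
    intro i j h
    rw [leibniz_lie, t4, add_zero, lie_Xp_Yp, if_neg (Ne.symm h), if_pos rfl, if_pos rfl,
      if_neg h, zero_add, add_zero, add_lie, hv i, hv j, add_smul]
  unfold cas
  simp only [Fin.sum_univ_three, t1, t4, t5, add_zero]
  rw [t2 0 1 (by decide), t2 0 2 (by decide), t2 1 2 (by decide), t3 0 1 (by decide),
    t3 0 2 (by decide), t3 1 2 (by decide), t6 0 1 (by decide), t6 0 2 (by decide),
    t6 1 0 (by decide), t6 1 2 (by decide), t6 2 0 (by decide), t6 2 1 (by decide)]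
  push_cast
  module

/-- Above every weight there is a singular vector. -/
theorem G2_singular (h : Good N) (ν : Fin 3 → ℤ) (hν : wsp N ν ≠ ⊥) :
    ∃ (μ : Fin 3 → ℤ) (v : N), G2dom (μ - ν) ∧ v ≠ 0 ∧ v ∈ wsp N μ ∧
      (∀ X : G, IsPos X → ⁅X, v⁆ = 0) ∧
      (μ 0 + 3) ^ 2 + (μ 1 + 2) ^ 2 + (μ 2 + 1) ^ 2 = 2 := by
  obtain ⟨K, hK⟩ := h.bdd
  -- choose the weight of maximal height above `ν`
  have hex : ∃ n : ℕ, ∃ μ : Fin 3 → ℤ, G2dom (μ - ν) ∧ wsp N μ ≠ ⊥ ∧ (K - ht μ).toNat = n :=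
    ⟨_, ν, by simp [G2dom], hν, rfl⟩
  classical
  obtain ⟨μ, hdom, hμ, hn⟩ := Nat.find_spec hex
  have hmax : ∀ μ' : Fin 3 → ℤ, G2dom (μ' - ν) → wsp N μ' ≠ ⊥ → ht μ' ≤ ht μ := by
    intro μ' h1 h2
    have h3 := Nat.find_min' hex ⟨μ', h1, h2, rfl⟩
    rw [← hn] at h3
    have h4 := hK μ hμ
    have h5 := hK μ' h2
    omega
  obtain ⟨v, hv, hv0⟩ := Submodule.exists_mem_ne_zero_of_ne_bot hμ
  have hE : ∀ i j : Fin 3, i < j → ⁅E i j, v⁆ = 0 := by
    intro i j hij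
    by_contra hne
    have h1 : wsp N (μ + G2e i - G2e j) ≠ ⊥ := by
      intro h0
      have := G2_E_wsp i j μ v hv
      rw [h0, Submodule.mem_bot] at this
      exact hne this
    have h2 := hmax _ (G2_dom_E hij μ ν hdom) h1
    have h3 := G2_ht_E hij μ
    omega
  have hX : ∀ i j : Fin 3, ⁅Xp i j, v⁆ = 0 := by
    intro i j
    by_contra hne
    have h1 : wsp N (μ + G2e i + G2e j) ≠ ⊥ := by
      intro h0
      have := G2_Xp_wsp i j μ v hv
      rw [h0, Submodule.mem_bot] at this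
      exact hne this
    have h2 := hmax _ (G2_dom_Xp i j μ ν hdom) h1
    have h3 := G2_ht_Xp i j μ
    omega
  refine ⟨μ, v, hdom, hv0, hv, fun X hpos => ?_, ?_⟩
  · have := G2_pos_mem (⊥ : Submodule ℂ N) v (fun i j hij => by rw [hE i j hij]; exact zero_mem _)
      (fun i j => by rw [hX i j]; exact zero_mem _) X hpos
    exact (Submodule.mem_bot ℂ).1 this
  · have h1 := G2_cas μ v hv hE hX
    rw [h.cas v] at h1
    have h2 := smul_left_injective ℂ hv0 h1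
    have h3 : (-12 : ℤ) = (μ 0 + 3) ^ 2 + (μ 1 + 2) ^ 2 + (μ 2 + 1) ^ 2 - 14 := by
      exact_mod_cast h2
    linarith

/-- A nonzero good module has a singular vector, whose weight `μ` satisfies `|μ + ρ|² = 2`. -/
theorem Good.singular (h : Good N) [Nontrivial N] :
    ∃ (μ : Fin 3 → ℤ) (v : N), v ≠ 0 ∧ v ∈ wsp N μ ∧ (∀ X : G, IsPos X → ⁅X, v⁆ = 0) ∧
      (μ 0 + 3) ^ 2 + (μ 1 + 2) ^ 2 + (μ 2 + 1) ^ 2 = 2 := by
  have hex : ∃ ν : Fin 3 → ℤ, wsp N ν ≠ ⊥ := by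
    by_contra hcon
    push Not at hcon
    have h1 := h.span
    simp only [hcon, iSup_bot] at h1
    exact bot_ne_top h1
  obtain ⟨ν, hν⟩ := hex
  obtain ⟨μ, v, _, h1⟩ := G2_singular h ν hν
  exact ⟨μ, v, h1⟩

/-! ### The filtration by height -/

/-- the part of height `≥ k` -/
def G2V (N : Type) [AddCommGroup N] [Module ℂ N] [LieRingModule G N] [LieModule ℂ G N] (k : ℤ) :
    Submodule ℂ N := ⨆ (ν : Fin 3 → ℤ) (_ : k ≤ ht ν), wsp N ν

theorem G2_wsp_le {k : ℤ} {ν : Fin 3 → ℤ} (h : k ≤ ht ν) : wsp N ν ≤ G2V N k :=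
  le_iSup₂_of_le ν h le_rfl

theorem G2V_mono {k k' : ℤ} (h : k ≤ k') : G2V N k' ≤ G2V N k :=
  iSup₂_le fun _ hν => G2_wsp_le (h.trans hν)

theorem G2V_exists (h : Good N) (m : N) : ∃ k : ℤ, m ∈ G2V N k := by
  have hm : m ∈ ⨆ μ : Fin 3 → ℤ, wsp N μ := by rw [h.span]; exact Submodule.mem_top
  refine Submodule.iSup_induction (wsp N) (motive := fun m => ∃ k : ℤ, m ∈ G2V N k) hm ?_ ?_ ?_
  · intro μ x hx
    exact ⟨ht μ, G2_wsp_le le_rfl hx⟩
  · exact ⟨0, zero_mem _⟩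
  · rintro x y ⟨k, hk⟩ ⟨k', hk'⟩
    exact ⟨min k k', add_mem (G2V_mono (min_le_left _ _) hk) (G2V_mono (min_le_right _ _) hk')⟩

theorem G2V_stable (k : ℤ) (X : G) (hX : IsPos X) (v : N) (hv : v ∈ G2V N k) :
    ⁅X, v⁆ ∈ G2V N k := by
  refine Submodule.iSup_induction' (fun ν : Fin 3 → ℤ => ⨆ (_ : k ≤ ht ν), wsp N ν)
    (motive := fun v _ => ⁅X, v⁆ ∈ G2V N k) ?_ ?_ ?_ hv
  · intro ν x hx
    by_cases h : k ≤ ht ν
    · rw [iSup_pos h] at hx
      refine G2_pos_mem _ _ (fun i j hij => ?_) (fun i j => ?_) X hX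
      · exact G2_wsp_le (h.trans (G2_ht_E hij ν).le) (G2_E_wsp i j ν x hx)
      · exact G2_wsp_le (h.trans (G2_ht_Xp i j ν).le) (G2_Xp_wsp i j ν x hx)
    · rw [iSup_neg h, Submodule.mem_bot] at hx
      rw [hx, lie_zero]
      exact zero_mem _
  · rw [lie_zero]; exact zero_mem _
  · intro x y _ _ h1 h2
    rw [lie_add]
    exact add_mem h1 h2

/-- finitely many integral weights with `|μ + ρ|² = 2` -/
theorem G2_P_finite : {μ : Fin 3 → ℤ | (μ 0 + 3) ^ 2 + (μ 1 + 2) ^ 2 + (μ 2 + 1) ^ 2 = 2}.Finite := by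
  refine (Set.Finite.pi' (t := fun _ : Fin 3 => Set.Icc (-5 : ℤ) 5)
    (fun _ => Set.finite_Icc _ _)).subset ?_
  intro μ hμ
  rw [Set.mem_ofPred_eq] at hμ
  intro i
  have h0 := sq_nonneg (μ 0 + 3)
  have h1 := sq_nonneg (μ 1 + 2)
  have h2 := sq_nonneg (μ 2 + 1)
  fin_cases i
  · constructor
    · show -5 ≤ μ 0
      nlinarith
    · show μ 0 ≤ 5
      nlinarith
  · constructor
    · show -5 ≤ μ 1
      nlinarith
    · show μ 1 ≤ 5
      nlinarith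
  · constructor
    · show -5 ≤ μ 2
      nlinarith
    · show μ 2 ≤ 5
      nlinarith

theorem G2_F_finite (h : Good N) (k : ℤ) : {ν : Fin 3 → ℤ | k ≤ ht ν ∧ wsp N ν ≠ ⊥}.Finite := by
  have hfin : ∀ μ : Fin 3 → ℤ, {ν : Fin 3 → ℤ | k ≤ ht ν ∧ G2dom (μ - ν)}.Finite := by
    intro μ
    refine (Set.Finite.pi' (t := fun i : Fin 3 =>
      Set.Icc (μ i - (ht μ - k)) (μ i + (ht μ - k))) (fun _ => Set.finite_Icc _ _)).subset ?_
    rintro ν ⟨h1, h2, h3, h4⟩ i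
    simp only [Pi.sub_apply] at h2 h3 h4
    unfold ht at *
    fin_cases i
    · constructor
      · show _ ≤ ν 0
        simp only [Fin.zero_eta]; omega
      · show ν 0 ≤ _
        simp only [Fin.zero_eta]; omega
    · constructor
      · show _ ≤ ν 1
        simp only [Fin.mk_one]; omega
      · show ν 1 ≤ _
        simp only [Fin.mk_one]; omega
    · constructor
      · show _ ≤ ν 2
        simp only [Fin.reduceFinMk]; omega
      · show ν 2 ≤ _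
        simp only [Fin.reduceFinMk]; omega
  refine (G2_P_finite.biUnion fun μ _ => hfin μ).subset ?_
  rintro ν ⟨h1, h2⟩
  obtain ⟨μ, v, h3, _, _, _, h4⟩ := G2_singular h ν h2
  exact Set.mem_biUnion (x := μ) h4 ⟨h1, h3⟩

theorem G2V_fin (h : Good N) (k : ℤ) : FiniteDimensional ℂ (G2V N k) := by
  have hF := G2_F_finite h k
  have hfin : Finite {ν : Fin 3 → ℤ | k ≤ ht ν ∧ wsp N ν ≠ ⊥} := hF
  have hle : G2V N k = ⨆ ν : {ν : Fin 3 → ℤ | k ≤ ht ν ∧ wsp N ν ≠ ⊥}, wsp N ν.1 := by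
    apply le_antisymm
    · refine iSup₂_le fun ν hν => ?_
      by_cases h0 : wsp N ν = ⊥
      · rw [h0]; exact bot_le
      · exact le_iSup (fun ν : {ν : Fin 3 → ℤ | k ≤ ht ν ∧ wsp N ν ≠ ⊥} => wsp N ν.1) ⟨ν, hν, h0⟩
    · exact iSup_le fun ν => G2_wsp_le ν.2.1
  rw [hle]
  have : ∀ ν : {ν : Fin 3 → ℤ | k ≤ ht ν ∧ wsp N ν ≠ ⊥}, FiniteDimensional ℂ (wsp N ν.1) :=
    fun ν => h.fin ν.1
  exact Submodule.finiteDimensional_iSup _

/-! ### Finite generation -/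

theorem G2_fg (h : Good N) : ∃ S : Finset N, LieSubmodule.lieSpan ℂ G (S : Set N) = ⊤ := by
  classical
  have hb : ∀ μ : Fin 3 → ℤ, ∃ S : Finset N, Submodule.span ℂ (S : Set N) = wsp N μ := by
    intro μ
    have := h.fin μ
    exact (Submodule.fg_iff_finiteDimensional (wsp N μ)).2 this
  choose B hB using hb
  refine ⟨G2_P_finite.toFinset.biUnion B, ?_⟩
  set N₁ : LieSubmodule ℂ G N :=
    LieSubmodule.lieSpan ℂ G ((G2_P_finite.toFinset.biUnion B : Finset N) : Set N) with hN₁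
  have hsub : ∀ μ : Fin 3 → ℤ, (μ 0 + 3) ^ 2 + (μ 1 + 2) ^ 2 + (μ 2 + 1) ^ 2 = 2 →
      ∀ v ∈ wsp N μ, v ∈ N₁ := by
    intro μ hμ v hv
    rw [← hB μ] at hv
    have h1 : Submodule.span ℂ (B μ : Set N) ≤ N₁.toSubmodule := by
      rw [Submodule.span_le]
      intro x hx
      refine LieSubmodule.subset_lieSpan ?_
      rw [Finset.coe_biUnion]
      exact Set.mem_biUnion (x := μ) (by simpa using hμ) hx
    exact h1 hv
  by_contra hne
  have hq : Good (N ⧸ N₁) := h.quot (LieSubmodule.Quotient.mk' N₁)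
    (LieSubmodule.Quotient.surjective_mk' N₁)
  have hnt : Nontrivial (N ⧸ N₁) := by
    have h1 : N₁.toSubmodule ≠ ⊤ := by
      intro h0
      exact hne ((LieSubmodule.toSubmodule_eq_top N₁).1 h0)
    exact Submodule.Quotient.nontrivial_iff.2 h1
  obtain ⟨μ, z, hz0, hz, _, hμ⟩ := Good.singular hq
  obtain ⟨p, hp, hpz⟩ := h.lift (LieSubmodule.Quotient.mk' N₁)
    (LieSubmodule.Quotient.surjective_mk' N₁) μ z hz
  apply hz0
  rw [← hpz]
  exact (LieSubmodule.Quotient.mk_eq_zero').2 (hsub μ hμ p hp)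

/-! ### The orbit of `λ` -/

theorem G2_exists_w (a : Fin 3 → ℤ) (h : a 0 ^ 2 + a 1 ^ 2 + a 2 ^ 2 = 2) :
    ∃ w : W, ∀ i, ((w.sgn i : ℤ)) * (![1, 1, 0] : Fin 3 → ℤ) (w.perm⁻¹ i) = a i := by
  have h0 := sq_nonneg (a 0)
  have h1 := sq_nonneg (a 1)
  have h2 := sq_nonneg (a 2)
  have e : ∀ x : ℤ, x ^ 2 ≤ 2 → x = -1 ∨ x = 0 ∨ x = 1 := by
    intro x hx
    have h3 : -2 < x := by nlinarith
    have h4 : x < 2 := by nlinarith
    omega
  rcases e (a 0) (by linarith) with h3 | h3 | h3 <;>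
  rcases e (a 1) (by linarith) with h4 | h4 | h4 <;>
  rcases e (a 2) (by linarith) with h5 | h5 | h5 <;>
  first
  | (exfalso; rw [h3, h4, h5] at h; norm_num at h; done)
  | (refine ⟨⟨1, ![if a 0 = -1 then -1 else 1, if a 1 = -1 then -1 else 1, 1]⟩, fun i => ?_⟩
     fin_cases i <;> simp [h3, h4, h5]; done)
  | (refine ⟨⟨Equiv.swap 1 2, ![if a 0 = -1 then -1 else 1, 1, if a 2 = -1 then -1 else 1]⟩,
      fun i => ?_⟩
     fin_cases i <;> simp [h3, h4, h5, Equiv.swap_apply_def]; done)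
  | (refine ⟨⟨Equiv.swap 0 2, ![1, if a 1 = -1 then -1 else 1, if a 2 = -1 then -1 else 1]⟩,
      fun i => ?_⟩
     fin_cases i <;> simp [h3, h4, h5, Equiv.swap_apply_def]; done)

theorem G2_dot (μ : Fin 3 → ℤ)
    (h : (μ 0 + 3) ^ 2 + (μ 1 + 2) ^ 2 + (μ 2 + 1) ^ 2 = 2) :
    ∃ w : W, dot w lam0 = fun i => (μ i : ℂ) := by
  obtain ⟨w, hw⟩ := G2_exists_w ![μ 0 + 3, μ 1 + 2, μ 2 + 1] (by simpa using h)
  refine ⟨w, ?_⟩
  have h1 : lam0 + rho = fun i => (((![1, 1, 0] : Fin 3 → ℤ) i : ℤ) : ℂ) := by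
    funext i
    fin_cases i <;> simp [lam0, rho] <;> norm_num
  funext i
  rw [dot, h1]
  change ((w.sgn i : ℤ) : ℂ) * (((![1, 1, 0] : Fin 3 → ℤ) (w.perm⁻¹ i) : ℤ) : ℂ) - rho i = _
  rw [← Int.cast_mul, hw i]
  fin_cases i <;> simp [rho]

/-- Good modules lie in the block `O_λ` of `λ = λ₀`. -/
theorem Good.inBlock (h : Good N) : InBlock lam0 N := by
  have hwt : ∀ (M : Type) [AddCommGroup M] [Module ℂ M] [LieRingModule G M] [LieModule ℂ G M]
      (μ : Fin 3 → ℤ) (v : M), v ∈ wsp M μ → IsWtVec (fun i => (μ i : ℂ)) v := by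
    intro M _ _ _ _ μ v hv a
    rw [hdiag_eq, sum_lie, Finset.sum_smul]
    refine Finset.sum_congr rfl fun i _ => ?_
    rw [smul_lie, (mem_wsp M μ v).1 hv i, smul_smul]
  refine { fg := G2_fg h, ss := ?_, nil := ?_, jh := ?_ }
  · rw [eq_top_iff, ← h.span]
    refine iSup_le fun μ v hv => ?_
    exact Submodule.subset_span ⟨_, hwt N μ v hv⟩
  · intro m
    obtain ⟨k, hk⟩ := G2V_exists h m
    exact ⟨G2V N k, hk, G2V_fin h k, fun X hX v hv => G2V_stable k X hX v hv⟩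
  · intro N' S _ _ _ _ f hf hS
    have hgS : Good S := (h.sub N').quot f hf
    have hnt : Nontrivial S := LieModule.nontrivial_of_isIrreducible ℂ G S
    obtain ⟨μ, v, hv0, hv, hpos, hμ⟩ := Good.singular hgS
    obtain ⟨w, hw⟩ := G2_dot μ hμ
    refine ⟨w, hS, v, hv0, ?_, hpos⟩
    rw [hw]
    exact hwt S μ v hv

end

end EA58
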