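import Pool.Agent.LibEA58.Maps
import Pool.Agent.LibEA58.Good
import Pool.Agent.LibEA58.Good2

/-!
# The image `X` of `CoG (M(B)) → CoG (M(A))` is the simple module `L(x · λ)`
-/

set_option linter.unusedSimpArgs false

open MvPolynomial TensorProduct

namespace EA58

/-- a diagonal derivation -/
theorem ir_der_mono {σ : Type} [Fintype σ] (D : Derivation ℂ (MvPolynomial σ ℂ) (MvPolynomial σ ℂ))
    (c : σ → ℂ) (h : ∀ s, D (X s) = c s • X s) (m : σ →₀ ℕ) :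
    D (monomial m 1) = (∑ s, (m s : ℂ) * c s) • monomial m 1 := by
  induction m using Finsupp.induction_linear with
  | zero => 
    have : (monomial (0 : σ →₀ ℕ) (1 : ℂ) : MvPolynomial σ ℂ) = 1 := rfl
    rw [this]
    simp
  | add f g hf hg =>
    have : (monomial (f + g) (1 : ℂ) : MvPolynomial σ ℂ) = monomial f 1 * monomial g 1 := by
      rw [monomial_mul, one_mul]
    rw [this, Derivation.leibniz, hf, hg]
    simp only [Finsupp.add_apply, Nat.cast_add, add_mul, Finset.sum_add_distrib, add_smul,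
      smul_eq_mul, mul_smul_comm]
    rw [mul_comm (monomial g 1)]
    exact add_comm _ _
  | single s k =>
    have : (monomial (Finsupp.single s k) (1 : ℂ) : MvPolynomial σ ℂ) = X s ^ k := by
      rw [X_pow_eq_monomial]
    rw [this, Derivation.leibniz_pow, h]
    have h2 : ∑ t, ((Finsupp.single s k t : ℕ) : ℂ) * c t = k * c s := by
      classical
      rw [Finset.sum_eq_single s]
      · simp
      · intro t _ ht
        simp [Finsupp.single_apply, ht.symm]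
      · simp
    rw [h2]
    rcases k with _ | k
    · simp
    · simp only [Nat.succ_sub_one, smul_eq_mul, Nat.add_sub_cancel]
      rw [mul_smul_comm, ← pow_succ, ← Nat.cast_smul_eq_nsmul ℂ, smul_smul]

/-- multiplication by a variable and partial derivatives on small monomials -/
theorem ir_d0_1 : pderiv 0 (X 1 : Q) = 0 := pderiv_X_of_ne (by decide)
theorem ir_d1_0 : pderiv 1 (X 0 : Q) = 0 := pderiv_X_of_ne (by decide)
theorem ir_d0_0 : pderiv 0 (X 0 : Q) = 1 := pderiv_X_self _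
theorem ir_d1_1 : pderiv 1 (X 1 : Q) = 1 := pderiv_X_self _

theorem ir_ev00 (q : Q) : eA 0 0 q = -(X 0 * pderiv 0 q) - (2 : ℂ) • q := rfl
theorem ir_ev01 (q : Q) : eA 0 1 q = -(X 1 * pderiv 0 q) := rfl
theorem ir_ev10 (q : Q) : eA 1 0 q = -(X 0 * pderiv 1 q) := rfl
theorem ir_ev11 (q : Q) : eA 1 1 q = -(X 1 * pderiv 1 q) - (2 : ℂ) • q := rfl
theorem ir_ev22 (q : Q) : eA 2 2 q = (X 0 * pderiv 0 q + X 1 * pderiv 1 q) - (2 : ℂ) • q := rfl
theorem ir_ev20 (q : Q) : eA 2 0 q = X 0 * q := rfl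
theorem ir_ev21 (q : Q) : eA 2 1 q = X 1 * q := rfl
theorem ir_ev02 (q : Q) : eA 0 2 q =
    -(X 0 * pderiv 0 (pderiv 0 q) + X 1 * pderiv 1 (pderiv 0 q)) := rfl
theorem ir_ev12 (q : Q) : eA 1 2 q =
    -(X 0 * pderiv 0 (pderiv 1 q) + X 1 * pderiv 1 (pderiv 1 q)) := rfl

theorem ir_a1 : eA 0 0 (X 1) = (-2 : ℂ) • (X 1 : Q) := by
  rw [ir_ev00, ir_d0_1]
  simp only [MvPolynomial.smul_eq_C_mul, map_neg, map_ofNat, map_one, mul_one, mul_zero]
  ring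
theorem ir_a2 : eA 1 0 (X 1) = (-1 : ℂ) • (X 0 : Q) := by
  rw [ir_ev10, ir_d1_1]
  simp only [MvPolynomial.smul_eq_C_mul, map_neg, map_ofNat, map_one, mul_one, mul_zero]
  ring
theorem ir_a3 : eA 2 0 (X 1) = (X 0 * X 1 : Q) := rfl
theorem ir_a4 : eA 0 2 (X 1) = (0 : Q) := by
  rw [ir_ev02, ir_d0_1]; simp
theorem ir_a5 : eA 1 2 (X 1) = (0 : Q) := by
  rw [ir_ev12, ir_d1_1]; simp
theorem ir_a6 : eA 2 2 (X 1) = (-1 : ℂ) • (X 1 : Q) := by
  rw [ir_ev22, ir_d1_1, ir_d0_1]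
  simp only [MvPolynomial.smul_eq_C_mul, map_neg, map_ofNat, map_one, mul_one, mul_zero]
  ring

theorem ir_b1 : eA 0 1 (X 0) = (-1 : ℂ) • (X 1 : Q) := by
  rw [ir_ev01, ir_d0_0]
  simp only [MvPolynomial.smul_eq_C_mul, map_neg, map_ofNat, map_one, mul_one, mul_zero]
  ring
theorem ir_b2 : eA 1 1 (X 0) = (-2 : ℂ) • (X 0 : Q) := by
  rw [ir_ev11, ir_d1_0]
  simp only [MvPolynomial.smul_eq_C_mul, map_neg, map_ofNat, map_one, mul_one, mul_zero]
  ring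
theorem ir_b3 : eA 2 1 (X 0) = (X 0 * X 1 : Q) := by
  rw [ir_ev21, mul_comm]
theorem ir_b4 : eA 0 0 (X 0) = (-3 : ℂ) • (X 0 : Q) := by
  rw [ir_ev00, ir_d0_0]
  simp only [MvPolynomial.smul_eq_C_mul, map_neg, map_ofNat, map_one, mul_one, mul_zero]
  ring
theorem ir_b5 : eA 1 0 (X 0) = (0 : Q) := by
  rw [ir_ev10, ir_d1_0]; simp
theorem ir_b6 : eA 2 0 (X 0) = (X 0 * X 0 : Q) := rfl
theorem ir_b7 : eA 0 2 (X 0) = (0 : Q) := by
  rw [ir_ev02, ir_d0_0]; simp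
theorem ir_b8 : eA 1 2 (X 0) = (0 : Q) := by
  rw [ir_ev12, ir_d1_0]; simp
theorem ir_b9 : eA 2 2 (X 0) = (-1 : ℂ) • (X 0 : Q) := by
  rw [ir_ev22, ir_d1_0, ir_d0_0]
  simp only [MvPolynomial.smul_eq_C_mul, map_neg, map_ofNat, map_one, mul_one, mul_zero]
  ring

theorem ir_e0 : pderiv 0 (X 0 * X 1 : Q) = X 1 := by
  rw [pderiv_mul, ir_d0_0, ir_d0_1]; simp
theorem ir_e1 : pderiv 1 (X 0 * X 1 : Q) = X 0 := by
  rw [pderiv_mul, ir_d1_0, ir_d1_1]; simp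
theorem ir_c1 : eA 0 2 (X 0 * X 1) = (-1 : ℂ) • (X 1 : Q) := by
  rw [ir_ev02, ir_e0, ir_d0_1, ir_d1_1]
  simp only [MvPolynomial.smul_eq_C_mul, map_neg, map_ofNat, map_one, mul_one, mul_zero]
  ring
theorem ir_c2 : eA 1 2 (X 0 * X 1) = (-1 : ℂ) • (X 0 : Q) := by
  rw [ir_ev12, ir_e1, ir_d0_0, ir_d1_0]
  simp only [MvPolynomial.smul_eq_C_mul, map_neg, map_ofNat, map_one, mul_one, mul_zero]
  ring
theorem ir_c3 : eA 2 2 (X 0 * X 1) = (0 : Q) := by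
  rw [ir_ev22, ir_e1, ir_e0, mul_comm (X 1) (X 0)]
  simp only [MvPolynomial.smul_eq_C_mul, map_neg, map_ofNat, map_one, mul_one, mul_zero]
  ring
theorem ir_c4 : eA 0 0 (X 0 * X 1) = (-3 : ℂ) • (X 0 * X 1 : Q) := by
  rw [ir_ev00, ir_e0]
  simp only [MvPolynomial.smul_eq_C_mul, map_neg, map_ofNat, map_one, mul_one, mul_zero]
  ring
theorem ir_c5 : eA 1 0 (X 0 * X 1) = (-1 : ℂ) • (X 0 * X 0 : Q) := by
  rw [ir_ev10, ir_e1]
  simp only [MvPolynomial.smul_eq_C_mul, map_neg, map_ofNat, map_one, mul_one, mul_zero]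
  ring
theorem ir_c6 : eA 2 0 (X 0 * X 1) = (X 0 * X 0 * X 1 : Q) := by
  rw [ir_ev20, mul_assoc]

theorem ir_g0 : pderiv 0 (X 0 * X 0 : Q) = (2 : ℂ) • X 0 := by
  rw [pderiv_mul, ir_d0_0, one_mul, mul_one]
  simp only [MvPolynomial.smul_eq_C_mul, map_neg, map_ofNat, map_one, mul_one, mul_zero]
  ring
theorem ir_g1 : pderiv 1 (X 0 * X 0 : Q) = 0 := by
  rw [pderiv_mul, ir_d1_0]; simp
theorem ir_ds (i : Fin 2) (c : ℂ) (q : Q) : pderiv i (c • q) = c • pderiv i q :=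
  Derivation.map_smul _ _ _
theorem ir_g2 : eA 0 2 (X 0 * X 0) = (-2 : ℂ) • (X 0 : Q) := by
  rw [ir_ev02, ir_g0, ir_ds, ir_ds, ir_d0_0, ir_d1_0]
  simp only [MvPolynomial.smul_eq_C_mul, map_neg, map_ofNat, map_one, mul_one, mul_zero]
  ring
theorem ir_g3 : eA 1 2 (X 0 * X 0) = (0 : Q) := by
  rw [ir_ev12, ir_g1]; simp
theorem ir_g4 : eA 2 2 (X 0 * X 0) = (0 : Q) := by
  rw [ir_ev22, ir_g1, ir_g0]
  simp only [MvPolynomial.smul_eq_C_mul, map_neg, map_ofNat, map_one, mul_one, mul_zero]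
  ring
theorem ir_g5 : eA 0 1 (X 0 * X 0) = (-2 : ℂ) • (X 0 * X 1 : Q) := by
  rw [ir_ev01, ir_g0]
  simp only [MvPolynomial.smul_eq_C_mul, map_neg, map_ofNat, map_one, mul_one, mul_zero]
  ring
theorem ir_g6 : eA 1 1 (X 0 * X 0) = (-2 : ℂ) • (X 0 * X 0 : Q) := by
  rw [ir_ev11, ir_g1]
  simp only [MvPolynomial.smul_eq_C_mul, map_neg, map_ofNat, map_one, mul_one, mul_zero]
  ring
theorem ir_g7 : eA 2 1 (X 0 * X 0) = (X 0 * X 0 * X 1 : Q) := by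
  rw [ir_ev21, mul_comm]

theorem ir_h0 : pderiv 0 (X 0 * X 0 * X 1 : Q) = (2 : ℂ) • (X 0 * X 1) := by
  rw [pderiv_mul, ir_g0, ir_d0_1, smul_mul_assoc, mul_zero, add_zero]
theorem ir_h1 : pderiv 1 (X 0 * X 0 * X 1 : Q) = X 0 * X 0 := by
  rw [pderiv_mul, ir_g1, ir_d1_1]; simp
theorem ir_h2 : eA 0 2 (X 0 * X 0 * X 1) = (-4 : ℂ) • (X 0 * X 1 : Q) := by
  rw [ir_ev02, ir_h0, ir_ds, ir_ds, ir_e0, ir_e1]
  simp only [MvPolynomial.smul_eq_C_mul, map_neg, map_ofNat, map_one, mul_one, mul_zero]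
  ring
theorem ir_h3 : eA 1 2 (X 0 * X 0 * X 1) = (-2 : ℂ) • (X 0 * X 0 : Q) := by
  rw [ir_ev12, ir_h1, ir_g0, ir_g1]
  simp only [MvPolynomial.smul_eq_C_mul, map_neg, map_ofNat, map_one, mul_one, mul_zero]
  ring
theorem ir_h4 : eA 2 2 (X 0 * X 0 * X 1) = (X 0 * X 0 * X 1 : Q) := by
  rw [ir_ev22, ir_h1, ir_h0]
  simp only [MvPolynomial.smul_eq_C_mul, map_neg, map_ofNat, map_one, mul_one, mul_zero]
  ring

theorem ir_Yp_one (i j : Fin 3) (q : Q) :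
    ⁅Yp i j, ((1 : P) ⊗ₜ[ℂ] q : CoG Q)⁆ =
      -∑ k, ((Z k i) ⊗ₜ[ℂ] (eA k j q) + (Z k j) ⊗ₜ[ℂ] (eA k i q) : CoG Q) := by
  rw [lie_tm, Derivation.map_one_eq_zero, TensorProduct.zero_tmul, zero_add]
  have h1 : ∀ k l, phi (Yp i j) k l = -(if l = j then Z k i else 0) - (if l = i then Z k j else 0) := by
    intro k l
    simp only [phi, Yp, bA_gC, bC_gC, cm, Matrix.sub_apply, Matrix.map_apply, Matrix.mul_apply,
      Matrix.add_apply, Matrix.transpose_apply, Matrix.single_apply, map_add, mul_add,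
      Finset.sum_add_distrib]
    fin_cases i <;> fin_cases j <;> fin_cases l <;> simp <;> ring
  rw [← Finset.sum_neg_distrib]
  refine Finset.sum_congr rfl fun k _ => ?_
  simp only [h1, mul_one, TensorProduct.sub_tmul, TensorProduct.neg_tmul, Finset.sum_sub_distrib,
    Finset.sum_neg_distrib]
  have h2 : ∀ (a : Fin 3) (z : P), ∑ l, (if l = a then z else 0) ⊗ₜ[ℂ] (GL3.e k l q) =
      (z ⊗ₜ[ℂ] (eA k a q) : CoG Q) := by
    intro a z
    have : ∀ l, (if l = a then z else 0) ⊗ₜ[ℂ] (GL3.e k l q) =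
        if l = a then (z ⊗ₜ[ℂ] (eA k a q) : CoG Q) else 0 := by
      intro l
      split_ifs with h
      · subst h; rfl
      · simp
    simp only [this, Finset.sum_ite_eq', Finset.mem_univ, if_true]
  rw [h2, h2]
  abel

theorem ir_E_tm (i j : Fin 3) (f : P) (q : Q) :
    ⁅E i j, (f ⊗ₜ[ℂ] q : CoG Q)⁆ = (xi (E i j) f) ⊗ₜ[ℂ] q + f ⊗ₜ[ℂ] (eA i j q) := by
  rw [lie_tm]
  congr 1
  have h : ∀ k l, (phi (E i j) k l * f) ⊗ₜ[ℂ] (GL3.e k l q) =
      if k = i then (if l = j then (f ⊗ₜ[ℂ] (eA i j q) : CoG Q) else 0) else 0 := by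
    intro k l
    have h1 : phi (E i j) k l = if k = i then (if l = j then 1 else 0) else 0 := by
      simp only [phi, E, bA_gA, bC_gA, cm, Matrix.sub_apply, Matrix.map_apply]
      rw [Matrix.single_apply]
      simp only [eq_comm (a := i), eq_comm (a := j)]
      split_ifs with h1 h2 h3 <;> simp_all
    rw [h1]
    split_ifs with h1 h2
    · subst h1; subst h2; rw [one_mul]; rfl
    · simp
    · simp
  simp only [h]
  rw [Finset.sum_eq_single i, Finset.sum_eq_single j]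
  · simp
  · intro l _ hl
    simp [hl]
  · simp
  · intro k _ hk
    simp [hk]
  · simp

/-- multiplicities -/
def ir_mult (s : Sym2 (Fin 3)) (i : Fin 3) : ℤ :=
  Sym2.lift ⟨fun j k => (if j = i then 1 else 0) + (if k = i then 1 else 0),
    fun _ _ => add_comm _ _⟩ s

theorem ir_xi_E (i : Fin 3) (s : Sym2 (Fin 3)) :
    xi (E i i) (X s) = (-(ir_mult s i : ℂ)) • X s := by
  induction s using Sym2.ind with
  | _ j k =>
    have h := xi_Z (E i i) j k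
    simp only [Z] at h
    rw [h]
    simp only [dZ, E, bA_gA, bB_gA, bC_gA, cm]
    simp only [Matrix.neg_apply, Matrix.sub_apply, Matrix.add_apply, Matrix.mul_apply,
      Matrix.map_apply, Matrix.transpose_apply, Matrix.zero_apply, map_zero, zero_mul, mul_zero,
      Finset.sum_const_zero, Matrix.single_apply, ir_mult, Sym2.lift_mk]
    fin_cases i <;> fin_cases j <;> fin_cases k <;>
      simp [Z, Sym2.eq_swap, add_comm] <;> (rw [two_smul]; ring)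

/-- weights in `Q` -/
def ir_wQ (b : Fin 2 →₀ ℕ) : Fin 3 → ℤ
  | 0 => -(b 0 : ℤ) - 2
  | 1 => -(b 1 : ℤ) - 2
  | 2 => (b 0 : ℤ) + b 1 - 2

theorem ir_eA_mono (i : Fin 3) (b : Fin 2 →₀ ℕ) :
    eA i i (monomial b 1) = ((ir_wQ b i : ℤ) : ℂ) • monomial b 1 := by
  have h0 : ∀ k : Fin 2, X k * pderiv k (monomial b (1 : ℂ)) = (b k : ℂ) • monomial b 1 := by
    intro k
    rw [X_mul_pderiv_monomial, Nat.cast_smul_eq_nsmul]
  fin_cases i
  · change -(X 0 * pderiv 0 (monomial b (1 : ℂ))) - (2 : ℂ) • monomial b 1 =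
      ((-(b 0 : ℤ) - 2 : ℤ) : ℂ) • monomial b 1
    rw [h0]
    push_cast
    module
  · change -(X 1 * pderiv 1 (monomial b (1 : ℂ))) - (2 : ℂ) • monomial b 1 =
      ((-(b 1 : ℤ) - 2 : ℤ) : ℂ) • monomial b 1
    rw [h0]
    push_cast
    module
  · change (X 0 * pderiv 0 (monomial b (1 : ℂ)) + X 1 * pderiv 1 (monomial b (1 : ℂ))) -
      (2 : ℂ) • monomial b 1 = (((b 0 : ℤ) + b 1 - 2 : ℤ) : ℂ) • monomial b 1
    rw [h0, h0]
    push_cast
    module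

/-- weights of the basis vectors -/
def ir_wt (a : Sym2 (Fin 3) →₀ ℕ) (b : Fin 2 →₀ ℕ) (i : Fin 3) : ℤ :=
  -(∑ s, (a s : ℤ) * ir_mult s i) + ir_wQ b i

/-- the monomial basis -/
noncomputable def ir_bas :
    Module.Basis ((Sym2 (Fin 3) →₀ ℕ) × (Fin 2 →₀ ℕ)) ℂ (CoG Q) :=
  (MvPolynomial.basisMonomials _ ℂ).tensorProduct (MvPolynomial.basisMonomials _ ℂ)

theorem ir_bas_apply (a : Sym2 (Fin 3) →₀ ℕ) (b : Fin 2 →₀ ℕ) :
    ir_bas (a, b) = (monomial a 1 : P) ⊗ₜ[ℂ] (monomial b 1 : Q) := by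
  simp [ir_bas]

theorem ir_repr_tm (f : P) (q : Q) (a : Sym2 (Fin 3) →₀ ℕ) (b : Fin 2 →₀ ℕ) :
    ir_bas.repr (f ⊗ₜ[ℂ] q) (a, b) = coeff b q * coeff a f := by
  rw [ir_bas, Module.Basis.tensorProduct_repr_tmul_apply]
  rfl

theorem ir_E_bas (i : Fin 3) (x : (Sym2 (Fin 3) →₀ ℕ) × (Fin 2 →₀ ℕ)) :
    ⁅E i i, ir_bas x⁆ = ((ir_wt x.1 x.2 i : ℤ) : ℂ) • ir_bas x := by
  obtain ⟨a, b⟩ := x
  rw [ir_bas_apply, ir_E_tm, ir_der_mono (xi (E i i)) _ (ir_xi_E i), ir_eA_mono]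
  rw [← TensorProduct.smul_tmul', TensorProduct.tmul_smul, ← add_smul]
  congr 1
  simp only [ir_wt]
  push_cast
  rw [← Finset.sum_neg_distrib]
  congr 1
  refine Finset.sum_congr rfl fun s _ => ?_
  ring

theorem ir_repr_E (i : Fin 3) (v : CoG Q) (x : (Sym2 (Fin 3) →₀ ℕ) × (Fin 2 →₀ ℕ)) :
    ir_bas.repr ⁅E i i, v⁆ x = ((ir_wt x.1 x.2 i : ℤ) : ℂ) * ir_bas.repr v x := by
  classical
  have h : ir_bas.coord x ∘ₗ (actG (E i i) : CoG Q →ₗ[ℂ] CoG Q) =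
      ((ir_wt x.1 x.2 i : ℤ) : ℂ) • ir_bas.coord x := by
    apply ir_bas.ext
    intro y
    have h1 : (actG (E i i) : CoG Q →ₗ[ℂ] CoG Q) (ir_bas y) =
        ((ir_wt y.1 y.2 i : ℤ) : ℂ) • ir_bas y := ir_E_bas i y
    rw [LinearMap.comp_apply, h1, map_smul, LinearMap.smul_apply, Module.Basis.coord_apply,
      Module.Basis.repr_self_apply]
    split_ifs with hxy
    · rw [hxy]
    · simp
  exact LinearMap.congr_fun h v

theorem ir_wsp_repr {μ : Fin 3 → ℤ} {v : CoG Q} (hv : v ∈ wsp (CoG Q) μ)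
    {x : (Sym2 (Fin 3) →₀ ℕ) × (Fin 2 →₀ ℕ)} (hx : ir_bas.repr v x ≠ 0) (i : Fin 3) :
    ir_wt x.1 x.2 i = μ i := by
  have h1 := ir_repr_E i v x
  rw [(mem_wsp _ _ _).1 hv i, map_smul, Finsupp.smul_apply, smul_eq_mul] at h1
  have h2 := mul_right_cancel₀ hx h1
  exact_mod_cast h2.symm

theorem ir_f0_tm (f : P) (q : Q × Q) :
    f0 (f ⊗ₜ[ℂ] q) = f ⊗ₜ[ℂ] (X 0 * q.1 + X 1 * q.2) := rfl

theorem ir_X_coeff {v : CoG Q} (hv : v ∈ f0.range) (a : Sym2 (Fin 3) →₀ ℕ) :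
    ir_bas.repr v (a, 0) = 0 := by
  rw [LieModuleHom.mem_range] at hv
  obtain ⟨w, rfl⟩ := hv
  induction w using TensorProduct.induction_on with
  | zero => simp
  | tmul f q =>
    have h1 : coeff (0 : Fin 2 →₀ ℕ) (X 0 * q.1 + X 1 * q.2) = 0 := by
      rw [coeff_add, coeff_X_mul', coeff_X_mul']
      simp
    rw [ir_f0_tm, ir_repr_tm, h1, zero_mul]
  | add x y hx hy => rw [map_add, map_add, Finsupp.add_apply, hx, hy, add_zero]

section gen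
variable (N : LieSubmodule ℂ G (CoG Q))

/-- the vectors `q` with `1 ⊗ q` in `N` -/
noncomputable def ir_N0 : Submodule ℂ Q := N.toSubmodule.comap (TensorProduct.mk ℂ P Q 1)

theorem ir_mem_N0 (q : Q) : q ∈ ir_N0 N ↔ ((1 : P) ⊗ₜ[ℂ] q : CoG Q) ∈ N := Iff.rfl

theorem ir_N0_e (i j : Fin 3) {q : Q} (hq : q ∈ ir_N0 N) : eA i j q ∈ ir_N0 N := by
  rw [ir_mem_N0] at hq ⊢
  have h := N.lie_mem (x := E i j) hq
  rw [ir_E_tm, Derivation.map_one_eq_zero, TensorProduct.zero_tmul, zero_add] at h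
  exact h

theorem ir_N0_mul (h0 : (X 0 : Q) ∈ ir_N0 N) (h1 : (X 1 : Q) ∈ ir_N0 N) (p : Q) (i : Fin 2) :
    p * X i ∈ ir_N0 N := by
  induction p using MvPolynomial.induction_on with
  | C a =>
    rw [← MvPolynomial.smul_eq_C_mul]
    apply Submodule.smul_mem
    fin_cases i
    · exact h0
    · exact h1
  | add p q hp hq =>
    rw [add_mul]
    exact Submodule.add_mem _ hp hq
  | mul_X p j hp =>
    fin_cases j
    · have h := ir_N0_e N 2 0 hp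
      have e : eA 2 0 (p * X i) = p * X 0 * X i := by
        change X 0 * (p * X i) = _
        ring
      rw [e] at h
      exact h
    · have h := ir_N0_e N 2 1 hp
      have e : eA 2 1 (p * X i) = p * X 1 * X i := by
        change X 1 * (p * X i) = _
        ring
      rw [e] at h
      exact h

theorem ir_N0_mono (h0 : (X 0 : Q) ∈ ir_N0 N) (h1 : (X 1 : Q) ∈ ir_N0 N) (b : Fin 2 →₀ ℕ) (hb : b ≠ 0) :
    monomial b 1 ∈ ir_N0 N := by
  obtain ⟨i, hi⟩ : ∃ i, b i ≠ 0 := by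
    by_contra hcon
    push Not at hcon
    exact hb (Finsupp.ext hcon)
  have h := ir_N0_mul N h0 h1 (monomial (b - Finsupp.single i 1) 1) i
  have e : (monomial (b - Finsupp.single i 1) (1 : ℂ) : Q) * X i = monomial b 1 := by
    rw [X, monomial_mul, one_mul]
    congr 1
    congr 1
    apply Finsupp.ext
    intro j
    rw [Finsupp.add_apply, Finsupp.tsub_apply]
    by_cases hj : j = i
    · subst hj
      rw [Finsupp.single_eq_same]
      omega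
    · rw [Finsupp.single_eq_of_ne hj]
      omega
  rw [e] at h
  exact h

theorem ir_N0_X (h1 : (X 1 : Q) ∈ ir_N0 N) : (X 0 : Q) ∈ ir_N0 N := by
  have h := ir_N0_e N 1 0 h1
  have e : eA 1 0 (X 1) = -(X 0 : Q) := by
    rw [ir_ev10, ir_d1_1, mul_one]
  rw [e] at h
  simpa using Submodule.neg_mem _ h

end gen

theorem ir_a7 : eA 1 1 (X 1) = (-3 : ℂ) • (X 1 : Q) := by
  rw [ir_ev11, ir_d1_1]
  simp only [MvPolynomial.smul_eq_C_mul, map_neg, map_ofNat, map_one, mul_one, mul_zero]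
  ring

theorem ir_Zs (i j : Fin 3) : Z i j = Z j i := congrFun (congrFun Z_symm j) i

section ten
variable (N : LieSubmodule ℂ G (CoG Q))

theorem ir_Y_mem (i j : Fin 3) {q : Q} (hq : q ∈ ir_N0 N) :
    (∑ k, ((Z k i) ⊗ₜ[ℂ] (eA k j q) + (Z k j) ⊗ₜ[ℂ] (eA k i q)) : CoG Q) ∈ N := by
  rw [ir_mem_N0] at hq
  have h := N.lie_mem (x := Yp i j) hq
  rw [ir_Yp_one] at h
  simpa using N.neg_mem h

/-- the ten vectors -/
theorem ir_ten (h0 : (X 0 : Q) ∈ ir_N0 N) (h1 : (X 1 : Q) ∈ ir_N0 N) :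
    ((Z 0 0 ⊗ₜ[ℂ] X 1 : CoG Q) ∈ N ∧ (Z 0 1 ⊗ₜ[ℂ] X 0 : CoG Q) ∈ N ∧
      (Z 0 2 ⊗ₜ[ℂ] (X 0 * X 1) : CoG Q) ∈ N ∧ (Z 1 2 ⊗ₜ[ℂ] (X 0 * X 0) : CoG Q) ∈ N ∧
      (Z 2 2 ⊗ₜ[ℂ] (X 0 * X 0 * X 1) : CoG Q) ∈ N) ∧
    ((Z 0 2 ⊗ₜ[ℂ] X 0 : CoG Q) ∈ N ∧ (Z 2 2 ⊗ₜ[ℂ] (X 0 * X 0) : CoG Q) ∈ N) ∧
    (Z 0 2 ⊗ₜ[ℂ] X 1 : CoG Q) ∈ N ∧ (Z 1 2 ⊗ₜ[ℂ] X 0 : CoG Q) ∈ N ∧
      (Z 2 2 ⊗ₜ[ℂ] (X 0 * X 1) : CoG Q) ∈ N := by
  have h01 : (X 0 * X 1 : Q) ∈ ir_N0 N := by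
    have := ir_N0_mul N h0 h1 (X 0) 1
    exact this
  have h00 : (X 0 * X 0 : Q) ∈ ir_N0 N := ir_N0_mul N h0 h1 (X 0) 0
  have h001 : (X 0 * X 0 * X 1 : Q) ∈ ir_N0 N := ir_N0_mul N h0 h1 (X 0 * X 0) 1
  have hs : ∀ (c : ℂ) {v : CoG Q}, v ∈ N → c • v ∈ N := fun c v hv => N.smul_mem c hv
  have r1 := ir_Y_mem N 0 0 h1
  have r2 := ir_Y_mem N 0 1 h0
  have r3 := ir_Y_mem N 0 2 h01
  have r4 := ir_Y_mem N 1 2 h00
  have r5 := ir_Y_mem N 2 2 h001
  have r6 := ir_Y_mem N 0 2 h0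
  have r7 := ir_Y_mem N 2 2 h00
  have r8 := ir_Y_mem N 0 2 h1
  have r9 := ir_Y_mem N 1 2 h0
  have r10 := ir_Y_mem N 2 2 h01
  rw [Fin.sum_univ_three] at r1 r2 r3 r4 r5 r6 r7 r8 r9 r10
  rw [ir_Zs 1 0, ir_Zs 2 0] at r1
  rw [ir_Zs 1 0, ir_Zs 2 0, ir_Zs 2 1] at r2
  rw [ir_Zs 1 0, ir_Zs 2 0] at r3
  rw [ir_Zs 2 1] at r4
  rw [ir_Zs 1 0, ir_Zs 2 0] at r6
  rw [ir_Zs 1 0, ir_Zs 2 0] at r8
  rw [ir_Zs 2 1] at r9
  simp only [ir_a1, ir_a2, ir_a3, ir_a4, ir_a5, ir_a6, ir_b1, ir_b2, ir_b3, ir_b4, ir_b5, ir_b6,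
    ir_b7, ir_b8, ir_b9, ir_c1, ir_c2, ir_c3, ir_c4, ir_c5, ir_c6, ir_g2, ir_g3, ir_g4, ir_g5,
    ir_g6, ir_g7, ir_h2, ir_h3, ir_h4, TensorProduct.tmul_smul, TensorProduct.tmul_zero]
    at r1 r2 r3 r4 r5 r6 r7 r8 r9 r10
  have key : ∀ {v w : CoG Q}, w ∈ N → v = w → v ∈ N := fun hw e => e ▸ hw
  have ha : ∀ {v w : CoG Q}, v ∈ N → w ∈ N → v + w ∈ N := fun hv hw => N.add_mem hv hw
  refine ⟨⟨?_, ?_, ?_, ?_, ?_⟩, ⟨?_, ?_⟩, ?_, ?_, ?_⟩
  · refine key (ha (ha (hs (-1/4) r1) (hs (1/4) r4)) (hs (-1/8) r5)) ?_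
    module
  · refine key (ha (ha (hs (-1/4) r2) (hs (1/4) r3)) (hs (-1/8) r5)) ?_
    module
  · refine key (ha (ha (ha (hs (-1/4) r2) (hs (1/4) r3)) (hs (1/2) r4))
      (hs (-3/8) r5)) ?_
    module
  · refine key (ha (ha (ha (hs (-1/4) r1) (hs 1 r3)) (hs (-1/4) r4))
      (hs (-3/8) r5)) ?_
    module
  · refine key (ha (ha (ha (ha (hs (-1/2) r1) (hs (-1) r2)) (hs 3 r3))
      (hs (3/2) r4)) (hs (-7/4) r5)) ?_
    module
  · refine key (hs (-1/4) r7) ?_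
    module
  · refine key (ha (hs 1 r6) (hs (-1) r7)) ?_
    module
  · refine key (ha (ha (hs (-1/4) r8) (hs (1/4) r9)) (hs (-1/4) r10)) ?_
    module
  · refine key (ha (ha (hs (1/4) r8) (hs (-1/4) r9)) (hs (-1/4) r10)) ?_
    module
  · refine key (ha (ha (hs (1/2) r8) (hs (1/2) r9)) (hs (-1) r10)) ?_
    module

end ten

theorem ir_mono_eq (b : Fin 2 →₀ ℕ) : (monomial b 1 : Q) = X 0 ^ b 0 * X 1 ^ b 1 := by
  rw [monomial_eq, map_one, one_mul, Finsupp.prod_fintype _ _ (by simp), Fin.prod_univ_two]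

theorem ir_mult_sum (s : Sym2 (Fin 3)) : ir_mult s 0 + ir_mult s 1 + ir_mult s 2 = 2 := by
  revert s
  decide

theorem ir_mult_nonneg (s : Sym2 (Fin 3)) (i : Fin 3) : 0 ≤ ir_mult s i := by
  revert s i
  decide

theorem ir_wt_sum (a : Sym2 (Fin 3) →₀ ℕ) (b : Fin 2 →₀ ℕ) :
    ir_wt a b 0 + ir_wt a b 1 + ir_wt a b 2 = -2 * (∑ s, (a s : ℤ)) - 6 := by
  have h : ∑ s, (a s : ℤ) * ir_mult s 0 + ∑ s, (a s : ℤ) * ir_mult s 1 +
      ∑ s, (a s : ℤ) * ir_mult s 2 = 2 * ∑ s, (a s : ℤ) := by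
    rw [← Finset.sum_add_distrib, ← Finset.sum_add_distrib, Finset.mul_sum]
    refine Finset.sum_congr rfl fun s _ => ?_
    rw [← mul_add, ← mul_add, ir_mult_sum, mul_comm]
  simp only [ir_wt, ir_wQ]
  linarith

/-- `a = 0` or `a` is a single variable -/
theorem ir_a_cases {a : Sym2 (Fin 3) →₀ ℕ} {b : Fin 2 →₀ ℕ} {μ : Fin 3 → ℤ}
    (hwt : ∀ i, ir_wt a b i = μ i)
    (hμ : (μ 0 + 3) ^ 2 + (μ 1 + 2) ^ 2 + (μ 2 + 1) ^ 2 = 2) :
    (a = 0 ∧ μ 0 + μ 1 + μ 2 = -6) ∨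
      ((∃ s, a = Finsupp.single s 1) ∧ μ 0 + μ 1 + μ 2 = -8) := by
  have h1 := ir_wt_sum a b
  rw [hwt, hwt, hwt] at h1
  have hx : -1 ≤ μ 0 + 3 := by nlinarith
  have hy : -1 ≤ μ 1 + 2 := by nlinarith
  have hz : -1 ≤ μ 2 + 1 := by nlinarith
  have hnn : 0 ≤ ∑ s, (a s : ℤ) := Finset.sum_nonneg fun s _ => Int.natCast_nonneg _
  have hcast : (∑ s, (a s : ℤ)) = ((∑ s, a s : ℕ) : ℤ) := by push_cast; rfl
  have hn : ∑ s, a s = 0 ∨ ∑ s, a s = 1 := by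
    have : (∑ s, (a s : ℤ)) ≤ 1 := by omega
    omega
  rcases hn with hn | hn
  · left
    refine ⟨?_, ?_⟩
    · ext s
      exact Finset.sum_eq_zero_iff.1 hn s (Finset.mem_univ _)
    · rw [hcast, hn] at h1
      push_cast at h1
      omega
  · right
    refine ⟨?_, ?_⟩
    · obtain ⟨s, hs⟩ : ∃ s, a s ≠ 0 := by
        by_contra hcon
        push Not at hcon
        simp [hcon] at hn
      refine ⟨s, ?_⟩
      have h2 := Finset.add_sum_erase Finset.univ (fun t => a t) (Finset.mem_univ s)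
      rw [hn] at h2
      have h3 : a s = 1 := by omega
      have h4 : ∑ t ∈ Finset.univ.erase s, a t = 0 := by omega
      ext t
      by_cases ht : t = s
      · subst ht
        simp [h3]
      · rw [Finsupp.single_eq_of_ne ht]
        exact Finset.sum_eq_zero_iff.1 h4 t (Finset.mem_erase.2 ⟨ht, Finset.mem_univ _⟩)
    · rw [hcast, hn] at h1
      push_cast at h1
      omega

theorem ir_sum_single (s : Sym2 (Fin 3)) (i : Fin 3) :
    ∑ t, ((Finsupp.single s 1 t : ℕ) : ℤ) * ir_mult t i = ir_mult s i := by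
  classical
  rw [Finset.sum_eq_single s]
  · simp
  · intro t _ ht
    simp [Finsupp.single_apply, ht.symm]
  · simp

/-- the list of possible basis vectors -/
theorem ir_class {j k : Fin 3} {b : Fin 2 →₀ ℕ} {μ : Fin 3 → ℤ}
    (hwt : ∀ i, ir_wt (Finsupp.single s(j, k) 1) b i = μ i)
    (hμ : (μ 0 + 3) ^ 2 + (μ 1 + 2) ^ 2 + (μ 2 + 1) ^ 2 = 2) (hb : b ≠ 0) (hjk : j ≤ k) :
    (j = 0 ∧ k = 0 ∧ b 0 = 0 ∧ b 1 = 1) ∨ (j = 0 ∧ k = 1 ∧ b 0 = 1 ∧ b 1 = 0) ∨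
    (j = 0 ∧ k = 2 ∧ b 0 = 1 ∧ b 1 = 1) ∨ (j = 1 ∧ k = 2 ∧ b 0 = 2 ∧ b 1 = 0) ∨
    (j = 2 ∧ k = 2 ∧ b 0 = 2 ∧ b 1 = 1) ∨ (j = 0 ∧ k = 2 ∧ b 0 = 1 ∧ b 1 = 0) ∨
    (j = 2 ∧ k = 2 ∧ b 0 = 2 ∧ b 1 = 0) ∨ (j = 0 ∧ k = 2 ∧ b 0 = 0 ∧ b 1 = 1) ∨
    (j = 1 ∧ k = 2 ∧ b 0 = 1 ∧ b 1 = 0) ∨ (j = 2 ∧ k = 2 ∧ b 0 = 1 ∧ b 1 = 1) := by
  have hb' : b 0 + b 1 ≠ 0 := by
    intro h
    apply hb
    ext i
    fin_cases i
    · simp; omega
    · simp; omega
  have h0 := hwt 0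
  have h1 := hwt 1
  have h2 := hwt 2
  simp only [ir_wt, ir_wQ, ir_sum_single] at h0 h1 h2
  have hx : -1 ≤ μ 0 + 3 := by nlinarith
  have hy : -1 ≤ μ 1 + 2 := by nlinarith
  have hz : -1 ≤ μ 2 + 1 := by nlinarith
  have hs := ir_mult_sum s(j, k)
  have hx' : μ 0 + 3 ≤ 0 := by
    by_contra hcon
    have e1 : μ 0 + 3 ≥ 1 := by omega
    have : μ 1 + 2 + (μ 2 + 1) ≤ -3 := by omega
    omega
  have hy' : μ 1 + 2 ≤ 0 := by
    by_contra hcon
    have : μ 0 + 3 + (μ 2 + 1) ≤ -3 := by omega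
    omega
  have hz' : μ 2 + 1 ≤ 0 := by
    by_contra hcon
    have : μ 0 + 3 + (μ 1 + 2) ≤ -3 := by omega
    omega
  fin_cases j <;> fin_cases k <;> simp [ir_mult] at h0 h1 h2 hjk ⊢ <;> omega

theorem ir_bas_single (j k : Fin 3) (b : Fin 2 →₀ ℕ) :
    ir_bas (Finsupp.single s(j, k) 1, b) = Z j k ⊗ₜ[ℂ] (X 0 ^ b 0 * X 1 ^ b 1) := by
  rw [ir_bas_apply, ir_mono_eq]
  rfl

theorem ir_bas_zero (b : Fin 2 →₀ ℕ) :
    ir_bas (0, b) = (1 : P) ⊗ₜ[ℂ] (monomial b 1 : Q) := by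
  rw [ir_bas_apply]
  rfl

theorem ir_exists_le (s : Sym2 (Fin 3)) : ∃ j k : Fin 3, j ≤ k ∧ s = s(j, k) := by
  induction s using Sym2.ind with
  | _ j k =>
    rcases le_total j k with h | h
    · exact ⟨j, k, h, rfl⟩
    · exact ⟨k, j, h, Sym2.eq_swap⟩

theorem ir_bas_mem (N : LieSubmodule ℂ G (CoG Q)) (hN : (X 1 : Q) ∈ ir_N0 N)
    {a : Sym2 (Fin 3) →₀ ℕ} {b : Fin 2 →₀ ℕ} {μ : Fin 3 → ℤ}
    (hwt : ∀ i, ir_wt a b i = μ i)
    (hμ : (μ 0 + 3) ^ 2 + (μ 1 + 2) ^ 2 + (μ 2 + 1) ^ 2 = 2) (hb : b ≠ 0) :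
    ir_bas (a, b) ∈ N := by
  have hN0 := ir_N0_X N hN
  rcases ir_a_cases hwt hμ with ⟨rfl, _⟩ | ⟨⟨s, rfl⟩, _⟩
  · rw [ir_bas_zero]
    exact ir_N0_mono N hN0 hN b hb
  · obtain ⟨j, k, hjk, rfl⟩ := ir_exists_le s
    obtain ⟨⟨t1, t2, t3, t4, t5⟩, ⟨t6, t7⟩, t8, t9, t10⟩ := ir_ten N hN0 hN
    rw [ir_bas_single]
    rcases ir_class hwt hμ hb hjk with h | h | h | h | h | h | h | h | h | h <;>
      obtain ⟨rfl, rfl, e0, e1⟩ := h <;> rw [e0, e1] <;>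
      simp only [pow_zero, pow_one, one_mul, mul_one, pow_two] <;> assumption

theorem ir_range_le (gA : Good (CoG Q)) (N : LieSubmodule ℂ G (CoG Q))
    (hN : (X 1 : Q) ∈ ir_N0 N) : f0.range ≤ N := by
  by_contra hcon
  set N1 : LieSubmodule ℂ G f0.range := N.comap f0.range.incl with hN1
  have hne : N1 ≠ ⊤ := by
    intro htop
    apply hcon
    intro v hv
    have : (⟨v, hv⟩ : f0.range) ∈ N1 := by
      rw [htop]
      trivial
    exact this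
  have hgood : Good (f0.range ⧸ N1) :=
    (gA.sub f0.range).quot (LieSubmodule.Quotient.mk' N1) (LieSubmodule.Quotient.surjective_mk' N1)
  have : Nontrivial (f0.range ⧸ N1) := by
    obtain ⟨p, hp⟩ : ∃ p, p ∉ N1 := by
      by_contra hall
      push Not at hall
      exact hne (eq_top_iff.2 fun p _ => hall p)
    exact ⟨LieSubmodule.Quotient.mk' N1 p, 0, fun h => hp ((LieSubmodule.Quotient.mk_eq_zero N1).1 h)⟩
  obtain ⟨μ, v, hv0, hvμ, _, hμ⟩ := hgood.singular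
  obtain ⟨p, hp, rfl⟩ := (gA.sub f0.range).lift (LieSubmodule.Quotient.mk' N1)
    (LieSubmodule.Quotient.surjective_mk' N1) μ v hvμ
  apply hv0
  have hpN : (p : CoG Q) ∈ N := by
    have hpμ : (p : CoG Q) ∈ wsp (CoG Q) μ := by
      intro i
      have := hp i
      exact congrArg Subtype.val this
    rw [← ir_bas.linearCombination_repr (p : CoG Q), Finsupp.linearCombination_apply,
      Finsupp.sum]
    refine N.toSubmodule.sum_mem fun x hx => N.smul_mem _ ?_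
    have hx' := Finsupp.mem_support_iff.1 hx
    obtain ⟨a, b⟩ := x
    refine ir_bas_mem N hN (μ := μ) (fun i => ir_wsp_repr hpμ hx' i) hμ ?_
    rintro rfl
    exact hx' (ir_X_coeff p.2 a)
  have : p ∈ N1 := hpN
  exact (LieSubmodule.Quotient.mk_eq_zero N1).2 this

theorem ir_Xp_tm (j k : Fin 3) (f : P) (q : Q) :
    ⁅Xp j k, (f ⊗ₜ[ℂ] q : CoG Q)⁆ = (xi (Xp j k) f) ⊗ₜ[ℂ] q := by
  rw [lie_tm]
  have h : phi (Xp j k) = 0 := by
    ext1 l m
    simp [phi, Xp, cm]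
  simp [h]

theorem ir_xi_Xp (j k : Fin 3) (s : Sym2 (Fin 3)) :
    xi (Xp j k) (X s) = if s = s(j, k) then C (-(if j = k then 2 else 1)) else 0 := by
  induction s using Sym2.ind with
  | _ l m =>
    have h := xi_Z (Xp j k) l m
    simp only [Z] at h
    rw [h]
    simp only [dZ, Xp, bA_gB, bB_gB, bC_gB, cm]
    fin_cases j <;> fin_cases k <;> fin_cases l <;> fin_cases m <;>
      simp [Matrix.single_apply] <;>
      (rw [show (C (2 : ℂ) : P) = 2 from map_ofNat C 2]; ring)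

theorem ir_down (N : LieSubmodule ℂ G (CoG Q)) {q : Q} (hq : q ∈ ir_N0 N)
    (h : q = X 1 ∨ q = X 0 ∨ q = X 0 * X 1 ∨ q = X 0 * X 0 ∨ q = X 0 * X 0 * X 1) :
    (X 1 : Q) ∈ ir_N0 N := by
  have hsm : ∀ (c : ℂ) (r : Q), c ≠ 0 → c • r ∈ ir_N0 N → r ∈ ir_N0 N := by
    intro c r hc hr
    have := (ir_N0 N).smul_mem c⁻¹ hr
    rwa [smul_smul, inv_mul_cancel₀ hc, one_smul] at this
  have h0 : (X 0 : Q) ∈ ir_N0 N → (X 1 : Q) ∈ ir_N0 N := by
    intro hX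
    have := ir_N0_e N 0 1 hX
    rw [ir_b1] at this
    exact hsm _ _ (by norm_num) this
  have h01 : (X 0 * X 1 : Q) ∈ ir_N0 N → (X 1 : Q) ∈ ir_N0 N := by
    intro hX
    have := ir_N0_e N 0 2 hX
    rw [ir_c1] at this
    exact hsm _ _ (by norm_num) this
  rcases h with rfl | rfl | rfl | rfl | rfl
  · exact hq
  · exact h0 hq
  · exact h01 hq
  · have := ir_N0_e N 0 2 hq
    rw [ir_g2] at this
    exact h0 (hsm _ _ (by norm_num) this)
  · have := ir_N0_e N 0 2 hq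
    rw [ir_h2] at this
    exact h01 (hsm _ _ (by norm_num) this)

theorem ir_low (gA : Good (CoG Q)) (N : LieSubmodule ℂ G (CoG Q)) (hle : N ≤ f0.range)
    (hN : N ≠ ⊥) : (X 1 : Q) ∈ ir_N0 N := by
  classical
  have : Nontrivial N := (LieSubmodule.nontrivial_iff_ne_bot ℂ G (CoG Q)).2 hN
  obtain ⟨μ, v, hv0, hvμ, _, hμ⟩ := (gA.sub N).singular
  have hvN : (v : CoG Q) ∈ N := v.2
  have hw0 : (v : CoG Q) ≠ 0 := by
    intro h
    exact hv0 (Subtype.ext h)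
  have hwμ : (v : CoG Q) ∈ wsp (CoG Q) μ := by
    intro i
    have := hvμ i
    exact congrArg Subtype.val this
  have hwR : (v : CoG Q) ∈ f0.range := hle hvN
  set w : CoG Q := (v : CoG Q) with hw
  obtain ⟨x, hx⟩ : ∃ x, ir_bas.repr w x ≠ 0 := by
    by_contra hcon
    push Not at hcon
    apply hw0
    apply ir_bas.repr.injective
    rw [map_zero]
    exact Finsupp.ext hcon
  obtain ⟨a, b⟩ := x
  have hwt : ∀ i, ir_wt a b i = μ i := fun i => ir_wsp_repr hwμ hx i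
  have hb : b ≠ 0 := by
    rintro rfl
    exact hx (ir_X_coeff hwR a)
  have hexp : (ir_bas.repr w).sum (fun y c => c • ir_bas y) = w := by
    rw [← Finsupp.linearCombination_apply]
    exact ir_bas.linearCombination_repr w
  have key : monomial b 1 ∈ ir_N0 N := by
    rcases ir_a_cases hwt hμ with ⟨rfl, hs⟩ | ⟨⟨s, rfl⟩, hs⟩
    · have huniq : ∀ y, ir_bas.repr w y ≠ 0 → y = (0, b) := by
        rintro ⟨a', b'⟩ hy
        have hwt' : ∀ i, ir_wt a' b' i = μ i := fun i => ir_wsp_repr hwμ hy i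
        rcases ir_a_cases hwt' hμ with ⟨rfl, _⟩ | ⟨_, hs'⟩
        · have e0 := (hwt 0).trans (hwt' 0).symm
          have e1 := (hwt 1).trans (hwt' 1).symm
          simp only [ir_wt, ir_wQ] at e0 e1
          congr 1
          ext i
          fin_cases i
          · simp at e0 ⊢; omega
          · simp at e1 ⊢; omega
        · omega
      rw [Finsupp.sum_eq_single (0, b)] at hexp
      · rw [ir_mem_N0, ← ir_bas_zero]
        have h1 : (ir_bas.repr w (0, b)) • ir_bas (0, b) ∈ N := by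
          rw [hexp]
          exact hvN
        have := N.smul_mem (ir_bas.repr w (0, b))⁻¹ h1
        rwa [smul_smul, inv_mul_cancel₀ hx, one_smul] at this
      · intro y hy hne
        exact absurd (huniq y hy) hne
      · intro _
        simp
    · obtain ⟨j, k, hjk, rfl⟩ := ir_exists_le s
      have h1 : ⁅Xp j k, w⁆ ∈ N := N.lie_mem hvN
      have h2 : ⁅Xp j k, w⁆ = (ir_bas.repr w).sum (fun y c => c • ⁅Xp j k, ir_bas y⁆) := by
        conv_lhs => rw [← hexp]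
        rw [lie_def, map_finsuppSum]
        simp only [map_smul]
        rfl
      rw [Finsupp.sum_eq_single (Finsupp.single s(j, k) 1, b)] at h2
      · have h3 : ⁅Xp j k, ir_bas (Finsupp.single s(j, k) 1, b)⁆ =
            (-(if j = k then 2 else 1) : ℂ) • ((1 : P) ⊗ₜ[ℂ] (monomial b 1 : Q) : CoG Q) := by
          rw [ir_bas_apply, ir_Xp_tm]
          have : (monomial (Finsupp.single s(j, k) 1) 1 : P) = X s(j, k) := rfl
          rw [this, ir_xi_Xp, if_pos rfl, TensorProduct.smul_tmul', MvPolynomial.smul_eq_C_mul,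
            mul_one]
        rw [h3, smul_smul] at h2
        rw [h2] at h1
        rw [ir_mem_N0]
        have hne : ir_bas.repr w (Finsupp.single s(j, k) 1, b) * (-(if j = k then 2 else 1) : ℂ) ≠ 0 := by
          apply mul_ne_zero hx
          split_ifs <;> norm_num
        have := N.smul_mem (ir_bas.repr w (Finsupp.single s(j, k) 1, b) *
          (-(if j = k then 2 else 1) : ℂ))⁻¹ h1
        rwa [smul_smul, inv_mul_cancel₀ hne, one_smul] at this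
      · rintro ⟨a', b'⟩ hy hne
        have hwt' : ∀ i, ir_wt a' b' i = μ i := fun i => ir_wsp_repr hwμ hy i
        rcases ir_a_cases hwt' hμ with ⟨_, hs'⟩ | ⟨⟨s', rfl⟩, _⟩
        · omega
        · rw [ir_bas_apply, ir_Xp_tm]
          have : (monomial (Finsupp.single s' 1) 1 : P) = X s' := rfl
          rw [this, ir_xi_Xp, if_neg, TensorProduct.zero_tmul, smul_zero]
          rintro rfl
          apply hne
          have e0 := (hwt 0).trans (hwt' 0).symm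
          have e1 := (hwt 1).trans (hwt' 1).symm
          simp only [ir_wt, ir_wQ] at e0 e1
          congr 1
          ext i
          fin_cases i
          · simp at e0 ⊢; omega
          · simp at e1 ⊢; omega
      · intro _
        simp
  have hbs : (b 0 = 0 ∧ b 1 = 1) ∨ (b 0 = 1 ∧ b 1 = 0) ∨ (b 0 = 1 ∧ b 1 = 1) ∨
      (b 0 = 2 ∧ b 1 = 0) ∨ (b 0 = 2 ∧ b 1 = 1) := by
    rcases ir_a_cases hwt hμ with ⟨rfl, hs⟩ | ⟨⟨s, rfl⟩, hs⟩
    · have h0 := hwt 0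
      have h1 := hwt 1
      have h2 := hwt 2
      simp only [ir_wt, ir_wQ, Finsupp.coe_zero, Pi.zero_apply, Nat.cast_zero, zero_mul,
        Finset.sum_const_zero, neg_zero, zero_add] at h0 h1 h2
      have hb' : b 0 + b 1 ≠ 0 := by
        intro h
        apply hb
        ext i
        fin_cases i
        · simp; omega
        · simp; omega
      have hx : -1 ≤ μ 0 + 3 := by nlinarith
      have hy : -1 ≤ μ 1 + 2 := by nlinarith
      have hb0 : b 0 ≤ 2 := by omega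
      have hb1 : b 1 ≤ 1 := by omega
      omega
    · obtain ⟨j, k, hjk, rfl⟩ := ir_exists_le s
      have := ir_class hwt hμ hb hjk
      omega
  apply ir_down N key
  rw [ir_mono_eq]
  rcases hbs with ⟨e0, e1⟩ | ⟨e0, e1⟩ | ⟨e0, e1⟩ | ⟨e0, e1⟩ | ⟨e0, e1⟩ <;> rw [e0, e1] <;>
    simp [pow_two]

theorem simple_X (gA : Good (CoG Q)) : IsSimpleHW f0.range ![-2, -3, -1] := by
  have hv : (1 : P) ⊗ₜ[ℂ] (X 1 : Q) ∈ f0.range := by
    rw [LieModuleHom.mem_range]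
    refine ⟨(1 : P) ⊗ₜ[ℂ] ((0, 1) : Q × Q), ?_⟩
    rw [ir_f0_tm]
    simp
  have hv0 : ((1 : P) ⊗ₜ[ℂ] (X 1 : Q) : CoG Q) ≠ 0 := by
    intro h
    have h1 := congrArg (fun v => ir_bas.repr v (0, Finsupp.single 1 1)) h
    simp only [ir_repr_tm, map_zero, Finsupp.zero_apply] at h1
    simp at h1
  have hnt : Nontrivial f0.range := ⟨⟨⟨_, hv⟩, 0, fun h => hv0 (congrArg Subtype.val h)⟩⟩
  refine ⟨?_, ⟨⟨_, hv⟩, fun h => hv0 (congrArg Subtype.val h), ?_, ?_⟩⟩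
  · apply LieModule.IsIrreducible.mk
    intro N hN
    set N' : LieSubmodule ℂ G (CoG Q) := N.map f0.range.incl with hN'
    have hle : N' ≤ f0.range := by
      intro x hx
      rw [hN', LieSubmodule.mem_map] at hx
      obtain ⟨y, _, rfl⟩ := hx
      exact y.2
    have hne : N' ≠ ⊥ := by
      intro hbot
      apply hN
      rw [eq_bot_iff]
      intro x hx
      have : (x : CoG Q) ∈ N' := by
        rw [hN', LieSubmodule.mem_map]
        exact ⟨x, hx, rfl⟩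
      rw [hbot, LieSubmodule.mem_bot] at this
      rw [LieSubmodule.mem_bot]
      exact Subtype.ext this
    have hall := ir_range_le gA N' (ir_low gA N' hle hne)
    rw [eq_top_iff]
    intro x _
    have := hall x.2
    rw [hN', LieSubmodule.mem_map] at this
    obtain ⟨y, hy, hyx⟩ := this
    have : y = x := Subtype.ext hyx
    rw [← this]
    exact hy
  · intro a
    apply Subtype.ext
    change ⁅hdiag a, ((1 : P) ⊗ₜ[ℂ] (X 1 : Q) : CoG Q)⁆ = (∑ i, a i * ![-2, -3, -1] i) •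
      ((1 : P) ⊗ₜ[ℂ] (X 1 : Q) : CoG Q)
    rw [hdiag_eq, sum_lie, Fin.sum_univ_three, Fin.sum_univ_three]
    simp only [smul_lie, ir_E_tm, Derivation.map_one_eq_zero, TensorProduct.zero_tmul, zero_add,
      ir_a1, ir_a6, ir_a7, TensorProduct.tmul_smul]
    simp only [Matrix.cons_val_zero, Matrix.cons_val_one, Matrix.cons_val]
    module
  · intro Y hY
    apply Subtype.ext
    change ⁅Y, ((1 : P) ⊗ₜ[ℂ] (X 1 : Q) : CoG Q)⁆ = 0
    rw [isPos_iff] at hY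
    obtain ⟨hA, hC⟩ := hY
    rw [decomp Y, sum_lie]
    refine Finset.sum_eq_zero fun i _ => ?_
    rw [sum_lie]
    refine Finset.sum_eq_zero fun j _ => ?_
    have h1 : bA Y i j • ⁅E i j, ((1 : P) ⊗ₜ[ℂ] (X 1 : Q) : CoG Q)⁆ = 0 := by
      by_cases hij : j ≤ i
      · rw [hA i j hij, zero_smul]
      · have h2 : eA i j (X 1) = (0 : Q) := by
          fin_cases i <;> fin_cases j <;> simp at hij ⊢
          · rw [ir_ev01, ir_d0_1]; simp
          · exact ir_a4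
          · exact ir_a5
        rw [ir_E_tm, Derivation.map_one_eq_zero, TensorProduct.zero_tmul, zero_add, h2,
          TensorProduct.tmul_zero, smul_zero]
    rw [add_lie, add_lie, smul_lie, smul_lie, smul_lie, h1, ir_Xp_tm,
      Derivation.map_one_eq_zero, TensorProduct.zero_tmul, smul_zero, hC]
    simp

end EA58
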