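import Pool.Agent.LibEA58.KC
import Pool.Agent.LibEA58.Good2

/-!
# The chase: an exact sequence with a nontrivial chain of cochains excludes short resolutions
-/

namespace EA58

namespace PD

section helpers

variable {N : Type} [AddCommGroup N] [Module ℂ N] [LieRingModule G N] [LieModule ℂ G N]
variable {N' : Type} [AddCommGroup N'] [Module ℂ N'] [LieRingModule G N'] [LieModule ℂ G N']
variable {N'' : Type} [AddCommGroup N''] [Module ℂ N''] [LieRingModule G N'']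
  [LieModule ℂ G N'']

/-- Corestriction of a homomorphism to a submodule containing its values. -/
def corestr (S : LieSubmodule ℂ G N') (f : N →ₗ⁅ℂ,G⁆ N') (h : ∀ x, f x ∈ S) :
    N →ₗ⁅ℂ,G⁆ S :=
  { toLinearMap := LinearMap.codRestrict S.toSubmodule f.toLinearMap h
    map_lie' := by
      intro x m
      apply Subtype.ext
      exact f.map_lie x m }

theorem corestr_coe (S : LieSubmodule ℂ G N') (f : N →ₗ⁅ℂ,G⁆ N') (h : ∀ x, f x ∈ S) (x : N) :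
    (corestr S f h x : N') = f x := rfl

theorem corestr_ker (S : LieSubmodule ℂ G N') (f : N →ₗ⁅ℂ,G⁆ N') (h : ∀ x, f x ∈ S) :
    (corestr S f h).ker = f.ker := by
  ext x
  rw [LieModuleHom.mem_ker, LieModuleHom.mem_ker]
  constructor
  · intro hx
    have := congrArg Subtype.val hx
    exact this
  · intro hx
    apply Subtype.ext
    exact hx

theorem wsp_map (f : N →ₗ⁅ℂ,G⁆ N') (μ : Fin 3 → ℤ) (m : N) (hm : m ∈ wsp N μ) :
    f m ∈ wsp N' μ := by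
  intro i
  rw [← LieModuleHom.map_lie, hm i, map_smul]

theorem isK_map (f : N →ₗ⁅ℂ,G⁆ N') (n : ℕ) (c : Fin 64 → N) (hc : IsK n c) :
    IsK n (fun T => f (c T)) := by
  intro T
  refine ⟨wsp_map f _ _ (hc T).1, fun h => ?_⟩
  show f (c T) = 0
  rw [(hc T).2 h, map_zero]

theorem isK_sub (n : ℕ) (c c' : Fin 64 → N) (hc : IsK n c) (hc' : IsK n c') :
    IsK n (c - c') := by
  intro T
  refine ⟨Submodule.sub_mem _ (hc T).1 (hc' T).1, fun h => ?_⟩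
  show c T - c' T = 0
  rw [(hc T).2 h, (hc' T).2 h, sub_zero]

theorem isK_zero (n : ℕ) : IsK n (0 : Fin 64 → N) :=
  fun _ => ⟨Submodule.zero_mem _, fun _ => rfl⟩

theorem D_zero : D (0 : Fin 64 → N) = 0 := by
  funext T
  have h := D_sub (0 : Fin 64 → N) 0 T
  rw [sub_zero, sub_self] at h
  exact h

/-- A cochain with values in a submodule. -/
theorem isK_mk (S : LieSubmodule ℂ G N) (n : ℕ) (c : Fin 64 → S)
    (hc : IsK n (fun T => (c T : N))) : IsK n c := by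
  intro T
  refine ⟨fun i => ?_, fun h => ?_⟩
  · apply Subtype.ext
    exact (hc T).1 i
  · apply Subtype.ext
    exact (hc T).2 h

theorem D_coe (S : LieSubmodule ℂ G N) (c : Fin 64 → S) (T : Fin 64) :
    ((D c T : S) : N) = D (fun U => (c U : N)) T :=
  (D_map S.incl c T).symm

/-- Cochains lift along surjections of good modules. -/
theorem lift_good (g : Good N) (f : N →ₗ⁅ℂ,G⁆ N') (hf : Function.Surjective f) (n : ℕ)
    (q : Fin 64 → N') (hq : IsK n q) : ∃ p : Fin 64 → N, IsK n p ∧ ∀ T, f (p T) = q T := by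
  have h : ∀ T, ∃ p : N, p ∈ wsp N (wtT T) ∧ (cnt T ≠ n → p = 0) ∧ f p = q T := by
    intro T
    by_cases hT : cnt T = n
    · obtain ⟨p, hp, hp'⟩ := g.lift f hf (wtT T) (q T) (hq T).1
      exact ⟨p, hp, fun h => absurd hT h, hp'⟩
    · exact ⟨0, Submodule.zero_mem _, fun _ => rfl, by
        rw [map_zero, (hq T).2 hT]⟩
  choose p hp1 hp2 hp3 using h
  exact ⟨p, fun T => ⟨hp1 T, hp2 T⟩, hp3⟩

/-- Cochains lift along surjections in category `O`. -/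
theorem lift_O (g : InO N) (f : N →ₗ⁅ℂ,G⁆ N') (hf : Function.Surjective f) (n : ℕ)
    (q : Fin 64 → N') (hq : IsK n q) : ∃ p : Fin 64 → N, IsK n p ∧ ∀ T, f (p T) = q T := by
  have h : ∀ T, ∃ p : N, p ∈ wsp N (wtT T) ∧ (cnt T ≠ n → p = 0) ∧ f p = q T := by
    intro T
    by_cases hT : cnt T = n
    · obtain ⟨p, hp, hp'⟩ := g.lift f hf (wtT T) (q T) (hq T).1
      exact ⟨p, hp, fun h => absurd hT h, hp'⟩
    · exact ⟨0, Submodule.zero_mem _, fun _ => rfl, by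
        rw [map_zero, (hq T).2 hT]⟩
  choose p hp1 hp2 hp3 using h
  exact ⟨p, fun T => ⟨hp1 T, hp2 T⟩, hp3⟩

end helpers

section step

variable {E E' R : Type}
  [AddCommGroup E] [Module ℂ E] [LieRingModule G E] [LieModule ℂ G E]
  [AddCommGroup E'] [Module ℂ E'] [LieRingModule G E'] [LieModule ℂ G E']
  [AddCommGroup R] [Module ℂ R] [LieRingModule G R] [LieModule ℂ G R]

/-- The state of the chase: `f : E → R`, a module `Z` with a resolution of length `r`, a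
homomorphism `φ : Z → R`, a cocycle `z` of degree `n + 1` in `Z` and a cochain `q` of degree `n`
in `R` with `φ z = f c + D q`. -/
def St (n r : ℕ) (f : E →ₗ⁅ℂ,G⁆ R) (c : Fin 64 → E) : Prop :=
  ∃ (Z : Type) (_ : AddCommGroup Z) (_ : Module ℂ Z) (_ : LieRingModule G Z)
    (_ : LieModule ℂ G Z) (φ : Z →ₗ⁅ℂ,G⁆ R) (z : Fin 64 → Z) (q : Fin 64 → R),
    PdLE lam0 r Z ∧ IsK (n + 1) z ∧ D z = 0 ∧ IsK n q ∧ ∀ T, φ (z T) = f (c T) + D q T

/-- The difference cochain. -/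
theorem diff_ker {Z : Type} [AddCommGroup Z] [Module ℂ Z] [LieRingModule G Z]
    [LieModule ℂ G Z] (f : E →ₗ⁅ℂ,G⁆ R) (c : Fin 64 → E) (n : ℕ) (hc : IsK (n + 1) c)
    (ψ : Z →ₗ⁅ℂ,G⁆ E) (p : Fin 64 → Z) (hp : IsK (n + 1) p) (q : Fin 64 → R)
    (qt : Fin 64 → E) (hqt : IsK n qt) (hqt' : ∀ T, f (qt T) = q T)
    (h : ∀ T, f (ψ (p T)) = f (c T) + D q T) :
    IsK (n + 1) ((fun T => ψ (p T)) - c - D qt) ∧
      (∀ T, f (((fun T => ψ (p T)) - c - D qt) T) = 0) ∧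
      ∀ T, ψ (D p T) = D c T + D ((fun T => ψ (p T)) - c - D qt) T := by
  refine ⟨isK_sub _ _ _ (isK_sub _ _ _ (isK_map ψ _ _ hp) hc) (D_isK _ _ hqt), ?_, ?_⟩
  · intro T
    have h1 : f (D qt T) = D q T := by
      rw [← D_map]
      congr 1
      funext S
      exact hqt' S
    show f (ψ (p T) - c T - D qt T) = 0
    rw [map_sub, map_sub, h T, h1]
    abel
  · intro T
    rw [D_sub, D_sub, D_map, D_D n qt hqt]
    show ψ (D p T) = D c T + (ψ (D p T) - D c T - 0)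
    abel

theorem step (n r : ℕ) (f : E →ₗ⁅ℂ,G⁆ R) (hf : Function.Surjective f) (gE : Good E)
    (gR : Good R) (c : Fin 64 → E) (hc : IsK (n + 1) c) (f' : E' →ₗ⁅ℂ,G⁆ E)
    (hf' : ∀ x, f' x ∈ f.ker) (c' : Fin 64 → E')
    (d : ∀ T, D c T = f' (c' T)) (h : St n (r + 1) f c) :
    St (n + 1) r (corestr f.ker f' hf') c' := by
  obtain ⟨Z, iZ1, iZ2, iZ3, iZ4, φ, z, q, hpd, hz, hz0, hq, hφ⟩ := h
  obtain ⟨P, iP1, iP2, iP3, iP4, π, hP, hπ, hpd'⟩ := hpd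
  obtain ⟨ψ, hψ⟩ := hP.lift E R f (φ.comp π) gE.inBlock gR.inBlock hf
  obtain ⟨p, hp, hp'⟩ := lift_O hP.mem.toInO π hπ (n + 1) z hz
  obtain ⟨qt, hqt, hqt'⟩ := lift_good gE f hf n q hq
  have h1 : ∀ T, f (ψ (p T)) = f (c T) + D q T := by
    intro T
    rw [hψ, LieModuleHom.comp_apply, hp', hφ]
  obtain ⟨k1, k2, k3⟩ := diff_ker f c n hc ψ p hp q qt hqt hqt' h1
  have h2 : ∀ T, D p T ∈ π.ker := by
    intro T
    rw [LieModuleHom.mem_ker, ← D_map]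
    have : (fun S => π (p S)) = z := funext hp'
    rw [this, hz0]
    rfl
  have h3 : ∀ x : π.ker, (ψ.comp π.ker.incl) x ∈ f.ker := by
    intro x
    rw [LieModuleHom.mem_ker]
    show f (ψ (x : P)) = 0
    rw [hψ, LieModuleHom.comp_apply]
    have hx : π (x : P) = 0 := LieModuleHom.mem_ker.1 x.2
    rw [hx, map_zero]
  refine ⟨π.ker, inferInstance, inferInstance, inferInstance, inferInstance,
    corestr f.ker (ψ.comp π.ker.incl) h3, fun T => ⟨D p T, h2 T⟩,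
    fun T => ⟨((fun T => ψ (p T)) - c - D qt) T, LieModuleHom.mem_ker.2 (k2 T)⟩,
    hpd', ?_, ?_, ?_, ?_⟩
  · exact isK_mk _ _ _ (D_isK _ _ hp)
  · funext T
    apply Subtype.ext
    rw [D_coe]
    show D (D p) T = 0
    rw [D_D _ _ hp]
    rfl
  · exact isK_mk _ _ _ k1
  · intro T
    apply Subtype.ext
    rw [corestr_coe]
    show ψ (D p T) = f' (c' T) + ((D _ T : f.ker) : E)
    rw [D_coe, k3 T, d T]

/-- The last step. -/
theorem last (n : ℕ) (f : E →ₗ⁅ℂ,G⁆ R) (hf : Function.Surjective f) (gE : Good E)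
    (gR : Good R) (c : Fin 64 → E) (hc : IsK (n + 1) c) (h : St n 0 f c)
    (hK : ∀ q : Fin 64 → E, IsK (n + 1) q → (∀ T, f (q T) = 0) → q = 0) : D c = 0 := by
  obtain ⟨Z, iZ1, iZ2, iZ3, iZ4, φ, z, q, hpd, hz, hz0, hq, hφ⟩ := h
  have hP : IsProj lam0 Z := hpd
  obtain ⟨ψ, hψ⟩ := hP.lift E R f φ gE.inBlock gR.inBlock hf
  obtain ⟨qt, hqt, hqt'⟩ := lift_good gE f hf n q hq
  have h1 : ∀ T, f (ψ (z T)) = f (c T) + D q T := by
    intro T
    rw [hψ, hφ]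
  obtain ⟨k1, k2, k3⟩ := diff_ker f c n hc ψ z hz q qt hqt hqt' h1
  have h2 := hK _ k1 k2
  funext T
  have h3 := k3 T
  rw [h2, hz0, D_zero] at h3
  have h4 : ψ ((0 : Fin 64 → Z) T) = 0 := ψ.map_zero
  rw [h4] at h3
  have h5 : D c T + (0 : Fin 64 → E) T = D c T := add_zero _
  rw [h5] at h3
  exact h3.symm

theorem corestr_surj (f : E →ₗ⁅ℂ,G⁆ R) (f' : E' →ₗ⁅ℂ,G⁆ E) (h : f'.range = f.ker)
    (hf' : ∀ x, f' x ∈ f.ker) : Function.Surjective (corestr f.ker f' hf') := by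
  rintro ⟨y, hy⟩
  rw [← h, LieModuleHom.mem_range] at hy
  obtain ⟨x, hx⟩ := hy
  exact ⟨x, Subtype.ext hx⟩

end step

end PD

open PD

variable {F E0 E1 E2 E3 E4 : Type}
  [AddCommGroup F] [Module ℂ F] [LieRingModule G F] [LieModule ℂ G F]
  [AddCommGroup E0] [Module ℂ E0] [LieRingModule G E0] [LieModule ℂ G E0]
  [AddCommGroup E1] [Module ℂ E1] [LieRingModule G E1] [LieModule ℂ G E1]
  [AddCommGroup E2] [Module ℂ E2] [LieRingModule G E2] [LieModule ℂ G E2]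
  [AddCommGroup E3] [Module ℂ E3] [LieRingModule G E3] [LieModule ℂ G E3]
  [AddCommGroup E4] [Module ℂ E4] [LieRingModule G E4] [LieModule ℂ G E4]

theorem chase (f0 : E0 →ₗ⁅ℂ,G⁆ F) (f1 : E1 →ₗ⁅ℂ,G⁆ E0) (f2 : E2 →ₗ⁅ℂ,G⁆ E1)
    (f3 : E3 →ₗ⁅ℂ,G⁆ E2) (f4 : E4 →ₗ⁅ℂ,G⁆ E3)
    (h1 : f1.range = f0.ker) (h2 : f2.range = f1.ker) (h3 : f3.range = f2.ker)
    (h4 : f4.range = f3.ker)
    (gF : Good F) (g0 : Good E0) (g1 : Good E1) (g2 : Good E2) (g3 : Good E3) (g4 : Good E4)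
    (c1 : Fin 64 → E0) (hc1 : IsK 1 c1) (c2 : Fin 64 → E1) (hc2 : IsK 2 c2)
    (c3 : Fin 64 → E2) (hc3 : IsK 3 c3) (c4 : Fin 64 → E3) (hc4 : IsK 4 c4)
    (c5 : Fin 64 → E4) (hc5 : IsK 5 c5)
    (d1 : ∀ T, D c1 T = f1 (c2 T)) (d2 : ∀ T, D c2 T = f2 (c3 T)) (d3 : ∀ T, D c3 T = f3 (c4 T))
    (d4 : ∀ T, D c4 T = f4 (c5 T)) (d5 : D c5 ≠ 0)
    (hK : ∀ q : Fin 64 → E4, IsK 5 q → (∀ T, f4 (q T) = 0) → q = 0) :
    ¬ PdLE lam0 4 f0.range := by
  intro hpd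
  have m0 : ∀ x, f0 x ∈ f0.range := fun x => (LieModuleHom.mem_range _ _).2 ⟨x, rfl⟩
  let a0 : E0 →ₗ⁅ℂ,G⁆ f0.range := corestr f0.range f0 m0
  have s0 : Function.Surjective a0 := by
    rintro ⟨y, hy⟩
    rw [LieModuleHom.mem_range] at hy
    obtain ⟨x, hx⟩ := hy
    exact ⟨x, Subtype.ext hx⟩
  have k0 : f1.range = a0.ker := h1.trans (corestr_ker _ _ _).symm
  have m1 : ∀ x, f1 x ∈ a0.ker := fun x => k0 ▸ (LieModuleHom.mem_range _ _).2 ⟨x, rfl⟩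
  let a1 : E1 →ₗ⁅ℂ,G⁆ a0.ker := corestr a0.ker f1 m1
  have s1 : Function.Surjective a1 := corestr_surj _ _ k0 m1
  have k1 : f2.range = a1.ker := h2.trans (corestr_ker _ _ _).symm
  have m2 : ∀ x, f2 x ∈ a1.ker := fun x => k1 ▸ (LieModuleHom.mem_range _ _).2 ⟨x, rfl⟩
  let a2 : E2 →ₗ⁅ℂ,G⁆ a1.ker := corestr a1.ker f2 m2
  have s2 : Function.Surjective a2 := corestr_surj _ _ k1 m2
  have k2 : f3.range = a2.ker := h3.trans (corestr_ker _ _ _).symm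
  have m3 : ∀ x, f3 x ∈ a2.ker := fun x => k2 ▸ (LieModuleHom.mem_range _ _).2 ⟨x, rfl⟩
  let a3 : E3 →ₗ⁅ℂ,G⁆ a2.ker := corestr a2.ker f3 m3
  have s3 : Function.Surjective a3 := corestr_surj _ _ k2 m3
  have k3 : f4.range = a3.ker := h4.trans (corestr_ker _ _ _).symm
  have m4 : ∀ x, f4 x ∈ a3.ker := fun x => k3 ▸ (LieModuleHom.mem_range _ _).2 ⟨x, rfl⟩
  let a4 : E4 →ₗ⁅ℂ,G⁆ a3.ker := corestr a3.ker f4 m4
  have s4 : Function.Surjective a4 := corestr_surj _ _ k3 m4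
  have S0 : St 0 4 a0 c1 := by
    refine ⟨f0.range, inferInstance, inferInstance, inferInstance, inferInstance,
      LieModuleHom.id, fun T => a0 (c1 T), 0, hpd, isK_map a0 _ _ hc1, ?_, isK_zero _, ?_⟩
    · funext T
      rw [D_map, d1 T]
      exact LieModuleHom.mem_ker.1 (m1 _)
    · intro T
      rw [D_zero]
      show a0 (c1 T) = a0 (c1 T) + 0
      rw [add_zero]
  have S1 : St 1 3 a1 c2 := step 0 3 a0 s0 g0 (gF.sub _) c1 hc1 f1 m1 c2 d1 S0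
  have S2 : St 2 2 a2 c3 := step 1 2 a1 s1 g1 (g0.sub _) c2 hc2 f2 m2 c3 d2 S1
  have S3 : St 3 1 a3 c4 := step 2 1 a2 s2 g2 (g1.sub _) c3 hc3 f3 m3 c4 d3 S2
  have S4 : St 4 0 a4 c5 := step 3 0 a3 s3 g3 (g2.sub _) c4 hc4 f4 m4 c5 d4 S3
  apply d5
  refine last 4 a4 s4 g4 (g3.sub _) c5 hc5 S4 ?_
  intro q hq hq0
  apply hK q hq
  intro T
  have := congrArg Subtype.val (hq0 T)
  exact this

end EA58
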