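import Pool.Agent.LibEA58.Basic

/-!
# Uniqueness of simple highest weight modules; invariance and monotonicity of `PdLE`
-/

namespace EA58

section words

/-- Negative root vectors with the height of the corresponding positive root. -/
inductive NegV : ℕ → G → Prop
  | e10 : NegV 1 (E 1 0)
  | e21 : NegV 1 (E 2 1)
  | e20 : NegV 2 (E 2 0)
  | y (i j : Fin 3) : NegV ((3 - (i : ℕ)) + (3 - (j : ℕ))) (Yp i j)

variable {M : Type} [AddCommGroup M] [Module ℂ M] [LieRingModule G M] [LieModule ℂ G M]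

/-- Words in the negative root vectors applied to `m`. -/
inductive Wd (m : M) : ℕ → M → Prop
  | base : Wd m 0 m
  | step {k d : ℕ} {w : M} {y : G} : Wd m k w → NegV d y → Wd m (k + d) ⁅y, w⁆

/-- The span of the words. -/
def wspan (m : M) : Submodule ℂ M := Submodule.span ℂ {w | ∃ n, Wd m n w}

theorem NegV.pos {d : ℕ} {y : G} (h : NegV d y) : 1 ≤ d := by
  cases h with
  | e10 => exact le_rfl
  | e21 => exact le_rfl
  | e20 => norm_num
  | y i j => omega

/-- The element of `h` measuring heights. -/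
def h0 : G := hdiag ![3, 2, 1]

theorem lie_h0_E (i j : Fin 3) : ⁅h0, E i j⁆ = (((3 : ℂ) - (i : ℕ)) - ((3 : ℂ) - (j : ℕ))) • E i j := by
  rw [h0, hdiag_eq]
  simp only [Fin.sum_univ_three, add_lie, smul_lie, lie_E_E]
  fin_cases i <;> fin_cases j <;> simp <;> module

theorem lie_h0_Yp (i j : Fin 3) :
    ⁅h0, Yp i j⁆ = -(((3 : ℂ) - (i : ℕ)) + ((3 : ℂ) - (j : ℕ))) • Yp i j := by
  rw [h0, hdiag_eq]
  simp only [Fin.sum_univ_three, add_lie, smul_lie, lie_E_Yp]
  fin_cases i <;> fin_cases j <;> simp [Yp_comm 1 0, Yp_comm 2 0, Yp_comm 2 1] <;> module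

theorem NegV.lie_h0 {d : ℕ} {y : G} (h : NegV d y) : ⁅h0, y⁆ = -(d : ℂ) • y := by
  cases h with
  | e10 => rw [lie_h0_E]; congr 1; norm_num
  | e21 => rw [lie_h0_E]; congr 1; norm_num
  | e20 => rw [lie_h0_E]; congr 1; norm_num
  | y i j =>
    rw [lie_h0_Yp]
    congr 2
    have hi : (i : ℕ) ≤ 3 := by omega
    have hj : (j : ℕ) ≤ 3 := by omega
    push_cast [Nat.cast_sub hi, Nat.cast_sub hj]
    ring

theorem Wd.lie_h0 {m : M} {c : ℂ} (hm : ⁅h0, m⁆ = c • m) {n : ℕ} {w : M} (h : Wd m n w) :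
    ⁅h0, w⁆ = (c - n) • w := by
  induction h with
  | base => rw [hm]; simp
  | @step k d w y hw hy ih =>
    rw [leibniz_lie, hy.lie_h0, ih, smul_lie, lie_smul, ← add_smul]
    congr 1
    push_cast
    ring

theorem neg_wspan {m : M} {d : ℕ} {y : G} (hy : NegV d y) {w : M} (hw : w ∈ wspan m) :
    ⁅y, w⁆ ∈ wspan m := by
  unfold wspan at hw ⊢
  induction hw using Submodule.span_induction with
  | mem x hx => obtain ⟨n, hn⟩ := hx; exact Submodule.subset_span ⟨n + d, hn.step hy⟩
  | zero => simp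
  | add x x' _ _ h1 h2 => rw [lie_add]; exact Submodule.add_mem _ h1 h2
  | smul a x _ h1 => rw [lie_smul]; exact Submodule.smul_mem _ _ h1

/-- A submodule of `M` is stable under `⁅·, w⁆` if it is stable for generators of `G`. -/
theorem stable_of_gens {S : Submodule ℂ M} {w : M}
    (hE : ∀ i j, ⁅E i j, w⁆ ∈ S) (hX : ∀ i j, ⁅Xp i j, w⁆ ∈ S) (hY : ∀ i j, ⁅Yp i j, w⁆ ∈ S)
    (X : G) : ⁅X, w⁆ ∈ S := by
  let T : Submodule ℂ G :=
    { carrier := {Z | ⁅Z, w⁆ ∈ S}
      add_mem' := by
        intro a b ha hb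
        show ⁅a + b, w⁆ ∈ S
        rw [add_lie]; exact S.add_mem ha hb
      zero_mem' := by
        show ⁅(0 : G), w⁆ ∈ S
        rw [zero_lie]; exact S.zero_mem
      smul_mem' := by
        intro c a ha
        show ⁅c • a, w⁆ ∈ S
        rw [smul_lie]; exact S.smul_mem c ha }
  have : X ∈ T := by
    rw [decomp X]
    refine T.sum_mem fun i _ => T.sum_mem fun j _ => ?_
    exact T.add_mem (T.add_mem (T.smul_mem _ (hE i j)) (T.smul_mem _ (hX i j)))
      (T.smul_mem _ (hY i j))
  exact this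

theorem isPos_E {i j : Fin 3} (h : i < j) : IsPos (E i j) := by
  rw [isPos_iff]
  refine ⟨?_, by simp [E]⟩
  intro a b hab
  simp only [E, bA_gA]
  rw [Matrix.single_apply_of_ne]
  rintro ⟨rfl, rfl⟩
  exact absurd hab (not_le.2 h)

theorem isPos_Xp (i j : Fin 3) : IsPos (Xp i j) := by
  rw [isPos_iff]
  exact ⟨by simp [Xp], by simp [Xp]⟩

theorem E_diag (i : Fin 3) : E i i = hdiag (Pi.single i 1) := by
  rw [hdiag_eq]
  fin_cases i <;> simp [Fin.sum_univ_three]

theorem base_mem {m : M} {μ : Wt} (hw : IsWtVec μ m) (hp : ∀ X : G, IsPos X → ⁅X, m⁆ = 0)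
    (X : G) : ⁅X, m⁆ ∈ wspan m := by
  have hmem : m ∈ wspan m := Submodule.subset_span ⟨0, Wd.base⟩
  refine stable_of_gens ?_ ?_ ?_ X
  · intro i j
    rcases lt_trichotomy i j with h | h | h
    · rw [hp _ (isPos_E h)]; exact Submodule.zero_mem _
    · subst h
      rw [E_diag, hw]
      exact Submodule.smul_mem _ _ hmem
    · have : NegV 1 (E i j) ∨ NegV 2 (E i j) := by
        fin_cases i <;> fin_cases j
        all_goals first
          | exact absurd h (by decide)
          | exact Or.inl NegV.e10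
          | exact Or.inl NegV.e21
          | exact Or.inr NegV.e20
      rcases this with h | h
      · exact neg_wspan h hmem
      · exact neg_wspan h hmem
  · intro i j
    rw [hp _ (isPos_Xp i j)]; exact Submodule.zero_mem _
  · intro i j
    exact neg_wspan (NegV.y i j) hmem

theorem word_mem {m : M} {μ : Wt} (hw : IsWtVec μ m) (hp : ∀ X : G, IsPos X → ⁅X, m⁆ = 0)
    {n : ℕ} {w : M} (h : Wd m n w) : ∀ X : G, ⁅X, w⁆ ∈ wspan m := by
  induction h with
  | base => exact base_mem hw hp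
  | @step k d w y hw' hy ih =>
    intro X
    rw [leibniz_lie]
    exact Submodule.add_mem _ (ih _) (neg_wspan hy (ih X))

theorem lie_wspan {m : M} {μ : Wt} (hw : IsWtVec μ m) (hp : ∀ X : G, IsPos X → ⁅X, m⁆ = 0)
    (X : G) {w : M} (h : w ∈ wspan m) : ⁅X, w⁆ ∈ wspan m := by
  have h' : w ∈ Submodule.span ℂ {w | ∃ n, Wd m n w} := h
  induction h' using Submodule.span_induction with
  | mem x hx => obtain ⟨n, hn⟩ := hx; exact word_mem hw hp hn X
  | zero => simp
  | add x x' hx hx' h1 h2 => rw [lie_add]; exact Submodule.add_mem _ (h1 hx) (h2 hx')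
  | smul a x hx h1 => rw [lie_smul]; exact Submodule.smul_mem _ _ (h1 hx)

theorem lieSpan_le_wspan {m : M} {μ : Wt} (hw : IsWtVec μ m)
    (hp : ∀ X : G, IsPos X → ⁅X, m⁆ = 0) {u : M} (hu : u ∈ LieSubmodule.lieSpan ℂ G {m}) :
    u ∈ wspan m := by
  let S : LieSubmodule ℂ G M := { wspan m with lie_mem := fun {X} {w} h => lie_wspan hw hp X h }
  have : LieSubmodule.lieSpan ℂ G {m} ≤ S := by
    rw [LieSubmodule.lieSpan_le]
    rintro x rfl
    exact Submodule.subset_span ⟨0, Wd.base⟩
  exact this hu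

/-- The `h0`-eigenvalue of the generator has multiplicity one in a highest weight module. -/
theorem hw_line {m : M} {μ : Wt} (hw : IsWtVec μ m) (hp : ∀ X : G, IsPos X → ⁅X, m⁆ = 0)
    {u : M} (hu : u ∈ LieSubmodule.lieSpan ℂ G {m}) (hu' : IsWtVec μ u) :
    ∃ a : ℂ, u = a • m := by
  set c : ℂ := ∑ i, (![3, 2, 1] : Fin 3 → ℂ) i * μ i with hc
  have hm : ⁅h0, m⁆ = c • m := hw _
  have hu0 : ⁅h0, u⁆ = c • u := hu' _
  let T : Module.End ℂ M := LieModule.toEnd ℂ G M h0
  have hT : ∀ x, T x = ⁅h0, x⁆ := fun x => rfl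
  have hS : wspan m ≤ Submodule.span ℂ {m} ⊔ ⨆ (b : ℂ) (_ : b ≠ c), T.eigenspace b := by
    unfold wspan
    rw [Submodule.span_le]
    rintro w ⟨n, hn⟩
    have h1 := hn.lie_h0 hm
    cases hn with
    | base =>
      exact Submodule.mem_sup_left (Submodule.mem_span_singleton_self m)
    | @step k d w y hw' hy =>
      refine Submodule.mem_sup_right ?_
      have hd := hy.pos
      have hne : c - ((k + d : ℕ) : ℂ) ≠ c := by
        intro h
        have h2 : ((k + d : ℕ) : ℂ) = 0 := by linear_combination -h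
        have h3 : k + d = 0 := by exact_mod_cast h2
        omega
      have h2 : ⁅y, w⁆ ∈ T.eigenspace (c - ((k + d : ℕ) : ℂ)) := by
        rw [Module.End.mem_eigenspace_iff, hT, h1]
      exact (le_iSup₂ (f := fun (b : ℂ) (_ : b ≠ c) => T.eigenspace b) _ hne) h2
  have h1 := hS (lieSpan_le_wspan hw hp hu)
  rw [Submodule.mem_sup] at h1
  obtain ⟨x, hx, s, hs, hxs⟩ := h1
  obtain ⟨a, rfl⟩ := Submodule.mem_span_singleton.1 hx
  refine ⟨a, ?_⟩
  have hs' : s ∈ T.eigenspace c := by
    rw [Module.End.mem_eigenspace_iff, hT]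
    have : s = u - a • m := by rw [← hxs]; abel
    rw [this, lie_sub, lie_smul, hm, hu0, smul_sub, smul_comm]
  have hind := T.eigenspaces_iSupIndep c
  have := Submodule.disjoint_def.1 hind s hs' hs
  rw [← hxs, this, add_zero]

end words

section uniq

variable {L L' : Type} [AddCommGroup L] [Module ℂ L] [LieRingModule G L] [LieModule ℂ G L]
  [AddCommGroup L'] [Module ℂ L'] [LieRingModule G L'] [LieModule ℂ G L']

/-- The product of two modules. -/
instance prodLRM : LieRingModule G (L × L') where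
  bracket X p := (⁅X, p.1⁆, ⁅X, p.2⁆)
  add_lie X Y p := by
    show ((⁅X + Y, p.1⁆, ⁅X + Y, p.2⁆) : L × L') = (⁅X, p.1⁆, ⁅X, p.2⁆) + (⁅Y, p.1⁆, ⁅Y, p.2⁆)
    rw [add_lie, add_lie]; rfl
  lie_add X p q := by
    show ((⁅X, p.1 + q.1⁆, ⁅X, p.2 + q.2⁆) : L × L') = (⁅X, p.1⁆, ⁅X, p.2⁆) + (⁅X, q.1⁆, ⁅X, q.2⁆)
    rw [lie_add, lie_add]; rfl
  leibniz_lie X Y p := by
    show ((⁅X, ⁅Y, p.1⁆⁆, ⁅X, ⁅Y, p.2⁆⁆) : L × L') =
      (⁅⁅X, Y⁆, p.1⁆, ⁅⁅X, Y⁆, p.2⁆) + (⁅Y, ⁅X, p.1⁆⁆, ⁅Y, ⁅X, p.2⁆⁆)
    rw [leibniz_lie, leibniz_lie X Y p.2]; rfl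

theorem prod_lie (X : G) (p : L × L') : ⁅X, p⁆ = (⁅X, p.1⁆, ⁅X, p.2⁆) := rfl

instance prodLM : LieModule ℂ G (L × L') where
  smul_lie c X p := by
    simp only [prod_lie, smul_lie, Prod.smul_mk]
  lie_smul c X p := by
    simp only [prod_lie, Prod.smul_fst, Prod.smul_snd, lie_smul, Prod.smul_mk]

theorem simpleHW_unique (μ : Wt) (h : IsSimpleHW L μ) (h' : IsSimpleHW L' μ) :
    Nonempty (L ≃ₗ⁅ℂ,G⁆ L') := by
  obtain ⟨v, hv0, hvw, hvp⟩ := h.hw
  obtain ⟨v', hv0', hvw', hvp'⟩ := h'.hw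
  have := h.irr
  have := h'.irr
  let U : LieSubmodule ℂ G (L × L') := LieSubmodule.lieSpan ℂ G {(v, v')}
  have hw : IsWtVec μ ((v, v') : L × L') := by
    intro a
    rw [prod_lie, hvw a, hvw' a]
    rfl
  have hp : ∀ X : G, IsPos X → ⁅X, ((v, v') : L × L')⁆ = 0 := by
    intro X hX
    rw [prod_lie, hvp X hX, hvp' X hX]
    rfl
  have hmem : ((v, v') : L × L') ∈ U := LieSubmodule.subset_lieSpan rfl
  let p1 : U →ₗ⁅ℂ,G⁆ L :=
    { (LinearMap.fst ℂ L L').comp U.toSubmodule.subtype with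
      map_lie' := by intro X m; rfl }
  let p2 : U →ₗ⁅ℂ,G⁆ L' :=
    { (LinearMap.snd ℂ L L').comp U.toSubmodule.subtype with
      map_lie' := by intro X m; rfl }
  have hp1 : ∀ u : U, p1 u = u.1.1 := fun u => rfl
  have hp2 : ∀ u : U, p2 u = u.1.2 := fun u => rfl
  -- surjectivity
  have s1 : Function.Surjective p1 := by
    have : p1.range = ⊤ := by
      refine (IsSimpleOrder.eq_bot_or_eq_top _).resolve_left ?_
      intro hb
      have : v ∈ p1.range := ⟨⟨_, hmem⟩, rfl⟩
      rw [hb] at this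
      exact hv0 ((LieSubmodule.mem_bot _).1 this)
    exact p1.range_eq_top.1 this
  have s2 : Function.Surjective p2 := by
    have : p2.range = ⊤ := by
      refine (IsSimpleOrder.eq_bot_or_eq_top _).resolve_left ?_
      intro hb
      have : v' ∈ p2.range := ⟨⟨_, hmem⟩, rfl⟩
      rw [hb] at this
      exact hv0' ((LieSubmodule.mem_bot _).1 this)
    exact p2.range_eq_top.1 this
  -- injectivity
  have i1 : Function.Injective p1 := by
    let K : LieSubmodule ℂ G L' :=
      { carrier := {x | ((0, x) : L × L') ∈ U}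
        add_mem' := by
          intro a b ha hb
          have := U.add_mem ha hb
          simpa using this
        zero_mem' := U.zero_mem
        smul_mem' := by
          intro c a ha
          have := U.smul_mem c ha
          simpa using this
        lie_mem := by
          intro X a ha
          have := U.lie_mem (x := X) ha
          rw [prod_lie, lie_zero] at this
          exact this }
    have hK : K = ⊥ := by
      refine (IsSimpleOrder.eq_bot_or_eq_top _).resolve_right ?_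
      intro ht
      have h1 : v' ∈ K := by rw [ht]; trivial
      have h2 : IsWtVec μ ((0, v') : L × L') := by
        intro a
        rw [prod_lie, hvw' a, lie_zero]
        simp
      obtain ⟨a, ha⟩ := hw_line hw hp h1 h2
      have e1 := congrArg Prod.fst ha
      have e2 := congrArg Prod.snd ha
      simp only [Prod.smul_mk] at e1 e2
      rcases smul_eq_zero.1 e1.symm with h | h
      · rw [h, zero_smul] at e2; exact hv0' e2
      · exact hv0 h
    intro x y hxy
    have h1 : x.1 - y.1 ∈ U := U.sub_mem x.2 y.2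
    have h2 : (x.1 - y.1).1 = 0 := by
      rw [Prod.fst_sub, sub_eq_zero]; exact hxy
    have h3 : (x.1 - y.1).2 ∈ K := by
      show ((0, (x.1 - y.1).2) : L × L') ∈ U
      rw [← h2]; exact h1
    rw [hK, LieSubmodule.mem_bot] at h3
    apply Subtype.ext
    rw [← sub_eq_zero]
    exact Prod.ext h2 h3
  have i2 : Function.Injective p2 := by
    let K : LieSubmodule ℂ G L :=
      { carrier := {x | ((x, 0) : L × L') ∈ U}
        add_mem' := by
          intro a b ha hb
          have := U.add_mem ha hb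
          simpa using this
        zero_mem' := U.zero_mem
        smul_mem' := by
          intro c a ha
          have := U.smul_mem c ha
          simpa using this
        lie_mem := by
          intro X a ha
          have := U.lie_mem (x := X) ha
          rw [prod_lie, lie_zero] at this
          exact this }
    have hK : K = ⊥ := by
      refine (IsSimpleOrder.eq_bot_or_eq_top _).resolve_right ?_
      intro ht
      have h1 : v ∈ K := by rw [ht]; trivial
      have h2 : IsWtVec μ ((v, 0) : L × L') := by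
        intro a
        rw [prod_lie, hvw a, lie_zero]
        simp
      obtain ⟨a, ha⟩ := hw_line hw hp h1 h2
      have e1 := congrArg Prod.fst ha
      have e2 := congrArg Prod.snd ha
      simp only [Prod.smul_mk] at e1 e2
      rcases smul_eq_zero.1 e2.symm with h | h
      · rw [h, zero_smul] at e1; exact hv0 e1
      · exact hv0' h
    intro x y hxy
    have h1 : x.1 - y.1 ∈ U := U.sub_mem x.2 y.2
    have h2 : (x.1 - y.1).2 = 0 := by
      rw [Prod.snd_sub, sub_eq_zero]; exact hxy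
    have h3 : (x.1 - y.1).1 ∈ K := by
      show (((x.1 - y.1).1, 0) : L × L') ∈ U
      rw [← h2]; exact h1
    rw [hK, LieSubmodule.mem_bot] at h3
    apply Subtype.ext
    rw [← sub_eq_zero]
    exact Prod.ext h3 h2
  let e1 : U ≃ₗ⁅ℂ,G⁆ L :=
    { p1 with
      invFun := (Equiv.ofBijective p1 ⟨i1, s1⟩).symm
      left_inv := (Equiv.ofBijective p1 ⟨i1, s1⟩).left_inv
      right_inv := (Equiv.ofBijective p1 ⟨i1, s1⟩).right_inv }
  let e2 : U ≃ₗ⁅ℂ,G⁆ L' :=
    { p2 with
      invFun := (Equiv.ofBijective p2 ⟨i2, s2⟩).symm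
      left_inv := (Equiv.ofBijective p2 ⟨i2, s2⟩).left_inv
      right_inv := (Equiv.ofBijective p2 ⟨i2, s2⟩).right_inv }
  exact ⟨e1.symm.trans e2⟩

end uniq

section pd

variable {L L' : Type} [AddCommGroup L] [Module ℂ L] [LieRingModule G L] [LieModule ℂ G L]
  [AddCommGroup L'] [Module ℂ L'] [LieRingModule G L'] [LieModule ℂ G L']

theorem IsWtVec.map {μ : Wt} {m : L} (h : IsWtVec μ m) (f : L →ₗ⁅ℂ,G⁆ L') :
    IsWtVec μ (f m) := by
  intro a
  rw [← LieModuleHom.map_lie, h a, map_smul]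

theorem InO.congr (e : L ≃ₗ⁅ℂ,G⁆ L') (h : InO L) : InO L' := by
  classical
  refine ⟨?_, ?_, ?_⟩
  · obtain ⟨S, hS⟩ := h.fg
    refine ⟨S.image e, ?_⟩
    rw [eq_top_iff]
    intro x _
    let T : LieSubmodule ℂ G L :=
      (LieSubmodule.lieSpan ℂ G ((S.image e : Finset L') : Set L')).comap e.toLieModuleHom
    have hT : LieSubmodule.lieSpan ℂ G (S : Set L) ≤ T := by
      rw [LieSubmodule.lieSpan_le]
      intro s hs
      show e s ∈ LieSubmodule.lieSpan ℂ G ((S.image e : Finset L') : Set L')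
      apply LieSubmodule.subset_lieSpan
      simp only [Finset.coe_image]
      exact ⟨s, hs, rfl⟩
    have h1 : e.symm x ∈ T := hT (by rw [hS]; trivial)
    have h2 : e (e.symm x) ∈ LieSubmodule.lieSpan ℂ G ((S.image e : Finset L') : Set L') := h1
    rwa [LieModuleEquiv.apply_symm_apply] at h2
  · rw [eq_top_iff]
    intro x _
    let T : Submodule ℂ L :=
      (Submodule.span ℂ {m : L' | ∃ μ : Wt, IsWtVec μ m}).comap
        (e.toLieModuleHom : L →ₗ[ℂ] L')
    have hT : Submodule.span ℂ {m : L | ∃ μ : Wt, IsWtVec μ m} ≤ T := by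
      rw [Submodule.span_le]
      rintro s ⟨μ, hs⟩
      show e s ∈ Submodule.span ℂ {m : L' | ∃ μ : Wt, IsWtVec μ m}
      exact Submodule.subset_span ⟨μ, hs.map e.toLieModuleHom⟩
    have h1 : e.symm x ∈ T := hT (by rw [h.ss]; trivial)
    have h2 : e (e.symm x) ∈ Submodule.span ℂ {m : L' | ∃ μ : Wt, IsWtVec μ m} := h1
    rwa [LieModuleEquiv.apply_symm_apply] at h2
  · intro m
    obtain ⟨V, hV, hfin, hst⟩ := h.nil (e.symm m)
    refine ⟨V.map (e.toLieModuleHom : L →ₗ[ℂ] L'), ?_, ?_, ?_⟩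
    · exact ⟨e.symm m, hV, LieModuleEquiv.apply_symm_apply e m⟩
    · infer_instance
    · rintro X hX _ ⟨v, hv, rfl⟩
      refine ⟨⁅X, v⁆, hst X hX v hv, ?_⟩
      exact LieModuleHom.map_lie e.toLieModuleHom X v

theorem InBlock.congr (lam : Wt) (e : L ≃ₗ⁅ℂ,G⁆ L') (h : InBlock lam L) : InBlock lam L' := by
  refine { toInO := h.toInO.congr e, jh := ?_ }
  intro N S _ _ _ _ f hf hirr
  let N' : LieSubmodule ℂ G L := N.comap e.toLieModuleHom
  let g : N' →ₗ⁅ℂ,G⁆ N :=
    { toFun := fun x => ⟨e x.1, x.2⟩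
      map_add' := by intro x y; apply Subtype.ext; exact map_add e.toLieModuleHom x.1 y.1
      map_smul' := by intro c x; apply Subtype.ext; exact map_smul e.toLieModuleHom c x.1
      map_lie' := by
        intro X x; apply Subtype.ext; exact LieModuleHom.map_lie e.toLieModuleHom X x.1 }
  have hg : Function.Surjective g := by
    intro y
    have hy : e (e.symm y.1) = y.1 := LieModuleEquiv.apply_symm_apply e y.1
    refine ⟨⟨e.symm y.1, ?_⟩, ?_⟩
    · show e (e.symm y.1) ∈ N
      rw [hy]; exact y.2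
    · apply Subtype.ext
      exact hy
  exact h.jh N' S (f.comp g) (hf.comp hg) hirr

theorem IsProj.congr (lam : Wt) (e : L ≃ₗ⁅ℂ,G⁆ L') (h : IsProj lam L) : IsProj lam L' := by
  refine ⟨h.mem.congr lam e, ?_⟩
  intro M N _ _ _ _ _ _ _ _ f g hM hN hf
  obtain ⟨k, hk⟩ := h.lift M N f (g.comp e.toLieModuleHom) hM hN hf
  refine ⟨k.comp e.symm.toLieModuleHom, fun p => ?_⟩
  have := hk (e.symm p)
  rw [LieModuleHom.comp_apply] at this ⊢
  refine this.trans ?_
  congr 1
  exact LieModuleEquiv.apply_symm_apply e p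

theorem PdLE_of_eq (lam : Wt) (n : ℕ) {S T : LieSubmodule ℂ G L} (hST : S = T)
    (h : PdLE lam n S) : PdLE lam n T := by
  subst hST; exact h

theorem PdLE_congr (lam : Wt) (n : ℕ) (e : L ≃ₗ⁅ℂ,G⁆ L') (h : PdLE lam n L) :
    PdLE lam n L' := by
  cases n with
  | zero => exact IsProj.congr lam e h
  | succ n =>
    obtain ⟨P, i1, i2, i3, i4, f, hP, hf, hk⟩ := h
    refine ⟨P, i1, i2, i3, i4, e.toLieModuleHom.comp f, hP, ?_, ?_⟩
    · intro y
      obtain ⟨p, hp⟩ := hf (e.symm y)
      refine ⟨p, ?_⟩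
      rw [LieModuleHom.comp_apply, hp]
      exact LieModuleEquiv.apply_symm_apply e y
    · refine PdLE_of_eq lam n ?_ hk
      ext p
      rw [LieModuleHom.mem_ker, LieModuleHom.mem_ker, LieModuleHom.comp_apply]
      constructor
      · intro h; rw [h]; exact map_zero e.toLieModuleHom
      · intro h
        apply e.injective
        exact h.trans (map_zero e.toLieModuleHom).symm

theorem isProj_of_subsingleton (lam : Wt) [Subsingleton L] : IsProj lam L := by
  refine ⟨{ fg := ?_, ss := ?_, nil := ?_, jh := ?_ }, ?_⟩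
  · exact ⟨∅, by rw [eq_top_iff]; intro x _; rw [Subsingleton.elim x 0]; exact LieSubmodule.zero_mem _⟩
  · rw [eq_top_iff]; intro x _; rw [Subsingleton.elim x 0]; exact Submodule.zero_mem _
  · intro m
    refine ⟨⊥, by rw [Subsingleton.elim m 0]; exact Submodule.zero_mem _, inferInstance, ?_⟩
    intro X _ v _
    rw [Subsingleton.elim ⁅X, v⁆ 0]; exact Submodule.zero_mem _
  · intro N S _ _ _ _ f hf hirr
    exfalso
    have := hirr
    have : Subsingleton S := hf.subsingleton
    have : (⊥ : LieSubmodule ℂ G S) ≠ ⊤ := bot_ne_top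
    apply this
    rw [eq_top_iff]
    intro x _
    rw [Subsingleton.elim x 0]; exact LieSubmodule.zero_mem _
  · intro M N _ _ _ _ _ _ _ _ f g _ _ _
    refine ⟨0, fun p => ?_⟩
    rw [Subsingleton.elim p 0, map_zero, map_zero, map_zero]

theorem PdLE_succ (lam : Wt) : ∀ (n : ℕ) (L : Type) [AddCommGroup L] [Module ℂ L]
    [LieRingModule G L] [LieModule ℂ G L], PdLE lam n L → PdLE lam (n + 1) L
  | 0, L, _, _, _, _, h => by
    refine ⟨L, inferInstance, inferInstance, inferInstance, inferInstance, LieModuleHom.id, h,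
      Function.surjective_id, ?_⟩
    show IsProj lam _
    have : Subsingleton (LieModuleHom.id : L →ₗ⁅ℂ,G⁆ L).ker := by
      constructor
      intro a b
      apply Subtype.ext
      have ha : a.1 = 0 := a.2
      have hb : b.1 = 0 := b.2
      rw [ha, hb]
    exact isProj_of_subsingleton lam
  | n + 1, L, _, _, _, _, h => by
    obtain ⟨P, i1, i2, i3, i4, f, hP, hf, hk⟩ := h
    exact ⟨P, i1, i2, i3, i4, f, hP, hf, PdLE_succ lam n _ hk⟩

theorem PdLE_mono (lam : Wt) {n m : ℕ} (hnm : n ≤ m) (h : PdLE lam n L) : PdLE lam m L := by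
  induction hnm with
  | refl => exact h
  | step _ ih => exact PdLE_succ lam _ L ih

end pd

end EA58
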