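import Pool.Agent.LibEA58.ChaseElts
import Pool.Agent.LibEA58.PdChase
import Pool.Agent.LibEA58.GoodMods
import Pool.Agent.LibEA58.Irr
import Pool.Agent.LibEA58.Uniq
import Pool.Agent.LibEA58.HeckeTasks

/-!
# The counterexample
-/

namespace EA58

theorem not_PdLE : ¬ PdLE lam0 4 f0.range :=
  chase f0 f1 f2 f3 f4 gex0 gex1 gex2 gex3 good_A good_0 good_1 good_2 good_3 good_4
    c1 isK1 c2 isK2 c3 isK3 c4 isK4 c5 isK5 D_c1 D_c2 D_c3 D_c4 D_c5 K5_ker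

theorem pd_ge (L : Type) [AddCommGroup L] [Module ℂ L] [LieRingModule G L] [LieModule ℂ G L]
    (hL : IsSimpleHW L ![-2, -3, -1]) : ((5 : ℕ) : ℕ∞) ≤ pd lam0 L := by
  obtain ⟨e⟩ := simpleHW_unique _ hL (simple_X good_A)
  refine le_iInf fun n => ?_
  rw [Nat.cast_le]
  by_contra hn
  exact not_PdLE (PdLE_mono _ (by omega) (PdLE_congr _ _ e n.2))

theorem exists_simple : ∃ (L : Type) (_ : AddCommGroup L) (_ : Module ℂ L)
    (_ : LieRingModule G L) (_ : LieModule ℂ G L), IsSimpleHW L ![-2, -3, -1] :=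
  ⟨f0.range, inferInstance, inferInstance, inferInstance, inferInstance, simple_X good_A⟩

/-- The explicit counterexample: `λ + ρ = (1, 1, 0)` and `x = s₁ s₂ s₁ s₀ s₂`. -/
theorem counterexample :
    DomInt ![-2, -1, -1] ∧ MaxStab ![-2, -1, -1] ∧
    LongestRep ![-2, -1, -1] (W.s 1 * W.s 2 * W.s 1 * W.s 0 * W.s 2) ∧
    ∃ w₀ u₀ : W, IsLongest w₀ ∧ IsLongestStab ![-2, -1, -1] u₀ ∧
    (∃ (ℋ : HeckeAlg) (C : W → ℋ.H), ℋ.IsKL C) ∧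
    (∀ (ℋ : HeckeAlg) (C : W → ℋ.H), ℋ.IsKL C →
      ℋ.aFun C (w₀ * (W.s 1 * W.s 2 * W.s 1 * W.s 0 * W.s 2)) +
        ℋ.aFun C (w₀ * u₀) ≤ 4) ∧
    (∃ (L : Type) (_ : AddCommGroup L) (_ : Module ℂ L) (_ : LieRingModule G L)
      (_ : LieModule ℂ G L),
      IsSimpleHW L (dot (W.s 1 * W.s 2 * W.s 1 * W.s 0 * W.s 2) ![-2, -1, -1])) ∧
    ∀ (L : Type) [AddCommGroup L] [Module ℂ L] [LieRingModule G L] [LieModule ℂ G L],
      IsSimpleHW L (dot (W.s 1 * W.s 2 * W.s 1 * W.s 0 * W.s 2) ![-2, -1, -1]) →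
        ((5 : ℕ) : ℕ∞) ≤ pd ![-2, -1, -1] L := by
  have hd : dot (W.s 1 * W.s 2 * W.s 1 * W.s 0 * W.s 2) ![-2, -1, -1] = ![-2, -3, -1] := dot_x0
  rw [hd]
  refine ⟨domInt_lam, maxStab_lam, longestRep_x0, W.w0, W.u0, isLongest_w0, isLongestStab_u0,
    ?_, ?_, exists_simple, fun L _ _ _ _ hL => pd_ge L hL⟩
  · obtain ⟨ℋ⟩ := hecke_nonempty
    obtain ⟨C, hC⟩ := exists_kl ℋ
    exact ⟨ℋ, C, hC⟩
  · intro ℋ C hC
    have h1 := w0_mul_x0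
    have h2 := w0_mul_u0
    unfold W.x0 at h1
    rw [h1, h2]
    have h4 := a_bound_1 ℋ C hC
    have h5 := a_bound_3 ℋ C hC
    omega

end EA58
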