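import Pool.Agent.LibEA58.Good
import Pool.Agent.LibEA58.CoG

/-!
# Coinduced modules are good
-/

open MvPolynomial TensorProduct

namespace EA58

/-- A weight basis of a `gl(3)`-module with the properties needed. -/
structure WB (M : Type) [AddCommGroup M] [Module ℂ M] [GL3 M] (ι : Type) where
  b : Module.Basis ι ℂ M
  wt : ι → Fin 3 → ℤ
  hwt : ∀ j i, GL3.e i i (b j) = (wt j i : ℂ) • b j
  sum : ∀ j, wt j 0 + wt j 1 + wt j 2 = -6
  bdd : ∃ K : ℤ, ∀ j, ht (wt j) ≤ K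
  fin : ∀ μ : Fin 3 → ℤ, {j | wt j = μ}.Finite

namespace GCo

/-! ### The vector fields of the basis elements -/

theorem s10 : s((1 : Fin 3), 0) = s(0, 1) := Sym2.eq_swap
theorem s20 : s((2 : Fin 3), 0) = s(0, 2) := Sym2.eq_swap
theorem s21 : s((2 : Fin 3), 1) = s(1, 2) := Sym2.eq_swap

theorem xiXp_Z (a b k l : Fin 3) : xi (Xp a b) (X s(k, l)) =
    -((if a = k then (if b = l then 1 else 0) else 0) +
      (if b = k then (if a = l then 1 else 0) else 0) : P) := by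
  have h := xi_Z (Xp a b) k l
  simp only [Z] at h
  rw [h]
  simp only [dZ, Xp, bA_gB, bB_gB, bC_gB, cm, Matrix.neg_apply, Matrix.sub_apply,
    Matrix.add_apply, Matrix.map_apply, Matrix.transpose_apply, Matrix.single_apply]
  fin_cases a <;> fin_cases b <;> fin_cases k <;> fin_cases l <;>
    simp [Matrix.mul_apply]

theorem xi_E_eq (i j : Fin 3) : xi (E i j) = ∑ a, (Z j a) • xi (Xp i a) := by
  apply MvPolynomial.derivation_ext
  intro s
  induction s using Sym2.ind with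
  | _ k l =>
    have h := xi_Z (E i j) k l
    simp only [Z] at h
    rw [h]
    simp only [Fin.sum_univ_three, Derivation.add_apply, Derivation.smul_apply, xiXp_Z, dZ, E,
      bA_gA, bB_gA, bC_gA, cm, Matrix.neg_apply, Matrix.sub_apply,
      Matrix.add_apply, Matrix.mul_apply, Matrix.map_apply, Matrix.transpose_apply,
      Matrix.single_apply, Z]
    fin_cases i <;> fin_cases j <;> fin_cases k <;> fin_cases l <;>
      simp [s10, s20, s21] <;> ring

theorem xi_Yp_eq (i j : Fin 3) :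
    xi (Yp i j) = -∑ a, ∑ b, (Z i a * Z j b) • xi (Xp a b) := by
  apply MvPolynomial.derivation_ext
  intro s
  induction s using Sym2.ind with
  | _ k l =>
    have h := xi_Z (Yp i j) k l
    simp only [Z] at h
    rw [h]
    simp only [Fin.sum_univ_three, Derivation.add_apply, Derivation.smul_apply,
      Derivation.neg_apply, xiXp_Z, dZ, Yp,
      bA_gC, bB_gC, bC_gC, cm, Matrix.neg_apply, Matrix.sub_apply,
      Matrix.add_apply, Matrix.mul_apply, Matrix.map_apply, Matrix.transpose_apply,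
      Matrix.single_apply, Z]
    fin_cases i <;> fin_cases j <;> fin_cases k <;> fin_cases l <;>
      simp [s10, s20, s21] <;> ring

/-- The commuting derivations `D a b = ξ(Xp a b)`. -/
noncomputable def D (a b : Fin 3) : Derivation ℂ P P := xi (Xp a b)

theorem D_symm (a b : Fin 3) : D a b = D b a := by rw [D, D, Xp_comm]

theorem D_comm (a b c d : Fin 3) (f : P) : D a b (D c d f) = D c d (D a b f) := by
  have h := xi_lie (Xp a b) (Xp c d) f
  rw [lie_Xp_Xp] at h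
  have h0 : xi (0 : G) f = 0 := by
    have := xi_smul 0 (0 : G) f
    rw [zero_smul, zero_smul] at this
    exact this
  rw [h0] at h
  exact (sub_eq_zero.1 h.symm)

theorem D_Z (a b k l : Fin 3) : D a b (Z k l) =
    -((if a = k then (if b = l then 1 else 0) else 0) +
      (if b = k then (if a = l then 1 else 0) else 0) : P) := xiXp_Z a b k l

theorem xi_E_app (i j : Fin 3) (f : P) : xi (E i j) f = ∑ a, Z j a * D i a f := by
  rw [xi_E_eq]
  simp only [Fin.sum_univ_three, Derivation.add_apply, Derivation.smul_apply, D, smul_eq_mul]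

theorem xi_Yp_app (i j : Fin 3) (f : P) :
    xi (Yp i j) f = -∑ a, ∑ b, Z i a * Z j b * D a b f := by
  rw [xi_Yp_eq]
  simp only [Fin.sum_univ_three, Derivation.neg_apply, Derivation.add_apply,
    Derivation.smul_apply, D, smul_eq_mul]

theorem phi_E (i j k l : Fin 3) : phi (E i j) k l = if i = k ∧ j = l then 1 else 0 := by
  simp only [phi, E, bA_gA, bC_gA, cm, Matrix.sub_apply, Matrix.map_apply, Matrix.single_apply,
    Matrix.mul_apply]
  split_ifs <;> simp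

theorem phi_Xp (i j k l : Fin 3) : phi (Xp i j) k l = 0 := by
  simp [phi, Xp, cm, Matrix.mul_apply]

theorem phi_Yp (i j k l : Fin 3) : phi (Yp i j) k l =
    -((if j = l then Z k i else 0) + (if i = l then Z k j else 0)) := by
  simp only [phi, Yp, bA_gC, bC_gC, cm, Matrix.sub_apply, Matrix.map_apply,
    Matrix.mul_apply, Matrix.add_apply, Matrix.transpose_apply, Matrix.single_apply]
  fin_cases i <;> fin_cases j <;> fin_cases l <;> simp [Fin.sum_univ_three] <;> ring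

section
variable {M : Type} [AddCommGroup M] [Module ℂ M] [GL3 M]

theorem E_tm (i j : Fin 3) (f : P) (m : M) :
    ⁅E i j, (f ⊗ₜ m : CoG M)⁆ = (∑ a, Z j a * D i a f) ⊗ₜ m + f ⊗ₜ (GL3.e i j m) := by
  rw [lie_tm, xi_E_app]
  congr 1
  have : ∀ k l, (phi (E i j) k l * f) ⊗ₜ[ℂ] (GL3.e k l m) =
      if i = k then (if j = l then f ⊗ₜ (GL3.e k l m) else 0) else 0 := by
    intro k l
    rw [phi_E]
    by_cases h1 : i = k <;> by_cases h2 : j = l <;> simp [h1, h2]
  simp only [this]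
  simp

theorem Xp_tm (i j : Fin 3) (f : P) (m : M) :
    ⁅Xp i j, (f ⊗ₜ m : CoG M)⁆ = (D i j f) ⊗ₜ m := by
  rw [lie_tm]
  simp [phi_Xp, D]

theorem Yp_tm (i j : Fin 3) (f : P) (m : M) :
    ⁅Yp i j, (f ⊗ₜ m : CoG M)⁆ = -((∑ a, ∑ b, Z i a * Z j b * D a b f) ⊗ₜ m) -
      ∑ k, ((Z k i * f) ⊗ₜ (GL3.e k j m) + (Z k j * f) ⊗ₜ (GL3.e k i m)) := by
  rw [lie_tm, xi_Yp_app, TensorProduct.neg_tmul, sub_eq_add_neg]
  congr 1
  rw [← Finset.sum_neg_distrib]
  refine Finset.sum_congr rfl fun k _ => ?_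
  have : ∀ l, (phi (Yp i j) k l * f) ⊗ₜ[ℂ] (GL3.e k l m) =
      -((if j = l then (Z k i * f) ⊗ₜ (GL3.e k l m) else 0) +
        (if i = l then (Z k j * f) ⊗ₜ (GL3.e k l m) else 0)) := by
    intro l
    rw [phi_Yp]
    by_cases h1 : j = l <;> by_cases h2 : i = l <;>
      simp [h1, h2, add_mul, TensorProduct.add_tmul, TensorProduct.neg_tmul]
  simp only [this]
  rw [Finset.sum_neg_distrib, Finset.sum_add_distrib]
  simp

/-- The scalar part of the Casimir computation. -/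
theorem cas_scalar (f : P) :
    (∑ i, ∑ j, ∑ a, Z j a * D i a (∑ b, Z i b * D j b f)) -
      (∑ i, ∑ j, ∑ a, ∑ b, Z i a * Z j b * D a b (D i j f)) +
      4 * (∑ i, ∑ a, Z i a * D i a f) = 0 := by
  have z10 : Z 1 0 = Z 0 1 := by simp only [Z, s10]
  have z20 : Z 2 0 = Z 0 2 := by simp only [Z, s20]
  have z21 : Z 2 1 = Z 1 2 := by simp only [Z, s21]
  have d10 : D 1 0 = D 0 1 := D_symm _ _
  have d20 : D 2 0 = D 0 2 := D_symm _ _
  have d21 : D 2 1 = D 1 2 := D_symm _ _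
  have c1 := D_comm 0 1 0 0 f
  have c2 := D_comm 0 2 0 0 f
  have c3 := D_comm 1 1 0 0 f
  have c4 := D_comm 1 2 0 0 f
  have c5 := D_comm 2 2 0 0 f
  have c6 := D_comm 0 2 0 1 f
  have c7 := D_comm 1 1 0 1 f
  have c8 := D_comm 1 2 0 1 f
  have c9 := D_comm 2 2 0 1 f
  have c10 := D_comm 1 1 0 2 f
  have c11 := D_comm 1 2 0 2 f
  have c12 := D_comm 2 2 0 2 f
  have c13 := D_comm 1 2 1 1 f
  have c14 := D_comm 2 2 1 1 f
  have c15 := D_comm 2 2 1 2 f
  have dz : ∀ a b k l : Fin 3, ∀ g : P, D a b (Z k l * g) =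
      Z k l * D a b g - ((if a = k then (if b = l then 1 else 0) else 0) +
      (if b = k then (if a = l then 1 else 0) else 0) : P) * g := by
    intro a b k l g
    rw [Derivation.leibniz, D_Z, smul_eq_mul, smul_eq_mul]
    ring
  simp only [Fin.sum_univ_three, map_add, dz]
  simp only [z10, z20, z21, d10, d20, d21, c1, c2, c3, c4, c5, c6, c7, c8, c9, c10, c11, c12,
    c13, c14, c15]
  simp
  ring

/-- The Casimir operator in normal-ordered form. -/
theorem cas_eq (w : CoG M) : cas w = (∑ i, ∑ j, ⁅E i j, ⁅E j i, w⁆⁆) +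
    (∑ i, ∑ j, ⁅Yp i j, ⁅Xp i j, w⁆⁆) + (4 : ℂ) • ∑ i, ⁅E i i, w⁆ := by
  have h : ∀ i j, ⁅Xp i j, ⁅Yp i j, w⁆⁆ = ⁅Yp i j, ⁅Xp i j, w⁆⁆ +
      (⁅E i i, w⁆ + ⁅E j j, w⁆ + (if i = j then ⁅E i j, w⁆ + ⁅E j i, w⁆ else 0)) := by
    intro i j
    rw [leibniz_lie (Xp i j) (Yp i j) w, lie_Xp_Yp, add_comm]
    congr 1
    by_cases hij : i = j
    · subst hij; simp; abel
    · have hji : ¬ j = i := fun h => hij h.symm
      simp [hij, hji]
  rw [cas, add_assoc]
  congr 1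
  simp only [h, Finset.sum_add_distrib]
  simp only [Fin.sum_univ_three]
  simp
  module

theorem cas_tm (f : P) (m : M) : cas (f ⊗ₜ m : CoG M) =
    f ⊗ₜ ((∑ i, ∑ j, GL3.e i j (GL3.e j i m)) + (4 : ℂ) • ∑ i, GL3.e i i m) := by
  have key := congrArg (fun g : P => (g ⊗ₜ[ℂ] m : CoG M)) (cas_scalar f)
  simp only [TensorProduct.zero_tmul] at key
  have hE : ∀ i j, ⁅E i j, ⁅E j i, (f ⊗ₜ m : CoG M)⁆⁆ =
      (∑ a, Z j a * D i a (∑ b, Z i b * D j b f)) ⊗ₜ m +
      (∑ a, Z i a * D j a f) ⊗ₜ (GL3.e i j m) +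
      (∑ a, Z j a * D i a f) ⊗ₜ (GL3.e j i m) +
      f ⊗ₜ (GL3.e i j (GL3.e j i m)) := by
    intro i j
    rw [E_tm, lie_add, E_tm, E_tm]
    abel
  have hY : ∀ i j, ⁅Yp i j, ⁅Xp i j, (f ⊗ₜ m : CoG M)⁆⁆ =
      -((∑ a, ∑ b, Z i a * Z j b * D a b (D i j f)) ⊗ₜ m) -
      ∑ k, ((Z k i * D i j f) ⊗ₜ (GL3.e k j m) + (Z k j * D i j f) ⊗ₜ (GL3.e k i m)) := by
    intro i j
    rw [Xp_tm, Yp_tm]
  have hI : ∀ i, ⁅E i i, (f ⊗ₜ m : CoG M)⁆ =
      (∑ a, Z i a * D i a f) ⊗ₜ m + f ⊗ₜ (GL3.e i i m) := fun i => E_tm i i f m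
  have hS1 : (∑ i, ∑ j, ⁅E i j, ⁅E j i, (f ⊗ₜ m : CoG M)⁆⁆) =
      (∑ i, ∑ j, ∑ a, Z j a * D i a (∑ b, Z i b * D j b f)) ⊗ₜ m +
      (∑ i, ∑ j, (∑ a, Z i a * D j a f) ⊗ₜ (GL3.e i j m)) +
      (∑ i, ∑ j, (∑ a, Z j a * D i a f) ⊗ₜ (GL3.e j i m)) +
      f ⊗ₜ (∑ i, ∑ j, GL3.e i j (GL3.e j i m)) := by
    simp only [hE, Finset.sum_add_distrib, ← TensorProduct.sum_tmul, ← TensorProduct.tmul_sum]
  have hS2 : (∑ i, ∑ j, ⁅Yp i j, ⁅Xp i j, (f ⊗ₜ m : CoG M)⁆⁆) =
      -((∑ i, ∑ j, ∑ a, ∑ b, Z i a * Z j b * D a b (D i j f)) ⊗ₜ m) -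
      ((∑ i, ∑ j, ∑ k, (Z k i * D i j f) ⊗ₜ (GL3.e k j m)) +
      (∑ i, ∑ j, ∑ k, (Z k j * D i j f) ⊗ₜ (GL3.e k i m))) := by
    simp only [hY, Finset.sum_add_distrib, Finset.sum_sub_distrib, Finset.sum_neg_distrib,
      ← TensorProduct.sum_tmul]
  have hS3 : (∑ i, ⁅E i i, (f ⊗ₜ m : CoG M)⁆) =
      (∑ i, ∑ a, Z i a * D i a f) ⊗ₜ m + f ⊗ₜ (∑ i, GL3.e i i m) := by
    simp only [hI, Finset.sum_add_distrib, ← TensorProduct.sum_tmul, ← TensorProduct.tmul_sum]
  have hc1 : (∑ i, ∑ j, (∑ a, Z j a * D i a f) ⊗ₜ[ℂ] (GL3.e j i m)) =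
      ∑ i, ∑ j, (∑ a, Z i a * D j a f) ⊗ₜ (GL3.e i j m) := Finset.sum_comm
  have hc2 : (∑ i, ∑ j, ∑ k, (Z k i * D i j f) ⊗ₜ[ℂ] (GL3.e k j m)) =
      ∑ i, ∑ j, (∑ a, Z i a * D j a f) ⊗ₜ (GL3.e i j m) := by
    calc _ = ∑ i, ∑ k, ∑ j, (Z k i * D i j f) ⊗ₜ[ℂ] (GL3.e k j m) :=
          Finset.sum_congr rfl fun i _ => Finset.sum_comm
      _ = ∑ k, ∑ i, ∑ j, (Z k i * D i j f) ⊗ₜ[ℂ] (GL3.e k j m) := Finset.sum_comm
      _ = ∑ k, ∑ j, ∑ i, (Z k i * D i j f) ⊗ₜ[ℂ] (GL3.e k j m) :=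
          Finset.sum_congr rfl fun k _ => Finset.sum_comm
      _ = _ := by
          simp only [TensorProduct.sum_tmul]
          refine Finset.sum_congr rfl fun k _ => Finset.sum_congr rfl fun j _ =>
            Finset.sum_congr rfl fun i _ => ?_
          rw [D_symm]
  have hc3 : (∑ i, ∑ j, ∑ k, (Z k j * D i j f) ⊗ₜ[ℂ] (GL3.e k i m)) =
      ∑ i, ∑ j, (∑ a, Z i a * D j a f) ⊗ₜ (GL3.e i j m) := by
    calc _ = ∑ i, ∑ k, ∑ j, (Z k j * D i j f) ⊗ₜ[ℂ] (GL3.e k i m) :=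
          Finset.sum_congr rfl fun i _ => Finset.sum_comm
      _ = ∑ k, ∑ i, ∑ j, (Z k j * D i j f) ⊗ₜ[ℂ] (GL3.e k i m) := Finset.sum_comm
      _ = _ := by
          simp only [TensorProduct.sum_tmul]
  rw [cas_eq, hS1, hS2, hS3, hc1, hc2, hc3, TensorProduct.tmul_add, TensorProduct.tmul_smul,
    smul_add]
  have key2 : (4 : ℂ) • ((∑ i, ∑ a, Z i a * D i a f) ⊗ₜ[ℂ] m) =
      (4 * (∑ i, ∑ a, Z i a * D i a f)) ⊗ₜ[ℂ] m := by
    rw [TensorProduct.smul_tmul', MvPolynomial.smul_eq_C_mul]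
    rfl
  rw [TensorProduct.add_tmul, TensorProduct.sub_tmul, ← key2] at key
  rw [← sub_eq_zero] at key ⊢
  rw [← key]
  abel

end

end GCo

open GCo

section
variable {M : Type} [AddCommGroup M] [Module ℂ M] [GL3 M]

/-- The Casimir operator on `CoG M` is `-12` if `∑ E_ij E_ji + 4 ∑ E_ii = -12` on `M`. -/
theorem cas_CoG
    (h : ∀ m : M, (∑ i, ∑ j, GL3.e i j (GL3.e j i m)) + (4 : ℂ) • ∑ i, GL3.e i i m =
      (-12 : ℂ) • m) (w : CoG M) : cas w = (-12 : ℂ) • w := by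
  induction w using TensorProduct.induction_on with
  | zero => simp [cas]
  | add a b ha hb =>
    rw [smul_add, ← ha, ← hb]
    simp only [cas, lie_add, Finset.sum_add_distrib, smul_add]
    abel
  | tmul f m => rw [cas_tm, h, TensorProduct.tmul_smul]

end

namespace GCo

/-! ### Modules with a basis of weight vectors -/

section
variable {N : Type} [AddCommGroup N] [Module ℂ N] [LieRingModule G N] [LieModule ℂ G N]

theorem good_of_basis {ι : Type} (b : Module.Basis ι ℂ N) (wt : ι → Fin 3 → ℤ)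
    (hwt : ∀ x i, ⁅E i i, b x⁆ = (wt x i : ℂ) • b x)
    (bdd : ∃ K : ℤ, ∀ x, ht (wt x) ≤ K) (fin : ∀ μ : Fin 3 → ℤ, {x | wt x = μ}.Finite)
    (hcas : ∀ m : N, cas m = (-12 : ℂ) • m) : Good N := by
  have hrepr : ∀ (i : Fin 3) (m : N) (x : ι), b.repr ⁅E i i, m⁆ x = (wt x i : ℂ) * b.repr m x := by
    intro i m x
    have h : (b.coord x).comp (LieModule.toEnd ℂ G N (E i i)) =
        (wt x i : ℂ) • b.coord x := by
      refine b.ext fun y => ?_
      simp only [LinearMap.comp_apply, LieModule.toEnd_apply_apply, LinearMap.smul_apply,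
        Module.Basis.coord_apply, hwt, map_smul, Finsupp.smul_apply, smul_eq_mul,
        Module.Basis.repr_self]
      by_cases hxy : y = x
      · subst hxy; rfl
      · rw [Finsupp.single_eq_of_ne' hxy]; simp
    exact LinearMap.congr_fun h m
  have hsupp : ∀ (μ : Fin 3 → ℤ) (m : N), m ∈ wsp N μ → ∀ x, b.repr m x ≠ 0 → wt x = μ := by
    intro μ m hm x hx
    funext i
    have h1 := hrepr i m x
    rw [(mem_wsp N μ m).1 hm i, map_smul, Finsupp.smul_apply, smul_eq_mul] at h1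
    have h2 := mul_right_cancel₀ hx h1
    exact_mod_cast h2.symm
  refine ⟨?_, ?_, ?_, hcas⟩
  · rw [eq_top_iff, ← b.span_eq, Submodule.span_le]
    rintro _ ⟨x, rfl⟩
    exact Submodule.mem_iSup_of_mem (wt x) (by intro i; exact hwt x i)
  · intro μ
    have hle : wsp N μ ≤ Submodule.span ℂ (b '' {x | wt x = μ}) := by
      intro m hm
      rw [Module.Basis.mem_span_image]
      intro x hx
      exact hsupp μ m hm x (Finsupp.mem_support_iff.1 hx)
    have : FiniteDimensional ℂ (Submodule.span ℂ (b '' {x | wt x = μ})) :=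
      FiniteDimensional.span_of_finite ℂ ((fin μ).image b)
    exact Submodule.finiteDimensional_of_le hle
  · obtain ⟨K, hK⟩ := bdd
    refine ⟨K, fun μ hμ => ?_⟩
    obtain ⟨m, hm, hm0⟩ := (Submodule.ne_bot_iff _).1 hμ
    have : b.repr m ≠ 0 := by
      intro h0
      exact hm0 (by simpa using h0)
    obtain ⟨x, hx⟩ := Finsupp.ne_iff.1 this
    rw [← hsupp μ m hm x hx]
    exact hK x

end

/-! ### The weight basis of `CoG M` -/

/-- The multiplicity of `i` in an unordered pair. -/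
def mlt (i : Fin 3) : Sym2 (Fin 3) → ℤ :=
  Sym2.lift ⟨fun k l => (if i = k then 1 else 0) + (if i = l then 1 else 0), fun _ _ => add_comm _ _⟩

/-- Minus the weight of a monomial. -/
def mwt (s : Sym2 (Fin 3) →₀ ℕ) (i : Fin 3) : ℤ := ∑ e, (s e : ℤ) * mlt i e

theorem mlt_nonneg (i : Fin 3) (e : Sym2 (Fin 3)) : 0 ≤ mlt i e := by
  induction e using Sym2.ind with
  | _ k l => simp only [mlt, Sym2.lift_mk]; split_ifs <;> norm_num

theorem mlt_sum (e : Sym2 (Fin 3)) : mlt 0 e + mlt 1 e + mlt 2 e = 2 := by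
  induction e using Sym2.ind with
  | _ k l => fin_cases k <;> fin_cases l <;> simp [mlt]

theorem mwt_nonneg (s : Sym2 (Fin 3) →₀ ℕ) (i : Fin 3) : 0 ≤ mwt s i :=
  Finset.sum_nonneg fun e _ => mul_nonneg (by positivity) (mlt_nonneg i e)

theorem mwt_sum (s : Sym2 (Fin 3) →₀ ℕ) : mwt s 0 + mwt s 1 + mwt s 2 = 2 * ∑ e, (s e : ℤ) := by
  simp only [mwt, ← Finset.sum_add_distrib, Finset.mul_sum]
  refine Finset.sum_congr rfl fun e _ => ?_
  rw [← mul_add, ← mul_add, mlt_sum]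
  ring

theorem mwt_add (s t : Sym2 (Fin 3) →₀ ℕ) (i : Fin 3) : mwt (s + t) i = mwt s i + mwt t i := by
  simp only [mwt, ← Finset.sum_add_distrib]
  refine Finset.sum_congr rfl fun e _ => ?_
  simp [add_mul]

theorem xi_monomial (i : Fin 3) (s : Sym2 (Fin 3) →₀ ℕ) :
    xi (E i i) (monomial s (1 : ℂ)) = (-(mwt s i : ℂ)) • monomial s (1 : ℂ) := by
  have hadd : ∀ s t : Sym2 (Fin 3) →₀ ℕ,
      xi (E i i) (monomial s (1 : ℂ)) = (-(mwt s i : ℂ)) • monomial s (1 : ℂ) →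
      xi (E i i) (monomial t (1 : ℂ)) = (-(mwt t i : ℂ)) • monomial t (1 : ℂ) →
      xi (E i i) (monomial (s + t) (1 : ℂ)) = (-(mwt (s + t) i : ℂ)) • monomial (s + t) (1 : ℂ) := by
    intro s t hs ht
    have hm : (monomial (s + t) (1 : ℂ) : P) = monomial s 1 * monomial t 1 := by
      rw [MvPolynomial.monomial_mul, mul_one]
    rw [hm, Derivation.leibniz, hs, ht, mwt_add]
    simp only [smul_eq_mul, MvPolynomial.smul_eq_C_mul]
    push_cast
    simp only [map_neg, map_add]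
    ring
  have h0 : xi (E i i) (monomial 0 (1 : ℂ)) = (-(mwt 0 i : ℂ)) • monomial 0 (1 : ℂ) := by
    have : (monomial 0 (1 : ℂ) : P) = 1 := rfl
    rw [this, Derivation.map_one_eq_zero]
    simp [mwt]
  have h1 : ∀ e : Sym2 (Fin 3), xi (E i i) (monomial (Finsupp.single e 1) (1 : ℂ)) =
      (-(mwt (Finsupp.single e 1) i : ℂ)) • monomial (Finsupp.single e 1) (1 : ℂ) := by
    intro e
    have hm : mwt (Finsupp.single e 1) i = mlt i e := by
      rw [mwt, Finset.sum_eq_single e]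
      · simp
      · intro e' _ he'
        rw [Finsupp.single_eq_of_ne' (Ne.symm he')]; simp
      · simp
    rw [hm]
    induction e using Sym2.ind with
    | _ k l =>
      have hX : (monomial (Finsupp.single s(k, l) 1) (1 : ℂ) : P) = Z k l := rfl
      rw [hX, xi_E_app]
      simp only [D_Z]
      simp only [mlt, Sym2.lift_mk, MvPolynomial.smul_eq_C_mul]
      have hC2 : (C 2 : P) = 2 := map_ofNat C 2
      fin_cases i <;> fin_cases k <;> fin_cases l <;>
        simp [Fin.sum_univ_three, Z, s10, s20, s21, hC2] <;> ring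
  induction s using Finsupp.induction_linear with
  | zero => exact h0
  | add s t hs ht => exact hadd s t hs ht
  | single e n =>
    induction n with
    | zero => rw [Finsupp.single_zero]; exact h0
    | succ n ih => rw [Finsupp.single_add]; exact hadd _ _ ih (h1 e)

end GCo

section
variable {M : Type} [AddCommGroup M] [Module ℂ M] [GL3 M]

/-- `CoG M` is good. -/
theorem good_CoG {ι : Type} (B : WB M ι)
    (h : ∀ m : M, (∑ i, ∑ j, GL3.e i j (GL3.e j i m)) + (4 : ℂ) • ∑ i, GL3.e i i m =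
      (-12 : ℂ) • m) : Good (CoG M) := by
  refine good_of_basis ((MvPolynomial.basisMonomials (Sym2 (Fin 3)) ℂ).tensorProduct B.b)
    (fun x i => B.wt x.2 i - mwt x.1 i) ?_ ?_ ?_ (cas_CoG h)
  · rintro ⟨s, j⟩ i
    rw [Module.Basis.tensorProduct_apply, MvPolynomial.coe_basisMonomials, E_tm, ← xi_E_app,
      xi_monomial, B.hwt, TensorProduct.tmul_smul, ← TensorProduct.smul_tmul', ← add_smul]
    congr 1
    push_cast
    ring
  · obtain ⟨K, hK⟩ := B.bdd
    refine ⟨K, fun x => ?_⟩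
    have h0 := mwt_nonneg x.1 0
    have h1 := mwt_nonneg x.1 1
    have h2 := mwt_nonneg x.1 2
    have h3 := hK x.2
    simp only [ht] at h3 ⊢
    linarith
  · intro μ
    set n : ℕ := ((-6 - (μ 0 + μ 1 + μ 2)) / 2).toNat with hn
    have hS : {s : Sym2 (Fin 3) →₀ ℕ | ∀ e, s e ≤ n}.Finite := by
      refine (Set.finite_Iic (Finsupp.equivFunOnFinite.symm (fun _ : Sym2 (Fin 3) => n))).subset ?_
      intro s hs e
      simpa using hs e
    refine (hS.biUnion (t := fun s => ({s} : Set (Sym2 (Fin 3) →₀ ℕ)) ×ˢ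
      {j | B.wt j = fun i => μ i + mwt s i}) (fun s _ =>
        (Set.finite_singleton s).prod (B.fin _))).subset ?_
    rintro ⟨s, j⟩ hx
    have hx' : ∀ i, B.wt j i - mwt s i = μ i := fun i => congrFun hx i
    simp only [Set.mem_iUnion, Set.mem_prod, Set.mem_singleton_iff, Set.mem_ofPred_eq]
    refine ⟨s, ?_, rfl, ?_⟩
    · intro e
      have h0 := hx' 0
      have h1 := hx' 1
      have h2 := hx' 2
      have h3 := mwt_sum s
      have h4 := B.sum j
      have h5 : (s e : ℤ) ≤ ∑ e, (s e : ℤ) :=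
        Finset.single_le_sum (f := fun e => (s e : ℤ)) (fun e _ => by positivity) (Finset.mem_univ e)
      omega
    · funext i
      rw [← hx' i]; ring

end

end EA58
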