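import Pool.Agent.LibEA58.HeckeKL

/-!
# The bar involution; existence and uniqueness of the Kazhdan-Lusztig basis
-/

set_option autoImplicit false

namespace EA58

namespace HT

open LaurentPolynomial

section bar

variable (ℋ : HeckeAlg)

/-- the inverse of `T s` -/
noncomputable def Ti (i : Fin 3) : ℋ.H := ℋ.T (W.s i) - (vp (-1) - vp 1) • (1 : ℋ.H)

lemma T_mul_Ti (i : Fin 3) : ℋ.T (W.s i) * Ti ℋ i = 1 := by
  rw [Ti, mul_sub, ℋ.T_sq, mul_smul_comm, mul_one]
  abel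

lemma Ti_mul_T (i : Fin 3) : Ti ℋ i * ℋ.T (W.s i) = 1 := by
  rw [Ti, sub_mul, ℋ.T_sq, smul_mul_assoc, one_mul]
  abel

/-- `T s` as a unit -/
noncomputable def Tu (i : Fin 3) : ℋ.Hˣ := ⟨ℋ.T (W.s i), Ti ℋ i, T_mul_Ti ℋ i, Ti_mul_T ℋ i⟩

lemma inv_s (i : Fin 3) : Ring.inverse (ℋ.T (W.s i)) = Ti ℋ i := Ring.inverse_unit (Tu ℋ i)

lemma isUnit_s (i : Fin 3) : IsUnit (ℋ.T (W.s i)) := ⟨Tu ℋ i, rfl⟩

lemma Cs_eq (i : Fin 3) : Cs ℋ i = Ti ℋ i + vp (-1) • (1 : ℋ.H) := by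
  rw [Cs, Ti, sub_smul]; abel

lemma t_left {a : J} (h : a ≠ 0) :
    t ℋ a = ℋ.T (W.s (ld a)) * t ℋ (Lt (ld a) a) := by
  have := s_mul_t_up ℋ (i := ld a) (a := Lt (ld a) a) (by rw [Lt_Lt]; exact (left_step a h).2.1)
  rw [this, Lt_Lt]

lemma isUnit_t (a : J) : IsUnit (t ℋ a) := by
  induction a using WellFoundedLT.induction with
  | _ a ih =>
    rcases eq_or_ne a 0 with rfl | h
    · rw [t_zero]; exact isUnit_one
    · rw [t_left ℋ h]
      exact (isUnit_s ℋ _).mul (ih _ (left_step a h).1)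

/-- `bar (T w)` -/
noncomputable def bt (a : J) : ℋ.H := Ring.inverse (t ℋ (iv a))

lemma inverse_mul {x y : ℋ.H} (hx : IsUnit x) (hy : IsUnit y) :
    Ring.inverse (x * y) = Ring.inverse y * Ring.inverse x := by
  obtain ⟨u, rfl⟩ := hx
  obtain ⟨w, rfl⟩ := hy
  rw [← Units.val_mul, Ring.inverse_unit, Ring.inverse_unit, Ring.inverse_unit, mul_inv_rev,
    Units.val_mul]

lemma iv_Lt : ∀ (i : Fin 3) (a : J), iv (Lt i a) = Rt i (iv a) := by decide +kernel

lemma bt_up {i : Fin 3} {a : J} (h : ell a < ell (Lt i a)) :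
    bt ℋ (Lt i a) = Ti ℋ i * bt ℋ a := by
  rw [bt, bt, iv_Lt, ← inv_s, ← inverse_mul ℋ (isUnit_t ℋ _) (isUnit_s ℋ _), t_mul_s_up]
  rw [← iv_Lt, ell_iv, ell_iv]; exact h

lemma bt_down {i : Fin 3} {a : J} (h : ell (Lt i a) < ell a) :
    bt ℋ (Lt i a) = ℋ.T (W.s i) * bt ℋ a := by
  have := bt_up ℋ (i := i) (a := Lt i a) (by rw [Lt_Lt]; exact h)
  rw [Lt_Lt] at this
  rw [this, ← mul_assoc, T_mul_Ti, one_mul]

lemma bar_eq (h : ℋ.H) : ℋ.bar h = ∑ a, invert ((tB ℋ).repr h a) • bt ℋ a := by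
  rw [HeckeAlg.bar, ← Equiv.sum_comp eqv]
  refine Finset.sum_congr rfl fun a _ => ?_
  rw [eqv_apply, repr_el, el_inv, bt, t]

lemma bar_add (h h' : ℋ.H) : ℋ.bar (h + h') = ℋ.bar h + ℋ.bar h' := by
  simp only [bar_eq, map_add, Finsupp.add_apply, add_smul, Finset.sum_add_distrib]

lemma bar_smul (r : R) (h : ℋ.H) : ℋ.bar (r • h) = invert r • ℋ.bar h := by
  simp only [bar_eq, map_smul, Finsupp.smul_apply, smul_eq_mul, map_mul, Finset.smul_sum,
    smul_smul]

/-- additive version -/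
noncomputable def barH : ℋ.H →+ ℋ.H := AddMonoidHom.mk' ℋ.bar (bar_add ℋ)

lemma bar_t (a : J) : ℋ.bar (t ℋ a) = bt ℋ a := by
  rw [bar_eq, ← tB_apply, Finset.sum_eq_single a]
  · simp
  · intro b _ hb
    rw [Module.Basis.repr_self, Finsupp.single_apply, if_neg hb.symm]; simp
  · simp

lemma bar_Cs_t (i : Fin 3) (a : J) : ℋ.bar (Cs ℋ i * t ℋ a) = Cs ℋ i * bt ℋ a := by
  rw [Cs_mul_t, bar_add, bar_smul, bar_t, bar_t]
  split_ifs with h
  · rw [invert_T, bt_up ℋ h, Cs_eq, add_mul, smul_mul_assoc, one_mul]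
  · rw [invert_T, neg_neg, bt_down ℋ (by rcases ell_Lt i a with h' | h' <;> omega), Cs, add_mul,
      smul_mul_assoc, one_mul]

lemma bar_Cs (i : Fin 3) (h : ℋ.H) : ℋ.bar (Cs ℋ i * h) = Cs ℋ i * ℋ.bar h := by
  have e : ∑ a, (tB ℋ).repr h a • t ℋ a = h := by
    conv_rhs => rw [← (tB ℋ).sum_repr h]
    simp only [tB_apply]
  have key : ∀ s : Finset J, ∀ f : J → R, ℋ.bar (Cs ℋ i * ∑ a ∈ s, f a • t ℋ a) =
      Cs ℋ i * ℋ.bar (∑ a ∈ s, f a • t ℋ a) := by
    intro s f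
    have e1 : ∀ x : ℋ.H, ℋ.bar x = barH ℋ x := fun _ => rfl
    rw [Finset.mul_sum, e1, e1, map_sum, map_sum, Finset.mul_sum]
    refine Finset.sum_congr rfl fun a _ => ?_
    rw [← e1, ← e1, mul_smul_comm, bar_smul, bar_smul, bar_Cs_t, bar_t, mul_smul_comm]
  rw [← e]
  exact key _ _

lemma bar_list (L : List J) (h : ∀ z ∈ L, ℋ.bar (c ℋ z) = c ℋ z) :
    ℋ.bar (L.map (c ℋ)).sum = (L.map (c ℋ)).sum := by
  induction L with
  | nil =>
    have : ℋ.bar 0 = 0 := map_zero (barH ℋ)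
    simpa using this
  | cons z L ih =>
    rw [List.map_cons, List.sum_cons, bar_add, h z (by simp), ih fun y hy => h y (by simp [hy])]

lemma iv_zero : iv 0 = 0 := by decide +kernel

lemma bar_c (a : J) : ℋ.bar (c ℋ a) = c ℋ a := by
  induction a using WellFoundedLT.induction with
  | _ a ih =>
    rcases eq_or_ne a 0 with rfl | h
    · rw [c_zero, ← t_zero, bar_t, bt, iv_zero, t_zero, Ring.inverse_one]
    · obtain ⟨h1, h2, h3, h4, h5⟩ := left_step a h
      have up := left_up ℋ (i := ld a) (a := Lt (ld a) a) (by rw [Lt_Lt]; exact h2)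
      obtain ⟨z, L, hL⟩ := List.exists_cons_of_ne_nil h4
      rw [hL] at h3 h5 up
      simp only [List.headD_cons] at h3
      subst h3
      rw [List.map_cons, List.sum_cons] at up
      have e1 : c ℋ z = Cs ℋ (ld z) * c ℋ (Lt (ld z) z) - (L.map (c ℋ)).sum := by
        rw [up, add_sub_cancel_right]
      have e2 : ∀ x y : ℋ.H, ℋ.bar (x - y) = ℋ.bar x - ℋ.bar y := map_sub (barH ℋ)
      rw [e1, e2, bar_Cs, ih _ h1, bar_list ℋ L fun y hy => ih y (h5 y hy)]

lemma evl_one : evl [1] = 1 := by simp [evl]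

lemma coeff_pl {a b : J} (h : a ≠ b) (n : ℤ) (hn : n ≤ 0) : (evl (pl a b)).coeff n = 0 := by
  have := pl_ne a b h
  generalize pl a b = l at *
  cases l with
  | nil => simp [evl]
  | cons x l =>
    simp only [List.headD_cons] at this
    rw [this]
    exact coeff_evl_zero l n hn

/-- existence -/
theorem exists_kl' : ∃ C : W → ℋ.H, ℋ.IsKL C := by
  refine ⟨fun w => c ℋ (eqv.symm w), fun w => ?_⟩
  obtain ⟨a, rfl⟩ := eqv.surjective w
  have e : eqv.symm (el a) = a := eqv.symm_apply_apply a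
  simp only [eqv_apply, e]
  refine ⟨bar_c ℋ a, ?_, ?_⟩
  · rw [repr_el, repr_c, pl_self, evl_one]
  · intro y hy n hn
    obtain ⟨b, rfl⟩ := eqv.surjective y
    rw [eqv_apply] at hy ⊢
    rw [repr_el, repr_c]
    exact coeff_pl (fun h => hy (by rw [h])) n hn

lemma bar_eq_c (h : ℋ.H) : ℋ.bar h = ∑ a, invert ((cB ℋ).repr h a) • c ℋ a := by
  have e : ∑ a, (cB ℋ).repr h a • c ℋ a = h := by
    conv_rhs => rw [← (cB ℋ).sum_repr h]
    simp only [cB_apply]
  have e1 : ∀ x : ℋ.H, ℋ.bar x = barH ℋ x := fun _ => rfl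
  conv_lhs => rw [← e, e1, map_sum]
  refine Finset.sum_congr rfl fun a _ => ?_
  rw [← e1, bar_smul, bar_c]

/-- a bar-invariant element with coordinates in `v ℤ[v]` vanishes -/
lemma eq_zero_of_bar {e : ℋ.H} (h1 : ℋ.bar e = e)
    (h2 : ∀ a : J, ∀ n : ℤ, n ≤ 0 → ((tB ℋ).repr e a).coeff n = 0) : e = 0 := by
  have hinv : ∀ a, invert ((cB ℋ).repr e a) = (cB ℋ).repr e a := by
    intro a
    have h3 := bar_eq_c ℋ e
    rw [h1] at h3
    have h4 := congrArg (fun x => (cB ℋ).repr x a) h3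
    simp only [← cB_apply] at h4
    rw [congrFun ((cB ℋ).repr_sum_self _) a] at h4
    exact h4.symm
  have hco : ∀ b, (tB ℋ).repr e b = ∑ a, (cB ℋ).repr e a * evl (pl a b) := by
    intro b
    have e0 : ∑ a, (cB ℋ).repr e a • c ℋ a = e := by
      conv_rhs => rw [← (cB ℋ).sum_repr e]
      simp only [cB_apply]
    conv_lhs => rw [← e0, map_sum]
    rw [Finsupp.finsetSum_apply]
    refine Finset.sum_congr rfl fun a _ => ?_
    rw [map_smul, Finsupp.smul_apply, repr_c, smul_eq_mul]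
  have hz : ∀ b, (cB ℋ).repr e b = 0 := by
    intro b
    induction b using WellFoundedGT.induction with
    | _ b ih =>
      have h3 : (tB ℋ).repr e b = (cB ℋ).repr e b := by
        rw [hco b, Finset.sum_eq_single b]
        · rw [pl_self, evl_one, mul_one]
        · intro a _ hab
          rcases lt_or_gt_of_ne hab with h | h
          · rw [pl_gt a b h]; simp [evl]
          · rw [ih a h, zero_mul]
        · simp
      apply LaurentPolynomial.ext
      intro n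
      rcases le_total n 0 with hn | hn
      · rw [← h3, h2 b n hn]; simp
      · have h4 := hinv b
        have h5 : (invert ((cB ℋ).repr e b)).coeff n = ((cB ℋ).repr e b).coeff (-n) :=
          invert_apply _ _
        rw [h4] at h5
        rw [h5, ← h3, h2 b _ (by omega)]; simp
  have h6 : (cB ℋ).repr e = 0 := Finsupp.ext hz
  exact (cB ℋ).repr.map_eq_zero_iff.1 h6

/-- uniqueness -/
theorem kl_unique {C : W → ℋ.H} (hC : ℋ.IsKL C) (a : J) : C (el a) = c ℋ a := by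
  have e2 : ∀ x y : ℋ.H, ℋ.bar (x - y) = ℋ.bar x - ℋ.bar y := map_sub (barH ℋ)
  obtain ⟨h1, h2, h3⟩ := hC (el a)
  refine sub_eq_zero.1 (eq_zero_of_bar ℋ ?_ ?_)
  · rw [e2, h1, bar_c]
  · intro b n hn
    rw [map_sub, Finsupp.sub_apply, AddMonoidAlgebra.coeff_sub, Finsupp.sub_apply, repr_c,
      ← repr_el]
    rcases eq_or_ne a b with rfl | hab
    · rw [h2, pl_self, evl_one, sub_self]
    · rw [coeff_pl hab n hn, sub_zero]
      exact h3 (el b) (fun h => hab (el_injective h).symm) n hn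

end bar

end HT

end EA58
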