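import Pool.Agent.LibEA58.Defs

/-!
# The Hecke algebra of `W`, the Kazhdan-Lusztig basis and Lusztig's function `a`
-/

namespace EA58

/-- The ring `ℤ[v, v⁻¹]`. -/
abbrev R : Type := LaurentPolynomial ℤ

/-- `v ^ n`. -/
noncomputable abbrev vp (n : ℤ) : R := LaurentPolynomial.T n

/-- A Hecke algebra of `(W, S)`: a ring which is a free `ℤ[v, v⁻¹]`-module with basis
`T w` (`w ∈ W`), with `T x T y = T (x y)` whenever `ℓ(x y) = ℓ(x) + ℓ(y)` and
`T s ^ 2 = 1 + (v⁻¹ - v) T s` for the simple reflections `s`. -/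
structure HeckeAlg where
  H : Type
  [ring : Ring H]
  [alg : Algebra R H]
  T : Module.Basis W R H
  T_mul : ∀ x y : W, W.len (x * y) = W.len x + W.len y → T x * T y = T (x * y)
  T_sq : ∀ i : Fin 3, T (W.s i) * T (W.s i) = 1 + (vp (-1) - vp 1) • T (W.s i)

attribute [instance] HeckeAlg.ring HeckeAlg.alg

namespace HeckeAlg

variable (ℋ : HeckeAlg)

/-- The bar involution: `v ↦ v⁻¹`, `T w ↦ (T w⁻¹)⁻¹`. -/
noncomputable def bar (h : ℋ.H) : ℋ.H :=
  ∑ w : W, (LaurentPolynomial.invert (ℋ.T.repr h w)) • Ring.inverse (ℋ.T w⁻¹)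

/-- `C` is the Kazhdan-Lusztig basis: `C w` is bar-invariant and lies in
`T w + ∑_{y ≠ w} v ℤ[v] T y`. -/
def IsKL (C : W → ℋ.H) : Prop :=
  ∀ w : W, ℋ.bar (C w) = C w ∧ ℋ.T.repr (C w) w = 1 ∧
    ∀ y : W, y ≠ w → ∀ n : ℤ, n ≤ 0 → (ℋ.T.repr (C w) y).coeff n = 0

/-- The degrees of the coefficients `h_{x,y,z}` of `C z` in the products `C x * C y`. -/
def aSet (C : W → ℋ.H) (z : W) : Set ℕ :=
  {n : ℕ | ∃ (x y : W) (h : W → R), C x * C y = ∑ w : W, h w • C w ∧ (h z).coeff (n : ℤ) ≠ 0}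

/-- Lusztig's function `a`: `a(z)` is the largest degree of the structure constants
`h_{x,y,z}`. -/
noncomputable def aFun (C : W → ℋ.H) (z : W) : ℕ := sSup (ℋ.aSet C z)

end HeckeAlg

end EA58
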