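import Pool.Agent.LibEA58.HeckeDefs

/-!
# Existence of the Hecke algebra of `W`
-/

namespace EA58

namespace HA

/-- indicator that `w (ε_i - ε_j)` is negative -/
def n1 (w : W) (i j : Fin 3) : ℕ :=
  if w.perm i < w.perm j then (if w.sgn (w.perm i) = -1 then 1 else 0)
  else (if w.sgn (w.perm j) = 1 then 1 else 0)

/-- indicator that `w (ε_i + ε_j)` is negative -/
def n2 (w : W) (i j : Fin 3) : ℕ :=
  if w.perm i < w.perm j then (if w.sgn (w.perm i) = -1 then 1 else 0)
  else (if w.sgn (w.perm j) = -1 then 1 else 0)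

/-- indicator that `w (2 ε_i)` is negative -/
def n3 (w : W) (i : Fin 3) : ℕ := if w.sgn (w.perm i) = -1 then 1 else 0

/-- the number of inversions -/
def iv (w : W) : ℕ :=
  n1 w 0 1 + n1 w 0 2 + n1 w 1 2 + (n2 w 0 1 + n2 w 0 2 + n2 w 1 2) + (n3 w 0 + n3 w 1 + n3 w 2)

set_option maxRecDepth 100000

theorem iv_one : iv 1 = 0 := by decide

theorem iv_right : ∀ (w : W) (i : Fin 3), iv (w * W.s i) = iv w + 1 ∨ iv (w * W.s i) + 1 = iv w := by
  decide +kernel

theorem iv_left : ∀ (w : W) (i : Fin 3), iv (W.s i * w) = iv w + 1 ∨ iv (W.s i * w) + 1 = iv w := by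
  decide +kernel

theorem iv_zero_aux : ∀ w : W, iv w = 0 → (∀ i, w.perm i = i) ∧ ∀ i, w.sgn i = 1 := by
  decide +kernel

theorem iv_zero {w : W} (h : iv w = 0) : w = 1 := by
  obtain ⟨h1, h2⟩ := iv_zero_aux w h
  apply W.ext
  · exact Equiv.ext h1
  · exact funext h2

theorem desc_right : ∀ w : W, iv w = 0 ∨ ∃ i : Fin 3, iv (w * W.s i) + 1 = iv w := by
  decide +kernel

theorem desc_left : ∀ w : W, iv w = 0 ∨ ∃ i : Fin 3, iv (W.s i * w) + 1 = iv w := by
  decide +kernel

theorem s_sq_aux : ∀ i : Fin 3, (∀ j, (W.s i * W.s i).perm j = j) ∧ ∀ j, (W.s i * W.s i).sgn j = 1 := by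
  decide +kernel

theorem s_sq (i : Fin 3) : W.s i * W.s i = 1 :=
  W.ext (Equiv.ext (s_sq_aux i).1) (funext (s_sq_aux i).2)

theorem iv_s : ∀ i : Fin 3, iv (W.s i) = 1 := by decide +kernel

theorem table : ∀ (w : W) (i t : Fin 3),
    ((iv (W.s i * (w * W.s t)) < iv (w * W.s t) ↔ iv (W.s i * w) < iv w) ∧
      (iv (W.s i * w * W.s t) < iv (W.s i * w) ↔ iv (w * W.s t) < iv w)) ∨
    (((∀ j, (W.s i * w).perm j = (w * W.s t).perm j) ∧ ∀ j, (W.s i * w).sgn j = (w * W.s t).sgn j) ∧
      ((iv (W.s i * (w * W.s t)) < iv (w * W.s t) ↔ iv (W.s i * w * W.s t) < iv (W.s i * w)) ∧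
      (iv (W.s i * w) < iv w ↔ iv (w * W.s t) < iv w))) := by
  decide +kernel

theorem iv_mul (x : W) : ∀ (n : ℕ) (y : W), iv y = n → iv (x * y) ≤ iv x + iv y := by
  intro n
  induction n with
  | zero =>
    intro y hy
    rw [iv_zero hy, mul_one]
    omega
  | succ n ih =>
    intro y hy
    rcases desc_right y with h | ⟨t, ht⟩
    · omega
    · have h1 := ih (y * W.s t) (by omega)
      have h2 := iv_right (x * (y * W.s t)) t
      have h3 : x * (y * W.s t) * W.s t = x * y := by
        rw [mul_assoc, mul_assoc, s_sq, mul_one]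
      rw [h3] at h2
      omega

theorem iv_prod (l : List (Fin 3)) : iv ((l.map W.s).prod) ≤ l.length := by
  induction l with
  | nil => simp [iv_one]
  | cons i l ih =>
    rw [List.map_cons, List.prod_cons, List.length_cons]
    have := iv_left ((l.map W.s).prod) i
    omega

theorem exists_word : ∀ (n : ℕ) (w : W), iv w = n →
    ∃ l : List (Fin 3), l.length = n ∧ (l.map W.s).prod = w := by
  intro n
  induction n with
  | zero =>
    intro w hw
    exact ⟨[], rfl, by rw [iv_zero hw]; rfl⟩
  | succ n ih =>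
    intro w hw
    rcases desc_left w with h | ⟨i, hi⟩
    · omega
    · obtain ⟨l, hl, hl'⟩ := ih (W.s i * w) (by omega)
      refine ⟨i :: l, by simp [hl], ?_⟩
      rw [List.map_cons, List.prod_cons, hl', ← mul_assoc, s_sq, one_mul]

theorem len_eq (w : W) : W.len w = iv w := by
  refine le_antisymm (Nat.sInf_le (exists_word _ w rfl)) ?_
  refine le_csInf ⟨_, exists_word _ w rfl⟩ ?_
  rintro n ⟨l, hl, rfl⟩
  rw [← hl]
  exact iv_prod l

/-! ### The regular representation -/

/-- the free module -/
abbrev M : Type := W →₀ R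

/-- basis vectors -/
noncomputable abbrev e (w : W) : M := Finsupp.single w 1

/-- `v⁻¹ - v` -/
noncomputable abbrev ze : R := vp (-1) - vp 1

/-- right multiplication -/
noncomputable def rho (t : Fin 3) : Module.End R M :=
  Finsupp.linearCombination R fun w => e (w * W.s t) + (if iv (w * W.s t) < iv w then ze else 0) • e w

/-- left multiplication -/
noncomputable def lam (i : Fin 3) : Module.End R M :=
  Finsupp.linearCombination R fun w => e (W.s i * w) + (if iv (W.s i * w) < iv w then ze else 0) • e w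

theorem rho_e (t : Fin 3) (w : W) :
    rho t (e w) = e (w * W.s t) + (if iv (w * W.s t) < iv w then ze else 0) • e w := by
  rw [rho, Finsupp.linearCombination_single, one_smul]

theorem lam_e (i : Fin 3) (w : W) :
    lam i (e w) = e (W.s i * w) + (if iv (W.s i * w) < iv w then ze else 0) • e w := by
  rw [lam, Finsupp.linearCombination_single, one_smul]

theorem comm (i t : Fin 3) : lam i * rho t = rho t * lam i := by
  refine Finsupp.lhom_ext' fun w => LinearMap.ext_ring ?_
  show lam i (rho t (e w)) = rho t (lam i (e w))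
  rw [rho_e, lam_e, map_add, map_add, map_smul, map_smul, lam_e, lam_e, rho_e, rho_e]
  have hE : e (W.s i * w * W.s t) = e (W.s i * (w * W.s t)) := by rw [mul_assoc]
  rw [hE]
  rcases table w i t with ⟨h1, h2⟩ | ⟨⟨h3, h4⟩, h1, h2⟩
  · rw [if_congr h1 rfl rfl, if_congr h2 rfl rfl]
    module
  · have h0 : W.s i * w = w * W.s t := W.ext (Equiv.ext h3) (funext h4)
    rw [if_congr h1 rfl rfl, if_congr h2 rfl rfl, h0]

/-- the Hecke algebra: the commutant of the right multiplications -/
noncomputable abbrev A : Subalgebra R (Module.End R M) := Subalgebra.centralizer R (Set.range rho)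

noncomputable instance instRingA : Ring A :=
  { (inferInstance : Semiring A), Module.addCommMonoidToAddCommGroup R (M := A) with }

theorem lam_mem (i : Fin 3) : lam i ∈ A := by
  rw [Subalgebra.mem_centralizer_iff]
  rintro _ ⟨t, rfl⟩
  exact (comm i t).symm

theorem A_comm (a : A) (t : Fin 3) (x : M) : a.1 (rho t x) = rho t (a.1 x) := by
  have h := Subalgebra.mem_centralizer_iff R |>.1 a.2 (rho t) ⟨t, rfl⟩
  exact (LinearMap.congr_fun h x).symm

/-- evaluation at the identity -/
noncomputable def phi : A →ₗ[R] M where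
  toFun a := a.1 (e 1)
  map_add' _ _ := rfl
  map_smul' _ _ := rfl

theorem rho_up {w : W} {t : Fin 3} (h : iv (w * W.s t) + 1 = iv w) :
    rho t (e (w * W.s t)) = e w := by
  rw [rho_e, mul_assoc, s_sq, mul_one, if_neg (by omega), zero_smul, add_zero]

theorem lam_up {w : W} {t : Fin 3} (h : iv (W.s t * w) + 1 = iv w) :
    lam t (e (W.s t * w)) = e w := by
  rw [lam_e, ← mul_assoc, s_sq, one_mul, if_neg (by omega), zero_smul, add_zero]

theorem phi_inj : Function.Injective phi := by
  intro a b hab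
  have key : ∀ (n : ℕ) (w : W), iv w = n → a.1 (e w) = b.1 (e w) := by
    intro n
    induction n with
    | zero =>
      intro w hw
      rw [iv_zero hw]
      exact hab
    | succ n ih =>
      intro w hw
      rcases desc_right w with h | ⟨t, ht⟩
      · omega
      · rw [← rho_up ht, A_comm, A_comm, ih _ (by omega)]
  apply Subtype.ext
  refine Finsupp.lhom_ext' fun w => LinearMap.ext_ring ?_
  exact key _ w rfl

theorem phi_surj : Function.Surjective phi := by
  rw [← LinearMap.range_eq_top, eq_top_iff]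
  have key : ∀ (n : ℕ) (w : W), iv w = n → e w ∈ LinearMap.range phi := by
    intro n
    induction n with
    | zero =>
      intro w hw
      rw [iv_zero hw]
      exact ⟨1, rfl⟩
    | succ n ih =>
      intro w hw
      rcases desc_left w with h | ⟨i, hi⟩
      · omega
      · obtain ⟨a, ha⟩ := ih (W.s i * w) (by omega)
        refine ⟨⟨lam i, lam_mem i⟩ * a, ?_⟩
        show lam i (a.1 (e 1)) = e w
        have ha' : a.1 (e 1) = e (W.s i * w) := ha
        rw [ha', lam_up hi]
  intro x _
  rw [← Finsupp.sum_single x]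
  refine Submodule.sum_mem _ fun w _ => ?_
  rw [← mul_one (x w), ← smul_eq_mul, ← Finsupp.smul_single]
  exact Submodule.smul_mem _ _ (key _ w rfl)

/-- the coordinates -/
noncomputable def phiE : A ≃ₗ[R] M := LinearEquiv.ofBijective phi ⟨phi_inj, phi_surj⟩

/-- the standard basis -/
noncomputable def T : Module.Basis W R A := Module.Basis.ofRepr phiE

theorem T_e (w : W) : (T w).1 (e 1) = e w := by
  have h : phi (T w) = e w := by
    show phiE (T w) = e w
    have h1 := T.repr_self w
    exact h1
  exact h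

theorem T_apply {a : A} {x : W} (ha : a.1 (e 1) = e x) : ∀ (n : ℕ) (y : W), iv y = n →
    iv (x * y) = iv x + iv y → a.1 (e y) = e (x * y) := by
  intro n
  induction n with
  | zero =>
    intro y hy _
    rw [iv_zero hy, mul_one, ha]
  | succ n ih =>
    intro y hy hxy
    rcases desc_right y with h | ⟨t, ht⟩
    · omega
    · have h1 := iv_right (x * (y * W.s t)) t
      have h3 : x * (y * W.s t) * W.s t = x * y := by
        rw [mul_assoc, mul_assoc, s_sq, mul_one]
      rw [h3] at h1
      have h2 := iv_mul x _ (y * W.s t) rfl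
      have h4 : iv (x * (y * W.s t)) = iv x + iv (y * W.s t) := by omega
      rw [← rho_up ht, A_comm, ih _ (by omega) h4]
      have h5 : x * (y * W.s t) = x * y * W.s t := by rw [mul_assoc]
      rw [h5] at h1 h4 ⊢
      exact rho_up (by omega)

theorem T_s (i : Fin 3) : T (W.s i) = ⟨lam i, lam_mem i⟩ := by
  apply phi_inj
  show (T (W.s i)).1 (e 1) = lam i (e 1)
  rw [T_e, lam_e, mul_one, if_neg (by rw [iv_s, iv_one]; omega), zero_smul, add_zero]

end HA

theorem hecke_nonempty : Nonempty HeckeAlg := by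
  refine ⟨{ H := HA.A, T := HA.T, T_mul := ?_, T_sq := ?_ }⟩
  · intro x y hxy
    rw [HA.len_eq, HA.len_eq, HA.len_eq] at hxy
    apply HA.phi_inj
    show (HA.T x).1 ((HA.T y).1 (HA.e 1)) = (HA.T (x * y)).1 (HA.e 1)
    rw [HA.T_e, HA.T_e, HA.T_apply (HA.T_e x) _ y rfl hxy]
  · intro i
    apply HA.phi_inj
    show (HA.T (W.s i)).1 ((HA.T (W.s i)).1 (HA.e 1)) =
      HA.phi (1 + (vp (-1) - vp 1) • HA.T (W.s i))
    rw [map_add, map_smul]
    show _ = HA.e 1 + HA.ze • (HA.T (W.s i)).1 (HA.e 1)
    rw [HA.T_e, HA.T_s]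
    show HA.lam i (HA.e (W.s i)) = _
    rw [HA.lam_e, HA.s_sq, if_pos (by rw [HA.iv_s, HA.iv_one]; omega)]

end EA58
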