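import Pool.Agent.LibEA58.HeckeTab

/-!
# The Kazhdan-Lusztig basis
-/

set_option autoImplicit false

namespace EA58

namespace HT

open LaurentPolynomial

/-! ### Polynomials as lists -/

/-- polynomials in `v` as lists of coefficients -/
noncomputable def evl : List ℤ → R
  | [] => 0
  | a :: l => C a + T 1 * evl l

/-- sum -/
def addL : List ℤ → List ℤ → List ℤ
  | [], m => m
  | a :: l, [] => a :: l
  | a :: l, b :: m => (a + b) :: addL l m

/-- zero polynomial -/
def zL : List ℤ → Bool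
  | [] => true
  | b :: m => (b == 0) && zL m

/-- difference is zero -/
def eqL : List ℤ → List ℤ → Bool
  | [], m => zL m
  | a :: l, [] => (a == 0) && eqL l []
  | a :: l, b :: m => (a == b) && eqL l m

/-- sum of a list of polynomials -/
def sumL (L : List (List ℤ)) : List ℤ := L.foldr addL []

lemma evl_addL (l m : List ℤ) : evl (addL l m) = evl l + evl m := by
  induction l generalizing m with
  | nil => simp [addL, evl]
  | cons a l ih =>
    cases m with
    | nil => simp [addL, evl]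
    | cons b m => simp only [addL, evl, ih, map_add]; ring

lemma evl_sumL (L : List (List ℤ)) : evl (sumL L) = (L.map evl).sum := by
  induction L with
  | nil => simp [sumL, evl]
  | cons l L ih =>
    rw [sumL, List.foldr_cons, evl_addL, List.map_cons, List.sum_cons, ← ih, sumL]

lemma evl_shift (l : List ℤ) : evl (0 :: l) = T 1 * evl l := by simp [evl]

lemma eq_of_zL (m : List ℤ) (h : zL m = true) : evl m = 0 := by
  induction m with
  | nil => rfl
  | cons b m ih =>
    simp only [zL, Bool.and_eq_true, beq_iff_eq] at h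
    rw [evl, h.1, ih h.2]; simp

lemma eq_of_eqL : ∀ (l m : List ℤ), eqL l m = true → evl l = evl m
  | [], m, h => by rw [eq_of_zL m h]; rfl
  | a :: l, [], h => by
    simp only [eqL, Bool.and_eq_true, beq_iff_eq] at h
    rw [evl, evl, h.1, eq_of_eqL l [] h.2]; simp [evl]
  | a :: l, b :: m, h => by
    simp only [eqL, Bool.and_eq_true, beq_iff_eq] at h
    rw [evl, evl, h.1, eq_of_eqL l m h.2]

lemma coeff_T_mul (k n : ℤ) (f : R) : (T k * f).coeff n = f.coeff (n - k) := by
  rw [T, AddMonoidAlgebra.coeff_single_mul_eq_mul_coeff (n - k), one_mul]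
  intro a _
  constructor <;> intro h <;> omega

lemma coeff_evl_neg (l : List ℤ) : ∀ n : ℤ, n < 0 → (evl l).coeff n = 0 := by
  induction l with
  | nil => intro n _; simp [evl]
  | cons a l ih =>
    intro n hn
    rw [evl]
    rw [AddMonoidAlgebra.coeff_add, Finsupp.add_apply, coeff_T_mul, C_apply, if_neg (by omega),
      ih _ (by omega), zero_add]

lemma coeff_evl_zero (l : List ℤ) (n : ℤ) (hn : n ≤ 0) : (evl (0 :: l)).coeff n = 0 := by
  rw [evl_shift, coeff_T_mul]
  exact coeff_evl_neg l _ (by omega)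

/-! ### The tables -/

/-- the polynomial with kind `k`, length difference `n` -/
def kp (k n : ℕ) : List ℤ :=
  match k with
  | 0 => []
  | 1 => List.replicate n 0 ++ [1]
  | 2 => List.replicate (n - 2) 0 ++ [1, 0, 1]
  | 3 => List.replicate (n - 4) 0 ++ [1, 0, 0, 0, 1]
  | _ => List.replicate (n - 4) 0 ++ [1, 0, 1, 0, 1]

/-- coefficient of `T (el b)` in `C (el a)` -/
def pl (a b : J) : List ℤ := kp (lk 3 (48 * a + b) tP) (ell a - ell b)

/-- the terms of `C_s C_a` for `s a > a` -/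
def Mu (i : Fin 3) (a : J) : List J :=
  (List.range 4).filterMap fun j =>
    if lk 6 (4 * (48 * i + a) + j) tM < 48 then
      some (Fin.ofNat 48 (lk 6 (4 * (48 * i + a) + j) tM)) else none

/-- left descent -/
def ld (a : J) : Fin 3 := Fin.ofNat 3 (lk 2 a tLk)

/-- right descent -/
def rd (a : J) : Fin 3 := Fin.ofNat 3 (lk 2 a tRk)

/-- corrections of the right step -/
def rz (a : J) : List J :=
  (List.range 2).filterMap fun j =>
    if lk 6 (2 * a + j) tRz < 48 then some (Fin.ofNat 48 (lk 6 (2 * a + j) tRz)) else none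

/-- left check -/
def chkL (i : Fin 3) (a y : J) : Bool :=
  eqL (addL (0 :: pl a (Lt i y)) (if ell y < ell (Lt i y) then 0 :: 0 :: pl a y else pl a y))
    (if ell (Lt i a) < ell a then addL (0 :: 0 :: pl a y) (pl a y) else
      0 :: sumL ((Mu i a).map fun z => pl z y))

/-- right check -/
def chkR (a y : J) : Bool :=
  eqL (addL (0 :: pl (Rt (rd a) a) (Rt (rd a) y))
      (if ell y < ell (Rt (rd a) y) then 0 :: 0 :: pl (Rt (rd a) a) y else pl (Rt (rd a) a) y))
    (0 :: addL (pl a y) (sumL ((rz a).map fun z => pl z y)))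

set_option maxRecDepth 100000 in
lemma chkL_all : ∀ (i : Fin 3) (a y : J), chkL i a y = true := by decide +kernel

set_option maxRecDepth 100000 in
lemma chkR_all : ∀ (a y : J), a ≠ 0 → chkR a y = true := by decide +kernel

lemma pl_self : ∀ a : J, pl a a = [1] := by decide +kernel

lemma pl_gt : ∀ a b : J, a < b → pl a b = [] := by decide +kernel

lemma pl_ne : ∀ a b : J, a ≠ b → (pl a b).headD 0 = 0 := by decide +kernel

lemma left_step : ∀ a : J, a ≠ 0 → Lt (ld a) a < a ∧ ell (Lt (ld a) a) < ell a ∧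
    (Mu (ld a) (Lt (ld a) a)).headD 0 = a ∧ Mu (ld a) (Lt (ld a) a) ≠ [] ∧
    ∀ z ∈ (Mu (ld a) (Lt (ld a) a)).tail, z < a := by decide +kernel

lemma right_step : ∀ a : J, a ≠ 0 → Rt (rd a) a < a ∧ ∀ z ∈ rz a, z < a := by decide +kernel

/-! ### The standard basis -/

section alg

variable (ℋ : HeckeAlg)

/-- the standard basis -/
noncomputable def t (a : J) : ℋ.H := ℋ.T (el a)

lemma len_one : W.len 1 = 0 := by rw [← el_zero, len_el, ell_zero]

lemma T_one : ℋ.T 1 = 1 := by
  have h : LinearMap.mulLeft R (ℋ.T 1) = LinearMap.id := by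
    refine ℋ.T.ext fun w => ?_
    rw [LinearMap.mulLeft_apply, LinearMap.id_apply, ℋ.T_mul, one_mul]
    rw [one_mul, len_one, zero_add]
  have := LinearMap.congr_fun h 1
  rwa [LinearMap.mulLeft_apply, mul_one] at this

lemma t_zero : t ℋ 0 = 1 := by rw [t, el_zero, T_one]

lemma s_eq_L (i : Fin 3) : W.s i = el (Lt i 0) := by rw [← s_mul_el, el_zero, mul_one]

lemma ell_L_zero : ∀ i : Fin 3, ell (Lt i 0) = 1 := by decide +kernel

lemma len_s (i : Fin 3) : W.len (W.s i) = 1 := by rw [s_eq_L, len_el, ell_L_zero]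

lemma s_mul_t_up {i : Fin 3} {a : J} (h : ell a < ell (Lt i a)) :
    ℋ.T (W.s i) * t ℋ a = t ℋ (Lt i a) := by
  rw [t, t, ℋ.T_mul, s_mul_el]
  rw [s_mul_el, len_el, len_el, len_s]
  rcases ell_Lt i a with h | h <;> omega

lemma t_mul_s_up {i : Fin 3} {a : J} (h : ell a < ell (Rt i a)) :
    t ℋ a * ℋ.T (W.s i) = t ℋ (Rt i a) := by
  rw [t, t, ℋ.T_mul, el_mul_s]
  rw [el_mul_s, len_el, len_el, len_s]
  rcases ell_Rt i a with h | h <;> omega

lemma s_mul_t_down {i : Fin 3} {a : J} (h : ell (Lt i a) < ell a) :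
    ℋ.T (W.s i) * t ℋ a = t ℋ (Lt i a) + (vp (-1) - vp 1) • t ℋ a := by
  have h1 : ℋ.T (W.s i) * t ℋ (Lt i a) = t ℋ a := by
    have := s_mul_t_up ℋ (i := i) (a := Lt i a) (by rw [Lt_Lt]; exact h)
    rwa [Lt_Lt] at this
  rw [← h1, ← mul_assoc, ℋ.T_sq, add_mul, one_mul, smul_mul_assoc]

lemma t_mul_s_down {i : Fin 3} {a : J} (h : ell (Rt i a) < ell a) :
    t ℋ a * ℋ.T (W.s i) = t ℋ (Rt i a) + (vp (-1) - vp 1) • t ℋ a := by
  have h1 : t ℋ (Rt i a) * ℋ.T (W.s i) = t ℋ a := by
    have := t_mul_s_up ℋ (i := i) (a := Rt i a) (by rw [Rt_Rt]; exact h)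
    rwa [Rt_Rt] at this
  rw [← h1, mul_assoc, ℋ.T_sq, mul_add, mul_one, mul_smul_comm]

/-- the Kazhdan-Lusztig element of a simple reflection -/
noncomputable def Cs (i : Fin 3) : ℋ.H := ℋ.T (W.s i) + vp 1 • (1 : ℋ.H)

lemma Cs_mul_t (i : Fin 3) (a : J) : Cs ℋ i * t ℋ a =
    t ℋ (Lt i a) + (if ell a < ell (Lt i a) then vp 1 else vp (-1)) • t ℋ a := by
  rw [Cs, add_mul, smul_mul_assoc, one_mul]
  split_ifs with h
  · rw [s_mul_t_up ℋ h]
  · rw [s_mul_t_down ℋ (by rcases ell_Lt i a with h' | h' <;> omega), add_assoc, ← add_smul,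
      sub_add_cancel]

lemma t_mul_Cs (i : Fin 3) (a : J) : t ℋ a * Cs ℋ i =
    t ℋ (Rt i a) + (if ell a < ell (Rt i a) then vp 1 else vp (-1)) • t ℋ a := by
  rw [Cs, mul_add, mul_smul_comm, mul_one]
  split_ifs with h
  · rw [t_mul_s_up ℋ h]
  · rw [t_mul_s_down ℋ (by rcases ell_Rt i a with h' | h' <;> omega), add_assoc, ← add_smul,
      sub_add_cancel]

/-- element with given coordinates -/
noncomputable def E (f : J → R) : ℋ.H := ∑ a, f a • t ℋ a

lemma Cs_mul_E (i : Fin 3) (f : J → R) : Cs ℋ i * E ℋ f =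
    E ℋ fun y => f (Lt i y) + (if ell y < ell (Lt i y) then vp 1 else vp (-1)) * f y := by
  rw [E, Finset.mul_sum, E]
  have e1 : ∑ y, f (Lt i y) • t ℋ y = ∑ y, f y • t ℋ (Lt i y) := by
    rw [← Equiv.sum_comp (Function.Involutive.toPerm (Lt i) (Lt_Lt i))
      (fun y => f (Lt i y) • t ℋ y)]
    refine Finset.sum_congr rfl fun y _ => ?_
    simp [Lt_Lt]
  simp only [add_smul, Finset.sum_add_distrib]
  rw [e1, ← Finset.sum_add_distrib]
  refine Finset.sum_congr rfl fun y _ => ?_
  rw [mul_smul_comm, Cs_mul_t, smul_add, smul_smul, mul_comm (f y)]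

lemma E_mul_Cs (i : Fin 3) (f : J → R) : E ℋ f * Cs ℋ i =
    E ℋ fun y => f (Rt i y) + (if ell y < ell (Rt i y) then vp 1 else vp (-1)) * f y := by
  rw [E, Finset.sum_mul, E]
  have e1 : ∑ y, f (Rt i y) • t ℋ y = ∑ y, f y • t ℋ (Rt i y) := by
    rw [← Equiv.sum_comp (Function.Involutive.toPerm (Rt i) (Rt_Rt i))
      (fun y => f (Rt i y) • t ℋ y)]
    refine Finset.sum_congr rfl fun y _ => ?_
    simp [Rt_Rt]
  simp only [add_smul, Finset.sum_add_distrib]
  rw [e1, ← Finset.sum_add_distrib]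
  refine Finset.sum_congr rfl fun y _ => ?_
  rw [smul_mul_assoc, t_mul_Cs, smul_add, smul_smul, mul_comm (f y)]

/-- the explicit Kazhdan-Lusztig basis -/
noncomputable def c (a : J) : ℋ.H := E ℋ fun y => evl (pl a y)

lemma E_add (f g : J → R) : E ℋ f + E ℋ g = E ℋ fun y => f y + g y := by
  simp [E, add_smul, Finset.sum_add_distrib]

lemma E_smul (r : R) (f : J → R) : r • E ℋ f = E ℋ fun y => r * f y := by
  simp [E, Finset.smul_sum, smul_smul]

lemma sum_c (L : List J) : (L.map (c ℋ)).sum = E ℋ fun y => (L.map fun z => evl (pl z y)).sum := by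
  induction L with
  | nil => simp [E]
  | cons z L ih => rw [List.map_cons, List.sum_cons, ih, c, E_add]; simp

lemma E_congr_T {f g : J → R} (h : ∀ y, T 1 * f y = T 1 * g y) : E ℋ f = E ℋ g := by
  have : f = g := funext fun y => (isUnit_T 1).mul_left_cancel (h y)
  rw [this]

lemma TT : (T 1 : R) * T (-1) = 1 := by rw [← T_add]; simp

lemma left_down {i : Fin 3} {a : J} (h : ell (Lt i a) < ell a) :
    Cs ℋ i * c ℋ a = (vp 1 + vp (-1)) • c ℋ a := by
  rw [c, Cs_mul_E, E_smul]
  refine E_congr_T ℋ fun y => ?_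
  have key := eq_of_eqL _ _ (chkL_all i a y)
  rw [if_pos h, evl_addL, evl_shift, evl_addL, evl_shift, evl_shift] at key
  rw [mul_add, ← mul_assoc (T 1) (T 1 + T (-1)), mul_add (T 1) (T 1), TT]
  split_ifs with h'
  · rw [if_pos h', evl_shift, evl_shift] at key
    rw [key]; ring
  · rw [if_neg h'] at key
    rw [← mul_assoc, TT, one_mul, key]; ring

lemma left_up {i : Fin 3} {a : J} (h : ell a < ell (Lt i a)) :
    Cs ℋ i * c ℋ a = ((Mu i a).map (c ℋ)).sum := by
  rw [c, Cs_mul_E, sum_c]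
  refine E_congr_T ℋ fun y => ?_
  have key := eq_of_eqL _ _ (chkL_all i a y)
  rw [if_neg (show ¬ ell (Lt i a) < ell a by omega), evl_addL, evl_shift, evl_shift, evl_sumL,
    List.map_map] at key
  have e : (List.map (evl ∘ fun z => pl z y) (Mu i a)) = List.map (fun z => evl (pl z y)) (Mu i a) :=
    rfl
  rw [e] at key
  rw [← key, mul_add]
  congr 1
  split_ifs with h'
  · rw [evl_shift, evl_shift]
  · rw [← mul_assoc, TT, one_mul]

lemma right_up {a : J} (h : a ≠ 0) :
    c ℋ (Rt (rd a) a) * Cs ℋ (rd a) = c ℋ a + ((rz a).map (c ℋ)).sum := by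
  rw [c, E_mul_Cs, sum_c, c, E_add]
  refine E_congr_T ℋ fun y => ?_
  have key := eq_of_eqL _ _ (chkR_all a y h)
  rw [evl_addL, evl_shift, evl_shift, evl_addL, evl_sumL, List.map_map] at key
  have e : (List.map (evl ∘ fun z => pl z y) (rz a)) = List.map (fun z => evl (pl z y)) (rz a) :=
    rfl
  rw [e] at key
  rw [← key, mul_add]
  congr 1
  split_ifs with h'
  · rw [evl_shift, evl_shift]
  · rw [← mul_assoc, TT, one_mul]

lemma c_zero : c ℋ 0 = 1 := by
  have h : ∀ y : J, y ≠ 0 → pl 0 y = [] := fun y hy => pl_gt 0 y (Fin.pos_of_ne_zero hy)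
  rw [c, E, Finset.sum_eq_single 0]
  · rw [pl_self, t_zero]; simp [evl]
  · intro y _ hy
    rw [h y hy]; simp [evl]
  · simp

/-! ### bases -/

/-- the standard basis -/
noncomputable def tB : Module.Basis J R ℋ.H := ℋ.T.reindex eqv.symm

lemma tB_apply (a : J) : tB ℋ a = t ℋ a := by simp [tB, t]

lemma tB_repr_E (f : J → R) (a : J) : (tB ℋ).repr (E ℋ f) a = f a := by
  rw [E]
  simp only [← tB_apply]
  exact congrFun ((tB ℋ).repr_sum_self f) a

lemma repr_el (x : ℋ.H) (a : J) : ℋ.T.repr x (el a) = (tB ℋ).repr x a := by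
  rw [tB, Module.Basis.repr_reindex_apply]; simp

lemma repr_c (a b : J) : (tB ℋ).repr (c ℋ a) b = evl (pl a b) := tB_repr_E ℋ _ b

lemma c_isBasis : LinearIndependent R (c ℋ) ∧ Submodule.span R (Set.range (c ℋ)) = ⊤ := by
  rw [Module.Basis.is_basis_iff_det (tB ℋ), Module.Basis.det_apply]
  have h : ((tB ℋ).toMatrix (c ℋ)).BlockTriangular id := by
    intro i j hij
    rw [Module.Basis.toMatrix_apply, repr_c, pl_gt j i hij]
    rfl
  rw [Matrix.det_of_isUpperTriangular h]
  simp only [Module.Basis.toMatrix_apply, repr_c, pl_self]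
  simp [evl]

/-- the Kazhdan-Lusztig basis -/
noncomputable def cB : Module.Basis J R ℋ.H :=
  Module.Basis.mk (c_isBasis ℋ).1 (c_isBasis ℋ).2.ge

lemma cB_apply (a : J) : cB ℋ a = c ℋ a := by simp [cB]

end alg

end HT

end EA58
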