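import Pool.Agent.LibEA58.CoG

/-!
# The `gl(3)`-modules `ℂ[u] ⊗ V`
-/

open Matrix MvPolynomial TensorProduct

namespace EA58

/-- A `gl(2) × gl(1)`-module structure. -/
class GL21 (V : Type) [AddCommGroup V] [Module ℂ V] where
  e : Fin 2 → Fin 2 → V →ₗ[ℂ] V
  c : V →ₗ[ℂ] V
  rel : ∀ (i j k l : Fin 2) (v : V), e i j (e k l v) - e k l (e i j v) =
    (if j = k then e i l v else 0) - (if l = i then e k j v else 0)
  comm : ∀ (i j : Fin 2) (v : V), e i j (c v) = c (e i j v)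

/-- Polynomials in `u₀, u₁`. -/
abbrev Q : Type := MvPolynomial (Fin 2) ℂ

/-- The partial derivatives. -/
noncomputable abbrev dl (i : Fin 2) : Q →ₗ[ℂ] Q := (MvPolynomial.pderiv i : Derivation ℂ Q Q).toLinearMap

/-- Multiplication by `u_i`. -/
noncomputable abbrev mu (i : Fin 2) : Q →ₗ[ℂ] Q := LinearMap.mulLeft ℂ (MvPolynomial.X i)

/-- The Euler operator. -/
noncomputable abbrev th : Q →ₗ[ℂ] Q := mu 0 ∘ₗ dl 0 + mu 1 ∘ₗ dl 1

/-- The module `ℂ[u] ⊗ V` coinduced from a `gl(2) × gl(1)`-module. -/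
abbrev CoL (V : Type) [AddCommGroup V] [Module ℂ V] : Type := Q ⊗[ℂ] V

/-- The components of the vector field of `A`. -/
noncomputable def vL (A : Matrix (Fin 3) (Fin 3) ℂ) : Fin 2 → Q
  | 0 => -(C (A 0 0) * X 0 + C (A 0 1) * X 1 + C (A 0 2)
      - X 0 * (C (A 2 0) * X 0 + C (A 2 1) * X 1) - X 0 * C (A 2 2))
  | 1 => -(C (A 1 0) * X 0 + C (A 1 1) * X 1 + C (A 1 2)
      - X 1 * (C (A 2 0) * X 0 + C (A 2 1) * X 1) - X 1 * C (A 2 2))

/-- The vector field of `A` on `ℂ[u]`. -/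
noncomputable def xiL (A : Matrix (Fin 3) (Fin 3) ℂ) : Derivation ℂ Q Q :=
  MvPolynomial.mkDerivation ℂ (vL A)

@[simp] theorem xiL_X (A : Matrix (Fin 3) (Fin 3) ℂ) (i : Fin 2) : xiL A (X i) = vL A i := by
  simp [xiL, MvPolynomial.mkDerivation_X]

/-- The `gl(2)`-part of the gauge function. -/
noncomputable def phL (A : Matrix (Fin 3) (Fin 3) ℂ) : Fin 2 → Fin 2 → Q
  | 0, 0 => C (A 0 0) - X 0 * C (A 2 0)
  | 0, 1 => C (A 0 1) - X 0 * C (A 2 1)
  | 1, 0 => C (A 1 0) - X 1 * C (A 2 0)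
  | 1, 1 => C (A 1 1) - X 1 * C (A 2 1)

/-- The `gl(1)`-part of the gauge function. -/
noncomputable def phc (A : Matrix (Fin 3) (Fin 3) ℂ) : Q :=
  C (A 2 2) + C (A 2 0) * X 0 + C (A 2 1) * X 1

theorem xiL_lie (A B : Matrix (Fin 3) (Fin 3) ℂ) (f : Q) :
    xiL (A * B - B * A) f = xiL A (xiL B f) - xiL B (xiL A f) := by
  have : xiL (A * B - B * A) = ⁅xiL A, xiL B⁆ := by
    apply MvPolynomial.derivation_ext
    intro i
    rw [Derivation.commutator_apply]
    fin_cases i <;>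
    simp [vL, Matrix.mul_apply, Fin.sum_univ_three, Derivation.leibniz] <;> ring
  rw [this, Derivation.commutator_apply]

theorem phL_lie (A B : Matrix (Fin 3) (Fin 3) ℂ) (i j : Fin 2) :
    phL (A * B - B * A) i j = xiL A (phL B i j) - xiL B (phL A i j) +
      (∑ k, (phL A i k * phL B k j - phL B i k * phL A k j)) := by
  fin_cases i <;> fin_cases j <;>
    simp [phL, vL, Matrix.mul_apply, Fin.sum_univ_three, Fin.sum_univ_two, Derivation.leibniz] <;> ring

theorem phc_lie (A B : Matrix (Fin 3) (Fin 3) ℂ) :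
    phc (A * B - B * A) = xiL A (phc B) - xiL B (phc A) := by
    simp [phc, vL, Matrix.mul_apply, Fin.sum_univ_three, Fin.sum_univ_two, Derivation.leibniz]; ring

variable {V : Type} [AddCommGroup V] [Module ℂ V] [GL21 V]

/-- The action of a matrix on `ℂ[u] ⊗ V`. -/
noncomputable def actL (A : Matrix (Fin 3) (Fin 3) ℂ) : CoL V →ₗ[ℂ] CoL V :=
  TensorProduct.map (xiL A).toLinearMap LinearMap.id +
    ∑ i, ∑ j, TensorProduct.map (LinearMap.mulLeft ℂ (phL A i j)) (GL21.e i j) +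
    TensorProduct.map (LinearMap.mulLeft ℂ (phc A)) GL21.c

theorem actL_tm (A : Matrix (Fin 3) (Fin 3) ℂ) (f : Q) (v : V) :
    actL A (f ⊗ₜ v) = (xiL A f) ⊗ₜ v + ∑ i, ∑ j, (phL A i j * f) ⊗ₜ (GL21.e i j v)
     + (phc A * f) ⊗ₜ (GL21.c v) := by
  simp [actL, LinearMap.sum_apply]

theorem comm_keyL (a b : Fin 2 → Fin 2 → Q) (f : Q) (m : V) :
    (∑ i, ∑ j, ∑ k, ∑ l, (a k l * (b i j * f)) ⊗ₜ[ℂ] (GL21.e k l (GL21.e i j m))) -
    (∑ i, ∑ j, ∑ k, ∑ l, (b k l * (a i j * f)) ⊗ₜ[ℂ] (GL21.e k l (GL21.e i j m))) =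
    ∑ i, ∑ j, ((∑ k, (a i k * b k j - b i k * a k j)) * f) ⊗ₜ[ℂ] (GL21.e i j m) := by
  have h1 : (∑ i, ∑ j, ∑ k, ∑ l, (b k l * (a i j * f)) ⊗ₜ[ℂ] (GL21.e k l (GL21.e i j m))) =
      ∑ i, ∑ j, ∑ k, ∑ l, (a k l * (b i j * f)) ⊗ₜ[ℂ] (GL21.e i j (GL21.e k l m)) := by
    calc _ = ∑ p : (Fin 2 × Fin 2), ∑ q : (Fin 2 × Fin 2), (b q.1 q.2 * (a p.1 p.2 * f)) ⊗ₜ[ℂ] (GL21.e q.1 q.2 (GL21.e p.1 p.2 m)) := by
          simp only [Fintype.sum_prod_type]
      _ = ∑ p : (Fin 2 × Fin 2), ∑ q : (Fin 2 × Fin 2), (a q.1 q.2 * (b p.1 p.2 * f)) ⊗ₜ[ℂ] (GL21.e p.1 p.2 (GL21.e q.1 q.2 m)) := by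
          rw [Finset.sum_comm]
          refine Finset.sum_congr rfl fun p _ => Finset.sum_congr rfl fun q _ => ?_
          congr 1; ring
      _ = _ := by simp only [Fintype.sum_prod_type]
  rw [h1]
  simp only [← Finset.sum_sub_distrib, ← TensorProduct.tmul_sub, GL21.rel]
  simp only [TensorProduct.tmul_sub, Finset.sum_sub_distrib]
  have h2 : ∀ (p : Prop) [Decidable p] (g : Q) (x : V), g ⊗ₜ[ℂ] (if p then x else 0) = if p then g ⊗ₜ[ℂ] x else 0 := by
    intro p _ g x; split_ifs <;> simp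
  simp only [h2]
  have h5 : ∀ x y : Q, x * (y * f) = x * y * f := by intro x y; ring
  simp only [Fin.sum_univ_two, sub_mul, add_mul, TensorProduct.add_tmul, TensorProduct.sub_tmul]
  simp only [Fin.isValue, reduceIte, h5, Fin.reduceEq, zero_ne_one, one_ne_zero, if_false, if_true, add_zero, zero_add]
  have h6 : ∀ i j k l : Fin 2, b i j * a k l = a k l * b i j := fun i j k l => mul_comm _ _
  simp only [h6]
  abel

theorem actL_lie (A B : Matrix (Fin 3) (Fin 3) ℂ) (w : CoL V) :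
    actL (A * B - B * A) w = actL A (actL B w) - actL B (actL A w) := by
  induction w using TensorProduct.induction_on with
  | zero => simp
  | add a b ha hb => rw [map_add, ha, hb, map_add, map_add, map_add, map_add]; abel
  | tmul f m =>
    simp only [actL_tm, map_add, map_sum, xiL_lie, phL_lie, phc_lie, Derivation.leibniz, smul_eq_mul, GL21.comm]
    have hk := comm_keyL (phL A) (phL B) f m
    simp only [Finset.sum_add_distrib, add_mul,
      TensorProduct.add_tmul, sub_mul, TensorProduct.sub_tmul,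
      Finset.sum_sub_distrib] at hk ⊢
    rw [← hk]
    simp only [fun x : Q => mul_comm f x]
    have h7 : phc A * (phc B * f) = phc B * (phc A * f) := by ring
    have h8 : ∀ i j, phc A * (phL B i j * f) = phL B i j * (phc A * f) := by intros; ring
    have h9 : ∀ i j, phc B * (phL A i j * f) = phL A i j * (phc B * f) := by intros; ring
    simp only [h7, h8, h9]
    abel

/-- The operators `E i j` on `ℂ[u] ⊗ V`. -/
noncomputable def eCo : Fin 3 → Fin 3 → CoL V →ₗ[ℂ] CoL V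
  | 0, 0 => -TensorProduct.map (mu 0 ∘ₗ dl 0) LinearMap.id + TensorProduct.map LinearMap.id (GL21.e 0 0)
  | 0, 1 => -TensorProduct.map (mu 1 ∘ₗ dl 0) LinearMap.id + TensorProduct.map LinearMap.id (GL21.e 0 1)
  | 1, 0 => -TensorProduct.map (mu 0 ∘ₗ dl 1) LinearMap.id + TensorProduct.map LinearMap.id (GL21.e 1 0)
  | 1, 1 => -TensorProduct.map (mu 1 ∘ₗ dl 1) LinearMap.id + TensorProduct.map LinearMap.id (GL21.e 1 1)
  | 0, 2 => -TensorProduct.map (dl 0) LinearMap.id
  | 1, 2 => -TensorProduct.map (dl 1) LinearMap.id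
  | 2, 2 => TensorProduct.map th LinearMap.id + TensorProduct.map LinearMap.id GL21.c
  | 2, 0 => TensorProduct.map (mu 0 ∘ₗ th) LinearMap.id
      - TensorProduct.map (mu 0) (GL21.e 0 0) - TensorProduct.map (mu 1) (GL21.e 1 0)
      + TensorProduct.map (mu 0) GL21.c
  | 2, 1 => TensorProduct.map (mu 1 ∘ₗ th) LinearMap.id
      - TensorProduct.map (mu 0) (GL21.e 0 1) - TensorProduct.map (mu 1) (GL21.e 1 1)
      + TensorProduct.map (mu 1) GL21.c

theorem xiL_apply (A : Matrix (Fin 3) (Fin 3) ℂ) (f : Q) :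
    xiL A f = vL A 0 * pderiv 0 f + vL A 1 * pderiv 1 f := by
  have : xiL A = (vL A 0) • (pderiv 0 : Derivation ℂ Q Q) + (vL A 1) • (pderiv 1 : Derivation ℂ Q Q) := by
    apply MvPolynomial.derivation_ext
    intro i
    fin_cases i <;> simp [pderiv_X]
  rw [this]; rfl


theorem sgl (i j a b : Fin 3) : Matrix.single i j (1 : ℂ) a b = if i = a ∧ j = b then 1 else 0 := by
  rw [Matrix.single_apply]

theorem eCo_eq (i j : Fin 3) (m : CoL V) : eCo i j m = actL (Matrix.single i j 1) m := by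
  induction m using TensorProduct.induction_on with
  | zero => simp
  | add a b ha hb => rw [map_add, ha, hb, map_add]
  | tmul f v =>
    rw [actL_tm, xiL_apply]
    fin_cases i <;> fin_cases j
    · simp [eCo, Fin.sum_univ_two, phL, phc, vL, TensorProduct.neg_tmul]
    · simp [eCo, Fin.sum_univ_two, phL, phc, vL, TensorProduct.neg_tmul]
    · simp [eCo, Fin.sum_univ_two, phL, phc, vL, TensorProduct.neg_tmul]
    · simp [eCo, Fin.sum_univ_two, phL, phc, vL, TensorProduct.neg_tmul]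
    · simp [eCo, Fin.sum_univ_two, phL, phc, vL, TensorProduct.neg_tmul]
    · simp [eCo, Fin.sum_univ_two, phL, phc, vL, TensorProduct.neg_tmul]
    · simp [eCo, Fin.sum_univ_two, phL, phc, vL, TensorProduct.neg_tmul]
      rw [show (X 0 * X 0 * (pderiv 0) f + X 1 * X 0 * (pderiv 1) f : Q) =
        X 0 * (X 0 * (pderiv 0) f + X 1 * (pderiv 1) f) by ring]
      abel
    · simp [eCo, Fin.sum_univ_two, phL, phc, vL, TensorProduct.neg_tmul]
      rw [show (X 0 * X 1 * (pderiv 0) f + X 1 * X 1 * (pderiv 1) f : Q) =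
        X 1 * (X 0 * (pderiv 0) f + X 1 * (pderiv 1) f) by ring]
      abel
    · simp [eCo, Fin.sum_univ_two, phL, phc, vL, TensorProduct.neg_tmul]


theorem actL_sub (A B : Matrix (Fin 3) (Fin 3) ℂ) (m : CoL V) :
    actL (A - B) m = actL A m - actL B m := by
  have h1 : ∀ i, vL (A - B) i = vL A i - vL B i := by
    intro i; fin_cases i <;> simp [vL] <;> ring
  have h2 : ∀ i j, phL (A - B) i j = phL A i j - phL B i j := by
    intro i j; fin_cases i <;> fin_cases j <;> simp [phL] <;> ring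
  have h3 : phc (A - B) = phc A - phc B := by
    simp [phc]; ring
  induction m using TensorProduct.induction_on with
  | zero => simp
  | add a b ha hb => rw [map_add, ha, hb, map_add, map_add]; abel
  | tmul f v =>
    simp only [actL_tm, xiL_apply, h1, h2, h3, sub_mul, add_mul, TensorProduct.sub_tmul,
      TensorProduct.add_tmul, Finset.sum_sub_distrib]
    abel

theorem actL_zero (m : CoL V) : actL (0 : Matrix (Fin 3) (Fin 3) ℂ) m = 0 := by
  have := actL_sub (0 : Matrix (Fin 3) (Fin 3) ℂ) 0 m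
  rwa [sub_self, sub_self] at this

theorem eCo_rel (i j k l : Fin 3) (m : CoL V) : eCo i j (eCo k l m) - eCo k l (eCo i j m) =
    (if j = k then eCo i l m else 0) - (if l = i then eCo k j m else 0) := by
  rw [eCo_eq, eCo_eq, eCo_eq, eCo_eq, ← actL_lie, eCo_eq, eCo_eq, single_mul', single_mul',
    actL_sub]
  congr 1 <;> split_ifs <;> simp [actL_zero]
noncomputable instance : GL3 (CoL V) := ⟨eCo, eCo_rel⟩

end EA58
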