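import Pool.Agent.LibEA58.LModsA

/-!
# The `gl(2) × gl(1)`-modules of the extension
-/

open Matrix MvPolynomial TensorProduct

namespace EA58

/-- `V_A = det⁻²`. -/
noncomputable instance : GL21 ℂ where
  e i j := if i = j then (-2 : ℂ) • LinearMap.id else 0
  c := (-2 : ℂ) • LinearMap.id
  rel i j k l v := by
    fin_cases i <;> fin_cases j <;> fin_cases k <;> fin_cases l <;> simp
  comm i j v := by
    fin_cases i <;> fin_cases j <;> simp

/-- `V_B`: constant one-forms. -/
noncomputable instance : GL21 (Fin 2 → ℂ) where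
  e i j := -(LinearMap.single ℂ (fun _ => ℂ) j ∘ₗ LinearMap.proj i)
    + (if i = j then (-2 : ℂ) • LinearMap.id else 0)
  c := -LinearMap.id
  rel i j k l v := by
    ext a
    fin_cases i <;> fin_cases j <;> fin_cases k <;> fin_cases l <;> fin_cases a <;> simp <;> ring
  comm i j v := by
    ext a
    fin_cases i <;> fin_cases j <;> fin_cases a <;> simp <;> ring

/-- The dual Verma module `∇_D` of `gl(2)`, on `ℂ[t]`. -/
noncomputable instance : GL21 (Polynomial ℂ) where
  e
  | 0, 1 => -Polynomial.derivative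
  | 1, 0 => LinearMap.mulLeft ℂ (Polynomial.X ^ 2) ∘ₗ Polynomial.derivative
  | 0, 0 => -(LinearMap.mulLeft ℂ Polynomial.X ∘ₗ Polynomial.derivative) - (3 : ℂ) • LinearMap.id
  | 1, 1 => (LinearMap.mulLeft ℂ Polynomial.X ∘ₗ Polynomial.derivative) - (3 : ℂ) • LinearMap.id
  c := 0
  rel i j k l v := by
    fin_cases i <;> fin_cases j <;> fin_cases k <;> fin_cases l <;>
      simp [Polynomial.smul_eq_C_mul] <;> ring
  comm i j v := by
    simp

/-- The lowering coefficients of `Δ_D`. -/
noncomputable def del01 : ℕ → ℂ →ₗ[ℂ] (ℕ →₀ ℂ)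
  | 0 => 0
  | m + 1 => (-(m : ℂ)) • Finsupp.lsingle m

/-- The operators on the Verma module `Δ_D` of `gl(2)`, with basis `w_n`:
`e₀₁ w_{n+1} = -n w_n`, `e₀₁ w_0 = 0`, `e₁₀ w_n = (n+1) w_{n+1}`. -/
noncomputable def delE : Fin 2 → Fin 2 → (ℕ →₀ ℂ) →ₗ[ℂ] (ℕ →₀ ℂ)
  | 0, 1 => Finsupp.lsum ℂ del01
  | 1, 0 => Finsupp.lsum ℂ (fun n => ((n : ℂ) + 1) • Finsupp.lsingle (n + 1))
  | 0, 0 => Finsupp.lsum ℂ (fun n => (-(n : ℂ) - 3) • Finsupp.lsingle n)
  | 1, 1 => Finsupp.lsum ℂ (fun n => ((n : ℂ) - 3) • Finsupp.lsingle n)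

theorem delE_01_zero (a : ℂ) : delE 0 1 (Finsupp.single 0 a) = 0 := by
  simp [delE, del01]
theorem delE_01_succ (n : ℕ) (a : ℂ) :
    delE 0 1 (Finsupp.single (n + 1) a) = Finsupp.single n (-(n : ℂ) * a) := by
  rw [delE, Finsupp.lsum_single, del01]; simp
theorem delE_10 (n : ℕ) (a : ℂ) :
    delE 1 0 (Finsupp.single n a) = Finsupp.single (n + 1) (((n : ℂ) + 1) * a) := by
  rw [delE, Finsupp.lsum_single]; simp
theorem delE_00 (n : ℕ) (a : ℂ) :
    delE 0 0 (Finsupp.single n a) = Finsupp.single n ((-(n : ℂ) - 3) * a) := by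
  rw [delE, Finsupp.lsum_single]; simp
theorem delE_11 (n : ℕ) (a : ℂ) :
    delE 1 1 (Finsupp.single n a) = Finsupp.single n (((n : ℂ) - 3) * a) := by
  rw [delE, Finsupp.lsum_single]; simp

theorem delE_rel (i j k l : Fin 2) (v : ℕ →₀ ℂ) : delE i j (delE k l v) - delE k l (delE i j v) =
    (if j = k then delE i l v else 0) - (if l = i then delE k j v else 0) := by
  induction v using Finsupp.induction_linear with
  | zero => simp
  | add f g hf hg =>
    simp only [map_add]
    have h : ∀ a b c d : ℕ →₀ ℂ, a + b - (c + d) = (a - c) + (b - d) := by intros; abel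
    rw [h, hf, hg]
    split_ifs <;> (try simp) <;> abel
  | single n a =>
    rcases n with _ | _ | n <;>
    fin_cases i <;> fin_cases j <;> fin_cases k <;> fin_cases l <;>
    simp only [Fin.zero_eta, Fin.mk_one, delE_01_zero, delE_01_succ, delE_10, delE_00, delE_11,
      map_zero, if_true, if_false, one_ne_zero, zero_ne_one, ← Finsupp.single_sub, sub_zero,
      sub_self, Fin.isValue, zero_sub, ← Finsupp.single_neg] <;>
    first | rfl | (congr 1; push_cast; ring1) | (apply Finsupp.single_eq_zero.mpr; push_cast; ring1)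

noncomputable instance : GL21 (ℕ →₀ ℂ) where
  e := delE
  c := 0
  rel := delE_rel
  comm i j v := by simp

end EA58
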