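import Pool.Agent.LibEA58.LModsA

/-!
# The `gl(3)`-module `M(A)`
-/

open Matrix MvPolynomial TensorProduct

namespace EA58

theorem C2_eq : (MvPolynomial.C (2 : ℂ) : Q) = 2 := map_ofNat MvPolynomial.C 2

theorem pd_comm (i j : Fin 2) (q : Q) : pderiv i (pderiv j q) = pderiv j (pderiv i q) := by
  have : ⁅(pderiv i : Derivation ℂ Q Q), (pderiv j : Derivation ℂ Q Q)⁆ = 0 := by
    apply MvPolynomial.derivation_ext
    intro k
    rw [Derivation.commutator_apply]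
    simp [pderiv_X, Pi.single_apply]
    split_ifs <;> simp
  have h := congrArg (fun D : Derivation ℂ Q Q => D q) this
  simp only [Derivation.commutator_apply, Derivation.zero_apply] at h
  exact sub_eq_zero.1 h

theorem pd_10 (q : Q) : pderiv 1 (pderiv 0 q) = pderiv 0 (pderiv 1 q) := pd_comm _ _ _

theorem pd_X0_0 (q : Q) : pderiv 0 (X 0 * q) = q + X 0 * pderiv 0 q := by
  simp [Derivation.leibniz, pderiv_X]; ring
theorem pd_X1_0 (q : Q) : pderiv 0 (X 1 * q) = X 1 * pderiv 0 q := by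
  simp [Derivation.leibniz, pderiv_X]
theorem pd_X0_1 (q : Q) : pderiv 1 (X 0 * q) = X 0 * pderiv 1 q := by
  simp [Derivation.leibniz, pderiv_X]
theorem pd_X1_1 (q : Q) : pderiv 1 (X 1 * q) = q + X 1 * pderiv 1 q := by
  simp [Derivation.leibniz, pderiv_X]; ring

/-- The operators on the Verma type module `M(A) = ℂ[F₀, F₁]`. -/
noncomputable def eA : Fin 3 → Fin 3 → Q →ₗ[ℂ] Q
  | 0, 0 => -(mu 0 ∘ₗ dl 0) - (2 : ℂ) • LinearMap.id
  | 0, 1 => -(mu 1 ∘ₗ dl 0)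
  | 1, 0 => -(mu 0 ∘ₗ dl 1)
  | 1, 1 => -(mu 1 ∘ₗ dl 1) - (2 : ℂ) • LinearMap.id
  | 2, 2 => th - (2 : ℂ) • LinearMap.id
  | 2, 0 => mu 0
  | 2, 1 => mu 1
  | 0, 2 => -(th ∘ₗ dl 0)
  | 1, 2 => -(th ∘ₗ dl 1)

theorem eA00 (q : Q) : eA 0 0 q = -(X 0 * pderiv 0 q) - 2 * q := by
  simp [eA, smul_eq_C_mul, C2_eq]
theorem eA01 (q : Q) : eA 0 1 q = -(X 1 * pderiv 0 q) := by
  simp [eA]
theorem eA10 (q : Q) : eA 1 0 q = -(X 0 * pderiv 1 q) := by
  simp [eA]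
theorem eA11 (q : Q) : eA 1 1 q = -(X 1 * pderiv 1 q) - 2 * q := by
  simp [eA, smul_eq_C_mul, C2_eq]
theorem eA22 (q : Q) : eA 2 2 q = X 0 * pderiv 0 q + X 1 * pderiv 1 q - 2 * q := by
  simp [eA, smul_eq_C_mul, C2_eq]
theorem eA20 (q : Q) : eA 2 0 q = X 0 * q := by
  simp [eA]
theorem eA21 (q : Q) : eA 2 1 q = X 1 * q := by
  simp [eA]
theorem eA02 (q : Q) : eA 0 2 q = -(X 0 * pderiv 0 (pderiv 0 q) + X 1 * pderiv 0 (pderiv 1 q)) := by
  simp [eA, pd_10]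
theorem eA12 (q : Q) : eA 1 2 q = -(X 0 * pderiv 0 (pderiv 1 q) + X 1 * pderiv 1 (pderiv 1 q)) := by
  simp [eA]

theorem pd_2 (i : Fin 2) (q : Q) : pderiv i (2 * q) = 2 * pderiv i q := by
  rw [← C2_eq, Derivation.leibniz]; simp

theorem eA_rel (i j k l : Fin 3) (m : Q) : eA i j (eA k l m) - eA k l (eA i j m) =
    (if j = k then eA i l m else 0) - (if l = i then eA k j m else 0) := by
  fin_cases i <;> fin_cases j <;> fin_cases k <;> fin_cases l <;>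
    simp only [Fin.zero_eta, Fin.mk_one, Fin.reduceFinMk, Fin.isValue, Fin.reduceEq, if_true,
      if_false, eA00, eA01, eA02, eA10, eA11, eA12, eA20, eA21, eA22,
      map_add, map_sub, map_neg, pd_X0_0, pd_X0_1, pd_X1_0, pd_X1_1, pd_2, pd_10, zero_ne_one, one_ne_zero] <;> ring

noncomputable instance : GL3 Q := ⟨eA, eA_rel⟩

end EA58
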