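import Pool.Agent.LibEA58.MapsDefs

/-!
# The last two maps are homomorphisms; exactness at the last two places
-/

open MvPolynomial TensorProduct

namespace EA58

/-! ### The rescaling -/

theorem sc_mono (a : Fin 2 →₀ ℕ) (c : ℂ) : sc (monomial a c) =
    monomial a (c * (2 / ((a 0 + a 1 + 2).factorial : ℂ))) := by
  have h : (monomial a c : Q) = c • (MvPolynomial.basisMonomials (Fin 2) ℂ) a := by
    simp [MvPolynomial.smul_monomial]
  rw [h, map_smul, sc, Module.Basis.constr_basis, MvPolynomial.smul_monomial, smul_eq_mul]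

/-- Polynomial induction in the form used here. -/
theorem Qind {p : Q → Prop} (h1 : ∀ a c, p (monomial a c)) (h2 : ∀ f g, p f → p g → p (f + g))
    (f : Q) : p f := by
  induction f using MvPolynomial.induction_on' with
  | monomial a c => exact h1 a c
  | add f g hf hg => exact h2 f g hf hg

theorem mu_mono (i : Fin 2) (a : Fin 2 →₀ ℕ) (c : ℂ) :
    (X i : Q) * monomial a c = monomial (Finsupp.single i 1 + a) c := by
  rw [X, monomial_mul, one_mul]

theorem mudl_mono (i : Fin 2) (a : Fin 2 →₀ ℕ) (c : ℂ) :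
    (X i : Q) * pderiv i (monomial a c) = monomial a (c * a i) := by
  rw [pderiv_monomial, mu_mono]
  rcases Nat.eq_zero_or_pos (a i) with h | h
  · simp [h]
  · have h2 : (Finsupp.single i 1 + (a - Finsupp.single i 1) : Fin 2 →₀ ℕ) = a := by
      apply add_tsub_cancel_of_le
      rw [Finsupp.single_le_iff]
      exact h
    rw [h2]

theorem th_apply (f : Q) : th f = X 0 * pderiv 0 f + X 1 * pderiv 1 f := rfl

theorem th_mono (a : Fin 2 →₀ ℕ) (c : ℂ) :
    th (monomial a c) = monomial a (c * (a 0 + a 1)) := by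
  rw [th_apply, mudl_mono, mudl_mono, ← map_add, mul_add]

theorem deg_succ (i : Fin 2) (a : Fin 2 →₀ ℕ) :
    (Finsupp.single i 1 + a : Fin 2 →₀ ℕ) 0 + (Finsupp.single i 1 + a : Fin 2 →₀ ℕ) 1 =
      a 0 + a 1 + 1 := by
  simp only [Finsupp.add_apply, Finsupp.single_apply]
  fin_cases i <;> simp <;> omega

theorem deg_pred (i : Fin 2) (a : Fin 2 →₀ ℕ) (h : 0 < a i) :
    a 0 + a 1 = (a - Finsupp.single i 1 : Fin 2 →₀ ℕ) 0 +
      (a - Finsupp.single i 1 : Fin 2 →₀ ℕ) 1 + 1 := by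
  simp only [Finsupp.tsub_apply, Finsupp.single_apply]
  fin_cases i <;> simp at h ⊢ <;> omega

/-- `2 / (n + 2)!` -/
theorem fac_key (n : ℕ) : (2 / ((n + 2).factorial : ℂ)) =
    (2 / ((n + 1 + 2).factorial : ℂ)) * (n + 3) := by
  have h1 : ((n + 2).factorial : ℂ) ≠ 0 := by exact_mod_cast Nat.factorial_ne_zero _
  have h2 : ((n + 1 + 2).factorial : ℂ) = (n + 3) * ((n + 2).factorial : ℂ) := by
    rw [show n + 1 + 2 = (n + 2) + 1 by ring, Nat.factorial_succ]; push_cast; ring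
  have h3 : ((n : ℂ) + 3) ≠ 0 := by exact_mod_cast (by omega : n + 3 ≠ 0)
  rw [h2]; field_simp

theorem sc_dl (i : Fin 2) (f : Q) :
    sc (pderiv i f) = th (pderiv i (sc f)) + 3 * pderiv i (sc f) := by
  induction f using Qind with
  | h2 f g hf hg => simp only [map_add, hf, hg]; ring
  | h1 a c =>
    rw [sc_mono, pderiv_monomial, pderiv_monomial, sc_mono, th_mono]
    have h3 : (3 : Q) = C 3 := (map_ofNat C 3).symm
    rw [h3, C_mul_monomial, ← map_add (monomial (a - Finsupp.single i 1))]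
    rcases Nat.eq_zero_or_pos (a i) with h | h
    · simp [h]
    · congr 1
      have h5 := deg_pred i a h
      rw [h5, fac_key]
      push_cast
      ring

theorem sc_mudl (i j : Fin 2) (f : Q) : sc (X i * pderiv j f) = X i * pderiv j (sc f) := by
  induction f using Qind with
  | h2 f g hf hg => simp only [map_add, mul_add, hf, hg]
  | h1 a c =>
    rw [sc_mono, pderiv_monomial, pderiv_monomial, mu_mono, mu_mono, sc_mono]
    rcases Nat.eq_zero_or_pos (a j) with h | h
    · simp [h]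
    · congr 1
      rw [deg_succ, ← deg_pred j a h]
      ring

theorem sc_th (f : Q) : sc (th f) = th (sc f) := by
  rw [th_apply, th_apply, map_add, sc_mudl, sc_mudl]

theorem sc_muth (i : Fin 2) (f : Q) : sc (X i * th f + 3 * (X i * f)) = X i * sc f := by
  induction f using Qind with
  | h2 f g hf hg =>
    have : ∀ a b c d : Q, X i * (a + b) + 3 * (X i * (c + d)) = (X i * a + 3 * (X i * c)) + (X i * b + 3 * (X i * d)) := by
      intros; ring
    rw [map_add th f g, this, map_add sc, hf, hg, map_add sc]; ring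
  | h1 a c =>
    have h3 : (3 : Q) = C 3 := (map_ofNat C 3).symm
    rw [sc_mono, th_mono, mu_mono, mu_mono, h3, C_mul_monomial, mu_mono, ← map_add, sc_mono]
    congr 1
    rw [deg_succ, fac_key (a 0 + a 1)]
    push_cast
    ring

theorem sc_inj : Function.Injective sc := by
  intro f g h
  ext a
  have key : ∀ f : Q, coeff a (sc f) = coeff a f * (2 / ((a 0 + a 1 + 2).factorial : ℂ)) := by
    intro f
    induction f using Qind with
    | h2 f g hf hg => rw [map_add, coeff_add, coeff_add, hf, hg]; ring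
    | h1 b c =>
      rw [sc_mono, coeff_monomial, coeff_monomial]
      split_ifs with hb
      · rw [hb]
      · simp
  have h4 := congrArg (coeff a) h
  rw [key, key] at h4
  refine mul_right_cancel₀ ?_ h4
  exact div_ne_zero two_ne_zero (by exact_mod_cast Nat.factorial_ne_zero _)

theorem sc_surj : Function.Surjective sc := by
  intro f
  induction f using Qind with
  | h2 f g hf hg =>
    obtain ⟨a, rfl⟩ := hf
    obtain ⟨b, rfl⟩ := hg
    exact ⟨a + b, map_add _ _ _⟩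
  | h1 a c =>
    refine ⟨monomial a (c * (((a 0 + a 1 + 2).factorial : ℂ) / 2)), ?_⟩
    rw [sc_mono]
    congr 1
    have h1 : ((a 0 + a 1 + 2).factorial : ℂ) ≠ 0 := by exact_mod_cast Nat.factorial_ne_zero _
    field_simp

theorem m10_tm (f : Q) (w : ℕ →₀ ℂ) :
    m10 (f ⊗ₜ w) = (-(X 1 * sc (w 0 • f)), X 0 * sc (w 0 • f)) := by
  simp [m10]

theorem del_zero (i j : Fin 2) (w : ℕ →₀ ℂ) :
    (delE i j w) 0 = if i = j then -3 * w 0 else 0 := by
  induction w using Finsupp.induction_linear with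
  | zero => simp
  | add f g hf hg => rw [map_add, Finsupp.add_apply, hf, hg]; split_ifs <;> simp <;> ring
  | single n a =>
    rcases n with _ | _ | n <;>
    fin_cases i <;> fin_cases j <;>
    simp [delE_01_zero, delE_01_succ, delE_10, delE_00, delE_11]

theorem C3_eqB : (MvPolynomial.C (3 : ℂ) : Q) = 3 := map_ofNat MvPolynomial.C 3

theorem sc_muth' (i : Fin 2) (f : Q) : sc (X i * th f) + 3 * sc (X i * f) = X i * sc f := by
  have h : (3 : Q) * (X i * f) = (3 : ℂ) • (X i * f) := by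
    rw [MvPolynomial.smul_eq_C_mul, C3_eqB]
  have h' : (3 : Q) * sc (X i * f) = (3 : ℂ) • sc (X i * f) := by
    rw [MvPolynomial.smul_eq_C_mul, C3_eqB]
  rw [← sc_muth, map_add, h, h', map_smul]

/-- The syzygy with coefficient `sc f`. -/
noncomputable def Kz (f : Q) : Q × Q := (-(X 1 * sc f), X 0 * sc f)

theorem m10_tm' (f : Q) (w : ℕ →₀ ℂ) : m10 (f ⊗ₜ w) = w 0 • Kz f := by
  rw [m10_tm, map_smul, Kz]
  ext1 <;> simp

theorem kz00 (f : Q) : eB 0 0 (Kz f) = -Kz (X 0 * pderiv 0 f) + (-3 : ℂ) • Kz f := by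
  apply Prod.ext <;>
  simp [eB, Kz, Derivation.leibniz, pderiv_X, MvPolynomial.smul_eq_C_mul, sc_mudl] <;>
    (try simp only [C2_eq, C3_eqB]) <;> ring

theorem kz11 (f : Q) : eB 1 1 (Kz f) = -Kz (X 1 * pderiv 1 f) + (-3 : ℂ) • Kz f := by
  apply Prod.ext <;>
  simp [eB, Kz, Derivation.leibniz, pderiv_X, MvPolynomial.smul_eq_C_mul, sc_mudl] <;>
    (try simp only [C2_eq, C3_eqB]) <;> ring

theorem kz01 (f : Q) : eB 0 1 (Kz f) = -Kz (X 1 * pderiv 0 f) := by
  apply Prod.ext <;>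
  simp [eB, Kz, Derivation.leibniz, pderiv_X, sc_mudl] <;> ring

theorem kz10 (f : Q) : eB 1 0 (Kz f) = -Kz (X 0 * pderiv 1 f) := by
  apply Prod.ext <;>
  simp [eB, Kz, Derivation.leibniz, pderiv_X, sc_mudl] <;> ring

theorem kz02 (f : Q) : eB 0 2 (Kz f) = -Kz (pderiv 0 f) := by
  apply Prod.ext <;>
  simp [eB, Kz, Derivation.leibniz, pderiv_X, sc_dl, th_apply, pd_10] <;> ring

theorem kz12 (f : Q) : eB 1 2 (Kz f) = -Kz (pderiv 1 f) := by
  apply Prod.ext <;>
  simp [eB, Kz, Derivation.leibniz, pderiv_X, sc_dl, th_apply, pd_10] <;> ring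

theorem kz22 (f : Q) : eB 2 2 (Kz f) = Kz (th f) := by
  apply Prod.ext <;>
  simp only [Kz, sc_th] <;>
  simp [eB, Derivation.leibniz, pderiv_X] <;> ring

theorem kz20 (f : Q) : eB 2 0 (Kz f) = Kz (X 0 * th f) + (3 : ℂ) • Kz (X 0 * f) := by
  have h := sc_muth' 0 f
  apply Prod.ext
  · show X 0 * (-(X 1 * sc f)) = -(X 1 * sc (X 0 * th f)) + (3 : ℂ) • (-(X 1 * sc (X 0 * f)))
    rw [MvPolynomial.smul_eq_C_mul, C3_eqB]
    linear_combination (X 1) * h
  · show X 0 * (X 0 * sc f) = X 0 * sc (X 0 * th f) + (3 : ℂ) • (X 0 * sc (X 0 * f))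
    rw [MvPolynomial.smul_eq_C_mul, C3_eqB]
    linear_combination (-X 0) * h

theorem kz21 (f : Q) : eB 2 1 (Kz f) = Kz (X 1 * th f) + (3 : ℂ) • Kz (X 1 * f) := by
  have h := sc_muth' 1 f
  apply Prod.ext
  · show X 1 * (-(X 1 * sc f)) = -(X 1 * sc (X 1 * th f)) + (3 : ℂ) • (-(X 1 * sc (X 1 * f)))
    rw [MvPolynomial.smul_eq_C_mul, C3_eqB]
    linear_combination (X 1) * h
  · show X 1 * (X 0 * sc f) = X 0 * sc (X 1 * th f) + (3 : ℂ) • (X 0 * sc (X 1 * f))
    rw [MvPolynomial.smul_eq_C_mul, C3_eqB]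
    linear_combination (-X 0) * h

section
variable {V : Type} [AddCommGroup V] [Module ℂ V] [GL21 V]

theorem eCo_00 (f : Q) (v : V) : eCo 0 0 (f ⊗ₜ v) = -((X 0 * pderiv 0 f) ⊗ₜ v)
    + f ⊗ₜ (GL21.e 0 0 v) := by
  rw [eCo, LinearMap.add_apply, LinearMap.neg_apply, TensorProduct.map_tmul,
    TensorProduct.map_tmul, LinearMap.id_apply, LinearMap.id_apply]; rfl

theorem eCo_01 (f : Q) (v : V) : eCo 0 1 (f ⊗ₜ v) = -((X 1 * pderiv 0 f) ⊗ₜ v)
    + f ⊗ₜ (GL21.e 0 1 v) := by
  rw [eCo, LinearMap.add_apply, LinearMap.neg_apply, TensorProduct.map_tmul,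
    TensorProduct.map_tmul, LinearMap.id_apply, LinearMap.id_apply]; rfl

theorem eCo_10 (f : Q) (v : V) : eCo 1 0 (f ⊗ₜ v) = -((X 0 * pderiv 1 f) ⊗ₜ v)
    + f ⊗ₜ (GL21.e 1 0 v) := by
  rw [eCo, LinearMap.add_apply, LinearMap.neg_apply, TensorProduct.map_tmul,
    TensorProduct.map_tmul, LinearMap.id_apply, LinearMap.id_apply]; rfl

theorem eCo_11 (f : Q) (v : V) : eCo 1 1 (f ⊗ₜ v) = -((X 1 * pderiv 1 f) ⊗ₜ v)
    + f ⊗ₜ (GL21.e 1 1 v) := by
  rw [eCo, LinearMap.add_apply, LinearMap.neg_apply, TensorProduct.map_tmul,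
    TensorProduct.map_tmul, LinearMap.id_apply, LinearMap.id_apply]; rfl

theorem eCo_02 (f : Q) (v : V) : eCo 0 2 (f ⊗ₜ v) = -((pderiv 0 f) ⊗ₜ v) := by
  rw [eCo, LinearMap.neg_apply, TensorProduct.map_tmul, LinearMap.id_apply]; rfl

theorem eCo_12 (f : Q) (v : V) : eCo 1 2 (f ⊗ₜ v) = -((pderiv 1 f) ⊗ₜ v) := by
  rw [eCo, LinearMap.neg_apply, TensorProduct.map_tmul, LinearMap.id_apply]; rfl

theorem eCo_22 (f : Q) (v : V) : eCo 2 2 (f ⊗ₜ v) = (th f) ⊗ₜ v + f ⊗ₜ (GL21.c v) := by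
  rw [eCo, LinearMap.add_apply, TensorProduct.map_tmul, TensorProduct.map_tmul,
    LinearMap.id_apply, LinearMap.id_apply]

theorem eCo_20 (f : Q) (v : V) : eCo 2 0 (f ⊗ₜ v) = (X 0 * th f) ⊗ₜ v
    - (X 0 * f) ⊗ₜ (GL21.e 0 0 v) - (X 1 * f) ⊗ₜ (GL21.e 1 0 v) + (X 0 * f) ⊗ₜ (GL21.c v) := by
  rw [eCo, LinearMap.add_apply, LinearMap.sub_apply, LinearMap.sub_apply,
    TensorProduct.map_tmul, TensorProduct.map_tmul, TensorProduct.map_tmul,
    TensorProduct.map_tmul, LinearMap.id_apply, LinearMap.comp_apply, LinearMap.mulLeft_apply,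
    LinearMap.mulLeft_apply, LinearMap.mulLeft_apply]

theorem eCo_21 (f : Q) (v : V) : eCo 2 1 (f ⊗ₜ v) = (X 1 * th f) ⊗ₜ v
    - (X 0 * f) ⊗ₜ (GL21.e 0 1 v) - (X 1 * f) ⊗ₜ (GL21.e 1 1 v) + (X 1 * f) ⊗ₜ (GL21.c v) := by
  rw [eCo, LinearMap.add_apply, LinearMap.sub_apply, LinearMap.sub_apply,
    TensorProduct.map_tmul, TensorProduct.map_tmul, TensorProduct.map_tmul,
    TensorProduct.map_tmul, LinearMap.id_apply, LinearMap.comp_apply, LinearMap.mulLeft_apply,
    LinearMap.mulLeft_apply, LinearMap.mulLeft_apply]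

end

theorem m10_hom (i j : Fin 3) (m : CoL (ℕ →₀ ℂ)) : m10 (GL3.e i j m) = GL3.e i j (m10 m) := by
  show m10 (eCo i j m) = eB i j (m10 m)
  induction m using TensorProduct.induction_on with
  | zero => simp
  | add a b ha hb => simp only [map_add, ha, hb]
  | tmul f w =>
    have c0 : ∀ g : Q, m10 (g ⊗ₜ (GL21.c w : ℕ →₀ ℂ)) = 0 := by
      intro g
      have : (GL21.c w : ℕ →₀ ℂ) = 0 := rfl
      rw [this, TensorProduct.tmul_zero, map_zero]
    have e0 : ∀ (k l : Fin 2) (g : Q), m10 (g ⊗ₜ (GL21.e k l w : ℕ →₀ ℂ)) =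
        (if k = l then -3 * w 0 else 0) • Kz g := by
      intro k l g
      rw [m10_tm']
      show (delE k l w) 0 • _ = _
      rw [del_zero]
    have key : ∀ i j : Fin 3, m10 (eCo i j (f ⊗ₜ w)) = w 0 • eB i j (Kz f) := by
      intro i j
      have h00 : m10 (eCo 0 0 (f ⊗ₜ w)) = w 0 • eB 0 0 (Kz f) := by
        rw [eCo_00, map_add, map_neg, m10_tm', e0, kz00, if_pos rfl]
        module
      have h01 : m10 (eCo 0 1 (f ⊗ₜ w)) = w 0 • eB 0 1 (Kz f) := by
        rw [eCo_01, map_add, map_neg, m10_tm', e0, kz01, if_neg (by decide)]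
        module
      have h10 : m10 (eCo 1 0 (f ⊗ₜ w)) = w 0 • eB 1 0 (Kz f) := by
        rw [eCo_10, map_add, map_neg, m10_tm', e0, kz10, if_neg (by decide)]
        module
      have h11 : m10 (eCo 1 1 (f ⊗ₜ w)) = w 0 • eB 1 1 (Kz f) := by
        rw [eCo_11, map_add, map_neg, m10_tm', e0, kz11, if_pos rfl]
        module
      have h02 : m10 (eCo 0 2 (f ⊗ₜ w)) = w 0 • eB 0 2 (Kz f) := by
        rw [eCo_02, map_neg, m10_tm', kz02]
        module
      have h12 : m10 (eCo 1 2 (f ⊗ₜ w)) = w 0 • eB 1 2 (Kz f) := by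
        rw [eCo_12, map_neg, m10_tm', kz12]
        module
      have h22 : m10 (eCo 2 2 (f ⊗ₜ w)) = w 0 • eB 2 2 (Kz f) := by
        rw [eCo_22, map_add, m10_tm', c0, kz22, add_zero]
      have h20 : m10 (eCo 2 0 (f ⊗ₜ w)) = w 0 • eB 2 0 (Kz f) := by
        rw [eCo_20, map_add, map_sub, map_sub, m10_tm', c0, e0, e0, kz20, if_pos rfl, if_neg (by decide)]
        module
      have h21 : m10 (eCo 2 1 (f ⊗ₜ w)) = w 0 • eB 2 1 (Kz f) := by
        rw [eCo_21, map_add, map_sub, map_sub, m10_tm', c0, e0, e0, kz21, if_pos rfl, if_neg (by decide)]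
        module
      fin_cases i <;> fin_cases j
      exacts [h00, h01, h02, h10, h11, h12, h20, h21, h22]
    rw [key, m10_tm', map_smul]

theorem m0_hom (i j : Fin 3) (m : Q × Q) : m0 (GL3.e i j m) = GL3.e i j (m0 m) := by
  obtain ⟨f, g⟩ := m
  show m0 (eB i j (f, g)) = eA i j (m0 (f, g))
  fin_cases i <;> fin_cases j <;>
    simp [m0, eA, eB, Derivation.leibniz, pderiv_X, MvPolynomial.smul_eq_C_mul, pd_10] <;>
    (try simp only [C2_eq]) <;> ring

theorem ph_exactB : Function.Exact ph (Finsupp.lapply (R := ℂ) (M := ℂ) (0 : ℕ)) := by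
  have hph : ∀ (n : ℕ) (a : ℂ), ph (Polynomial.monomial n a) = Finsupp.single n (a * n) := by
    intro n a
    have h : Polynomial.monomial n a = a • (Polynomial.basisMonomials ℂ) n := by
      simp [Polynomial.smul_monomial]
    rw [h, map_smul, ph, Module.Basis.constr_basis, Finsupp.smul_single, smul_eq_mul]
  intro w
  constructor
  · intro hw
    have hw0 : w 0 = 0 := hw
    refine ⟨w.sum fun n a => Polynomial.monomial n (a / n), ?_⟩
    rw [Finsupp.sum, map_sum]
    conv_rhs => rw [← Finsupp.sum_single w]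
    rw [Finsupp.sum]
    refine Finset.sum_congr rfl fun n hn => ?_
    rw [hph]
    congr 1
    have : n ≠ 0 := by
      rintro rfl
      exact (Finsupp.mem_support_iff.1 hn) hw0
    field_simp
  · rintro ⟨p, rfl⟩
    show (ph p) 0 = 0
    induction p using Polynomial.induction_on' with
    | add p q hp hq => rw [map_add, Finsupp.add_apply, hp, hq, add_zero]
    | monomial n a =>
      rw [hph, Finsupp.single_apply]
      split_ifs with h
      · simp [h]
      · rfl

theorem ex1 : LinearMap.range m21 = LinearMap.ker m10 := by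
  have h1 : LinearMap.ker m10 = LinearMap.ker ((Finsupp.lapply (R := ℂ) (M := ℂ) (0 : ℕ)).lTensor Q) := by
    have hinj : Function.Injective (LinearMap.prod (-(mu 1 ∘ₗ sc)) (mu 0 ∘ₗ sc) ∘ₗ
        (TensorProduct.rid ℂ Q).toLinearMap) := by
      rw [LinearMap.coe_comp]
      refine Function.Injective.comp ?_ (TensorProduct.rid ℂ Q).injective
      intro f g hfg
      have h2 : (X 0 : Q) * sc f = X 0 * sc g := congrArg Prod.snd hfg
      exact sc_inj (mul_left_cancel₀ (X_ne_zero 0) h2)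
    have h3 : m10 = (LinearMap.prod (-(mu 1 ∘ₗ sc)) (mu 0 ∘ₗ sc) ∘ₗ
        (TensorProduct.rid ℂ Q).toLinearMap) ∘ₗ (Finsupp.lapply (R := ℂ) (M := ℂ) (0 : ℕ)).lTensor Q := rfl
    rw [h3, LinearMap.ker_comp_of_ker_eq_bot _ (LinearMap.ker_eq_bot.2 hinj)]
  rw [h1]
  have hs : Function.Surjective (Finsupp.lapply (R := ℂ) (M := ℂ) (0 : ℕ)) := by
    intro a
    exact ⟨Finsupp.single 0 a, by simp⟩
  exact (LinearMap.exact_iff.1 (lTensor_exact Q ph_exactB hs)).symm

theorem ex0 : LinearMap.range m10 = LinearMap.ker m0 := by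
  apply le_antisymm
  · rintro _ ⟨m, rfl⟩
    rw [LinearMap.mem_ker]
    induction m using TensorProduct.induction_on with
    | zero => simp
    | add a b ha hb => simp only [map_add, ha, hb, add_zero]
    | tmul f w =>
      rw [m10_tm]
      show (X 0 : Q) * -(X 1 * sc (w 0 • f)) + X 1 * (X 0 * sc (w 0 • f)) = 0
      ring
  · rintro ⟨p, q⟩ h
    rw [LinearMap.mem_ker] at h
    have h1 : (X 0 : Q) * p + X 1 * q = 0 := h
    have h2 : (X 1 : Q) ∣ X 0 * p := ⟨-q, by linear_combination h1⟩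
    rw [X_dvd_mul_iff, X_dvd_X] at h2
    have h3 : (X 1 : Q) ∣ p := by
      rcases h2 with h2 | h2
      · simp at h2
      · exact h2
    obtain ⟨r, rfl⟩ := h3
    obtain ⟨s, hs⟩ := sc_surj (-r)
    refine ⟨s ⊗ₜ Finsupp.single 0 1, ?_⟩
    rw [m10_tm]
    simp only [Finsupp.single_eq_same, one_smul, hs]
    ext1
    · simp
    · simp only
      have h4 : (X 1 : Q) ≠ 0 := X_ne_zero 1
      apply mul_left_cancel₀ h4
      linear_combination -h1


section
variable {L M N : Type} [AddCommGroup M] [Module ℂ M] [GL3 M] [AddCommGroup N] [Module ℂ N] [GL3 N]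
  [AddCommGroup L] [Module ℂ L] [GL3 L]

/-- The functor `CoG` is exact. -/
theorem CoG.exact (f : L →ₗ[ℂ] M) (hf) (g : M →ₗ[ℂ] N) (hg)
    (h : LinearMap.range f = LinearMap.ker g) : (CoG.map f hf).range = (CoG.map g hg).ker := by
  have h1 : Function.Exact (f.lTensor P) (g.lTensor P) :=
    Module.Flat.lTensor_exact P (LinearMap.exact_iff.2 h.symm)
  ext x
  rw [LieModuleHom.mem_range, LieModuleHom.mem_ker]
  exact (h1 x).symm

end

end EA58
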