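import Pool.Agent.LibEA58.MapsA
import Pool.Agent.LibEA58.MapsB

/-!
# The maps of the extension, at the level of `g`-modules
-/

open MvPolynomial TensorProduct

namespace EA58

noncomputable def f4 : CoG (CoL ℂ) →ₗ⁅ℂ,G⁆ CoG (CoL (Fin 2 → ℂ)) := CoG.map m43 m43_hom
noncomputable def f3 : CoG (CoL (Fin 2 → ℂ)) →ₗ⁅ℂ,G⁆ CoG (CoL (Polynomial ℂ)) :=
  CoG.map m32 m32_hom
noncomputable def f2 : CoG (CoL (Polynomial ℂ)) →ₗ⁅ℂ,G⁆ CoG (CoL (ℕ →₀ ℂ)) :=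
  CoG.map m21 m21_hom
noncomputable def f1 : CoG (CoL (ℕ →₀ ℂ)) →ₗ⁅ℂ,G⁆ CoG (Q × Q) := CoG.map m10 m10_hom
noncomputable def f0 : CoG (Q × Q) →ₗ⁅ℂ,G⁆ CoG Q := CoG.map m0 m0_hom

theorem gex3 : f4.range = f3.ker := CoG.exact _ _ _ _ ex3
theorem gex2 : f3.range = f2.ker := CoG.exact _ _ _ _ ex2
theorem gex1 : f2.range = f1.ker := CoG.exact _ _ _ _ ex1
theorem gex0 : f1.range = f0.ker := CoG.exact _ _ _ _ ex0

end EA58
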