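import Pool.Agent.LibEA58.MapsDefs

/-!
# The first three maps are homomorphisms; exactness at the first two places
-/

open MvPolynomial TensorProduct

namespace EA58

/-! ### Helper lemmas for `m43`, `m32`, `m21` -/

/-- Integration with respect to `u_i`. -/
noncomputable def intg (i : Fin 2) : Q →ₗ[ℂ] Q :=
  (MvPolynomial.basisMonomials (Fin 2) ℂ).constr ℂ
    (fun a => MvPolynomial.monomial (a + Finsupp.single i 1) (1 / ((a i : ℂ) + 1)))

theorem intg_monomial (i : Fin 2) (s : Fin 2 →₀ ℕ) (a : ℂ) :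
    intg i (MvPolynomial.monomial s a) =
      MvPolynomial.monomial (s + Finsupp.single i 1) (a / ((s i : ℂ) + 1)) := by
  have h1 : (MvPolynomial.monomial s a : Q) = a • MvPolynomial.basisMonomials (Fin 2) ℂ s := by
    rw [MvPolynomial.coe_basisMonomials, MvPolynomial.smul_monomial, smul_eq_mul, mul_one]
  rw [h1, map_smul, intg, Module.Basis.constr_basis, MvPolynomial.smul_monomial, smul_eq_mul]
  congr 1
  ring

theorem pderiv_intg (i : Fin 2) (q : Q) : pderiv i (intg i q) = q := by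
  induction q using MvPolynomial.induction_on' with
  | monomial s a =>
    rw [intg_monomial, pderiv_monomial, add_tsub_cancel_right, Finsupp.add_apply,
      Finsupp.single_eq_same]
    congr 1
    have : (s i : ℂ) + 1 ≠ 0 := Nat.cast_add_one_ne_zero _
    push_cast
    field_simp
  | add p q hp hq => rw [map_add, map_add, hp, hq]

theorem pderiv_zero_intg_one (q : Q) : pderiv 0 (intg 1 q) = intg 1 (pderiv 0 q) := by
  induction q using MvPolynomial.induction_on' with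
  | monomial s a =>
    rw [intg_monomial, pderiv_monomial, pderiv_monomial, intg_monomial]
    have h1 : (s + Finsupp.single 1 1 : Fin 2 →₀ ℕ) 0 = s 0 := by simp
    have h2 : (s - Finsupp.single 0 1 : Fin 2 →₀ ℕ) 1 = s 1 := by simp
    rw [h1, h2]
    rcases Nat.eq_zero_or_pos (s 0) with h0 | h0
    · simp [h0]
    · have h3 : (s + Finsupp.single 1 1 - Finsupp.single 0 1 : Fin 2 →₀ ℕ) =
          s - Finsupp.single 0 1 + Finsupp.single 1 1 := by
        ext k
        fin_cases k <;> simp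
      rw [h3]
      congr 1
      ring
  | add p q hp hq => simp only [map_add, hp, hq]

/-- The polynomial Poincare lemma in two variables. -/
theorem poincare (f₀ f₁ : Q) (h : pderiv 0 f₁ = pderiv 1 f₀) :
    ∃ g : Q, pderiv 0 g = f₀ ∧ pderiv 1 g = f₁ := by
  refine ⟨intg 0 f₀ + intg 1 (f₁ - pderiv 1 (intg 0 f₀)), ?_, ?_⟩
  · rw [map_add, pderiv_intg, pderiv_zero_intg_one, map_sub, ← pd_10, pderiv_intg, h, sub_self,
      map_zero, add_zero]
  · rw [map_add, pderiv_intg]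
    ring

theorem tmul_one_smul (f : Q) (c : ℂ) : f ⊗ₜ[ℂ] c = (c • f) ⊗ₜ[ℂ] (1 : ℂ) := by
  rw [TensorProduct.smul_tmul, smul_eq_mul, mul_one]

/-- `Q ⊗ ℂ² = Q × Q`, as functions. -/
theorem vec_ext {x y : CoL (Fin 2 → ℂ)}
    (h : TensorProduct.piScalarRightHom ℂ ℂ Q (Fin 2) x =
      TensorProduct.piScalarRightHom ℂ ℂ Q (Fin 2) y) : x = y :=
  (TensorProduct.piScalarRight ℂ ℂ Q (Fin 2)).injective h

theorem vec_eq (x : CoL (Fin 2 → ℂ)) : ∃ f₀ f₁ : Q,
    x = f₀ ⊗ₜ[ℂ] Pi.single 0 (1 : ℂ) + f₁ ⊗ₜ[ℂ] Pi.single 1 (1 : ℂ) := by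
  refine ⟨TensorProduct.piScalarRightHom ℂ ℂ Q (Fin 2) x 0,
    TensorProduct.piScalarRightHom ℂ ℂ Q (Fin 2) x 1, vec_ext ?_⟩
  funext i
  fin_cases i <;> simp

theorem m43_tmul (f : Q) : m43 (f ⊗ₜ[ℂ] (1 : ℂ)) =
    pderiv 0 f ⊗ₜ[ℂ] Pi.single 0 (1 : ℂ) + pderiv 1 f ⊗ₜ[ℂ] Pi.single 1 (1 : ℂ) := by
  simp [m43]

theorem m32_tmul (f₀ f₁ : Q) :
    m32 (f₀ ⊗ₜ[ℂ] Pi.single 0 (1 : ℂ) + f₁ ⊗ₜ[ℂ] Pi.single 1 (1 : ℂ)) =
    (pderiv 0 f₁ - pderiv 1 f₀) ⊗ₜ[ℂ] (Polynomial.monomial 0 (1 : ℂ)) := by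
  rw [TensorProduct.sub_tmul]
  simp [m32, sub_eq_add_neg, add_comm]

theorem e_Co {V : Type} [AddCommGroup V] [Module ℂ V] [GL21 V] (i j : Fin 3) (m : CoL V) :
    GL3.e i j m = eCo i j m := rfl

theorem ph_monomial (n : ℕ) (a : ℂ) :
    ph (Polynomial.monomial n a) = Finsupp.single n ((n : ℂ) * a) := by
  have h1 : (Polynomial.monomial n a : Polynomial ℂ) = a • Polynomial.basisMonomials ℂ n := by
    rw [Polynomial.coe_basisMonomials, Polynomial.smul_monomial, smul_eq_mul, mul_one]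
  rw [h1, map_smul, ph, Module.Basis.constr_basis, Finsupp.smul_single, smul_eq_mul, mul_comm]

theorem m43_hom (i j : Fin 3) (m : CoL ℂ) : m43 (GL3.e i j m) = GL3.e i j (m43 m) := by
  rw [e_Co, e_Co]
  induction m using TensorProduct.induction_on with
  | zero => simp
  | add a b ha hb => rw [map_add, map_add, ha, hb, map_add, map_add]
  | tmul f c =>
    apply vec_ext
    funext k
    fin_cases i <;> fin_cases j <;> fin_cases k <;>
      simp [m43, eCo, GL21.e, GL21.c, Derivation.leibniz, pderiv_X, pd_10,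
        MvPolynomial.smul_eq_C_mul] <;> (try simp only [C2_eq]) <;> ring

theorem m32_hom (i j : Fin 3) (m : CoL (Fin 2 → ℂ)) : m32 (GL3.e i j m) = GL3.e i j (m32 m) := by
  have hC3 : (MvPolynomial.C (3 : ℂ) : Q) = 3 := map_ofNat MvPolynomial.C 3
  -- the value on `g ⊗ 1`
  have key : ∀ g : Q, eCo i j (g ⊗ₜ[ℂ] (Polynomial.monomial 0 (1 : ℂ))) =
      ((match i, j with
        | 0, 0 => -(X 0 * pderiv 0 g) - 3 * g
        | 0, 1 => -(X 1 * pderiv 0 g)
        | 1, 0 => -(X 0 * pderiv 1 g)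
        | 1, 1 => -(X 1 * pderiv 1 g) - 3 * g
        | 0, 2 => -pderiv 0 g
        | 1, 2 => -pderiv 1 g
        | 2, 2 => X 0 * pderiv 0 g + X 1 * pderiv 1 g
        | 2, 0 => X 0 * (X 0 * pderiv 0 g + X 1 * pderiv 1 g) + 3 * (X 0 * g)
        | 2, 1 => X 1 * (X 0 * pderiv 0 g + X 1 * pderiv 1 g) + 3 * (X 1 * g) : Q)) ⊗ₜ[ℂ]
        (Polynomial.monomial 0 (1 : ℂ)) := by
    intro g
    have h3 : ∀ f : Q, f ⊗ₜ[ℂ] (Polynomial.C (3 : ℂ)) = (3 * f) ⊗ₜ[ℂ] (1 : Polynomial ℂ) := by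
      intro f
      rw [← hC3, ← MvPolynomial.smul_eq_C_mul, TensorProduct.smul_tmul,
        Polynomial.smul_eq_C_mul, mul_one]
    fin_cases i <;> fin_cases j <;>
      simp [eCo, GL21.e, GL21.c, TensorProduct.add_tmul, TensorProduct.neg_tmul, TensorProduct.tmul_neg,
        Polynomial.smul_eq_C_mul, h3, sub_eq_add_neg]
  rw [e_Co, e_Co]
  obtain ⟨f₀, f₁, rfl⟩ := vec_eq m
  rw [m32_tmul, key]
  obtain ⟨g₀, g₁, hg⟩ := vec_eq (eCo i j
    (f₀ ⊗ₜ[ℂ] (Pi.single 0 (1 : ℂ) : Fin 2 → ℂ) + f₁ ⊗ₜ[ℂ] (Pi.single 1 (1 : ℂ) : Fin 2 → ℂ)))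
  have h2 := congrArg (TensorProduct.piScalarRightHom ℂ ℂ Q (Fin 2)) hg
  have h20 := congrFun h2 0
  have h21 := congrFun h2 1
  rw [hg, m32_tmul]
  congr 1
  fin_cases i <;> fin_cases j <;>
    simp [eCo, GL21.e, GL21.c] at h20 h21 <;>
    rw [← h20, ← h21] <;>
    simp [Derivation.leibniz, pderiv_X, pd_10, MvPolynomial.smul_eq_C_mul] <;>
    (try simp only [C2_eq]) <;> ring

theorem ph_e (i j : Fin 2) (p : Polynomial ℂ) : ph (GL21.e i j p) = GL21.e i j (ph p) := by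
  induction p using Polynomial.induction_on' with
  | add p q hp hq => rw [map_add, map_add, map_add, map_add, hp, hq]
  | monomial n a =>
    rw [ph_monomial]
    have e01 : (GL21.e 0 1 : Polynomial ℂ →ₗ[ℂ] Polynomial ℂ) = -Polynomial.derivative := rfl
    have e10 : (GL21.e 1 0 : Polynomial ℂ →ₗ[ℂ] Polynomial ℂ) =
      LinearMap.mulLeft ℂ (Polynomial.X ^ 2) ∘ₗ Polynomial.derivative := rfl
    have e00 : (GL21.e 0 0 : Polynomial ℂ →ₗ[ℂ] Polynomial ℂ) =
      -(LinearMap.mulLeft ℂ Polynomial.X ∘ₗ Polynomial.derivative) - (3 : ℂ) • LinearMap.id := rfl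
    have e11 : (GL21.e 1 1 : Polynomial ℂ →ₗ[ℂ] Polynomial ℂ) =
      (LinearMap.mulLeft ℂ Polynomial.X ∘ₗ Polynomial.derivative) - (3 : ℂ) • LinearMap.id := rfl
    have d : (GL21.e : Fin 2 → Fin 2 → (ℕ →₀ ℂ) →ₗ[ℂ] (ℕ →₀ ℂ)) = delE := rfl
    rw [d]
    rcases n with _ | n <;> fin_cases i <;> fin_cases j <;>
      simp only [Fin.zero_eta, Fin.mk_one, Fin.isValue, e01, e10, e00, e11,
        delE_01_succ, delE_10, delE_00, delE_11, LinearMap.neg_apply, LinearMap.sub_apply,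
        LinearMap.comp_apply, LinearMap.smul_apply, LinearMap.id_apply,
        LinearMap.mulLeft_apply, Polynomial.derivative_monomial, Polynomial.X_mul_monomial,
        Polynomial.X_pow_mul_monomial, map_neg, map_sub, map_smul, ph_monomial,
        Finsupp.smul_single, ← Finsupp.single_neg, ← Finsupp.single_sub,
        Nat.add_sub_cancel, smul_eq_mul, Nat.cast_zero, mul_zero, zero_mul, neg_zero,
        Finsupp.single_zero, sub_zero, map_zero, smul_zero] <;>
      (try (congr 1; push_cast; ring1))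

theorem m21_hom (i j : Fin 3) (m : CoL (Polynomial ℂ)) :
    m21 (GL3.e i j m) = GL3.e i j (m21 m) := by
  have hc : ∀ p : Polynomial ℂ, ph (GL21.c p) = GL21.c (ph p) := by
    intro p
    simp [GL21.c]
  rw [e_Co, e_Co]
  induction m using TensorProduct.induction_on with
  | zero => simp
  | add a b ha hb => rw [map_add, map_add, ha, hb, map_add, map_add]
  | tmul f p =>
    rw [m21]
    fin_cases i <;> fin_cases j <;> simp [eCo, ph_e, hc]

theorem ex3 : LinearMap.range m43 = LinearMap.ker m32 := by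
  ext x
  rw [LinearMap.mem_range, LinearMap.mem_ker]
  constructor
  · rintro ⟨y, rfl⟩
    induction y using TensorProduct.induction_on with
    | zero => simp
    | add a b ha hb => rw [map_add, map_add, ha, hb, add_zero]
    | tmul f c =>
      rw [tmul_one_smul, m43_tmul, m32_tmul, pd_10, sub_self, TensorProduct.zero_tmul]
  · intro hx
    obtain ⟨f₀, f₁, rfl⟩ := vec_eq x
    rw [m32_tmul] at hx
    have h1 : pderiv 0 f₁ - pderiv 1 f₀ = 0 := by
      have h2 := congrArg ((Polynomial.lcoeff ℂ 0).lTensor Q) hx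
      rw [LinearMap.lTensor_tmul, Polynomial.lcoeff_apply, Polynomial.coeff_monomial_same,
        map_zero] at h2
      have h3 := congrArg (TensorProduct.rid ℂ Q) h2
      simpa using h3
    obtain ⟨g, h0, h1'⟩ := poincare f₀ f₁ (sub_eq_zero.1 h1)
    exact ⟨g ⊗ₜ[ℂ] (1 : ℂ), by rw [m43_tmul, h0, h1']⟩

theorem ph_exact : Function.Exact (Polynomial.monomial 0 : ℂ →ₗ[ℂ] Polynomial ℂ) ph := by
  intro p
  constructor
  · intro hp
    refine ⟨p.coeff 0, ?_⟩
    have h1 : ∀ (q : Polynomial ℂ) (n : ℕ), ph q n = n * q.coeff n := by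
      intro q n
      induction q using Polynomial.induction_on' with
      | add p q hp hq => rw [map_add, Finsupp.add_apply, hp, hq, Polynomial.coeff_add]; ring
      | monomial m a =>
        rw [ph_monomial, Finsupp.single_apply, Polynomial.coeff_monomial]
        split_ifs with h
        · rw [h]
        · simp
    ext n
    rw [Polynomial.coeff_monomial]
    rcases n with _ | n
    · simp
    · have h2 := h1 p (n + 1)
      rw [hp] at h2
      have h3 : ((n + 1 : ℕ) : ℂ) ≠ 0 := by exact_mod_cast Nat.succ_ne_zero n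
      have h4 : p.coeff (n + 1) = 0 := by
        rcases mul_eq_zero.1 h2.symm with h | h
        · exact absurd h h3
        · exact h
      rw [h4, if_neg (by omega)]
  · rintro ⟨a, rfl⟩
    rw [ph_monomial]
    simp

theorem ex2 : LinearMap.range m32 = LinearMap.ker m21 := by
  have hex := Module.Flat.lTensor_exact Q ph_exact
  ext x
  rw [LinearMap.mem_range, LinearMap.mem_ker, m21, hex x]
  constructor
  · rintro ⟨y, rfl⟩
    obtain ⟨f₀, f₁, rfl⟩ := vec_eq y
    rw [m32_tmul]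
    exact ⟨(pderiv 0 f₁ - pderiv 1 f₀) ⊗ₜ[ℂ] (1 : ℂ), by rw [LinearMap.lTensor_tmul]⟩
  · rintro ⟨y, rfl⟩
    obtain ⟨g, rfl⟩ : ∃ g : Q, y = g ⊗ₜ[ℂ] (1 : ℂ) := by
      refine ⟨TensorProduct.rid ℂ Q y, ?_⟩
      apply (TensorProduct.rid ℂ Q).injective
      simp
    refine ⟨(0 : Q) ⊗ₜ[ℂ] Pi.single 0 (1 : ℂ) + intg 0 g ⊗ₜ[ℂ] Pi.single 1 (1 : ℂ), ?_⟩
    rw [m32_tmul, pderiv_intg, map_zero, sub_zero, LinearMap.lTensor_tmul]

end EA58
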