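import Pool.Agent.LibEA58.LMods

/-!
# The maps of the extension, at the level of `gl(3)`-modules

`ℂ[u] ⊗ ℂ → ℂ[u] ⊗ ℂ² → ℂ[u] ⊗ ℂ[t] → ℂ[u] ⊗ Δ_D → M(B) → M(A)`.
-/

open MvPolynomial TensorProduct

namespace EA58

/-- The gradient. -/
noncomputable def m43 : CoL ℂ →ₗ[ℂ] CoL (Fin 2 → ℂ) :=
  TensorProduct.map (dl 0) (LinearMap.single ℂ (fun _ => ℂ) 0) +
    TensorProduct.map (dl 1) (LinearMap.single ℂ (fun _ => ℂ) 1)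

/-- The curl, followed by the inclusion of the constants into `ℂ[t]`. -/
noncomputable def m32 : CoL (Fin 2 → ℂ) →ₗ[ℂ] CoL (Polynomial ℂ) :=
  TensorProduct.map (dl 0) (Polynomial.monomial 0 ∘ₗ LinearMap.proj 1) -
    TensorProduct.map (dl 1) (Polynomial.monomial 0 ∘ₗ LinearMap.proj 0)

/-- `t ^ n ↦ n w_n`. -/
noncomputable def ph : Polynomial ℂ →ₗ[ℂ] (ℕ →₀ ℂ) :=
  (Polynomial.basisMonomials ℂ).constr ℂ (fun n => Finsupp.single n (n : ℂ))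

/-- The map `∇_D → Δ_D`. -/
noncomputable def m21 : CoL (Polynomial ℂ) →ₗ[ℂ] CoL (ℕ →₀ ℂ) := ph.lTensor Q

/-- The rescaling `u ^ a ↦ 2 / (|a| + 2)! u ^ a`. -/
noncomputable def sc : Q →ₗ[ℂ] Q :=
  (MvPolynomial.basisMonomials (Fin 2) ℂ).constr ℂ
    (fun a => MvPolynomial.monomial a (2 / ((a 0 + a 1 + 2).factorial : ℂ)))

/-- The map `ℂ[u] ⊗ Δ_D → M(B)`: `f ⊗ w ↦ w(0) sc(f) (F₀ v₁ - F₁ v₀)`. -/
noncomputable def m10 : CoL (ℕ →₀ ℂ) →ₗ[ℂ] Q × Q :=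
  LinearMap.prod (-(mu 1 ∘ₗ sc)) (mu 0 ∘ₗ sc) ∘ₗ (TensorProduct.rid ℂ Q).toLinearMap ∘ₗ
    (Finsupp.lapply 0).lTensor Q

/-- The map `M(B) → M(A)`: `v_k ↦ F_k`. -/
noncomputable def m0 : (Q × Q) →ₗ[ℂ] Q := LinearMap.coprod (mu 0) (mu 1)

end EA58
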